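import Mathlib

/-!
Basic facts on `C_p(X)`: closures and limits of sequences.
-/

namespace Pool.Agent.V11217.CpBasic

open Set Filter Topology Cardinal

/-- `C_p(X)`: continuous real functions with the topology of pointwise convergence. -/
abbrev Cp (X : Type*) [TopologicalSpace X] : Type _ := {f : X → ℝ // Continuous f}

theorem mem_closure_Cp {X : Type*} [TopologicalSpace X] {S : Set (Cp X)} {y : Cp X} :
    y ∈ closure S ↔ ∀ F : Finset X, ∀ ε : ℝ, 0 < ε → ∃ s ∈ S, ∀ x ∈ F, |s.1 x - y.1 x| < ε := by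
  constructor
  · intro h F ε hε
    have hopen : IsOpen {s : Cp X | ∀ x ∈ F, |s.1 x - y.1 x| < ε} := by
      have : {s : Cp X | ∀ x ∈ F, |s.1 x - y.1 x| < ε} =
          ⋂ x ∈ F, {s : Cp X | |s.1 x - y.1 x| < ε} := by ext; simp
      rw [this]
      refine isOpen_biInter_finset (fun x _ => ?_)
      have hc : Continuous (fun s : Cp X => |s.1 x - y.1 x|) :=
        (((continuous_apply x).comp continuous_subtype_val).sub continuous_const).abs
      exact isOpen_lt hc continuous_const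
    obtain ⟨s, hs1, hs2⟩ := mem_closure_iff.1 h _ hopen (by intro x _; simpa using hε)
    exact ⟨s, hs2, hs1⟩
  · intro h
    rw [mem_closure_iff]
    intro o ho hy
    obtain ⟨O, hO, rfl⟩ := isOpen_induced_iff.1 ho
    obtain ⟨I, u, hu, hI⟩ := isOpen_pi_iff.1 hO y.1 hy
    have : ∀ᶠ ε in 𝓝[>] (0 : ℝ), ∀ a ∈ I, Metric.ball (y.1 a) ε ⊆ u a := by
      rw [Filter.eventually_all_finset]
      intro a ha
      obtain ⟨ε, hε, hb⟩ := Metric.isOpen_iff.1 (hu a ha).1 _ (hu a ha).2
      filter_upwards [Ioo_mem_nhdsGT hε] with δ hδ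
      exact (Metric.ball_subset_ball hδ.2.le).trans hb
    obtain ⟨ε, h1, h2⟩ := (this.and self_mem_nhdsWithin).exists
    obtain ⟨s, hs, hs2⟩ := h I ε h2
    refine ⟨s, hI ?_, hs⟩
    intro a ha
    exact h1 a ha (by rw [Metric.mem_ball, Real.dist_eq]; exact hs2 a ha)

theorem tendsto_Cp {X : Type*} [TopologicalSpace X] {u : ℕ → Cp X} {y : Cp X} :
    Tendsto u atTop (𝓝 y) ↔ ∀ x, Tendsto (fun n => (u n).1 x) atTop (𝓝 (y.1 x)) := by
  rw [tendsto_subtype_rng, tendsto_pi_nhds]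

/-- if `y` is in the closure of the range of an injective sequence but not in the range, then each
basic neighbourhood contains infinitely many terms -/
theorem infinite_close {X : Type*} [TopologicalSpace X] {u : ℕ → Cp X} {y : Cp X}
    (hu : ∀ n, u n ≠ y) (hy : y ∈ closure (Set.range u)) (F : Finset X) {ε : ℝ} (hε : 0 < ε) :
    {n | ∀ x ∈ F, |(u n).1 x - y.1 x| < ε}.Infinite := by
  intro hfin
  have h1 : Set.range u ⊆ u '' {n | ∀ x ∈ F, |(u n).1 x - y.1 x| < ε} ∪
      u '' {n | ¬ ∀ x ∈ F, |(u n).1 x - y.1 x| < ε} := by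
    rintro _ ⟨n, rfl⟩
    by_cases h : ∀ x ∈ F, |(u n).1 x - y.1 x| < ε
    · exact Or.inl ⟨n, h, rfl⟩
    · exact Or.inr ⟨n, h, rfl⟩
  have h2 := closure_mono h1 hy
  rw [closure_union] at h2
  rcases h2 with h2 | h2
  · rw [(hfin.image u).isClosed.closure_eq] at h2
    obtain ⟨n, -, hn⟩ := h2
    exact hu n hn
  · obtain ⟨s, ⟨n, hn, rfl⟩, hs2⟩ := mem_closure_Cp.1 h2 F ε hε
    exact hn hs2

end Pool.Agent.V11217.CpBasic
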