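import Mathlib
import Pool.Agent.V11217.CpBasic

namespace Pool.Agent.V11217.CpPart2

open Set Filter Topology Cardinal
open Pool.Agent.V11217.CpBasic

/-- the `F`-closure -/
def FClosure {Y : Type*} [TopologicalSpace Y] (A : Set Y) : Set Y :=
  {y | y ∈ closure A ∧ ∀ A' ⊆ A, y ∈ closure A' →
    ∃ u : ℕ → Y, (∀ n, u n ∈ A') ∧ Tendsto u atTop (𝓝 y)}

/-- `Y` is `F`-separable -/
def FSeparable (Y : Type*) [TopologicalSpace Y] : Prop :=
  ∃ A : Set Y, A.Countable ∧ FClosure A = Set.univ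

/-- Question 1 -/
def Q1 : Prop := ∀ (X : Type) [TopologicalSpace X] [T35Space X],
  FSeparable (Cp X) → FrechetUrysohnSpace (Cp X)

/-- strong finite intersection property -/
def SFIP (𝒢 : Set (Set ℕ)) : Prop := ∀ s ⊆ 𝒢, s.Finite → (⋂₀ s).Infinite

/-- infinite pseudo-intersection -/
def HasPseudo (𝒢 : Set (Set ℕ)) : Prop := ∃ P : Set ℕ, P.Infinite ∧ ∀ G ∈ 𝒢, (P \ G).Finite

/-- the pseudo-intersection number -/
noncomputable def pNumber : Cardinal.{0} :=
  sInf {κ | ∃ 𝒢 : Set (Set ℕ), SFIP 𝒢 ∧ ¬ HasPseudo 𝒢 ∧ #𝒢 = κ}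

theorem exists_pseudo (h : ℵ₁ < pNumber) {ι : Type} (hι : #ι ≤ ℵ₁) (G : ι → Set ℕ)
    (hG : ∀ s : Set ι, s.Finite → (⋂ i ∈ s, G i).Infinite) :
    ∃ P : Set ℕ, P.Infinite ∧ ∀ i, (P \ G i).Finite := by
  by_contra hcon
  have h1 : pNumber ≤ #(Set.range G) := by
    refine csInf_le' ⟨Set.range G, ?_, ?_, rfl⟩
    · intro s hs hfin
      have h0 : ∀ g : s, ∃ i, G i = g := fun g => hs g.2
      choose r hr using h0
      have := hfin.to_subtype
      refine (hG (Set.range r) (Set.finite_range r)).mono ?_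
      intro n hn g hg
      have := mem_iInter₂.1 hn (r ⟨g, hg⟩) ⟨_, rfl⟩
      rw [hr] at this
      exact this
    · rintro ⟨P, hP, hP2⟩
      exact hcon ⟨P, hP, fun i => hP2 _ ⟨i, rfl⟩⟩
  have h2 : #(Set.range G) ≤ #ι := Cardinal.mk_range_le
  exact absurd (h.trans_le (h1.trans (h2.trans hι))) (lt_irrefl _)

theorem exists_dense (X : Type) [TopologicalSpace X] [DiscreteTopology X] (hX : #X = ℵ₁) :
    ∃ A : Set (Cp X), A.Countable ∧ ∀ y : Cp X, y ∈ closure A := by
  have hle : #X ≤ #(ℕ → Bool) := by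
    rw [hX]
    have : #(ℕ → Bool) = 𝔠 := by simp
    rw [this]
    exact Cardinal.aleph_one_le_continuum
  obtain ⟨e⟩ := Cardinal.le_def _ _ |>.1 hle
  let Φ : (Σ n : ℕ, ((Fin n → Bool) → ℚ)) → Cp X := fun p =>
    ⟨fun x => ((p.2 (fun i => e x i) : ℚ) : ℝ), continuous_of_discreteTopology⟩
  refine ⟨Set.range Φ, countable_range Φ, fun y => ?_⟩
  rw [mem_closure_Cp]
  intro F ε hε
  have h1 : ∀ᶠ n in atTop, ∀ x ∈ F, ∀ x' ∈ F, (∀ i < n, e x i = e x' i) → x = x' := by
    rw [Filter.eventually_all_finset]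
    intro x _
    rw [Filter.eventually_all_finset]
    intro x' _
    by_cases hxx : x = x'
    · exact Eventually.of_forall (fun n _ => hxx)
    · have : ∃ i, e x i ≠ e x' i := by
        by_contra hcon
        push Not at hcon
        exact hxx (e.injective (funext hcon))
      obtain ⟨i, hi⟩ := this
      filter_upwards [eventually_gt_atTop i] with n hn h
      exact absurd (h i hn) hi
  obtain ⟨n, hn⟩ := h1.exists
  have hq : ∀ x : X, ∃ q : ℚ, |(q : ℝ) - y.1 x| < ε := by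
    intro x
    obtain ⟨q, hq1, hq2⟩ := exists_rat_btwn (show y.1 x - ε < y.1 x by linarith)
    exact ⟨q, by rw [abs_lt]; constructor <;> linarith⟩
  choose q hq using hq
  classical
  refine ⟨Φ ⟨n, fun s => if h : ∃ x ∈ F, (fun i : Fin n => e x i) = s then q h.choose else 0⟩,
    ⟨_, rfl⟩, fun x hx => ?_⟩
  have hex : ∃ x' ∈ F, (fun i : Fin n => e x' i) = (fun i : Fin n => e x i) := ⟨x, hx, rfl⟩
  have hch : hex.choose = x := by
    refine hn _ hex.choose_spec.1 _ hx ?_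
    intro i hi
    exact congrFun hex.choose_spec.2 ⟨i, hi⟩
  show |(((if h : ∃ x' ∈ F, (fun i : Fin n => e x' i) = (fun i : Fin n => e x i) then
    q h.choose else 0 : ℚ)) : ℝ) - y.1 x| < ε
  rw [dif_pos hex, hch]
  exact hq x

theorem fSeparable_discrete (h : ℵ₁ < pNumber) (X : Type) [TopologicalSpace X]
    [DiscreteTopology X] (hX : #X = ℵ₁) : FSeparable (Cp X) := by
  classical
  obtain ⟨A, hA, hdense⟩ := exists_dense X hX
  refine ⟨A, hA, ?_⟩
  rw [eq_univ_iff_forall]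
  intro y
  refine ⟨hdense y, fun A' hA' hy => ?_⟩
  by_cases hyA : y ∈ A'
  · exact ⟨fun _ => y, fun _ => hyA, tendsto_const_nhds⟩
  have hne : A'.Nonempty := closure_nonempty_iff.1 ⟨y, hy⟩
  obtain ⟨u, hu⟩ := (hA.mono hA').exists_eq_range hne
  have huy : ∀ n, u n ≠ y := fun n hn => hyA (by rw [hu, ← hn]; exact ⟨n, rfl⟩)
  rw [hu] at hy
  have hcard : #(X × ℕ) ≤ ℵ₁ := by
    rw [Cardinal.mk_prod, hX]
    simp
  obtain ⟨P, hP, hP2⟩ := exists_pseudo h hcard
    (fun p => {n | |(u n).1 p.1 - y.1 p.1| < 1 / ((p.2 : ℝ) + 1)}) (by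
      intro s hs
      obtain ⟨K, hK⟩ := (hs.image Prod.snd).bddAbove
      refine (infinite_close huy hy (hs.toFinset.image Prod.fst)
        (ε := 1 / ((K : ℝ) + 1)) (by positivity)).mono ?_
      intro n hn
      rw [mem_iInter₂]
      intro p hp
      have h1 := hn p.1 (Finset.mem_image_of_mem _ (hs.mem_toFinset.2 hp))
      refine lt_of_lt_of_le h1 ?_
      have h2 : p.2 ≤ K := hK (mem_image_of_mem _ hp)
      apply one_div_le_one_div_of_le (by positivity)
      have : (p.2 : ℝ) ≤ K := by exact_mod_cast h2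
      linarith)
  refine ⟨fun j => u (Nat.nth (· ∈ P) j), fun j => by rw [hu]; exact ⟨_, rfl⟩, ?_⟩
  rw [tendsto_Cp]
  intro x
  rw [Metric.tendsto_atTop]
  intro ε hε
  obtain ⟨k, hk⟩ := exists_nat_one_div_lt hε
  obtain ⟨N, hN⟩ := (hP2 (x, k)).bddAbove
  refine ⟨N + 1, fun j hj => ?_⟩
  have hmem : Nat.nth (· ∈ P) j ∈ P := Nat.nth_mem_of_infinite hP j
  have hge : j ≤ Nat.nth (· ∈ P) j := (Nat.nth_strictMono hP).id_le j
  have : Nat.nth (· ∈ P) j ∈ {n | |(u n).1 x - y.1 x| < 1 / ((k : ℝ) + 1)} := by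
    by_contra hcon
    have := hN ⟨hmem, hcon⟩
    omega
  rw [Real.dist_eq]
  exact lt_trans this hk

theorem not_frechet (X : Type) [TopologicalSpace X] [DiscreteTopology X] (hX : #X = ℵ₁) :
    ¬ FrechetUrysohnSpace (Cp X) := by
  intro hF
  classical
  let S : Set (Cp X) := Set.range (fun F : Finset X =>
    (⟨fun x => if x ∈ F then 1 else 0, continuous_of_discreteTopology⟩ : Cp X))
  let y : Cp X := ⟨fun _ => 1, continuous_const⟩
  have hy : y ∈ closure S := by
    rw [mem_closure_Cp]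
    intro F ε hε
    refine ⟨_, ⟨F, rfl⟩, fun x hx => ?_⟩
    simp [y, hx, hε]
  obtain ⟨u, hu, hlim⟩ := mem_closure_iff_seq_limit.1 hy
  choose F hF using hu
  have hc : (⋃ n, (F n : Set X)).Countable := countable_iUnion (fun n => (F n).countable_toSet)
  have : ∃ x, x ∉ ⋃ n, (F n : Set X) := by
    by_contra hcon
    push Not at hcon
    have h1 : (Set.univ : Set X).Countable := hc.mono (fun x _ => hcon x)
    rw [← Cardinal.le_aleph0_iff_set_countable, Cardinal.mk_univ, hX] at h1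
    exact absurd h1 (not_le.2 Cardinal.aleph0_lt_aleph_one)
  obtain ⟨x, hx⟩ := this
  have h1 := tendsto_Cp.1 hlim x
  have h2 : (fun n => (u n).1 x) = fun _ => (0 : ℝ) := by
    funext n
    have : x ∉ F n := fun h => hx (mem_iUnion.2 ⟨n, h⟩)
    rw [← hF n]
    simp [this]
  rw [h2] at h1
  have := tendsto_nhds_unique h1 tendsto_const_nhds
  simp [y] at this

theorem part2 (h : ℵ₁ < pNumber) : ¬ Q1 := by
  intro hQ
  let X : Type := Quotient.out (ℵ₁ : Cardinal.{0})
  have hX : #X = ℵ₁ := Cardinal.mk_out _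
  letI : TopologicalSpace X := ⊥
  haveI : DiscreteTopology X := ⟨rfl⟩
  exact not_frechet X hX (hQ X (fSeparable_discrete h X hX))

end Pool.Agent.V11217.CpPart2
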