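import Mathlib
import Pool.Agent.V11217.CpBasic
import Pool.Agent.V11217.CpPart2

namespace Pool.Agent.V11217.CpPart1

open Set Filter Topology Cardinal
open Pool.Agent.V11217.CpBasic Pool.Agent.V11217.CpPart2

/-- the bounding number -/
noncomputable def bNumber : Cardinal.{0} :=
  sInf {κ | ∃ F : Set (ℕ → ℕ), (¬ ∃ g : ℕ → ℕ, ∀ f ∈ F, ∀ᶠ n in atTop, f n ≤ g n) ∧ #F = κ}

/-- strong measure zero sets of reals -/
def StrongMeasureZero (S : Set ℝ) : Prop :=
  ∀ ε : ℕ → ℝ, (∀ n, 0 < ε n) →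
    ∃ a b : ℕ → ℝ, (∀ n, b n - a n < ε n) ∧ S ⊆ ⋃ n, Ioo (a n) (b n)

theorem bNumber_le_continuum : bNumber ≤ 𝔠 := by
  refine csInf_le' ⟨Set.univ, ?_, by simp⟩
  rintro ⟨g, hg⟩
  obtain ⟨n, hn⟩ := (hg (fun n => g n + 1) (mem_univ _)).exists
  omega

theorem exists_bound (h : ℵ₁ < bNumber) {Z I : Type} [Countable I] (hZ : #Z ≤ ℵ₁)
    (m : Z → I → ℕ) : ∃ M : I → ℕ, ∀ z, {i | M i < m z i}.Finite := by
  obtain ⟨enc, henc⟩ := exists_injective_nat I
  let f : Z → ℕ → ℕ := fun z => Function.extend enc (m z) 0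
  have hb : ∃ g : ℕ → ℕ, ∀ f' ∈ Set.range f, ∀ᶠ n in atTop, f' n ≤ g n := by
    by_contra hcon
    have h1 : bNumber ≤ #(Set.range f) := csInf_le' ⟨_, hcon, rfl⟩
    exact absurd (h.trans_le (h1.trans (Cardinal.mk_range_le.trans hZ))) (lt_irrefl _)
  obtain ⟨g, hg⟩ := hb
  refine ⟨fun i => g (enc i), fun z => ?_⟩
  obtain ⟨N, hN⟩ := eventually_atTop.1 (hg _ ⟨z, rfl⟩)
  refine ((Set.finite_Iio N).preimage henc.injOn).subset ?_
  intro i hi
  show enc i < N
  by_contra hcon
  have h1 := hN (enc i) (not_lt.1 hcon)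
  have h2 : f z (enc i) = m z i := henc.extend_apply _ _ _
  rw [h2] at h1
  exact absurd hi (not_lt.2 h1)

theorem exists_radius (ε : ℕ → ℝ) (hε : ∀ n, 0 < ε n) (k : ℕ) :
    ∃ ρ : ℝ, 0 < ρ ∧ ∀ p < k, 2 * ρ < ε (Nat.pair k p) := by
  have : ∀ᶠ ρ in 𝓝[>] (0 : ℝ), ∀ p ∈ Finset.range k, 2 * ρ < ε (Nat.pair k p) := by
    rw [Filter.eventually_all_finset]
    intro p _
    filter_upwards [Ioo_mem_nhdsGT (half_pos (hε (Nat.pair k p)))] with ρ hρ
    linarith [hρ.2]
  obtain ⟨ρ, h1, h2⟩ := (this.and self_mem_nhdsWithin).exists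
  exact ⟨ρ, h2, fun p hp => h1 p (Finset.mem_range.2 hp)⟩

theorem prod_le_factor {ι : Type*} {J : Finset ι} {f : ι → ℝ} (h0 : ∀ i, 0 ≤ f i)
    (h1 : ∀ i, f i ≤ 1) {i : ι} (hi : i ∈ J) : ∏ j ∈ J, f j ≤ f i := by
  classical
  rw [← Finset.mul_prod_erase J f hi]
  calc f i * ∏ j ∈ J.erase i, f j ≤ f i * 1 :=
        mul_le_mul_of_nonneg_left (Finset.prod_le_one (fun j _ => h0 j) (fun j _ => h1 j)) (h0 i)
    _ = f i := mul_one _

theorem smz_of_fdense (h : ℵ₁ < bNumber) {X : Type} [TopologicalSpace X] {A : Set (Cp X)}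
    (hF : FClosure A = Set.univ) {Z : Set X} (hZ : #Z ≤ ℵ₁) (hinf : Z.Infinite) {g : X → ℝ}
    (hg : Continuous g) (hinj : InjOn g Z) : StrongMeasureZero (g '' Z) := by
  classical
  intro ε hε
  -- a sequence of points of `Z`
  let x : ℕ → X := fun k => (hinf.natEmbedding Z k : Z)
  have hxZ : ∀ k, x k ∈ Z := fun k => (hinf.natEmbedding Z k).2
  have hgx : Function.Injective (fun k => g (x k)) := by
    intro k l hkl
    exact (hinf.natEmbedding Z).injective (Subtype.ext (hinj (hxZ k) (hxZ l) hkl))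
  choose ρ hρ0 hρ using exists_radius ε hε
  let I := {i : ℕ × Finset ℚ × ℕ // i.2.1.card ≤ i.1}
  -- the test functions
  let fac : I → X → ℚ → ℝ := fun i z c => min 1 (|g z - (c : ℝ)| / ρ i.1.1)
  have hfac0 : ∀ i z c, 0 ≤ fac i z c := fun i z c =>
    le_min zero_le_one (div_nonneg (abs_nonneg _) (hρ0 _).le)
  have hfac1 : ∀ i z c, fac i z c ≤ 1 := fun i z c => min_le_left _ _
  let bf : I → X → ℝ := fun i z => max (∏ c ∈ i.1.2.1, fac i z c)
    (max 0 (1 - (i.1.2.2 : ℝ) * |g z - g (x i.1.1)|))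
  have hbc : ∀ i, Continuous (bf i) := by
    intro i
    refine Continuous.max (continuous_finset_prod _ (fun c _ => ?_)) ?_
    · exact continuous_const.min (((hg.sub continuous_const).abs).div_const _)
    · exact continuous_const.max (continuous_const.sub (continuous_const.mul
        (hg.sub continuous_const).abs))
  let b : I → Cp X := fun i => ⟨bf i, hbc i⟩
  have hb1 : ∀ i : I, bf i (x i.1.1) = 1 := by
    intro i
    have h1 : ∏ c ∈ i.1.2.1, fac i (x i.1.1) c ≤ 1 :=
      Finset.prod_le_one (fun c _ => hfac0 _ _ c) (fun c _ => hfac1 _ _ c)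
    show max (∏ c ∈ i.1.2.1, fac i (x i.1.1) c)
      (max 0 (1 - (i.1.2.2 : ℝ) * |g (x i.1.1) - g (x i.1.1)|)) = 1
    rw [sub_self, abs_zero, mul_zero, sub_zero, max_eq_right (zero_le_one (α := ℝ)),
      max_eq_right h1]
  have hseq : ∀ i, ∃ a : ℕ → Cp X, (∀ n, a n ∈ A) ∧ Tendsto a atTop (𝓝 (b i)) := by
    intro i
    have h1 : b i ∈ FClosure A := by rw [hF]; trivial
    exact h1.2 A subset_rfl h1.1
  choose a haA halim using hseq
  obtain ⟨enc, henc⟩ := exists_injective_nat I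
  have hm : ∀ (z : Z) (i : I), ∃ m : ℕ, ∀ n, m ≤ n →
      |(a i n).1 z - bf i z| < 1 / ((enc i : ℝ) + 1) := by
    intro z i
    have h1 := tendsto_Cp.1 (halim i) z
    rw [Metric.tendsto_atTop] at h1
    obtain ⟨m, hm⟩ := h1 (1 / ((enc i : ℝ) + 1)) (by positivity)
    exact ⟨m, fun n hn => by have := hm n hn; rwa [Real.dist_eq] at this⟩
  choose m hm using hm
  have hm0 : ∀ i : I, ∃ m : ℕ, ∀ n, m ≤ n → 1 / 2 < (a i n).1 (x i.1.1) := by
    intro i
    have h1 := tendsto_Cp.1 (halim i) (x i.1.1)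
    have h2 : (b i).1 (x i.1.1) = 1 := hb1 i
    rw [h2] at h1
    exact eventually_atTop.1 (h1.eventually (lt_mem_nhds (by norm_num)))
  choose m0 hm0 using hm0
  obtain ⟨M, hM⟩ := exists_bound h hZ m
  let A' : Set (Cp X) := {f | ∃ i n, M i ≤ n ∧ m0 i ≤ n ∧ f = a i n}
  let zf : Cp X := ⟨fun _ => 0, continuous_const⟩
  have hA'A : A' ⊆ A := by
    rintro f ⟨i, n, -, -, rfl⟩
    exact haA i n
  have hcl : zf ∈ closure A' := by
    rw [mem_closure_Cp]
    intro F δ hδ
    -- choose k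
    have hfin : {k | g (x k) ∈ g '' (F : Set X)}.Finite :=
      (F.finite_toSet.image g).preimage hgx.injOn
    obtain ⟨k, hk1, hk2⟩ : ∃ k, F.card ≤ k ∧ g (x k) ∉ g '' (F : Set X) := by
      obtain ⟨N, hN⟩ := hfin.bddAbove
      refine ⟨max F.card (N + 1), le_max_left _ _, fun hcon => ?_⟩
      have := hN hcon
      have := le_max_right F.card (N + 1)
      omega
    have hq : ∀ z : X, ∃ q : ℚ, |g z - (q : ℝ)| < ρ k * (δ / 2) := by
      intro z
      have hpos : 0 < ρ k * (δ / 2) := mul_pos (hρ0 k) (half_pos hδ)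
      obtain ⟨q, hq1, hq2⟩ := exists_rat_btwn (show g z - ρ k * (δ / 2) < g z by linarith)
      exact ⟨q, by rw [abs_lt]; constructor <;> linarith⟩
    choose q hq using hq
    have hMn : ∀ᶠ n : ℕ in atTop, ∀ z ∈ F, 1 ≤ (n : ℝ) * |g z - g (x k)| := by
      rw [Filter.eventually_all_finset]
      intro z hz
      have hpos : 0 < |g z - g (x k)| := by
        rw [abs_pos, sub_ne_zero]
        intro heq
        exact hk2 ⟨z, hz, heq⟩
      have h1 := tendsto_natCast_atTop_atTop (R := ℝ) |>.atTop_mul_const hpos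
      exact h1.eventually_ge_atTop 1
    obtain ⟨Mn, hMn⟩ := hMn.exists
    have hcard : (F.image q).card ≤ k := Finset.card_image_le.trans hk1
    let i : I := ⟨(k, F.image q, Mn), hcard⟩
    have hbi : ∀ z ∈ F, |bf i z| < δ / 2 := by
      intro z hz
      have h1 : ∏ c ∈ i.1.2.1, fac i z c ≤ fac i z (q z) :=
        prod_le_factor (hfac0 i z) (hfac1 i z) (Finset.mem_image_of_mem q hz)
      have h2 : fac i z (q z) < δ / 2 := by
        refine lt_of_le_of_lt (min_le_right _ _) ?_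
        rw [div_lt_iff₀ (hρ0 _)]
        have := hq z
        show |g z - (q z : ℝ)| < δ / 2 * ρ k
        linarith
      have h3 : max 0 (1 - (i.1.2.2 : ℝ) * |g z - g (x i.1.1)|) = 0 := by
        apply max_eq_left
        have := hMn z hz
        show 1 - (Mn : ℝ) * |g z - g (x k)| ≤ 0
        linarith
      have h4 : 0 ≤ bf i z := le_max_of_le_right (le_max_left _ _)
      rw [abs_of_nonneg h4]
      show max (∏ c ∈ i.1.2.1, fac i z c)
        (max 0 (1 - (i.1.2.2 : ℝ) * |g z - g (x i.1.1)|)) < δ / 2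
      rw [h3]
      exact max_lt (h1.trans_lt h2) (half_pos hδ)
    have hn : ∀ᶠ n in atTop, ∀ z ∈ F, |(a i n).1 z - bf i z| < δ / 2 := by
      rw [Filter.eventually_all_finset]
      intro z _
      have h1 := tendsto_Cp.1 (halim i) z
      rw [Metric.tendsto_atTop] at h1
      obtain ⟨n0, hn0⟩ := h1 (δ / 2) (half_pos hδ)
      filter_upwards [eventually_ge_atTop n0] with n hn
      have := hn0 n hn
      rwa [Real.dist_eq] at this
    obtain ⟨n, ⟨hn1, hn2⟩, hn3⟩ :=
      ((hn.and (eventually_ge_atTop (M i))).and (eventually_ge_atTop (m0 i))).exists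
    refine ⟨a i n, ⟨i, n, hn2, hn3, rfl⟩, fun z hz => ?_⟩
    show |(a i n).1 z - 0| < δ
    rw [sub_zero]
    have h5 := hn1 z hz
    have h6 := hbi z hz
    have h7 : |(a i n).1 z| ≤ |(a i n).1 z - bf i z| + |bf i z| := by
      have := abs_add_le ((a i n).1 z - bf i z) (bf i z)
      rwa [sub_add_cancel] at this
    linarith
  have h0 : zf ∈ FClosure A := by rw [hF]; trivial
  obtain ⟨u, huA, hulim⟩ := h0.2 A' hA'A hcl
  choose i n hMn hm0n hu using huA
  have hulim' : ∀ z : X, Tendsto (fun j => (u j).1 z) atTop (𝓝 0) := fun z =>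
    tendsto_Cp.1 hulim z
  -- the first indices tend to infinity
  have hk : ∀ k, ∀ᶠ j in atTop, (i j).1.1 ≠ k := by
    intro k
    have h1 := (hulim' (x k)).eventually (gt_mem_nhds (show (0 : ℝ) < 1 / 2 by norm_num))
    filter_upwards [h1] with j hj hkj
    have h2 := hm0 (i j) (n j) (hm0n j)
    rw [hkj, ← hu j] at h2
    exact absurd hj (not_lt.2 h2.le)
  have hkinf : ∀ K, ∀ᶠ j in atTop, K < (i j).1.1 := by
    intro K
    have : ∀ᶠ j in atTop, ∀ k ∈ Finset.range (K + 1), (i j).1.1 ≠ k := by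
      rw [Filter.eventually_all_finset]
      exact fun k _ => hk k
    filter_upwards [this] with j hj
    by_contra hcon
    exact hj _ (Finset.mem_range.2 (by omega)) rfl
  have hTfin : ∀ T : Set I, T.Finite → ∀ᶠ j in atTop, i j ∉ T := by
    intro T hT
    obtain ⟨K, hK⟩ := (hT.image (fun t : I => t.1.1)).bddAbove
    filter_upwards [hkinf K] with j hj hcon
    have := hK (mem_image_of_mem _ hcon)
    omega
  have hcov : ∀ z ∈ Z, ∀ᶠ j in atTop, ∃ c ∈ (i j).1.2.1, |g z - (c : ℝ)| < ρ (i j).1.1 := by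
    intro z hz
    have h1 := hTfin _ (hM ⟨z, hz⟩)
    have h2 := hTfin {t | enc t < 1} ((Set.finite_Iio 1).preimage henc.injOn)
    have h3 := (hulim' z).eventually (gt_mem_nhds (show (0 : ℝ) < 1 / 2 by norm_num))
    filter_upwards [h1, h2, h3] with j hj1 hj2 hj3
    have h4 := hm ⟨z, hz⟩ (i j) (n j) ((not_lt.1 hj1).trans (hMn j))
    rw [← hu j] at h4
    have h5 : (1 : ℝ) / ((enc (i j) : ℝ) + 1) ≤ 1 / 2 := by
      apply one_div_le_one_div_of_le (by norm_num)
      have : 1 ≤ enc (i j) := not_lt.1 hj2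
      have : (1 : ℝ) ≤ (enc (i j) : ℝ) := by exact_mod_cast this
      linarith
    have h6 : bf (i j) z < 1 := by
      have h7 := (abs_lt.1 h4).1
      simp only at h7
      linarith
    have h8 : ∏ c ∈ (i j).1.2.1, fac (i j) z c < 1 := lt_of_le_of_lt (le_max_left _ _) h6
    by_contra hcon
    push Not at hcon
    have h9 : ∏ c ∈ (i j).1.2.1, fac (i j) z c = 1 := by
      refine Finset.prod_eq_one (fun c hc => ?_)
      refine min_eq_left ?_
      rw [le_div_iff₀ (hρ0 _), one_mul]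
      exact hcon c hc
    exact absurd h8 (by rw [h9]; exact lt_irrefl _)
  -- the covering intervals
  let sel : ℕ → ℕ := fun k => if hh : ∃ j, (i j).1.1 = k then hh.choose else 0
  have hsel : ∀ k, (∃ j, (i j).1.1 = k) → (i (sel k)).1.1 = k := by
    intro k hh
    show (i (if hh : ∃ j, (i j).1.1 = k then hh.choose else 0)).1.1 = k
    rw [dif_pos hh]
    exact hh.choose_spec
  let ctr : ℕ → ℝ := fun s =>
    (((i (sel s.unpair.1)).1.2.1.toList.getD s.unpair.2 0 : ℚ) : ℝ)
  let rad : ℕ → ℝ := fun s => if s.unpair.2 < s.unpair.1 then ρ s.unpair.1 else ε s / 4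
  refine ⟨fun s => ctr s - rad s, fun s => ctr s + rad s, fun s => ?_, ?_⟩
  · have : (ctr s + rad s) - (ctr s - rad s) = 2 * rad s := by ring
    simp only
    rw [this]
    show 2 * (if s.unpair.2 < s.unpair.1 then ρ s.unpair.1 else ε s / 4) < ε s
    split_ifs with hlt
    · have := hρ s.unpair.1 s.unpair.2 hlt
      rwa [Nat.pair_unpair] at this
    · linarith [hε s]
  · rintro _ ⟨z, hz, rfl⟩
    obtain ⟨j0, hj0⟩ := eventually_atTop.1 (hcov z hz)
    obtain ⟨K, hK⟩ := ((Set.finite_Iio j0).image (fun j => (i j).1.1)).bddAbove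
    obtain ⟨j1, hj1⟩ := (hkinf K).exists
    set k := (i j1).1.1 with hkdef
    have hks := hsel k ⟨j1, rfl⟩
    have hge : j0 ≤ sel k := by
      by_contra hcon
      have := hK (mem_image_of_mem (fun j => (i j).1.1) (show sel k ∈ Set.Iio j0 from
        not_le.1 hcon))
      rw [hks] at this
      omega
    obtain ⟨c, hc, hcz⟩ := hj0 (sel k) hge
    rw [hks] at hcz
    obtain ⟨p, hp, hpc⟩ := List.getElem_of_mem (Finset.mem_toList.2 hc)
    have hplt : p < k := by
      rw [Finset.length_toList] at hp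
      have := (i (sel k)).2
      rw [hks] at this
      omega
    refine mem_iUnion.2 ⟨Nat.pair k p, ?_⟩
    have hctr : ctr (Nat.pair k p) = (c : ℝ) := by
      show (((i (sel (Nat.pair k p).unpair.1)).1.2.1.toList.getD
        (Nat.pair k p).unpair.2 0 : ℚ) : ℝ) = c
      rw [Nat.unpair_pair]
      simp only
      rw [List.getD_eq_getElem _ _ hp, hpc]
    have hrad : rad (Nat.pair k p) = ρ k := by
      show (if (Nat.pair k p).unpair.2 < (Nat.pair k p).unpair.1 then
        ρ (Nat.pair k p).unpair.1 else ε (Nat.pair k p) / 4) = ρ k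
      rw [Nat.unpair_pair]
      simp only
      rw [if_pos hplt]
    show g z ∈ Ioo (ctr (Nat.pair k p) - rad (Nat.pair k p))
      (ctr (Nat.pair k p) + rad (Nat.pair k p))
    rw [hctr, hrad]
    have := abs_lt.1 hcz
    constructor <;> linarith

end Pool.Agent.V11217.CpPart1
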