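import Mathlib

/-!
Zeros of power series with bounded coefficients, and injective combinations of `ℵ₁` many points.
-/

namespace Pool.Agent.V11217.CpPower

open Set Filter Topology Cardinal

theorem summable_aux {d : ℕ → ℝ} (hd : ∀ n, |d n| ≤ 4) {t : ℝ} (ht : t ∈ Ioo (0 : ℝ) (1/2)) :
    Summable (fun n => d n * t ^ n) := by
  refine Summable.of_norm_bounded (g := fun n => 4 * t ^ n)
    ((summable_geometric_of_lt_one ht.1.le (by linarith [ht.2])).mul_left 4) (fun n => ?_)
  rw [norm_mul, norm_pow, Real.norm_eq_abs, Real.norm_eq_abs, abs_of_pos ht.1]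
  exact mul_le_mul_of_nonneg_right (hd n) (pow_nonneg ht.1.le n)

theorem coeff_zero {d : ℕ → ℝ} (hd : ∀ n, |d n| ≤ 4)
    (h : ∀ t ∈ Ioo (0 : ℝ) (1/2), ∑' n, d n * t ^ n = 0) : d 0 = 0 := by
  have key : ∀ t ∈ Ioo (0 : ℝ) (1/2), |d 0| ≤ 8 * t := by
    intro t ht
    have hs := summable_aux hd ht
    have h1 := hs.tsum_eq_zero_add
    rw [h t ht] at h1
    simp only [pow_zero, mul_one] at h1
    have h2 : d 0 = - ∑' n, d (n + 1) * t ^ (n + 1) := by linarith
    rw [h2, abs_neg]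
    have hg : Summable (fun n : ℕ => (4 * t) * t ^ n) :=
      (summable_geometric_of_lt_one ht.1.le (by linarith [ht.2])).mul_left _
    have h3 : ‖∑' n, d (n + 1) * t ^ (n + 1)‖ ≤ ∑' n : ℕ, (4 * t) * t ^ n := by
      refine tsum_of_norm_bounded hg.hasSum (fun n => ?_)
      rw [norm_mul, norm_pow, Real.norm_eq_abs, Real.norm_eq_abs, abs_of_pos ht.1, pow_succ]
      have := mul_le_mul_of_nonneg_right (hd (n + 1)) (mul_nonneg (pow_nonneg ht.1.le n) ht.1.le)
      linarith
    rw [tsum_mul_left, tsum_geometric_of_lt_one ht.1.le (by linarith [ht.2])] at h3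
    rw [Real.norm_eq_abs] at h3
    refine h3.trans ?_
    have h4 : (1 - t)⁻¹ ≤ 2 := by
      rw [inv_le_comm₀ (by linarith [ht.2]) (by norm_num)]
      linarith [ht.2]
    nlinarith [ht.1, ht.2]
  by_contra hne
  have hpos : 0 < |d 0| := abs_pos.2 hne
  have ht : min (1/4) (|d 0| / 16) ∈ Ioo (0 : ℝ) (1/2) :=
    ⟨by positivity, lt_of_le_of_lt (min_le_left _ _) (by norm_num)⟩
  have := key _ ht
  have h5 : min (1/4) (|d 0| / 16) ≤ |d 0| / 16 := min_le_right _ _
  linarith

theorem all_zero : ∀ (n : ℕ) {d : ℕ → ℝ} (_ : ∀ n, |d n| ≤ 4)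
    (_ : ∀ t ∈ Ioo (0 : ℝ) (1/2), ∑' n, d n * t ^ n = 0), d n = 0 := by
  intro n
  induction n with
  | zero => intro d hd h; exact coeff_zero hd h
  | succ n ih =>
    intro d hd h
    refine ih (d := fun n => d (n + 1)) (fun n => hd (n + 1)) ?_
    intro t ht
    have h0 := coeff_zero hd h
    have hs := summable_aux hd ht
    have h1 := hs.tsum_eq_zero_add
    rw [h t ht, h0] at h1
    simp only [zero_mul, zero_add] at h1
    have h2 : (fun n => d (n + 1) * t ^ (n + 1)) = fun n => t * (d (n + 1) * t ^ n) := by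
      funext n; ring
    rw [h2, tsum_mul_left] at h1
    rcases mul_eq_zero.1 h1.symm with h3 | h3
    · exact absurd h3 ht.1.ne'
    · exact h3

theorem countable_zeros {d : ℕ → ℝ} (hd : ∀ n, |d n| ≤ 4) (hne : ∃ k, d k ≠ 0) :
    {t : ℝ | t ∈ Ioo (0 : ℝ) (1/2) ∧ ∑' n, d n * t ^ n = 0}.Countable := by
  set U : Set ℂ := Metric.ball (0 : ℂ) (1/2) with hU
  set f : ℂ → ℂ := fun z => ∑' n, (d n : ℂ) * z ^ n with hf
  have hdiff : DifferentiableOn ℂ f U := by
    refine Complex.differentiableOn_tsum_of_summable_norm (u := fun n => 4 * (1/2 : ℝ) ^ n)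
      ((summable_geometric_of_lt_one (by norm_num) (by norm_num)).mul_left 4) ?_
      Metric.isOpen_ball ?_
    · intro i
      exact ((differentiable_id.pow i).const_mul _).differentiableOn
    · intro i w hw
      rw [norm_mul, norm_pow, Complex.norm_real, Real.norm_eq_abs]
      have hw' : ‖w‖ ≤ 1/2 := by
        rw [hU, Metric.mem_ball, dist_zero_right] at hw
        exact hw.le
      exact mul_le_mul (hd i) (pow_le_pow_left₀ (norm_nonneg w) hw' i)
        (pow_nonneg (norm_nonneg w) i) (by norm_num)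
  have han : AnalyticOnNhd ℂ f U := hdiff.analyticOnNhd Metric.isOpen_ball
  have hpre : IsPreconnected U := (convex_ball (0 : ℂ) (1/2)).isPreconnected
  have hreal : ∀ t : ℝ, f (t : ℂ) = ((∑' n, d n * t ^ n : ℝ) : ℂ) := by
    intro t
    rw [hf]
    simp only
    rw [Complex.ofReal_tsum]
    congr 1
    funext n
    push_cast
    rfl
  have hmem : ∀ t ∈ Ioo (0 : ℝ) (1/2), (t : ℂ) ∈ U := by
    intro t ht
    rw [hU, Metric.mem_ball, dist_zero_right, Complex.norm_real, Real.norm_eq_abs,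
      abs_of_pos ht.1]
    exact ht.2
  rcases han.eqOn_zero_or_eventually_ne_zero_of_preconnected hpre with h0 | h0
  · exfalso
    obtain ⟨k, hk⟩ := hne
    apply hk
    refine all_zero k hd (fun t ht => ?_)
    have h1 : f (t : ℂ) = 0 := h0 (hmem t ht)
    rw [hreal] at h1
    exact_mod_cast h1
  · have hcd : ({z | f z ≠ 0} : Set ℂ) ∈ codiscreteWithin U := h0
    have hc : ({z | f z ≠ 0}ᶜ ∩ U).Countable := by
      apply (HereditarilyLindelofSpace.isLindelof _).countable_of_isDiscrete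
        (isDiscrete_of_codiscreteWithin _)
      rw [compl_compl]
      exact hcd
    refine (hc.preimage_of_injOn (f := fun t : ℝ => (t : ℂ))
      (fun a _ b _ h => Complex.ofReal_injective h)).mono ?_
    rintro t ⟨ht1, ht2⟩
    refine ⟨?_, hmem t ht1⟩
    simp only [mem_compl_iff, mem_setOf_eq, not_not]
    rw [hreal, ht2]
    simp

/-- For a set of at most `ℵ₁ < 𝔠` points separated by a sequence of functions bounded by `2`, some
power series combination is injective on the set. -/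
theorem exists_injOn {X : Type} {Z : Set X} (hZ : #Z ≤ ℵ₁) (hc : (ℵ₁ : Cardinal.{0}) < 𝔠) (c : ℕ → X → ℝ)
    (hb : ∀ n x, |c n x| ≤ 2) (hsep : ∀ x y, x ≠ y → ∃ n, c n x ≠ c n y) :
    ∃ t ∈ Ioo (0 : ℝ) (1/2), InjOn (fun x => ∑' n, c n x * t ^ n) Z := by
  by_contra hcon
  push Not at hcon
  have hbad : Ioo (0 : ℝ) (1/2) ⊆ ⋃ p : {p : Z × Z // p.1 ≠ p.2},
      {t : ℝ | t ∈ Ioo (0 : ℝ) (1/2) ∧ ∑' n, (c n p.1.1 - c n p.1.2) * t ^ n = 0} := by
    intro t ht
    have h1 := hcon t ht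
    unfold InjOn at h1
    push Not at h1
    obtain ⟨x, hx, y, hy, hxy, hne⟩ := h1
    refine mem_iUnion.2 ⟨⟨(⟨x, hx⟩, ⟨y, hy⟩), fun h => hne (congrArg Subtype.val h)⟩, ht, ?_⟩
    have hs1 : Summable (fun n => c n x * t ^ n) :=
      summable_aux (fun n => (hb n x).trans (by norm_num)) ht
    have hs2 : Summable (fun n => c n y * t ^ n) :=
      summable_aux (fun n => (hb n y).trans (by norm_num)) ht
    have : (fun n => (c n x - c n y) * t ^ n) = fun n => c n x * t ^ n - c n y * t ^ n := by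
      funext n; ring
    show ∑' n, (c n x - c n y) * t ^ n = 0
    rw [this, hs1.tsum_sub hs2]
    exact sub_eq_zero.2 hxy
  have hcount : ∀ p : {p : Z × Z // p.1 ≠ p.2},
      #{t : ℝ | t ∈ Ioo (0 : ℝ) (1/2) ∧ ∑' n, (c n p.1.1 - c n p.1.2) * t ^ n = 0} ≤ ℵ₀ := by
    rintro ⟨⟨x, y⟩, hne⟩
    rw [Cardinal.le_aleph0_iff_set_countable]
    refine countable_zeros (fun n => ?_) ?_
    · have h1 := abs_sub (c n x) (c n y)
      linarith [hb n x, hb n y]
    · obtain ⟨n, hn⟩ := hsep x y (fun h => hne (Subtype.ext h))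
      exact ⟨n, sub_ne_zero.2 hn⟩
  have h1 : #(Ioo (0 : ℝ) (1/2)) ≤ ℵ₁ := by
    refine (Cardinal.mk_le_mk_of_subset hbad).trans ?_
    refine (Cardinal.mk_iUnion_le _).trans ?_
    have h2 : #{p : Z × Z // p.1 ≠ p.2} ≤ ℵ₁ := by
      refine (Cardinal.mk_subtype_le _).trans ?_
      rw [Cardinal.mk_prod]
      simp only [Cardinal.lift_id]
      refine (mul_le_mul' hZ hZ).trans ?_
      rw [Cardinal.mul_eq_self (Cardinal.aleph0_le_aleph 1)]
    refine (mul_le_mul' h2 (ciSup_le' hcount)).trans ?_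
    rw [Cardinal.mul_eq_left (Cardinal.aleph0_le_aleph 1) (Cardinal.aleph0_le_aleph 1)
      Cardinal.aleph0_ne_zero]
  rw [Cardinal.mk_Ioo_real (by norm_num)] at h1
  exact absurd hc (not_lt.2 h1)

end Pool.Agent.V11217.CpPower
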