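import Mathlib

/-!
A type carrying a well-order of type omega one: all proper initial segments are
countable, and every countable subset is bounded.  Closing-off lemmas.
-/

namespace Pool.Agent.V11217

open Set

theorem exists_omega1 : ∃ (W : Type) (_ : LinearOrder W), WellFoundedLT W ∧
    (∀ w : W, (Set.Iio w).Countable) ∧
    (∀ S : Set W, S.Countable → ∃ w, ∀ s ∈ S, s < w) := by
  refine ⟨(Cardinal.aleph 1).ord.ToType, inferInstance, inferInstance, ?_, ?_⟩
  · intro w
    rw [Cardinal.countable_iff_lt_aleph_one]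
    exact Cardinal.mk_Iio_toType_ord_lt w
  · intro S hS
    by_contra hcon
    push Not at hcon
    have hcount : ∀ w : (Cardinal.aleph 1).ord.ToType, (Set.Iic w).Countable := by
      intro w
      have : Set.Iic w = insert w (Set.Iio w) := by
        ext x; simp [le_iff_eq_or_lt]
      rw [this]
      apply Set.Countable.insert
      rw [Cardinal.countable_iff_lt_aleph_one]
      exact Cardinal.mk_Iio_toType_ord_lt w
    have huniv : (Set.univ : Set (Cardinal.aleph 1).ord.ToType).Countable := by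
      have : (Set.univ : Set (Cardinal.aleph 1).ord.ToType) = ⋃ s ∈ S, Set.Iic s := by
        ext x
        simp only [mem_univ, mem_iUnion, mem_Iic, true_iff]
        obtain ⟨s, hs, hle⟩ := hcon x
        exact ⟨s, hs, hle⟩
      rw [this]
      exact hS.biUnion (fun s _ => hcount s)
    rw [Cardinal.countable_iff_lt_aleph_one, Cardinal.mk_univ, Cardinal.mk_ord_toType] at huniv
    exact lt_irrefl _ huniv

theorem countable_finsets_subset {P : Type*} {A : Set P} (hA : A.Countable) :
    {s : Finset P | (↑s : Set P) ⊆ A}.Countable := by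
  have h := Set.countable_setOf_finite_subset hA
  have h2 := h.preimage (f := fun s : Finset P => (↑s : Set P)) Finset.coe_injective
  refine h2.mono ?_
  intro s hs
  exact ⟨s.finite_toSet, hs⟩

theorem exists_countable_closed {P : Type*} (φ : Finset P → Set P)
    (hφ : ∀ s, (φ s).Countable) (A0 : Set P) (hA0 : A0.Countable) :
    ∃ A : Set P, A0 ⊆ A ∧ A.Countable ∧ ∀ s : Finset P, (↑s : Set P) ⊆ A → φ s ⊆ A := by
  classical
  let B : ℕ → Set P := fun n => Nat.rec A0
    (fun _ A => A ∪ ⋃ s ∈ {s : Finset P | (↑s : Set P) ⊆ A}, φ s) n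
  have hB0 : B 0 = A0 := rfl
  have hBs : ∀ n, B (n+1) = B n ∪ ⋃ s ∈ {s : Finset P | (↑s : Set P) ⊆ B n}, φ s := fun n => rfl
  have hBc : ∀ n, (B n).Countable := by
    intro n
    induction n with
    | zero => exact hA0
    | succ n ih =>
      rw [hBs]
      exact ih.union ((countable_finsets_subset ih).biUnion (fun s _ => hφ s))
  have hmono : Monotone B := monotone_nat_of_le_succ (fun n => by
    rw [hBs]; exact subset_union_left)
  refine ⟨⋃ n, B n, ?_, countable_iUnion hBc, ?_⟩
  · rw [← hB0]; exact subset_iUnion B 0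
  · intro s hs
    have : ∃ n, (↑s : Set P) ⊆ B n := by
      have hfin : (↑s : Set P).Finite := s.finite_toSet
      have := Set.finite_subset_iUnion hfin hs
      obtain ⟨I, hI, hsI⟩ := this
      obtain ⟨N, hN⟩ := hI.bddAbove
      refine ⟨N, ?_⟩
      intro x hx
      have := hsI hx
      simp only [mem_iUnion] at this
      obtain ⟨i, hi, hxi⟩ := this
      exact hmono (hN hi) hxi
    obtain ⟨n, hn⟩ := this
    intro x hx
    refine mem_iUnion.2 ⟨n+1, ?_⟩
    rw [hBs]
    right
    simp only [mem_iUnion, mem_setOf_eq]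
    exact ⟨s, hn, hx⟩

theorem exists_closed_bound {W : Type*} [LinearOrder W] [WellFoundedLT W]
    (hc : ∀ w : W, (Set.Iio w).Countable)
    (hb : ∀ S : Set W, S.Countable → ∃ w, ∀ s ∈ S, s < w)
    (φ : Finset W → Set W) (hφ : ∀ s, (φ s).Countable) (w0 : W) :
    ∃ δ, w0 < δ ∧ (∀ s : Finset W, (∀ x ∈ s, x < δ) → ∀ y ∈ φ s, y < δ) ∧
      ∃ f : ℕ → W, StrictMono f ∧ (∀ n, f n < δ) ∧ ∀ x < δ, ∃ n, x < f n := by
  classical
  have hstep : ∀ w : W, ∃ w', w < w' ∧ ∀ s : Finset W, (∀ x ∈ s, x < w) →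
      ∀ y ∈ φ s, y < w' := by
    intro w
    have h1 : (⋃ s ∈ {s : Finset W | (↑s : Set W) ⊆ Set.Iio w}, φ s).Countable :=
      (countable_finsets_subset (hc w)).biUnion (fun s _ => hφ s)
    obtain ⟨w', hw'⟩ := hb _ (h1.insert w)
    refine ⟨w', hw' w (mem_insert _ _), ?_⟩
    intro s hs y hy
    apply hw'
    right
    simp only [mem_iUnion, mem_setOf_eq]
    exact ⟨s, fun x hx => hs x hx, hy⟩
  choose g hg1 hg2 using hstep
  let d : ℕ → W := fun n => Nat.rec (g w0) (fun _ w => g w) n
  have hds : ∀ n, d (n+1) = g (d n) := fun n => rfl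
  have hd0 : w0 < d 0 := hg1 w0
  have hdm : StrictMono d := strictMono_nat_of_lt_succ (fun n => by rw [hds]; exact hg1 _)
  obtain ⟨b, hb'⟩ := hb (Set.range d) (countable_range d)
  have hne : {w : W | ∀ n, d n < w}.Nonempty := ⟨b, fun n => hb' _ (mem_range_self n)⟩
  let δ := WellFounded.min (wellFounded_lt (α := W)) {w : W | ∀ n, d n < w} hne
  have hδ : ∀ n, d n < δ := WellFounded.min_mem (wellFounded_lt (α := W)) _ hne
  have hδmin : ∀ x, x < δ → ∃ n, x ≤ d n := by
    intro x hx
    by_contra hcon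
    push Not at hcon
    exact WellFounded.not_lt_min (wellFounded_lt (α := W)) {w : W | ∀ n, d n < w} (x := x) hcon hx
  have hlt : ∀ x, x < δ → ∃ n, x < d n := by
    intro x hx
    obtain ⟨n, hn⟩ := hδmin x hx
    exact ⟨n+1, lt_of_le_of_lt hn (hdm (Nat.lt_succ_self n))⟩
  refine ⟨δ, hd0.trans (hδ 0), ?_, d, hdm, hδ, hlt⟩
  intro s hs y hy
  have : ∃ n, ∀ x ∈ s, x < d n := by
    choose! m hm using hlt
    refine ⟨s.sup m, fun x hx => ?_⟩
    exact lt_of_lt_of_le (hm x (hs x hx)) (hdm.monotone (Finset.le_sup hx))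
  obtain ⟨n, hn⟩ := this
  exact (hg2 (d n) s hn y hy).trans (by rw [← hds]; exact hδ (n+1))

end Pool.Agent.V11217
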