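import Mathlib
import Pool.Agent.V11217.CpPart1
import Pool.Agent.V11217.Omega1

/-!
If `𝔟 ≤ ℵ₁` there is an uncountable strong measure zero set of reals (Rothberger).
-/

namespace Pool.Agent.V11217.CpRoth

open Set Filter Topology Cardinal
open Pool.Agent.V11217.CpPart1

/-- partial sums -/
def P (f : ℕ → ℕ) (n : ℕ) : ℕ := ∑ i ∈ Finset.range (n + 1), (f i + 1)

theorem P_succ (f : ℕ → ℕ) (n : ℕ) : P f (n + 1) = P f n + (f (n + 1) + 1) := by
  unfold P; rw [Finset.sum_range_succ]

theorem le_P (f : ℕ → ℕ) (n : ℕ) : f n + 1 ≤ P f n :=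
  Finset.single_le_sum (f := fun i => f i + 1) (fun _ _ => Nat.zero_le _)
    (Finset.mem_range.2 (Nat.lt_succ_self n))

theorem P_add (f : ℕ → ℕ) (n j : ℕ) : P f n + j ≤ P f (n + j) := by
  induction j with
  | zero => simp
  | succ j ih =>
    show P f n + (j + 1) ≤ P f ((n + j) + 1)
    rw [P_succ]; omega

theorem P_congr {f g : ℕ → ℕ} {n : ℕ} (h : ∀ i ≤ n, f i = g i) : P f n = P g n :=
  Finset.sum_congr rfl (fun i hi => by rw [h i (Nat.lt_succ_iff.1 (Finset.mem_range.1 hi))])

/-- the terms of the series -/
noncomputable def a (f : ℕ → ℕ) (n : ℕ) : ℝ := (1 / 3 : ℝ) ^ P f n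

theorem a_pos (f : ℕ → ℕ) (n : ℕ) : 0 < a f n := pow_pos (by norm_num) _

theorem a_le (f : ℕ → ℕ) (n j : ℕ) : a f (j + n) ≤ a f n * (1 / 3 : ℝ) ^ j := by
  unfold a
  rw [← pow_add, add_comm j n]
  exact pow_le_pow_of_le_one (by norm_num) (by norm_num) (P_add f n j)

theorem summable_a (f : ℕ → ℕ) : Summable (a f) := by
  refine Summable.of_nonneg_of_le (fun n => (a_pos f n).le) (fun n => a_le f 0 n) ?_
  exact (summable_geometric_of_lt_one (by norm_num) (by norm_num)).mul_left _

/-- tails -/
noncomputable def T (f : ℕ → ℕ) (n : ℕ) : ℝ := ∑' j, a f (j + n)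

theorem T_le (f : ℕ → ℕ) (n : ℕ) : T f n ≤ 3 / 2 * a f n := by
  have h1 : T f n ≤ ∑' j : ℕ, a f n * (1 / 3 : ℝ) ^ j := by
    refine Summable.tsum_le_tsum (fun j => a_le f n j) ((summable_nat_add_iff n).2 (summable_a f)) ?_
    exact (summable_geometric_of_lt_one (by norm_num) (by norm_num)).mul_left _
  rw [tsum_mul_left, tsum_geometric_of_lt_one (by norm_num) (by norm_num)] at h1
  norm_num at h1
  linarith

theorem le_T (f : ℕ → ℕ) (n : ℕ) : a f n ≤ T f n := by
  have h := ((summable_nat_add_iff n).2 (summable_a f)).le_tsum 0 (fun j _ => (a_pos f _).le)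
  unfold T
  simpa using h

/-- partial sums of the series -/
noncomputable def q (f : ℕ → ℕ) (n : ℕ) : ℝ := ∑ i ∈ Finset.range n, a f i

/-- the coding of functions by reals -/
noncomputable def φ (f : ℕ → ℕ) : ℝ := ∑' n, a f n

theorem φ_eq (f : ℕ → ℕ) (n : ℕ) : φ f = q f n + T f n :=
  ((summable_a f).sum_add_tsum_nat_add n).symm

theorem q_congr {f g : ℕ → ℕ} {n : ℕ} (h : ∀ i < n, f i = g i) : q f n = q g n :=
  Finset.sum_congr rfl (fun i hi => by
    unfold a
    rw [P_congr (fun j hj => h j (lt_of_le_of_lt hj (Finset.mem_range.1 hi)))])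

theorem φ_lt {f g : ℕ → ℕ} {n : ℕ} (h : ∀ i < n, f i = g i) (hn : f n < g n) : φ g < φ f := by
  rw [φ_eq f n, φ_eq g n, q_congr h]
  have h1 := T_le g n
  have h2 := le_T f n
  have h3 : P f n + 1 ≤ P g n := by
    cases n with
    | zero => simp [P]; omega
    | succ n =>
      rw [P_succ, P_succ, P_congr (fun i hi => h i (Nat.lt_succ_of_le hi))]; omega
  have h4 : a g n ≤ a f n * (1 / 3) := by
    unfold a
    rw [← pow_succ]
    exact pow_le_pow_of_le_one (by norm_num) (by norm_num) h3
  have h5 := a_pos f n
  linarith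

theorem φ_injective : Function.Injective φ := by
  intro f g h
  by_contra hne
  have : ∃ n, f n ≠ g n := by
    by_contra hcon
    push Not at hcon
    exact hne (funext hcon)
  have hlt : ∀ i < Nat.find this, f i = g i := fun i hi => by
    have := Nat.find_min this hi
    push Not at this
    exact this
  rcases lt_or_gt_of_ne (Nat.find_spec this) with h1 | h1
  · exact absurd h (φ_lt hlt h1).ne'
  · exact absurd h (φ_lt (fun i hi => (hlt i hi).symm) h1).ne

theorem exists_bound_countable {ι : Type*} [Countable ι] (h : ι → ℕ → ℕ) :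
    ∃ f : ℕ → ℕ, ∀ i, ∀ᶠ n in atTop, h i n ≤ f n := by
  obtain ⟨enc, henc⟩ := exists_injective_nat ι
  classical
  refine ⟨fun n => ∑ e ∈ Finset.range (n + 1), Function.extend enc h 0 e n, fun i => ?_⟩
  filter_upwards [eventually_ge_atTop (enc i)] with n hn
  have h1 : Function.extend enc h 0 (enc i) n ≤
      ∑ e ∈ Finset.range (n + 1), Function.extend enc h 0 e n :=
    Finset.single_le_sum (f := fun e => Function.extend enc h 0 e n) (fun _ _ => Nat.zero_le _)
      (Finset.mem_range.2 (Nat.lt_succ_of_le hn))
  rwa [henc.extend_apply] at h1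

theorem exists_uncountable_smz (h : bNumber ≤ ℵ₁) :
    ∃ S : Set ℝ, StrongMeasureZero S ∧ ¬ S.Countable := by
  classical
  have hne : {κ | ∃ F : Set (ℕ → ℕ),
      (¬ ∃ g : ℕ → ℕ, ∀ f ∈ F, ∀ᶠ n in atTop, f n ≤ g n) ∧ #F = κ}.Nonempty := by
    refine ⟨#(Set.univ : Set (ℕ → ℕ)), Set.univ, ?_, rfl⟩
    rintro ⟨g, hg⟩
    obtain ⟨n, hn⟩ := (hg (fun n => g n + 1) (mem_univ _)).exists
    omega
  obtain ⟨F, hF, hFc⟩ := csInf_mem hne
  have hFc' : #F ≤ ℵ₁ := by rw [hFc]; exact h
  obtain ⟨W, oW, wfW, hIio, hbdd⟩ := exists_omega1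
  have hWunc : ¬ (Set.univ : Set W).Countable := by
    intro hc
    obtain ⟨w, hw⟩ := hbdd _ hc
    exact absurd (hw w (mem_univ w)) (lt_irrefl w)
  have hW : ℵ₁ ≤ #W := by
    rw [← Cardinal.succ_aleph0]
    refine Order.succ_le_of_lt ?_
    rw [← Cardinal.mk_univ (α := W), ← not_le, Cardinal.le_aleph0_iff_set_countable]
    exact hWunc
  have hFne : F.Nonempty := by
    by_contra hcon
    rw [not_nonempty_iff_eq_empty] at hcon
    apply hF
    exact ⟨0, fun f hf => by rw [hcon] at hf; exact absurd hf (notMem_empty f)⟩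
  obtain ⟨emb⟩ := Cardinal.le_def _ _ |>.1 (hFc'.trans hW)
  have : Nonempty F := hFne.to_subtype
  let hs : W → F := Function.invFun emb
  have hsurj : Function.Surjective hs := Function.invFun_surjective emb.injective
  have hf0 : ∀ w : W, ∃ f : ℕ → ℕ, ∀ v ≤ w, ∀ᶠ n in atTop, (hs v : ℕ → ℕ) n ≤ f n := by
    intro w
    have hc : Countable (Set.Iic w) := by
      have : Set.Iic w = insert w (Set.Iio w) := by
        ext x; simp [le_iff_eq_or_lt]
      rw [this]
      exact ((hIio w).insert w).to_subtype
    obtain ⟨f, hf⟩ := exists_bound_countable (fun v : Set.Iic w => (hs v : ℕ → ℕ))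
    exact ⟨f, fun v hv => hf ⟨v, hv⟩⟩
  choose f hf using hf0
  have key : ∀ g : ℕ → ℕ, {w | ∀ᶠ n in atTop, f w n ≤ g n}.Countable := by
    intro g
    by_contra hcon
    apply hF
    refine ⟨g, fun h' hh' => ?_⟩
    obtain ⟨v, hv⟩ := hsurj ⟨h', hh'⟩
    have : ∃ w ∈ {w | ∀ᶠ n in atTop, f w n ≤ g n}, v ≤ w := by
      by_contra hno
      push Not at hno
      exact hcon ((hIio v).mono (fun w hw => hno w hw))
    obtain ⟨w, hw, hvw⟩ := this
    have h1 := hf w v hvw
    rw [hv] at h1
    filter_upwards [h1, hw] with n hn1 hn2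
    exact hn1.trans hn2
  refine ⟨Set.range (fun w => φ (f w)), ?_, ?_⟩
  · intro ε hε
    -- lists code finite sequences
    let ext : List ℕ → ℕ → ℕ := fun s i => s.getD i 0
    let cen : List ℕ → ℝ := fun s => q (ext s) s.length
    have hK : ∀ s : List ℕ, ∃ K : ℕ, ∀ m, K < m →
        3 / 2 * (1 / 3 : ℝ) ^ m < ε (2 * Encodable.encode s) / 4 := by
      intro s
      have h1 : Tendsto (fun m : ℕ => 3 / 2 * (1 / 3 : ℝ) ^ m) atTop (𝓝 (3 / 2 * 0)) :=
        (tendsto_pow_atTop_nhds_zero_of_lt_one (by norm_num) (by norm_num)).const_mul _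
      rw [mul_zero] at h1
      have h2 := h1.eventually (gt_mem_nhds (show 0 < ε (2 * Encodable.encode s) / 4 by
        linarith [hε (2 * Encodable.encode s)]))
      obtain ⟨K, hK⟩ := eventually_atTop.1 h2
      exact ⟨K, fun m hm => hK m hm.le⟩
    choose K hK using hK
    let S : ℕ → Finset (List ℕ) := fun n => Nat.rec {[]} (fun _ S => S.biUnion (fun s =>
      (Finset.range (K s + 1)).image (fun m => s ++ [m]))) n
    have hSs : ∀ n, S (n + 1) = (S n).biUnion (fun s =>
      (Finset.range (K s + 1)).image (fun m => s ++ [m])) := fun n => rfl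
    let g : ℕ → ℕ := fun n => (S n).sup K
    let res : (ℕ → ℕ) → ℕ → List ℕ := fun f n => (List.range n).map f
    have hres : ∀ f n, q (ext (res f n)) (res f n).length = q f n := by
      intro f n
      have hl : (res f n).length = n := by simp [res]
      rw [hl]
      refine q_congr (fun i hi => ?_)
      show ((List.range n).map f).getD i 0 = f i
      rw [List.getD_eq_getElem _ _ (by simpa using hi)]
      simp
    -- bad functions are bounded
    have hbad : ∀ f : ℕ → ℕ, (∀ s : List ℕ,
        φ f ∉ Ioo (cen s - ε (2 * Encodable.encode s) / 4)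
          (cen s + ε (2 * Encodable.encode s) / 4)) → ∀ n, f n ≤ g n := by
      intro f hbf
      have h1 : ∀ n, f n ≤ K (res f n) := by
        intro n
        by_contra hcon
        push Not at hcon
        apply hbf (res f n)
        have h2 := hK _ _ hcon
        have h3 : cen (res f n) = q f n := hres f n
        have h4 := φ_eq f n
        have h5 := T_le f n
        have h6 : a f n ≤ (1 / 3 : ℝ) ^ (f n) :=
          pow_le_pow_of_le_one (by norm_num) (by norm_num) (by have := le_P f n; omega)
        have h7 := le_T f n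
        have h8 := a_pos f n
        rw [h3]
        constructor <;> linarith
      have h2 : ∀ n, res f n ∈ S n := by
        intro n
        induction n with
        | zero => simp [res, S]
        | succ n ih =>
          rw [hSs, Finset.mem_biUnion]
          refine ⟨res f n, ih, Finset.mem_image.2 ⟨f n, ?_, ?_⟩⟩
          · exact Finset.mem_range.2 (Nat.lt_succ_of_le (h1 n))
          · show (List.range n).map f ++ [f n] = (List.range (n + 1)).map f
            rw [List.range_succ, List.map_append]
            rfl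
      intro n
      exact (h1 n).trans (Finset.le_sup (f := K) (h2 n))
    have hBc := key g
    by_cases hBe : {w | ∀ᶠ n in atTop, f w n ≤ g n}.Nonempty
    · obtain ⟨e, he⟩ := hBc.exists_eq_range hBe
      let c : ℕ → ℝ := fun n => if n % 2 = 0 then
        (match (Encodable.decode (n / 2) : Option (List ℕ)) with
          | some s => cen s
          | none => 0)
        else φ (f (e (n / 2)))
      refine ⟨fun n => c n - ε n / 4, fun n => c n + ε n / 4, fun n => ?_, ?_⟩
      · simp only; linarith [hε n]
      · rintro _ ⟨w, rfl⟩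
        by_cases hw : ∀ s : List ℕ, φ (f w) ∉ Ioo (cen s - ε (2 * Encodable.encode s) / 4)
            (cen s + ε (2 * Encodable.encode s) / 4)
        · have h1 : w ∈ {w | ∀ᶠ n in atTop, f w n ≤ g n} :=
            Eventually.of_forall (hbad (f w) hw)
          rw [he] at h1
          obtain ⟨k, hk⟩ := h1
          refine mem_iUnion.2 ⟨2 * k + 1, ?_⟩
          have hc : c (2 * k + 1) = φ (f w) := by
            show (if (2 * k + 1) % 2 = 0 then _ else φ (f (e ((2 * k + 1) / 2)))) = _
            rw [if_neg (by omega), show (2 * k + 1) / 2 = k by omega, hk]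
          show φ (f w) ∈ Ioo (c (2 * k + 1) - ε (2 * k + 1) / 4)
            (c (2 * k + 1) + ε (2 * k + 1) / 4)
          rw [hc]
          have := hε (2 * k + 1)
          constructor <;> linarith
        · push Not at hw
          obtain ⟨s, hs⟩ := hw
          refine mem_iUnion.2 ⟨2 * Encodable.encode s, ?_⟩
          have hc : c (2 * Encodable.encode s) = cen s := by
            show (if (2 * Encodable.encode s) % 2 = 0 then
              (match (Encodable.decode (2 * Encodable.encode s / 2) : Option (List ℕ)) with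
                | some s => cen s
                | none => 0) else _) = _
            rw [if_pos (by omega), show 2 * Encodable.encode s / 2 = Encodable.encode s by omega,
              Encodable.encodek]
          show φ (f w) ∈ Ioo (c (2 * Encodable.encode s) - ε (2 * Encodable.encode s) / 4)
            (c (2 * Encodable.encode s) + ε (2 * Encodable.encode s) / 4)
          rw [hc]
          exact hs
    · let c : ℕ → ℝ := fun n => if n % 2 = 0 then
        (match (Encodable.decode (n / 2) : Option (List ℕ)) with
          | some s => cen s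
          | none => 0)
        else 0
      refine ⟨fun n => c n - ε n / 4, fun n => c n + ε n / 4, fun n => ?_, ?_⟩
      · simp only; linarith [hε n]
      · rintro _ ⟨w, rfl⟩
        by_cases hw : ∀ s : List ℕ, φ (f w) ∉ Ioo (cen s - ε (2 * Encodable.encode s) / 4)
            (cen s + ε (2 * Encodable.encode s) / 4)
        · exact absurd ⟨w, Eventually.of_forall (hbad (f w) hw)⟩ hBe
        · push Not at hw
          obtain ⟨s, hs⟩ := hw
          refine mem_iUnion.2 ⟨2 * Encodable.encode s, ?_⟩
          have hc : c (2 * Encodable.encode s) = cen s := by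
            show (if (2 * Encodable.encode s) % 2 = 0 then
              (match (Encodable.decode (2 * Encodable.encode s / 2) : Option (List ℕ)) with
                | some s => cen s
                | none => 0) else _) = _
            rw [if_pos (by omega), show 2 * Encodable.encode s / 2 = Encodable.encode s by omega,
              Encodable.encodek]
          show φ (f w) ∈ Ioo (c (2 * Encodable.encode s) - ε (2 * Encodable.encode s) / 4)
            (c (2 * Encodable.encode s) + ε (2 * Encodable.encode s) / 4)
          rw [hc]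
          exact hs
  · intro hcount
    -- a countable image gives countably many functions
    have hc : (Set.range f).Countable := by
      refine (hcount.preimage φ_injective).mono ?_
      rintro _ ⟨w, rfl⟩
      exact ⟨w, rfl⟩
    haveI : Countable (Set.range f) := hc.to_subtype
    obtain ⟨G, hG⟩ := exists_bound_countable (fun g : Set.range f => (g : ℕ → ℕ))
    apply hF
    refine ⟨G, fun h' hh' => ?_⟩
    obtain ⟨v, hv⟩ := hsurj ⟨h', hh'⟩
    have h1 := hf v v le_rfl
    rw [hv] at h1
    filter_upwards [h1, hG ⟨f v, v, rfl⟩] with n hn1 hn2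
    exact hn1.trans hn2

end Pool.Agent.V11217.CpRoth
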