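import Mathlib

/-!
A system of distinct representatives by transfinite recursion, and a Bernstein colouring of the
space of ultrafilters on the natural numbers.
-/

namespace Pool.Agent.V11217

open Set Filter Topology Cardinal

/-- Distinct representatives for at most `#K` many sets of size at least `#K`. -/
theorem exists_sdr {K J : Type} [Nonempty J] (hJ : #J ≤ #K) (S : J → Set K)
    (hS : ∀ j, #K ≤ #(S j)) : ∃ f : J → K, Function.Injective f ∧ ∀ j, f j ∈ S j := by
  classical
  have hKne : Nonempty K := by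
    rw [← Cardinal.mk_ne_zero_iff]
    intro h0
    rw [h0, nonpos_iff_eq_zero, Cardinal.mk_eq_zero_iff] at hJ
    exact hJ.elim (Classical.arbitrary J)
  let T := (#K).ord.ToType
  have hT : #T = #K := Cardinal.mk_ord_toType _
  obtain ⟨e⟩ : Nonempty (J ↪ T) := by
    rw [← Cardinal.le_def, hT]; exact hJ
  let j0 : J := Classical.arbitrary J
  let h : T → J := Function.extend e id (fun _ => j0)
  have hh : ∀ j, h (e j) = j := fun j => e.injective.extend_apply id _ j
  let F : T → K := (wellFounded_lt (α := T)).fix (fun t ih =>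
    if hex : ∃ x ∈ S (h t), ∀ y (hy : y < t), ih y hy ≠ x then hex.choose
    else Classical.arbitrary K)
  have hF : ∀ t, F t ∈ S (h t) ∧ ∀ y, y < t → F y ≠ F t := by
    intro t
    have hex : ∃ x ∈ S (h t), ∀ y (_ : y < t), F y ≠ x := by
      by_contra hcon
      push Not at hcon
      have hsub : S (h t) ⊆ F '' (Set.Iio t) := by
        intro x hx
        obtain ⟨y, hy, hyx⟩ := hcon x hx
        exact ⟨y, hy, hyx⟩
      have h1 : #(S (h t)) ≤ #(Set.Iio t) := (Cardinal.mk_le_mk_of_subset hsub).trans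
        Cardinal.mk_image_le
      have h2 : #(Set.Iio t) < #K := Cardinal.mk_Iio_toType_ord_lt t
      exact absurd ((hS (h t)).trans h1) (not_le.2 h2)
    have heq : F t = hex.choose := by
      change (wellFounded_lt (α := T)).fix _ t = _
      rw [WellFounded.fix_eq]
      exact dif_pos hex
    rw [heq]
    exact hex.choose_spec
  refine ⟨fun j => F (e j), ?_, ?_⟩
  · intro a b hab
    rcases lt_trichotomy (e a) (e b) with hlt | heq | hlt
    · exact absurd hab ((hF (e b)).2 _ hlt)
    · exact e.injective heq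
    · exact absurd hab.symm ((hF (e a)).2 _ hlt)
  · intro j
    have := (hF (e j)).1
    rwa [hh] at this

abbrev BN := Ultrafilter ℕ

instance : TopologicalSpace.SeparableSpace BN :=
  TopologicalSpace.SeparableSpace.of_denseRange _ (denseRange_pure (α := ℕ))

theorem surj_seq : ∃ s : BN → (ℕ → BN), Function.Surjective s := by
  refine ⟨Ultrafilter.extend (TopologicalSpace.denseSeq (ℕ → BN)), ?_⟩
  rw [← Set.range_eq_univ]
  have hcl : IsClosed (Set.range (Ultrafilter.extend (TopologicalSpace.denseSeq (ℕ → BN)))) :=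
    (isCompact_range (continuous_ultrafilter_extend _)).isClosed
  have hsub : Set.range (TopologicalSpace.denseSeq (ℕ → BN)) ⊆
      Set.range (Ultrafilter.extend (TopologicalSpace.denseSeq (ℕ → BN))) := by
    rintro _ ⟨n, rfl⟩
    exact ⟨pure n, ultrafilter_extend_pure _ _⟩
  have := (TopologicalSpace.denseRange_denseSeq (ℕ → BN)).closure_eq
  rw [← univ_subset_iff, ← this]
  exact closure_minimal hsub hcl

theorem bn_uncountable : Uncountable BN := by
  rw [← not_countable_iff]
  intro hc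
  obtain ⟨s, hs⟩ := surj_seq
  obtain ⟨k, hk⟩ := exists_surjective_nat BN
  have : Nontrivial BN := ⟨pure 0, pure 1, by
    intro h
    have h1 : ({0} : Set ℕ) ∈ (pure 0 : BN) := by simp
    rw [h] at h1
    simp at h1⟩
  choose x hx using fun n => exists_ne (s (k n) n)
  obtain ⟨p, hp⟩ := hs x
  obtain ⟨n, rfl⟩ := hk p
  exact hx n (by rw [hp])

/-- the sequences of ultrafilters that are discrete in a strong sense -/
def Disc : Type := {d : ℕ → BN // ∃ A : ℕ → Set ℕ, (∀ n, A n ∈ d n) ∧
  ∀ m n, m ≠ n → Disjoint (A m) (A n)}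

theorem mem_bind (p : BN) (d : ℕ → BN) (A : Set ℕ) :
    A ∈ Ultrafilter.bind p d ↔ {n | A ∈ d n} ∈ p := Iff.rfl

theorem bind_injective (d : Disc) : Function.Injective (fun p : BN => Ultrafilter.bind p d.1) := by
  obtain ⟨d, A, hA, hdisj⟩ := d
  intro p q hpq
  by_contra hne
  have : ∃ S, S ∈ p ∧ S ∉ q := by
    by_contra hcon
    push Not at hcon
    exact hne (Ultrafilter.coe_le_coe.1 (fun S hS => hcon S hS)).symm
  obtain ⟨S, hSp, hSq⟩ := this
  have hset : {n | (⋃ m ∈ S, A m) ∈ d n} = S := by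
    ext n
    constructor
    · intro h
      by_contra hn
      have h1 : A n ∩ (⋃ m ∈ S, A m) ∈ d n := Filter.inter_mem (hA n) h
      have h2 : A n ∩ (⋃ m ∈ S, A m) = ∅ := by
        rw [eq_empty_iff_forall_notMem]
        rintro x ⟨hx1, hx2⟩
        simp only [mem_iUnion, exists_prop] at hx2
        obtain ⟨m, hm, hxm⟩ := hx2
        have hmn : m ≠ n := fun h => hn (h ▸ hm)
        exact Set.disjoint_left.1 (hdisj m n hmn) hxm hx1
      rw [h2] at h1
      exact (d n).empty_notMem h1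
    · intro hn
      exact Filter.mem_of_superset (hA n) (subset_biUnion_of_mem (u := A) hn)
  have hp' : (⋃ m ∈ S, A m) ∈ Ultrafilter.bind p d := by
    rw [mem_bind, hset]; exact hSp
  have hq' : (⋃ m ∈ S, A m) ∉ Ultrafilter.bind q d := by
    rw [mem_bind, hset]; exact hSq
  have hpq' : Ultrafilter.bind p d = Ultrafilter.bind q d := hpq
  rw [hpq'] at hp'
  exact hq' hp'

theorem split {C : Set BN} (hC : C.Infinite) : ∃ A : Set ℕ, (∃ p ∈ C, A ∈ p) ∧
    {p ∈ C | A ∉ p}.Infinite := by
  obtain ⟨p, hp, q, hq, hpq⟩ := hC.nontrivial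
  have : ∃ S, S ∈ p ∧ S ∉ q := by
    by_contra hcon
    push Not at hcon
    exact hpq (Ultrafilter.coe_le_coe.1 (fun S hS => hcon S hS)).symm
  obtain ⟨S, hSp, hSq⟩ := this
  by_cases h : {p ∈ C | S ∉ p}.Infinite
  · exact ⟨S, ⟨p, hp, hSp⟩, h⟩
  · refine ⟨Sᶜ, ⟨q, hq, Ultrafilter.compl_mem_iff_notMem.2 hSq⟩, ?_⟩
    intro hfin
    apply hC
    refine ((not_infinite.1 h).union hfin).subset ?_
    intro r hr
    by_cases hrS : S ∈ r
    · right
      refine ⟨hr, ?_⟩
      rw [Ultrafilter.compl_mem_iff_notMem]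
      exact not_not.2 hrS
    · left; exact ⟨hr, hrS⟩

theorem exists_disc {C : Set BN} (hC : C.Infinite) (hcl : IsClosed C) :
    ∃ d : Disc, ∀ p : BN, Ultrafilter.bind p d.1 ∈ C := by
  classical
  -- states are infinite subsets
  let St := {D : Set BN // D.Infinite}
  have hsplit : ∀ D : St, ∃ (A : Set ℕ) (p : BN), p ∈ D.1 ∧ A ∈ p ∧
      {p ∈ D.1 | A ∉ p}.Infinite := by
    intro D
    obtain ⟨A, ⟨p, hp, hA⟩, h⟩ := split D.2
    exact ⟨A, p, hp, hA, h⟩
  choose A p hpD hAp hinf using hsplit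
  let D : ℕ → St := fun n => Nat.rec ⟨C, hC⟩ (fun _ D => ⟨{p ∈ D.1 | A D ∉ p}, hinf D⟩) n
  have hD : ∀ n, (D (n + 1)).1 = {p ∈ (D n).1 | A (D n) ∉ p} := fun n => rfl
  have hanti : ∀ m n, m ≤ n → (D n).1 ⊆ (D m).1 := by
    intro m n hmn
    induction n, hmn using Nat.le_induction with
    | base => exact Subset.rfl
    | succ n _ ih =>
      rw [hD]
      exact (sep_subset _ _).trans ih
  have hnot : ∀ m n, m < n → A (D m) ∉ p (D n) := by
    intro m n hmn
    have h1 := hanti (m + 1) n hmn (hpD (D n))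
    rw [hD] at h1
    exact h1.2
  let B : ℕ → Set ℕ := fun n => A (D n) \ ⋃ m ∈ Set.Iio n, A (D m)
  have hB : ∀ n, B n ∈ p (D n) := by
    intro n
    have h2 : (⋃ m ∈ Set.Iio n, A (D m)) ∉ p (D n) := by
      intro hcon
      rw [Ultrafilter.finite_biUnion_mem_iff (Set.finite_Iio n)] at hcon
      obtain ⟨m, hm, hmem⟩ := hcon
      exact hnot m n hm hmem
    exact Filter.inter_mem (hAp (D n)) (Ultrafilter.compl_mem_iff_notMem.2 h2)
  have hdisj : ∀ m n, m < n → Disjoint (B m) (B n) := by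
    intro m n hmn
    rw [Set.disjoint_left]
    intro x hx hxn
    apply hxn.2
    simp only [mem_iUnion, exists_prop]
    exact ⟨m, hmn, hx.1⟩
  refine ⟨⟨fun n => p (D n), B, hB, ?_⟩, ?_⟩
  · intro m n hmn
    rcases lt_or_gt_of_ne hmn with h | h
    · exact hdisj m n h
    · exact (hdisj n m h).symm
  · intro q
    by_contra hcon
    have hop : IsOpen Cᶜ := hcl.isOpen_compl
    obtain ⟨V, ⟨S, rfl⟩, hV, hVsub⟩ := ultrafilterBasis_is_basis.exists_subset_of_mem_open
      (show Ultrafilter.bind q (fun n => p (D n)) ∈ Cᶜ from hcon) hop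
    have h1 : {n | S ∈ p (D n)} ∈ q := hV
    obtain ⟨n, hn⟩ := q.nonempty_of_mem h1
    have h2 : p (D n) ∈ C := hanti 0 n (Nat.zero_le _) (hpD (D n))
    exact hVsub hn h2

theorem exists_coloring : ∃ c : BN → ℕ, ∀ C : Set BN, C.Infinite → IsClosed C →
    ∀ n, ∃ p ∈ C, c p = n := by
  classical
  have hseq : #(ℕ → BN) ≤ #BN := by
    obtain ⟨s, hs⟩ := surj_seq
    exact Cardinal.mk_le_of_surjective hs
  have : Nonempty Disc := by
    obtain ⟨d, _⟩ := exists_disc (C := Set.univ) (by
      have := bn_uncountable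
      exact Set.infinite_univ) isClosed_univ
    exact ⟨d⟩
  have hinfK : ℵ₀ ≤ #BN := by
    have := bn_uncountable
    exact Cardinal.aleph0_le_mk BN
  have hJ : #(Disc × ℕ) ≤ #BN := by
    rw [Cardinal.mk_prod, Cardinal.lift_id, Cardinal.lift_id, Cardinal.mk_nat]
    have h1 : #Disc ≤ #BN := (Cardinal.mk_subtype_le _).trans hseq
    calc #Disc * ℵ₀ ≤ #BN * #BN := mul_le_mul' h1 hinfK
      _ = #BN := Cardinal.mul_eq_self hinfK
  obtain ⟨f, hf, hfS⟩ := exists_sdr hJ
    (fun j : Disc × ℕ => Set.range (fun p : BN => Ultrafilter.bind p j.1.1)) (by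
      intro j
      rw [Cardinal.mk_range_eq _ (bind_injective j.1)])
  refine ⟨fun p => if h : ∃ j, f j = p then h.choose.2 else 0, ?_⟩
  intro C hC hcl n
  obtain ⟨d, hd⟩ := exists_disc hC hcl
  refine ⟨f (d, n), ?_, ?_⟩
  · obtain ⟨p, hp⟩ := hfS (d, n)
    rw [← hp]
    exact hd p
  · have hex : ∃ j, f j = f (d, n) := ⟨_, rfl⟩
    have heq : (fun p => if h : ∃ j, f j = p then h.choose.2 else 0) (f (d, n)) =
        hex.choose.2 := dif_pos hex
    rw [heq, hf hex.choose_spec]

end Pool.Agent.V11217
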