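import Mathlib
import Pool.Agent.V11217.Omega1

/-!
A Lindelof P-space on the finite sequences of countable ordinals, with one isolated infinite
sequence for each countable ordinal.
-/

namespace Pool.Agent.V11217.Tree

open Set

section Gen

variable {X : Type} [TopologicalSpace X]

/-- countable intersections of open sets are open -/
def PSpace (X : Type) [TopologicalSpace X] : Prop :=
  ∀ U : ℕ → Set X, (∀ n, IsOpen (U n)) → IsOpen (⋂ n, U n)

theorem PSpace.iInter (hP : PSpace X) {ι : Type*} [Countable ι] (U : ι → Set X)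
    (hU : ∀ i, IsOpen (U i)) : IsOpen (⋂ i, U i) := by
  rcases isEmpty_or_nonempty ι with h | h
  · rw [Set.iInter_of_empty]; exact isOpen_univ
  · obtain ⟨f, hf⟩ := exists_surjective_nat ι
    rw [← hf.iInter_comp]
    exact hP _ (fun n => hU (f n))

theorem PSpace.sInter (hP : PSpace X) {𝒮 : Set (Set X)} (hc : 𝒮.Countable)
    (hU : ∀ U ∈ 𝒮, IsOpen U) : IsOpen (⋂₀ 𝒮) := by
  rw [sInter_eq_iInter]
  have := hc.to_subtype
  exact hP.iInter _ (fun U => hU U.1 U.2)

/-- every neighbourhood assignment has a countable subcover -/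
def NLind (X : Type) [TopologicalSpace X] : Prop :=
  ∀ O : X → Set X, (∀ x, IsOpen (O x)) → (∀ x, x ∈ O x) →
    ∃ S : Set X, S.Countable ∧ ∀ y, ∃ x ∈ S, y ∈ O x

theorem compact_finite [T1Space X] (hP : PSpace X) {K : Set X} (hK : IsCompact K) :
    K.Finite := by
  by_contra hinf
  obtain ⟨g⟩ : Nonempty (ℕ ↪ K) := ⟨Set.Infinite.natEmbedding K hinf⟩
  let D : Set X := Set.range (fun m => (g m : X))
  have hDK : D ⊆ K := by rintro _ ⟨m, rfl⟩; exact (g m).2
  have hDinf : D.Infinite := Set.infinite_range_of_injective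
    (fun a b hab => g.injective (Subtype.ext hab))
  have hDc : D.Countable := countable_range _
  have hclosed : ∀ E ⊆ D, IsOpen Eᶜ := by
    intro E hE
    have hEc : E.Countable := hDc.mono hE
    have : Eᶜ = ⋂₀ ((fun x => {x}ᶜ) '' E) := by
      ext y
      simp only [mem_compl_iff, sInter_image, mem_iInter, mem_singleton_iff]
      constructor
      · intro h x hx hyx; exact h (hyx ▸ hx)
      · intro h hy; exact h y hy rfl
    rw [this]
    refine hP.sInter (hEc.image _) ?_
    rintro _ ⟨x, _, rfl⟩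
    exact isOpen_compl_singleton
  obtain ⟨s, hs⟩ := hK.elim_finite_subcover
    (fun m : ℕ => (D \ {(g m : X)})ᶜ) (fun m => hclosed _ diff_subset) (by
      intro x hx
      rw [mem_iUnion]
      by_cases hxD : x ∈ D
      · obtain ⟨m, hm⟩ := hxD
        exact ⟨m, fun h => h.2 hm.symm⟩
      · exact ⟨0, fun h => hxD h.1⟩)
  apply hDinf
  refine (s.finite_toSet.image (fun m => (g m : X))).subset ?_
  intro x hx
  have := hs (hDK hx)
  simp only [mem_iUnion, exists_prop, mem_compl_iff, mem_diff, mem_singleton_iff] at this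
  obtain ⟨m, hm, hne⟩ := this
  refine ⟨m, hm, ?_⟩
  by_contra hcon
  exact hne ⟨hx, fun h => hcon h.symm⟩

/-- Omega-Lindelof property of Lindelof P-spaces. -/
theorem omega_lindelof [Nonempty X] (hP : PSpace X) (hL : NLind X) (𝒰 : Set (Set X))
    (hop : ∀ U ∈ 𝒰, IsOpen U) (hcov : ∀ F : Set X, F.Finite → ∃ U ∈ 𝒰, F ⊆ U) :
    ∃ 𝒱 ⊆ 𝒰, 𝒱.Countable ∧ ∀ F : Set X, F.Finite → ∃ U ∈ 𝒱, F ⊆ U := by
  classical
  have step : ∀ (k : ℕ) (A : Set X), A.Finite → ∃ 𝒱 ⊆ 𝒰, 𝒱.Countable ∧
      ∀ B : Finset X, B.card ≤ k → ∃ U ∈ 𝒱, A ∪ ↑B ⊆ U := by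
    intro k
    induction k with
    | zero =>
      intro A hA
      obtain ⟨U, hU, hAU⟩ := hcov A hA
      refine ⟨{U}, by simpa using hU, countable_singleton U, fun B hB => ⟨U, rfl, ?_⟩⟩
      have : B = ∅ := Finset.card_eq_zero.1 (Nat.le_zero.1 hB)
      subst this
      simpa using hAU
    | succ k ih =>
      intro A hA
      choose 𝒱 h1 h2 h3 using fun x : X => ih (A ∪ {x}) (hA.union (finite_singleton x))
      obtain ⟨S, hS, hScov⟩ := hL (fun x => ⋂₀ {V ∈ 𝒱 x | x ∈ V})
        (fun x => hP.sInter ((h2 x).mono (sep_subset _ _))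
          (fun U hU => hop U (h1 x hU.1)))
        (fun x => by
          rw [mem_sInter]
          exact fun V hV => hV.2)
      refine ⟨⋃ x ∈ S, 𝒱 x, iUnion₂_subset (fun x _ => h1 x), hS.biUnion (fun x _ => h2 x), ?_⟩
      intro B hB
      rcases B.eq_empty_or_nonempty with rfl | ⟨b, hb⟩
      · obtain ⟨U, hU, hAU⟩ := hcov A hA
        obtain ⟨y⟩ := (inferInstance : Nonempty X)
        obtain ⟨x, hx, -⟩ := hScov y
        obtain ⟨V, hV, hAV⟩ := h3 x ∅ (by simp)
        refine ⟨V, ?_, ?_⟩
        · simp only [mem_iUnion, exists_prop]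
          exact ⟨x, hx, hV⟩
        · intro z hz
          apply hAV
          rcases hz with hz | hz
          · exact Or.inl (Or.inl hz)
          · exact absurd hz (by simp)
      · obtain ⟨x, hx, hbx⟩ := hScov b
        obtain ⟨V, hV, hAV⟩ := h3 x (B.erase b) (by rw [Finset.card_erase_of_mem hb]; omega)
        refine ⟨V, ?_, ?_⟩
        · simp only [mem_iUnion, exists_prop]
          exact ⟨x, hx, hV⟩
        · have hxV : x ∈ V := hAV (Or.inl (Or.inr rfl))
          intro z hz
          rcases hz with hz | hz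
          · exact hAV (Or.inl (Or.inl hz))
          · by_cases hzb : z = b
            · rw [hzb]
              rw [mem_sInter] at hbx
              exact hbx V ⟨hV, hxV⟩
            · exact hAV (Or.inr (Finset.mem_erase.2 ⟨hzb, hz⟩))
  choose 𝒱 h1 h2 h3 using fun k => step k ∅ finite_empty
  refine ⟨⋃ k, 𝒱 k, iUnion_subset h1, countable_iUnion h2, ?_⟩
  intro F hF
  obtain ⟨U, hU, hFU⟩ := h3 hF.toFinset.card hF.toFinset le_rfl
  refine ⟨U, mem_iUnion.2 ⟨_, hU⟩, ?_⟩
  intro x hx
  apply hFU
  right
  simpa using hx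

end Gen

section Space

variable {W : Type} [LinearOrder W] (ell : W → ℕ → W)

/-- the points of the space -/
inductive Pt (W : Type) : Type
  | fin : List W → Pt W
  | lim : W → Pt W

open Pt

/-- the partial sequence of a point -/
def val : Pt W → ℕ → Option W
  | fin t => fun n => t[n]?
  | lim γ => fun n => some (ell γ n)

/-- `y` properly extends `s` and its next value is at least `α` -/
def Beyond (s : List W) (α : W) (y : Pt W) : Prop :=
  (∀ i < s.length, val ell y i = s[i]?) ∧ ∃ β, α ≤ β ∧ val ell y s.length = some β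

theorem Beyond.mono {s : List W} {α α' : W} (h : α ≤ α') {y : Pt W} (hy : Beyond ell s α' y) :
    Beyond ell s α y :=
  ⟨hy.1, hy.2.imp (fun _ hβ => ⟨h.trans hβ.1, hβ.2⟩)⟩

/-- the topology -/
@[reducible] def topo (hb : ∀ S : Set W, S.Countable → ∃ w, ∀ s ∈ S, s < w) :
    TopologicalSpace (Pt W) where
  IsOpen U := ∀ s, fin s ∈ U → ∃ α, ∀ y, Beyond ell s α y → y ∈ U
  isOpen_univ := by
    intro s _
    obtain ⟨w, _⟩ := hb ∅ countable_empty
    exact ⟨w, fun _ _ => trivial⟩
  isOpen_inter := by
    intro U V hU hV s hs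
    obtain ⟨a, ha⟩ := hU s hs.1
    obtain ⟨b, hb⟩ := hV s hs.2
    exact ⟨max a b, fun y hy => ⟨ha y (hy.mono ell (le_max_left _ _)),
      hb y (hy.mono ell (le_max_right _ _))⟩⟩
  isOpen_sUnion := by
    rintro 𝒮 h s ⟨U, hU, hs⟩
    obtain ⟨a, ha⟩ := h U hU s hs
    exact ⟨a, fun y hy => ⟨U, hU, ha y hy⟩⟩

variable (hb : ∀ S : Set W, S.Countable → ∃ w, ∀ s ∈ S, s < w)

theorem open_iff (U : Set (Pt W)) : @IsOpen _ (topo ell hb) U ↔
    ∀ s, fin s ∈ U → ∃ α, ∀ y, Beyond ell s α y → y ∈ U := Iff.rfl

theorem pspace : @PSpace (Pt W) (topo ell hb) := by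
  intro U hU
  rw [open_iff]
  intro s hs
  rw [mem_iInter] at hs
  choose a ha using fun n => (open_iff ell hb (U n)).1 (hU n) s (hs n)
  obtain ⟨w, hw⟩ := hb (Set.range a) (countable_range a)
  refine ⟨w, fun y hy => mem_iInter.2 (fun n => ha n y (hy.mono ell (hw _ ⟨n, rfl⟩).le))⟩

/-- basic clopen sets -/
def N (s : List W) (α : W) : Set (Pt W) := {y | y = fin s ∨ Beyond ell s α y}

theorem beyond_fin {s t : List W} {α : W} (h : Beyond ell s α (fin t)) :
    s.length < t.length ∧ (∀ i < s.length, t[i]? = s[i]?) ∧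
      ∃ β, α ≤ β ∧ t[s.length]? = some β := by
  obtain ⟨h1, β, h2, h3⟩ := h
  refine ⟨?_, h1, β, h2, h3⟩
  by_contra hcon
  have : t[s.length]? = none := List.getElem?_eq_none (not_lt.1 hcon)
  have h3' : t[s.length]? = some β := h3
  rw [this] at h3'
  exact absurd h3' (by simp)

/-- points beyond `t` agree with `t` below its length -/
theorem beyond_trans {s t : List W} {α α' : W} (h : Beyond ell s α (fin t)) {y : Pt W}
    (hy : Beyond ell t α' y) : Beyond ell s α y := by
  obtain ⟨h1, h2, β, h3, h4⟩ := beyond_fin ell h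
  refine ⟨fun i hi => ?_, β, h3, ?_⟩
  · rw [hy.1 i (hi.trans h1)]; exact h2 i hi
  · rw [hy.1 _ h1]; exact h4

theorem N_open (s : List W) (α : W) : @IsOpen _ (topo ell hb) (N ell s α) := by
  rw [open_iff]
  rintro t (ht | ht)
  · have : t = s := by simpa using ht
    subst this
    exact ⟨α, fun y hy => Or.inr hy⟩
  · exact ⟨α, fun y hy => Or.inr (beyond_trans ell ht hy)⟩

theorem ext_val {y : Pt W} {t : List W} (h : ∀ n, val ell y n = t[n]?) : y = fin t := by
  cases y with
  | fin s =>
    congr 1
    exact List.ext_getElem? h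
  | lim γ =>
    have h1 := h t.length
    rw [List.getElem?_eq_none le_rfl] at h1
    exact absurd h1 (by simp [val])

/-- complements of basic sets are open -/
theorem N_compl_open (s : List W) (α : W) : @IsOpen _ (topo ell hb) (N ell s α)ᶜ := by
  rw [open_iff]
  intro t ht
  have ht' : ¬ (fin t = fin s ∨ Beyond ell s α (fin t : Pt W)) := ht
  push Not at ht'
  obtain ⟨hne, hnb⟩ := ht'
  -- compare `t` and `s`
  by_cases hlen : t.length ≤ s.length ∧ ∀ i < t.length, t[i]? = s[i]?
  · -- `t` is an initial segment of `s`; `t ≠ s`, so it is a proper one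
    obtain ⟨hle, hag⟩ := hlen
    have hlt : t.length < s.length := by
      rcases hle.lt_or_eq with h | h
      · exact h
      · exfalso
        apply hne
        congr 1
        apply List.ext_getElem?
        intro n
        by_cases hn : n < t.length
        · exact hag n hn
        · rw [List.getElem?_eq_none (not_lt.1 hn), List.getElem?_eq_none (by omega)]
    obtain ⟨β, hβ⟩ : ∃ β, s[t.length]? = some β := ⟨_, List.getElem?_eq_getElem hlt⟩
    obtain ⟨w, hw⟩ := hb {β} (countable_singleton β)
    refine ⟨w, fun y hy hyN => ?_⟩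
    obtain ⟨h1, γ, h2, h3⟩ := hy
    have h4 : val ell y t.length = s[t.length]? := by
      rcases hyN with rfl | hyN
      · rfl
      · exact hyN.1 _ hlt
    rw [h4, hβ] at h3
    have : β = γ := by simpa using h3
    subst this
    exact absurd (hw β rfl) (not_lt.2 h2)
  · -- some difference persists
    refine ⟨α, fun y hy hyN => ?_⟩
    by_cases hle : t.length ≤ s.length
    · have : ∃ i, i < t.length ∧ t[i]? ≠ s[i]? := by
        by_contra hcon
        push Not at hcon
        exact hlen ⟨hle, hcon⟩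
      obtain ⟨i, hi, hne'⟩ := this
      apply hne'
      rw [← hy.1 i hi]
      rcases hyN with rfl | hyN
      · rfl
      · exact hyN.1 i (lt_of_lt_of_le hi hle)
    · push Not at hle
      rcases hyN with rfl | hyN
      · obtain ⟨h1, γ, h2, h3⟩ := hy
        have : (fin s : Pt W) = fin s := rfl
        have h4 : s[t.length]? = some γ := h3
        rw [List.getElem?_eq_none hle.le] at h4
        exact absurd h4 (by simp)
      · apply hnb
        obtain ⟨h1, β, h2, h3⟩ := hyN
        refine ⟨fun i hi => ?_, β, h2, ?_⟩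
        · have := hy.1 i (hi.trans hle)
          change t[i]? = s[i]?
          rw [← this]
          exact h1 i hi
        · have := hy.1 _ hle
          change t[s.length]? = some β
          rw [← this]
          exact h3

theorem lim_open (S : Set W) : @IsOpen _ (topo ell hb) (lim '' S) := by
  rw [open_iff]
  rintro s ⟨γ, _, hγ⟩
  exact absurd hγ (by simp)

theorem lim_compl_open (γ : W) : @IsOpen _ (topo ell hb) ({lim γ}ᶜ : Set (Pt W)) := by
  rw [open_iff]
  intro s _
  obtain ⟨w, hw⟩ := hb {ell γ s.length} (countable_singleton _)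
  refine ⟨w, fun y hy hyγ => ?_⟩
  have : y = lim γ := hyγ
  subst this
  obtain ⟨_, β, h2, h3⟩ := hy
  have : ell γ s.length = β := by simpa [val] using h3
  subst this
  exact absurd (hw _ rfl) (not_lt.2 h2)

theorem t2 : @T2Space (Pt W) (topo ell hb) := by
  letI := topo ell hb
  -- separate by clopen sets
  have hsep : ∀ x y : Pt W, x ≠ y → (∃ U : Set (Pt W), IsOpen U ∧ IsOpen Uᶜ ∧ x ∈ U ∧ y ∉ U) := by
    intro x y hxy
    cases x with
    | lim γ =>
      refine ⟨{lim γ}, ?_, lim_compl_open ell hb γ, rfl, fun h => hxy h.symm⟩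
      have := lim_open ell hb {γ}
      rwa [image_singleton] at this
    | fin s =>
      cases y with
      | lim γ =>
        refine ⟨{lim γ}ᶜ, lim_compl_open ell hb γ, ?_, by simp, by simp⟩
        rw [compl_compl]
        have := lim_open ell hb {γ}
        rwa [image_singleton] at this
      | fin t =>
        -- choose `α` with `fin t ∉ N s α`, or the other way round
        obtain ⟨w, hw⟩ := hb (insert (ell (Classical.choose (hb ∅ countable_empty)) 0)
          {β | t[s.length]? = some β}) (by
            refine Set.Countable.insert _ ?_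
            refine Set.Subsingleton.countable ?_
            intro a ha b hb'
            have ha' : t[s.length]? = some a := ha
            have hb'' : t[s.length]? = some b := hb'
            rw [ha'] at hb''
            simpa using hb'')
        refine ⟨N ell s w, N_open ell hb s w, N_compl_open ell hb s w, Or.inl rfl, ?_⟩
        rintro (h | h)
        · exact hxy h.symm
        · obtain ⟨-, -, β, h2, h3⟩ := beyond_fin ell h
          exact absurd (hw β (Or.inr h3)) (not_lt.2 h2)
  refine ⟨fun x y hxy => ?_⟩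
  obtain ⟨U, h1, h2, h3, h4⟩ := hsep x y hxy
  exact ⟨U, Uᶜ, h1, h2, h3, h4, disjoint_compl_right⟩

theorem clopen_basis : ∃ B : Set (Set (Pt W)),
    @TopologicalSpace.IsTopologicalBasis _ (topo ell hb) B ∧
      ∀ U ∈ B, @IsClopen _ (topo ell hb) U := by
  letI := topo ell hb
  refine ⟨{U | IsClopen U}, ?_, fun U hU => hU⟩
  apply TopologicalSpace.isTopologicalBasis_of_isOpen_of_nhds
  · intro U hU; exact hU.2
  · intro x U hx hU
    cases x with
    | lim γ =>
      refine ⟨{lim γ}, ⟨⟨lim_compl_open ell hb γ⟩, ?_⟩, rfl, by simpa using hx⟩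
      have := lim_open ell hb {γ}
      rwa [image_singleton] at this
    | fin s =>
      obtain ⟨α, hα⟩ := hU s hx
      refine ⟨N ell s α, ⟨⟨N_compl_open ell hb s α⟩, N_open ell hb s α⟩, Or.inl rfl, ?_⟩
      rintro y (rfl | hy)
      · exact hx
      · exact hα y hy

theorem lists_countable {A : Set W} (hA : A.Countable) :
    {s : List W | ∀ x ∈ s, x ∈ A}.Countable := by
  have := hA.to_subtype
  refine (Set.countable_range (fun s : List A => s.map Subtype.val)).mono ?_
  intro s hs
  have hs' : ∀ x ∈ s, x ∈ A := hs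
  exact ⟨s.attachWith (· ∈ A) hs', by simp⟩

/-- initial lists of a point -/
theorem exists_initial (y : Pt W) (n : ℕ) {β : W} (h : val ell y n = some β) :
    ∃ s : List W, s.length = n ∧ (∀ i < n, val ell y i = s[i]?) ∧
      ∀ x ∈ s, ∃ i < n, val ell y i = some x := by
  cases y with
  | fin t =>
    have hlt : n < t.length := by
      by_contra hcon
      have h' : t[n]? = some β := h
      rw [List.getElem?_eq_none (not_lt.1 hcon)] at h'
      exact absurd h' (by simp)
    refine ⟨t.take n, by simp [hlt.le], ?_, ?_⟩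
    · intro i hi
      change t[i]? = (t.take n)[i]?
      rw [List.getElem?_take_of_lt hi]
    · intro x hx
      obtain ⟨i, hi, hix⟩ := List.mem_iff_getElem.1 hx
      have hin : i < n := by
        rw [List.length_take] at hi
        exact lt_of_lt_of_le hi (min_le_left _ _)
      refine ⟨i, hin, ?_⟩
      change t[i]? = some x
      rw [← hix, List.getElem_take]
      exact List.getElem?_eq_getElem _
  | lim γ =>
    refine ⟨(List.range n).map (ell γ), by simp, ?_, ?_⟩
    · intro i hi
      simp [val, hi]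
    · intro x hx
      obtain ⟨i, hi, hix⟩ := List.mem_map.1 hx
      exact ⟨i, List.mem_range.1 hi, by simp [val, hix]⟩

theorem nlind [WellFoundedLT W] (hc : ∀ w : W, (Set.Iio w).Countable)
    (hell : ∀ γ α, (∀ n, ell γ n < α) → γ ≤ α) : @NLind (Pt W) (topo ell hb) := by
  classical
  intro O hO hx
  choose a ha using fun s : List W => (open_iff ell hb (O (fin s))).1 (hO (fin s)) s (hx (fin s))
  obtain ⟨w0, _⟩ := hb ∅ countable_empty
  obtain ⟨δ, -, hδ, -⟩ := exists_closed_bound hc hb
    (fun A : Finset W => a '' {s : List W | ∀ x ∈ s, x ∈ (↑A : Set W)})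
    (fun A => (lists_countable A.countable_toSet).image a) w0
  have hδ' : ∀ s : List W, (∀ x ∈ s, x < δ) → a s < δ := by
    intro s hs
    exact hδ s.toFinset (fun x hx => hs x (by simpa using hx)) (a s)
      ⟨s, fun x hx => by simpa using hx, rfl⟩
  have hIic : (Set.Iic δ).Countable := by
    have : Set.Iic δ = insert δ (Set.Iio δ) := by ext x; simp [le_iff_eq_or_lt]
    rw [this]; exact (hc δ).insert δ
  refine ⟨fin '' {s : List W | ∀ x ∈ s, x ∈ Set.Iio δ} ∪ lim '' Set.Iic δ,
    ((lists_countable (hc δ)).image _).union (hIic.image _), ?_⟩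
  intro y
  by_cases h : ∃ n, ∃ β, val ell y n = some β ∧ δ ≤ β
  · have hn := Nat.find_spec h
    have hmin := fun m => Nat.find_min h (m := m)
    set n := Nat.find h with hndef
    obtain ⟨β, hβ, hδβ⟩ := hn
    obtain ⟨s, hsl, hs1, hs2⟩ := exists_initial ell y n hβ
    have hs3 : ∀ x ∈ s, x < δ := by
      intro x hx
      obtain ⟨i, hi, hix⟩ := hs2 x hx
      by_contra hcon
      exact hmin i hi ⟨x, hix, not_lt.1 hcon⟩
    refine ⟨fin s, Or.inl ⟨s, hs3, rfl⟩, ha s y ?_⟩
    rw [← hsl] at hs1 hβ
    exact ⟨hs1, β, (hδ' s hs3).le.trans hδβ, hβ⟩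
  · push Not at h
    refine ⟨y, ?_, hx y⟩
    cases y with
    | fin t =>
      left
      refine ⟨t, fun x hx => ?_, rfl⟩
      obtain ⟨i, hi, hix⟩ := List.mem_iff_getElem.1 hx
      exact h i x (by
        change t[i]? = some x
        rw [← hix]; exact List.getElem?_eq_getElem _)
    | lim γ =>
      right
      exact ⟨γ, hell γ δ (fun n => h n _ rfl), rfl⟩

/-- the canonical functions `ell` -/
theorem exists_ell [WellFoundedLT W] (hc : ∀ w : W, (Set.Iio w).Countable) :
    ∃ ell : W → ℕ → W, (∀ γ α, (∀ n, ell γ n < α) → γ ≤ α) ∧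
      ∀ γ, (Set.Iio γ).Nonempty → ∀ n, ell γ n < γ := by
  classical
  have h : ∀ γ : W, ∃ f : ℕ → W, (Set.Iio γ).Nonempty → Set.Iio γ = Set.range f := by
    intro γ
    by_cases hne : (Set.Iio γ).Nonempty
    · obtain ⟨f, hf⟩ := (hc γ).exists_eq_range hne
      exact ⟨f, fun _ => hf⟩
    · exact ⟨fun _ => γ, fun h => absurd h hne⟩
  choose f hf using h
  refine ⟨f, ?_, ?_⟩
  · intro γ α h
    by_cases hne : (Set.Iio γ).Nonempty
    · by_contra hcon
      have h1 : α ∈ Set.Iio γ := not_le.1 hcon
      rw [hf γ hne] at h1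
      obtain ⟨n, hn⟩ := h1
      exact absurd (h n) (by rw [hn]; exact lt_irrefl α)
    · by_contra hcon
      exact hne ⟨α, not_le.1 hcon⟩
  · intro γ hne n
    have : f γ n ∈ Set.Iio γ := by rw [hf γ hne]; exact ⟨n, rfl⟩
    exact this

end Space

end Pool.Agent.V11217.Tree
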