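import Mathlib

/-!
# `ℝ × Σ` is weakly pseudocompact, `ℝ`-factorizable, `ω`-narrow and not precompact
-/

open Topology Set Filter

namespace Pool.Agent.V11217.WeakPseudo

universe u

/-- `X` is *weakly pseudocompact*: it is `Gδ`-dense in some Hausdorff compactification. -/
def WeaklyPseudocompact (X : Type u) [TopologicalSpace X] : Prop :=
  ∃ (B : Type u) (_ : TopologicalSpace B) (_ : CompactSpace B) (_ : T2Space B) (e : X → B),
    IsEmbedding e ∧ DenseRange e ∧
      ∀ S : Set B, IsGδ S → S.Nonempty → (S ∩ range e).Nonempty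

/-- `G` (written additively) is *precompact*. -/
def Precompact (G : Type u) [AddGroup G] [TopologicalSpace G] : Prop :=
  ∀ U ∈ 𝓝 (0 : G), ∃ F : Set G, F.Finite ∧ ∀ g : G, ∃ f ∈ F, ∃ u ∈ U, g = f + u

/-- `G` (written additively) is *`ω`-bounded* in Guran's sense (`ω`-narrow). -/
def OmegaNarrow (G : Type u) [AddGroup G] [TopologicalSpace G] : Prop :=
  ∀ U ∈ 𝓝 (0 : G), ∃ F : Set G, F.Countable ∧ ∀ g : G, ∃ f ∈ F, ∃ u ∈ U, g = f + u

/-- `G` (written additively) is *`ℝ`-factorizable*. -/
def RFactorizable (G : Type u) [AddGroup G] [TopologicalSpace G] : Prop :=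
  ∀ f : G → ℝ, Continuous f →
    ∃ (H : Type u) (_ : AddGroup H) (_ : TopologicalSpace H) (_ : IsTopologicalAddGroup H)
      (_ : T2Space H) (_ : SecondCountableTopology H) (π : G →+ H) (h : H → ℝ),
      Continuous π ∧ Function.Surjective π ∧ Continuous h ∧ ∀ g, f g = h (π g)

/-! ### The general lemma -/

section General

variable {Y C : Type u} [TopologicalSpace Y] [TopologicalSpace C] [T2Space Y] [T2Space C]
  [LocallyCompactSpace Y] [CompactSpace C]

theorem weaklyPseudocompact_prod (y₀ : Y) (K : Set C)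
    (hK : ∀ S : Set C, IsGδ S → S.Nonempty → (S ∩ K).Nonempty) (p : C) (hp : p ∉ K) :
    WeaklyPseudocompact (Y × K) := by
  classical
  set q : Y × C := (y₀, p) with hq
  have hopen : IsOpen ({q}ᶜ : Set (Y × C)) := isOpen_compl_singleton
  have : LocallyCompactSpace ({q}ᶜ : Set (Y × C)) :=
    hopen.isOpenEmbedding_subtypeVal.locallyCompactSpace
  let L := ({q}ᶜ : Set (Y × C))
  have hne : ∀ z : Y × K, ((z.1, (z.2 : C)) : Y × C) ∈ ({q}ᶜ : Set (Y × C)) := by
    intro z hz
    have : (z.1, (z.2 : C)) = q := hz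
    have h2 : (z.2 : C) = p := congrArg Prod.snd this
    exact hp (h2 ▸ z.2.2)
  let j : Y × K → L := fun z => ⟨(z.1, (z.2 : C)), hne z⟩
  have hj : IsEmbedding j := by
    have h1 : IsEmbedding (fun z : Y × K => ((z.1, (z.2 : C)) : Y × C)) :=
      IsEmbedding.id.prodMap IsEmbedding.subtypeVal
    exact h1.codRestrict _ hne
  let e : Y × K → OnePoint L := fun z => ((j z : L) : OnePoint L)
  have he : IsEmbedding e := OnePoint.isOpenEmbedding_coe.isEmbedding.comp hj
  -- the key property
  have key : ∀ S : Set (OnePoint L), IsGδ S → S.Nonempty → (S ∩ range e).Nonempty := by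
    intro S hS hSne
    obtain ⟨U, hU, rfl⟩ := hS.eq_iInter_nat
    obtain ⟨s, hs⟩ := hSne
    have hsU : ∀ n, s ∈ U n := fun n => mem_iInter.1 hs n
    -- open sets of `Y × C`
    have hO : ∀ n, IsOpen (Subtype.val '' ((fun l : L => (l : OnePoint L)) ⁻¹' U n)) := by
      intro n
      exact hopen.isOpenMap_subtype_val _ ((hU n).preimage OnePoint.continuous_coe)
    induction s using OnePoint.rec with
    | coe l =>
      obtain ⟨⟨y, c⟩, hl⟩ := l
      have hT : IsGδ {c' : C | ∀ n, ((y, c') : Y × C) ∈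
          Subtype.val '' ((fun l : L => (l : OnePoint L)) ⁻¹' U n)} := by
        rw [setOf_forall]
        exact IsGδ.iInter fun n => ((hO n).preimage (by fun_prop : Continuous
          (fun c' : C => ((y, c') : Y × C)))).isGδ
      obtain ⟨k, hk, hkK⟩ := hK _ hT ⟨c, fun n => ⟨⟨(y, c), hl⟩, hsU n, rfl⟩⟩
      refine ⟨e (y, ⟨k, hkK⟩), ?_, mem_range_self _⟩
      rw [mem_iInter]
      intro n
      obtain ⟨l, hl, hl2⟩ := hk n
      have : l = j (y, ⟨k, hkK⟩) := Subtype.ext hl2
      rw [this] at hl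
      exact hl
    | infty =>
      have hV : ∀ n, IsOpen (Subtype.val '' ((fun l : L => (l : OnePoint L)) ⁻¹' U n) ∪ {q}) := by
        intro n
        have hc : IsCompact (((fun l : L => (l : OnePoint L)) ⁻¹' U n)ᶜ) :=
          ((OnePoint.isOpen_iff_of_mem (hsU n)).1 (hU n)).2
        have hc2 : IsClosed (Subtype.val '' (((fun l : L => (l : OnePoint L)) ⁻¹' U n)ᶜ)) :=
          (hc.image continuous_subtype_val).isClosed
        have heq : (Subtype.val '' ((fun l : L => (l : OnePoint L)) ⁻¹' U n) ∪ {q}) =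
            (Subtype.val '' (((fun l : L => (l : OnePoint L)) ⁻¹' U n)ᶜ))ᶜ := by
          ext z
          simp only [mem_union, mem_image, mem_preimage, mem_singleton_iff, mem_compl_iff]
          constructor
          · rintro (⟨l, hl, rfl⟩ | rfl)
            · rintro ⟨l', hl', hll⟩
              have : l' = l := Subtype.ext hll
              exact hl' (this ▸ hl)
            · rintro ⟨l', -, hll⟩
              exact l'.2 hll
          · intro h
            by_cases hz : z = q
            · right; exact hz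
            · left
              refine ⟨⟨z, hz⟩, ?_, rfl⟩
              by_contra hcon
              exact h ⟨⟨z, hz⟩, hcon, rfl⟩
        rw [heq]
        exact hc2.isOpen_compl
      have hT : IsGδ {c' : C | ∀ n, ((y₀, c') : Y × C) ∈
          Subtype.val '' ((fun l : L => (l : OnePoint L)) ⁻¹' U n) ∪ {q}} := by
        rw [setOf_forall]
        exact IsGδ.iInter fun n => ((hV n).preimage (by fun_prop : Continuous
          (fun c' : C => ((y₀, c') : Y × C)))).isGδ
      obtain ⟨k, hk, hkK⟩ := hK _ hT ⟨p, fun n => Or.inr rfl⟩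
      refine ⟨e (y₀, ⟨k, hkK⟩), ?_, mem_range_self _⟩
      rw [mem_iInter]
      intro n
      rcases hk n with ⟨l, hl, hl2⟩ | h
      · have : l = j (y₀, ⟨k, hkK⟩) := Subtype.ext hl2
        rw [this] at hl
        exact hl
      · exact absurd h (hne (y₀, ⟨k, hkK⟩))
  refine ⟨OnePoint L, inferInstance, inferInstance, inferInstance, e, he, ?_, key⟩
  rw [DenseRange, dense_iff_inter_open]
  intro U hU hne
  exact key U hU.isGδ hne

end General

/-! ### The `Σ`-product -/

/-- The compact group `𝕋^ℝ`. -/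
abbrev T : Type := ℝ → UnitAddCircle

/-- The `Σ`-product subgroup of `𝕋^ℝ`: points with countable support. -/
def Sig : AddSubgroup T where
  carrier := {x | {w | x w ≠ 0}.Countable}
  zero_mem' := by simp
  add_mem' := by
    intro a b ha hb
    refine (ha.union hb).mono ?_
    intro w hw
    by_contra hcon
    simp only [mem_union, mem_setOf_eq, not_or, not_not] at hcon
    exact hw (by simp [hcon.1, hcon.2])
  neg_mem' := by
    intro a ha
    refine Set.Countable.mono ?_ ha
    intro w hw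
    simpa using hw

theorem mem_Sig {x : T} : x ∈ Sig ↔ {w | x w ≠ 0}.Countable := Iff.rfl

open Classical in
/-- truncation of a point to a set of coordinates -/
noncomputable def trunc (A : Set ℝ) (x : T) : T := fun w => if w ∈ A then x w else 0

theorem trunc_mem {A : Set ℝ} (hA : A.Countable) (x : T) : trunc A x ∈ Sig := by
  refine Set.Countable.mono ?_ hA
  intro w hw
  by_contra hcon
  exact hw (by simp [trunc, hcon])

theorem trunc_apply {A : Set ℝ} (x : T) {w : ℝ} (hw : w ∈ A) : trunc A x w = x w := by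
  simp [trunc, hw]

theorem trunc_apply_not {A : Set ℝ} (x : T) {w : ℝ} (hw : w ∉ A) : trunc A x w = 0 := by
  simp [trunc, hw]

theorem sig_gdelta_dense (S : Set T) (hS : IsGδ S) (hne : S.Nonempty) :
    (S ∩ (Sig : Set T)).Nonempty := by
  classical
  obtain ⟨U, hU, rfl⟩ := hS.eq_iInter_nat
  obtain ⟨c, hc⟩ := hne
  have hcU : ∀ n, c ∈ U n := fun n => mem_iInter.1 hc n
  have h1 : ∀ n, ∃ (I : Finset ℝ) (u : ℝ → Set UnitAddCircle),
      (∀ a ∈ I, IsOpen (u a) ∧ c a ∈ u a) ∧ (I : Set ℝ).pi u ⊆ U n := fun n =>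
    isOpen_pi_iff.1 (hU n) c (hcU n)
  choose I u hu hsub using h1
  set A : Set ℝ := ⋃ n, (I n : Set ℝ) with hAdef
  have hA : A.Countable := countable_iUnion fun n => (I n).countable_toSet
  refine ⟨trunc A c, ?_, trunc_mem hA c⟩
  rw [mem_iInter]
  intro n
  apply hsub n
  intro a ha
  rw [trunc_apply c (mem_iUnion.2 ⟨n, ha⟩)]
  exact (hu n a ha).2

/-- a point outside the `Σ`-product -/
noncomputable def pt : T := fun _ => ((1 / 2 : ℝ) : UnitAddCircle)

theorem pt_ne : ((1 / 2 : ℝ) : UnitAddCircle) ≠ 0 := by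
  intro h
  rw [AddCircle.coe_eq_zero_iff] at h
  obtain ⟨n, hn⟩ := h
  have h2 : (n : ℝ) = 1 / 2 := by simpa using hn
  have h3 : (2 * n : ℝ) = 1 := by rw [h2]; norm_num
  have h4 : 2 * n = 1 := by exact_mod_cast h3
  omega

theorem not_countable_univ_real : ¬ (univ : Set ℝ).Countable := by
  intro h
  exact (Cardinal.not_countable_real) h

theorem pt_notMem : pt ∉ (Sig : Set T) := by
  intro h
  have h1 : ({w : ℝ | pt w ≠ 0}).Countable := h
  have h2 : {w : ℝ | pt w ≠ 0} = univ := by
    ext w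
    simp only [mem_setOf_eq, mem_univ, iff_true]
    exact pt_ne
  rw [h2] at h1
  exact not_countable_univ_real h1

/-- The group `ℝ × Σ`. -/
abbrev G : Type := ℝ × Sig

theorem weaklyPseudocompact_G : WeaklyPseudocompact G :=
  weaklyPseudocompact_prod (Y := ℝ) (C := T) 0 (Sig : Set T) sig_gdelta_dense pt pt_notMem

theorem not_precompact_G : ¬ Precompact G := by
  intro h
  have hU : (Ioo (-1 : ℝ) 1) ×ˢ (univ : Set Sig) ∈ 𝓝 (0 : G) :=
    prod_mem_nhds (Ioo_mem_nhds (by norm_num) (by norm_num)) univ_mem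
  obtain ⟨F, hF, hcov⟩ := h _ hU
  obtain ⟨M, hM⟩ := (hF.image (fun g : G => g.1)).bddAbove
  obtain ⟨f, hf, u, hu, hfu⟩ := hcov (M + 1, 0)
  have h1 : f.1 ≤ M := hM ⟨f, hf, rfl⟩
  have h2 : u.1 < 1 := hu.1.2
  have h3 : M + 1 = f.1 + u.1 := congrArg Prod.fst hfu
  linarith

theorem precompact_Sig : Precompact Sig := by
  intro U hU
  rw [nhds_subtype_eq_comap, mem_comap] at hU
  obtain ⟨V, hV, hVU⟩ := hU
  have hV0 : V ∈ 𝓝 (0 : T) := hV
  -- cover `T` by translates
  have hcov : (univ : Set T) ⊆ ⋃ k : Sig, (fun x : T => x - k) ⁻¹' (interior V) := by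
    intro c _
    have hO : IsOpen ((fun x : T => c - x) ⁻¹' (interior V)) :=
      isOpen_interior.preimage (by fun_prop)
    have hc : c ∈ (fun x : T => c - x) ⁻¹' (interior V) := by
      simp only [mem_preimage, sub_self]
      exact mem_interior_iff_mem_nhds.2 hV0
    obtain ⟨k, hk, hkS⟩ := sig_gdelta_dense _ hO.isGδ ⟨c, hc⟩
    exact mem_iUnion.2 ⟨⟨k, hkS⟩, hk⟩
  obtain ⟨F, hF⟩ := isCompact_univ.elim_finite_subcover _
    (fun k : Sig => isOpen_interior.preimage (by fun_prop)) hcov
  refine ⟨F, F.finite_toSet, fun g => ?_⟩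
  have := hF (mem_univ (g : T))
  simp only [mem_iUnion] at this
  obtain ⟨k, hk, hgk⟩ := this
  refine ⟨k, hk, g - k, ?_, by abel⟩
  apply hVU
  exact (interior_subset hgk : (g : T) - k ∈ V)

theorem omegaNarrow_G : OmegaNarrow G := by
  intro U hU
  rw [show (0 : G) = ((0 : ℝ), (0 : Sig)) from rfl, nhds_prod_eq, mem_prod_iff] at hU
  obtain ⟨U₁, hU₁, U₂, hU₂, hsub⟩ := hU
  obtain ⟨F, hF, hcov⟩ := precompact_Sig U₂ hU₂
  refine ⟨(range ((↑) : ℚ → ℝ)) ×ˢ F, (countable_range _).prod hF.countable, ?_⟩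
  rintro ⟨t, x⟩
  obtain ⟨f, hf, u, hu, hfu⟩ := hcov x
  have h1 : (fun s : ℝ => t - s) ⁻¹' U₁ ∈ 𝓝 t := by
    have hcont : Continuous (fun s : ℝ => t - s) := by fun_prop
    apply hcont.continuousAt.preimage_mem_nhds
    simpa using hU₁
  obtain ⟨s, hs, hsQ⟩ := (mem_closure_iff_nhds.1 (Rat.denseRange_cast (𝕜 := ℝ) t)) _ h1
  refine ⟨(s, f), ⟨hsQ, hf⟩, (t - s, u), hsub ⟨hs, hu⟩, ?_⟩
  ext1
  · simp
  · exact hfu

/-! ### Continuous functions depend on countably many coordinates -/

/-- the points of `T` supported in `A` -/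
theorem extend_continuous (A : Set ℝ) :
    Continuous (fun a : A → UnitAddCircle => (fun w : ℝ => open Classical in
      if h : w ∈ A then a ⟨w, h⟩ else 0 : T)) := by
  classical
  refine continuous_pi fun w => ?_
  by_cases h : w ∈ A
  · simp only [h, dite_true]
    exact continuous_apply _
  · simp only [h, dite_false]
    exact continuous_const

/-- extension by zero -/
noncomputable def ext0 (A : Set ℝ) (hA : A.Countable) (a : A → UnitAddCircle) : Sig :=
  ⟨fun w : ℝ => open Classical in if h : w ∈ A then a ⟨w, h⟩ else 0, by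
    classical
    refine Set.Countable.mono ?_ hA
    intro w hw
    by_contra hcon
    exact hw (by simp [hcon])⟩

theorem ext0_continuous (A : Set ℝ) (hA : A.Countable) : Continuous (ext0 A hA) :=
  (extend_continuous A).subtype_mk _

theorem ext0_apply (A : Set ℝ) (hA : A.Countable) (a : A → UnitAddCircle) {w : ℝ} (hw : w ∈ A) :
    (ext0 A hA a : T) w = a ⟨w, hw⟩ := by
  simp [ext0, hw]

theorem ext0_apply_not (A : Set ℝ) (hA : A.Countable) (a : A → UnitAddCircle) {w : ℝ}
    (hw : w ∉ A) : (ext0 A hA a : T) w = 0 := by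
  simp [ext0, hw]

theorem dep_eps (g : Sig → ℝ) (hg : Continuous g) (ε : ℝ) (hε : 0 < ε) :
    ∃ A : Set ℝ, A.Countable ∧ ∀ x y : Sig, (∀ w ∈ A, (x : T) w = (y : T) w) →
      |g x - g y| < ε := by
  classical
  by_contra hcon
  push Not at hcon
  choose! X Y hXY hge using hcon
  -- the sequence of countable sets
  let supp : Sig → Set ℝ := fun x => {w | (x : T) w ≠ 0}
  have hsupp : ∀ x : Sig, (supp x).Countable := fun x => x.2
  let F : ℕ → Set ℝ := fun n => Nat.rec ∅ (fun _ B => B ∪ supp (X B) ∪ supp (Y B)) n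
  have hFs : ∀ n, F (n + 1) = F n ∪ supp (X (F n)) ∪ supp (Y (F n)) := fun n => rfl
  have hFc : ∀ n, (F n).Countable := by
    intro n
    induction n with
    | zero => exact countable_empty
    | succ n ih => rw [hFs]; exact (ih.union (hsupp _)).union (hsupp _)
  have hmono : Monotone F := monotone_nat_of_le_succ fun n => by
    rw [hFs]
    exact subset_union_left.trans subset_union_left
  set A : Set ℝ := ⋃ n, F n with hA
  have hAc : A.Countable := countable_iUnion hFc
  have : Countable A := hAc.to_subtype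
  let x : ℕ → Sig := fun n => X (F n)
  let y : ℕ → Sig := fun n => Y (F n)
  have hxA : ∀ n, supp (x n) ⊆ A := fun n => by
    refine Subset.trans ?_ (subset_iUnion F (n + 1))
    rw [hFs]
    exact subset_union_right.trans subset_union_left
  have hyA : ∀ n, supp (y n) ⊆ A := fun n => by
    refine Subset.trans ?_ (subset_iUnion F (n + 1))
    rw [hFs]
    exact subset_union_right
  let r : Sig → (A → UnitAddCircle) := fun z w => (z : T) w
  have hrx : ∀ z : Sig, supp z ⊆ A → ext0 A hAc (r z) = z := by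
    intro z hz
    apply Subtype.ext
    funext w
    by_cases hw : w ∈ A
    · rw [ext0_apply A hAc _ hw]
    · rw [ext0_apply_not A hAc _ hw]
      by_contra hcon
      exact hw (hz (fun h => hcon h.symm))
  obtain ⟨a, -, φ, hφ, hlim⟩ := (isCompact_univ (X := A → UnitAddCircle)).isSeqCompact
    (x := fun n => r (x n)) (fun n => mem_univ _)
  have hlimy : Tendsto (fun n => r (y (φ n))) atTop (𝓝 a) := by
    rw [tendsto_pi_nhds] at hlim ⊢
    intro w
    refine (hlim w).congr' ?_
    obtain ⟨m, hm⟩ := mem_iUnion.1 w.2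
    filter_upwards [eventually_ge_atTop m] with n hn
    have : (w : ℝ) ∈ F (φ n) := hmono (hn.trans (hφ.id_le n)) hm
    exact hXY (F (φ n)) (hFc _) w this
  have h1 : Tendsto (fun n => g (x (φ n))) atTop (𝓝 (g (ext0 A hAc a))) := by
    have := ((hg.comp (ext0_continuous A hAc)).tendsto a).comp hlim
    refine this.congr fun n => ?_
    simp only [Function.comp]
    rw [hrx _ (hxA _)]
  have h2 : Tendsto (fun n => g (y (φ n))) atTop (𝓝 (g (ext0 A hAc a))) := by
    have := ((hg.comp (ext0_continuous A hAc)).tendsto a).comp hlimy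
    refine this.congr fun n => ?_
    simp only [Function.comp]
    rw [hrx _ (hyA _)]
  have h3 : Tendsto (fun n => |g (x (φ n)) - g (y (φ n))|) atTop (𝓝 0) := by
    have := (h1.sub h2).abs
    simpa using this
  have h4 : ∀ n, ε ≤ |g (x (φ n)) - g (y (φ n))| := fun n => hge (F (φ n)) (hFc _)
  exact absurd (ge_of_tendsto' h3 h4) (not_le.2 hε)

theorem dep (g : Sig → ℝ) (hg : Continuous g) :
    ∃ A : Set ℝ, A.Countable ∧ ∀ x y : Sig, (∀ w ∈ A, (x : T) w = (y : T) w) → g x = g y := by
  have h : ∀ n : ℕ, ∃ A : Set ℝ, A.Countable ∧ ∀ x y : Sig, (∀ w ∈ A, (x : T) w = (y : T) w) →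
      |g x - g y| < 1 / ((n : ℝ) + 1) := fun n => dep_eps g hg _ (by positivity)
  choose A hA h using h
  refine ⟨⋃ n, A n, countable_iUnion hA, fun x y hxy => ?_⟩
  by_contra hne
  have hpos : 0 < |g x - g y| := abs_pos.2 (sub_ne_zero.2 hne)
  obtain ⟨n, hn⟩ := exists_nat_one_div_lt hpos
  exact absurd (h n x y fun w hw => hxy w (mem_iUnion.2 ⟨n, hw⟩)) (not_lt.2 hn.le)

theorem dep_G (f : G → ℝ) (hf : Continuous f) :
    ∃ A : Set ℝ, A.Countable ∧ ∀ t : ℝ, ∀ x y : Sig, (∀ w ∈ A, (x : T) w = (y : T) w) →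
      f (t, x) = f (t, y) := by
  have h : ∀ q : ℚ, ∃ A : Set ℝ, A.Countable ∧ ∀ x y : Sig,
      (∀ w ∈ A, (x : T) w = (y : T) w) → f ((q : ℝ), x) = f ((q : ℝ), y) := fun q =>
    dep (fun x => f ((q : ℝ), x)) (by fun_prop)
  choose A hA h using h
  refine ⟨⋃ q, A q, countable_iUnion hA, fun t x y hxy => ?_⟩
  have hc : IsClosed {t : ℝ | f (t, x) = f (t, y)} := isClosed_eq (by fun_prop) (by fun_prop)
  have hsub : range ((↑) : ℚ → ℝ) ⊆ {t : ℝ | f (t, x) = f (t, y)} := by
    rintro _ ⟨q, rfl⟩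
    exact h q x y fun w hw => hxy w (mem_iUnion.2 ⟨q, hw⟩)
  exact (closure_minimal hsub hc) (Rat.denseRange_cast (𝕜 := ℝ) t)

theorem rFactorizable_G : RFactorizable G := by
  intro f hf
  obtain ⟨A, hA, hdep⟩ := dep_G f hf
  have : Countable A := hA.to_subtype
  let π : G →+ ℝ × (A → UnitAddCircle) :=
    { toFun := fun z => (z.1, fun w => (z.2 : T) w)
      map_zero' := rfl
      map_add' := fun _ _ => rfl }
  refine ⟨ℝ × (A → UnitAddCircle), inferInstance, inferInstance, inferInstance, inferInstance,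
    inferInstance, π, fun z => f (z.1, ext0 A hA z.2), ?_, ?_, ?_, ?_⟩
  · change Continuous (fun z : G => ((z.1, fun w : A => (z.2 : T) w) : ℝ × (A → UnitAddCircle)))
    refine continuous_fst.prodMk (continuous_pi fun w => ?_)
    exact (continuous_apply (w : ℝ)).comp (continuous_subtype_val.comp continuous_snd)
  · rintro ⟨t, a⟩
    refine ⟨(t, ext0 A hA a), ?_⟩
    change (t, fun w : A => (ext0 A hA a : T) w) = (t, a)
    congr 1
    funext w
    exact ext0_apply A hA a w.2
  · exact hf.comp (continuous_fst.prodMk ((ext0_continuous A hA).comp continuous_snd))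
  · rintro ⟨t, x⟩
    refine hdep t _ _ fun w hw => ?_
    change (x : T) w = (ext0 A hA (fun w : A => (x : T) w) : T) w
    rw [ext0_apply A hA _ hw]

end Pool.Agent.V11217.WeakPseudo
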