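import Mathlib

/-!
A nonnegative `C¹` function vanishing on a Cantor set but not to second order at the gap
end points.
-/

namespace Pool.Agent.V11217.CantorW

open Set Filter Topology Cardinal

noncomputable section

/-- base profile -/
def base (x : ℝ) : ℝ := -(1/2) - Real.cos (2 * Real.pi * x)

/-- the `1`-periodic profile function -/
def psi (x : ℝ) : ℝ := base x ^ ((3:ℝ)/2)

/-- derivative of the profile -/
def dpsi (x : ℝ) : ℝ := (3/2) * base x ^ ((1:ℝ)/2) * (2 * Real.pi * Real.sin (2 * Real.pi * x))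

theorem rpow_nonpos {b : ℝ} (hb : b ≤ 0) : b ^ ((3:ℝ)/2) = 0 := by
  rcases hb.lt_or_eq with h | h
  · rw [Real.rpow_def_of_neg h]
    have : Real.cos (3/2 * Real.pi) = 0 := by
      rw [show (3/2 : ℝ) * Real.pi = Real.pi / 2 + Real.pi by ring, Real.cos_add_pi,
        Real.cos_pi_div_two, neg_zero]
    rw [this, mul_zero]
  · rw [h, Real.zero_rpow (by norm_num)]

theorem psi_nonneg (x : ℝ) : 0 ≤ psi x := by
  rcases le_total (base x) 0 with h | h
  · rw [psi, rpow_nonpos h]
  · exact Real.rpow_nonneg h _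

theorem psi_zero {x : ℝ} (h : base x ≤ 0) : psi x = 0 := rpow_nonpos h

theorem base_add_int (x : ℝ) (k : ℤ) : base (k + x) = base x := by
  unfold base
  rw [show 2 * Real.pi * (k + x) = 2 * Real.pi * x + k * (2 * Real.pi) by ring,
    Real.cos_add_int_mul_two_pi]

theorem psi_add_int (x : ℝ) (k : ℤ) : psi (k + x) = psi x := by
  unfold psi; rw [base_add_int]

theorem abs_base_le (x : ℝ) : |base x| ≤ 4 := by
  unfold base
  have h1 := Real.cos_le_one (2 * Real.pi * x)
  have h2 := Real.neg_one_le_cos (2 * Real.pi * x)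
  rw [abs_le]
  constructor <;> linarith

theorem hasDerivAt_base (x : ℝ) :
    HasDerivAt base (2 * Real.pi * Real.sin (2 * Real.pi * x)) x := by
  have h1 : HasDerivAt (fun x : ℝ => 2 * Real.pi * x) (2 * Real.pi) x := by
    simpa using (hasDerivAt_id x).const_mul (2 * Real.pi)
  have h2 := (h1.cos).const_sub (-(1/2) : ℝ)
  exact h2.congr_deriv (by ring)

theorem continuous_base : Continuous base := by
  unfold base; fun_prop

theorem hasDerivAt_psi (x : ℝ) : HasDerivAt psi (dpsi x) x := by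
  have h1 := (Real.hasDerivAt_rpow_const (x := base x) (p := 3/2) (Or.inr (by norm_num))).comp x
    (hasDerivAt_base x)
  refine h1.congr_deriv ?_
  unfold dpsi
  norm_num

theorem continuous_dpsi : Continuous dpsi := by
  unfold dpsi
  refine (continuous_const.mul (continuous_base.rpow_const fun x => Or.inr (by norm_num))).mul ?_
  fun_prop

theorem abs_psi_le (x : ℝ) : |psi x| ≤ 8 := by
  unfold psi
  refine (Real.abs_rpow_le_abs_rpow _ _).trans ?_
  have h1 : |base x| ^ ((3:ℝ)/2) ≤ 4 ^ ((3:ℝ)/2) :=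
    Real.rpow_le_rpow (abs_nonneg _) (abs_base_le x) (by norm_num)
  refine h1.trans ?_
  rw [show (4:ℝ) = 2 ^ (2:ℝ) by norm_num, ← Real.rpow_mul (by norm_num)]
  norm_num

theorem abs_dpsi_le (x : ℝ) : |dpsi x| ≤ 24 := by
  unfold dpsi
  rw [abs_mul, abs_mul, abs_mul (2 * Real.pi)]
  have h1 : |base x ^ ((1:ℝ)/2)| ≤ 2 := by
    refine (Real.abs_rpow_le_abs_rpow _ _).trans ?_
    have h1 : |base x| ^ ((1:ℝ)/2) ≤ 4 ^ ((1:ℝ)/2) :=
      Real.rpow_le_rpow (abs_nonneg _) (abs_base_le x) (by norm_num)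
    refine h1.trans ?_
    rw [show (4:ℝ) = 2 ^ (2:ℝ) by norm_num, ← Real.rpow_mul (by norm_num)]
    norm_num
  have h2 : |Real.sin (2 * Real.pi * x)| ≤ 1 := Real.abs_sin_le_one _
  have h3 : |2 * Real.pi| ≤ 8 := by
    rw [abs_of_pos (by positivity)]
    linarith [Real.pi_le_four]
  have h4 : |(3/2 : ℝ)| = 3/2 := abs_of_pos (by norm_num)
  rw [h4]
  have h5 : (3/2 : ℝ) * |base x ^ ((1:ℝ)/2)| ≤ 3/2 * 2 := by linarith
  have h6 : |2 * Real.pi| * |Real.sin (2 * Real.pi * x)| ≤ 8 * 1 :=
    mul_le_mul h3 h2 (abs_nonneg _) (by norm_num)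
  calc (3/2 : ℝ) * |base x ^ ((1:ℝ)/2)| * (|2 * Real.pi| * |Real.sin (2 * Real.pi * x)|)
      ≤ (3/2 * 2) * (8 * 1) := mul_le_mul h5 h6 (by positivity) (by norm_num)
    _ = 24 := by norm_num

/-- terms of the series -/
def term (n : ℕ) (x : ℝ) : ℝ := (1/9)^n * psi (3^n * x)

/-- derivatives of the terms -/
def dterm (n : ℕ) (x : ℝ) : ℝ := (1/3)^n * dpsi (3^n * x)

/-- the function -/
def w (x : ℝ) : ℝ := ∑' n, term n x

theorem hasDerivAt_term (n : ℕ) (x : ℝ) : HasDerivAt (term n) (dterm n x) x := by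
  have h1 : HasDerivAt (fun x : ℝ => (3:ℝ)^n * x) (3^n) x := by
    simpa using (hasDerivAt_id x).const_mul ((3:ℝ)^n)
  have h2 := ((hasDerivAt_psi (3^n * x)).comp x h1).const_mul ((1/9 : ℝ)^n)
  refine h2.congr_deriv ?_
  unfold dterm
  have : (1/3 : ℝ)^n = (1/9)^n * 3^n := by rw [← mul_pow]; norm_num
  rw [this]; ring

theorem summable_bound : Summable (fun n : ℕ => (1/3 : ℝ)^n * 24) :=
  (summable_geometric_of_lt_one (by norm_num) (by norm_num)).mul_right _

theorem abs_dterm_le (n : ℕ) (x : ℝ) : ‖dterm n x‖ ≤ (1/3 : ℝ)^n * 24 := by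
  unfold dterm
  rw [norm_mul, Real.norm_eq_abs, Real.norm_eq_abs, abs_of_pos (by positivity : (0:ℝ) < (1/3)^n)]
  exact mul_le_mul_of_nonneg_left (abs_dpsi_le _) (by positivity)

theorem abs_term_le (n : ℕ) (x : ℝ) : ‖term n x‖ ≤ (1/3 : ℝ)^n * 24 := by
  unfold term
  rw [norm_mul, Real.norm_eq_abs, Real.norm_eq_abs, abs_of_pos (by positivity : (0:ℝ) < (1/9)^n)]
  have h1 : (1/9 : ℝ)^n ≤ (1/3)^n := pow_le_pow_left₀ (by norm_num) (by norm_num) n
  have h2 := abs_psi_le (3^n * x)
  exact mul_le_mul h1 (h2.trans (by norm_num)) (abs_nonneg _) (by positivity)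

theorem summable_term (x : ℝ) : Summable (fun n => term n x) :=
  Summable.of_norm_bounded summable_bound (fun n => abs_term_le n x)

theorem hasDerivAt_w (x : ℝ) : HasDerivAt w (∑' n, dterm n x) x :=
  hasDerivAt_tsum (y₀ := 0) summable_bound hasDerivAt_term abs_dterm_le (summable_term 0) x

theorem contDiff_w : ContDiff ℝ 1 w := by
  rw [contDiff_one_iff_deriv]
  refine ⟨fun x => (hasDerivAt_w x).differentiableAt, ?_⟩
  have : deriv w = fun x => ∑' n, dterm n x := by
    ext x; exact (hasDerivAt_w x).deriv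
  rw [this]
  refine continuous_tsum (fun n => ?_) summable_bound abs_dterm_le
  unfold dterm
  exact continuous_const.mul (continuous_dpsi.comp (by fun_prop))

theorem term_nonneg (n : ℕ) (x : ℝ) : 0 ≤ term n x :=
  mul_nonneg (by positivity) (psi_nonneg _)

theorem term_le_w (n : ℕ) (x : ℝ) : term n x ≤ w x :=
  (summable_term x).le_tsum n (fun m _ => term_nonneg m x)

/-- the parametrisation of the Cantor set -/
def Phi (e : ℕ → Bool) : ℝ := 2/3 * cantorFunction (1/3) e

theorem Phi_succ (e : ℕ → Bool) :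
    Phi e = (2 * cond (e 0) 1 0 + Phi (fun n => e (n + 1))) / 3 := by
  unfold Phi
  rw [cantorFunction_succ e (by norm_num) (by norm_num)]
  ring

theorem Phi_true : Phi (fun _ => true) = 1 := by
  have := Phi_succ (fun _ => true)
  simp only [cond_true] at this
  linarith

theorem Phi_false : Phi (fun _ => false) = 0 := by
  have := Phi_succ (fun _ => false)
  simp only [cond_false] at this
  linarith

theorem Phi_mono {e e' : ℕ → Bool} (h : ∀ n, e n → e' n) : Phi e ≤ Phi e' := by
  unfold Phi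
  have := cantorFunction_le (c := 1/3) (f := e) (g := e') (by norm_num) (by norm_num) h
  linarith

theorem Phi_le_one (e : ℕ → Bool) : Phi e ≤ 1 := by
  rw [← Phi_true]; exact Phi_mono (fun n _ => rfl)

theorem Phi_nonneg (e : ℕ → Bool) : 0 ≤ Phi e := by
  rw [← Phi_false]; exact Phi_mono (fun n h => by simp at h)

theorem Phi_injective : Function.Injective Phi := by
  intro e e' h
  apply cantorFunction_injective (c := 1/3) (by norm_num) (by norm_num)
  unfold Phi at h
  linarith

theorem continuous_Phi : Continuous Phi := by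
  unfold Phi cantorFunction
  refine continuous_const.mul (continuous_tsum (u := fun n => (1/3 : ℝ)^n) (fun n => ?_)
    (summable_geometric_of_lt_one (by norm_num) (by norm_num)) ?_)
  · unfold cantorFunctionAux
    have h : Continuous (fun b : Bool => cond b ((1/3 : ℝ)^n) 0) := continuous_of_discreteTopology
    exact h.comp (continuous_apply n)
  · intro n e
    unfold cantorFunctionAux
    cases e n
    · simp
    · simp

theorem psi_Phi (e : ℕ → Bool) : psi (Phi e) = 0 := by
  apply psi_zero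
  unfold base
  have key : ∀ y : ℝ, 0 ≤ y → y ≤ 1/3 → -(1/2) ≤ Real.cos (2 * Real.pi * y) := by
    intro y hy0 hy1
    have hpi := Real.pi_pos
    have h1 : Real.cos (2 * Real.pi * (1/3)) ≤ Real.cos (2 * Real.pi * y) := by
      apply Real.cos_le_cos_of_nonneg_of_le_pi
      · positivity
      · nlinarith
      · nlinarith
    have h2 : Real.cos (2 * Real.pi * (1/3)) = -(1/2) := by
      rw [show 2 * Real.pi * (1/3) = Real.pi - Real.pi / 3 by ring, Real.cos_pi_sub,
        Real.cos_pi_div_three]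
    linarith
  rw [Phi_succ]
  have hp0 := Phi_nonneg (fun n => e (n + 1))
  have hp1 := Phi_le_one (fun n => e (n + 1))
  cases h : e 0
  · simp only [cond_false]
    have := key ((2 * 0 + Phi fun n => e (n + 1)) / 3) (by linarith) (by linarith)
    linarith
  · simp only [cond_true]
    have := key (1 - (2 * 1 + Phi fun n => e (n + 1)) / 3) (by linarith) (by linarith)
    rw [show 2 * Real.pi * (1 - (2 * 1 + Phi fun n => e (n + 1)) / 3) =
      2 * Real.pi - 2 * Real.pi * ((2 * 1 + Phi fun n => e (n + 1)) / 3) by ring,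
      Real.cos_two_pi_sub] at this
    linarith

theorem psi_shift (n : ℕ) : ∀ (e : ℕ → Bool) (t : ℝ),
    psi (3^n * Phi e + t) = psi (Phi (fun i => e (i + n)) + t) := by
  induction n with
  | zero => intro e t; simp
  | succ n ih =>
    intro e t
    rw [Phi_succ e]
    have h1 : (3:ℝ)^(n+1) * ((2 * cond (e 0) 1 0 + Phi fun n => e (n + 1)) / 3) + t =
        (((3:ℤ)^n * (2 * cond (e 0) 1 0) : ℤ) : ℝ) + (3^n * (Phi fun n => e (n + 1)) + t) := by
      cases e 0
      · simp; ring
      · push_cast; simp; ring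
    rw [h1, psi_add_int, ih]
    rfl

theorem w_Phi (e : ℕ → Bool) : w (Phi e) = 0 := by
  have : ∀ n, term n (Phi e) = 0 := by
    intro n
    unfold term
    have := psi_shift n e 0
    rw [add_zero, add_zero] at this
    rw [this, psi_Phi, mul_zero]
  unfold w
  simp [this]

/-- The growth at the left end point of a gap. -/
theorem growth {e : ℕ → Bool} {n : ℕ} (h0 : e n = false) (h1 : ∀ i, n < i → e i = true) :
    ∃ c > 0, ∀ᶠ t in 𝓝[>] (0:ℝ), c * t ^ ((3:ℝ)/2) ≤ w (Phi e + t) := by
  have hphi : Phi (fun i => e (i + n)) = 1/3 := by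
    rw [Phi_succ]
    have h2 : (fun i => e (i + 1 + n)) = fun _ => true := by
      ext i; rw [h1 (i + 1 + n) (by omega)]
    rw [h2, Phi_true]
    simp [h0]
  have hder : HasDerivAt base (2 * Real.pi * Real.sin (2 * Real.pi * (1/3))) (1/3) :=
    hasDerivAt_base _
  have hbase : base (1/3) = 0 := by
    unfold base
    rw [show 2 * Real.pi * (1/3) = Real.pi - Real.pi / 3 by ring, Real.cos_pi_sub,
      Real.cos_pi_div_three]
    ring
  have hval : (1:ℝ) < 2 * Real.pi * Real.sin (2 * Real.pi * (1/3)) := by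
    rw [show 2 * Real.pi * (1/3) = Real.pi - Real.pi / 3 by ring, Real.sin_pi_sub,
      Real.sin_pi_div_three]
    have h3 : (1:ℝ) < √3 := by
      rw [show (1:ℝ) = √1 by simp]
      exact Real.sqrt_lt_sqrt (by norm_num) (by norm_num)
    have h4 := Real.pi_gt_three
    nlinarith
  have hev : ∀ᶠ t in 𝓝[>] (0:ℝ), t ≤ base (1/3 + t) := by
    have h2 := hder.tendsto_slope_zero_right
    have h3 := h2.eventually (lt_mem_nhds hval)
    filter_upwards [h3, self_mem_nhdsWithin] with t ht ht0
    rw [hbase, sub_zero, smul_eq_mul, inv_mul_eq_div, lt_div_iff₀ ht0] at ht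
    linarith
  -- rescale
  have hscale : Tendsto (fun t : ℝ => (3:ℝ)^n * t) (𝓝[>] 0) (𝓝[>] 0) := by
    apply tendsto_nhdsWithin_of_tendsto_nhds_of_eventually_within
    · have : Tendsto (fun t : ℝ => (3:ℝ)^n * t) (𝓝 0) (𝓝 ((3:ℝ)^n * 0)) :=
        (continuous_const.mul continuous_id).tendsto 0
      rw [mul_zero] at this
      exact this.mono_left nhdsWithin_le_nhds
    · filter_upwards [self_mem_nhdsWithin] with t ht
      have ht' : (0:ℝ) < t := ht
      exact mem_Ioi.2 (by positivity)
  refine ⟨(1/9)^n * ((3:ℝ)^n) ^ ((3:ℝ)/2), by positivity, ?_⟩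
  filter_upwards [hscale.eventually hev, self_mem_nhdsWithin] with t ht ht0
  refine le_trans ?_ (term_le_w n _)
  unfold term
  rw [mul_add, psi_shift, hphi, mul_assoc]
  apply mul_le_mul_of_nonneg_left _ (by positivity)
  rw [← Real.mul_rpow (by positivity) (le_of_lt ht0)]
  unfold psi
  exact Real.rpow_le_rpow (mul_nonneg (by positivity) (le_of_lt ht0)) ht (by norm_num)

end

end Pool.Agent.V11217.CantorW
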