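import Mathlib

/-!
Statistical models, partial affine onto maps and simplicial refinements.
-/

namespace Pool.Agent.V11217.Refine

open Set

variable {E F G : Type} [AddCommGroup E] [Module ℝ E] [AddCommGroup F] [Module ℝ F]
  [AddCommGroup G] [Module ℝ G]

/-- The convex-form space of `C`: all affine functions from `C` to the unit interval. -/
def Effects (C : Set E) : Set (C → ℝ) :=
  {ω | (∀ x, 0 ≤ ω x ∧ ω x ≤ 1) ∧
    ∀ (x y z : C) (t : ℝ), 0 ≤ t → t ≤ 1 → (z : E) = t • (x : E) + (1 - t) • (y : E) →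
      ω z = t * ω x + (1 - t) * ω y}

/-- Partial, onto, affine maps between the sets `X` and `Y`. -/
structure PartialMap (X : Set E) (Y : Set F) where
  /-- the domain of definition -/
  dom : Set E
  /-- the values -/
  toFun : dom → F
  dom_subset : dom ⊆ X
  maps : ∀ x, toFun x ∈ Y
  affine : ∀ (x y : dom) (t : ℝ), 0 ≤ t → t ≤ 1 →
    ∃ h : t • (x : E) + (1 - t) • (y : E) ∈ dom,
      toFun ⟨t • (x : E) + (1 - t) • (y : E), h⟩ = t • toFun x + (1 - t) • toFun y
  onto : ∀ y ∈ Y, ∃ x, toFun x = y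

/-- Convex polytopes: convex hulls of finite nonempty sets. -/
def IsPolytope (C : Set E) : Prop := ∃ s : Finset E, s.Nonempty ∧ C = convexHull ℝ (↑s : Set E)

/-- Simplices: convex hulls of finitely many affinely independent points. -/
def IsSimplex (T : Set E) : Prop :=
  ∃ (n : ℕ) (e : Fin (n + 1) → E), AffineIndependent ℝ e ∧ T = convexHull ℝ (Set.range e)

/-- The compatibility condition of a refinement `(T, f, g)` of `C`:
`g ω` at `f a` equals `ω` at `a`. -/
def Compatible {T : Set E} {C : Set F} (f : PartialMap T C)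
    (g : PartialMap (Effects T) (Effects C)) : Prop :=
  ∀ (a : f.dom) (ω : g.dom),
    g.toFun ω ⟨f.toFun a, f.maps a⟩ = (ω : T → ℝ) ⟨a, f.dom_subset a.2⟩

/-- `(T, f, g)` is a simplicial refinement of the model given by `C`. -/
def IsRefinement (T : Set E) (C : Set F) (f : PartialMap T C)
    (g : PartialMap (Effects T) (Effects C)) : Prop :=
  IsSimplex T ∧ Compatible f g

theorem effects_convex (C : Set E) {ω ω' : C → ℝ} (h : ω ∈ Effects C) (h' : ω' ∈ Effects C)
    {t : ℝ} (ht0 : 0 ≤ t) (ht1 : t ≤ 1) : t • ω + (1 - t) • ω' ∈ Effects C := by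
  have h1t : 0 ≤ 1 - t := by linarith
  refine ⟨fun x => ⟨?_, ?_⟩, fun x y z s hs0 hs1 hz => ?_⟩
  · simp only [Pi.add_apply, Pi.smul_apply, smul_eq_mul]
    have := mul_nonneg ht0 (h.1 x).1
    have := mul_nonneg h1t (h'.1 x).1
    linarith
  · simp only [Pi.add_apply, Pi.smul_apply, smul_eq_mul]
    have := mul_le_mul_of_nonneg_left (h.1 x).2 ht0
    have := mul_le_mul_of_nonneg_left (h'.1 x).2 h1t
    linarith
  · simp only [Pi.add_apply, Pi.smul_apply, smul_eq_mul]
    rw [h.2 x y z s hs0 hs1 hz, h'.2 x y z s hs0 hs1 hz]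
    ring

/-- If every effect of `C` pulled back along `f` extends to an effect of `T`, then there is a
refinement. -/
theorem exists_refinement (T : Set E) (C : Set F) (hT : IsSimplex T) (D : Set E) (hD : D ⊆ T)
    (f : E → F) (hconv : ∀ x ∈ D, ∀ y ∈ D, ∀ t : ℝ, 0 ≤ t → t ≤ 1 →
      t • x + (1 - t) • y ∈ D ∧ f (t • x + (1 - t) • y) = t • f x + (1 - t) • f y)
    (hmaps : ∀ x ∈ D, f x ∈ C) (honto : ∀ c ∈ C, ∃ x ∈ D, f x = c)
    (hext : ∀ η ∈ Effects C, ∃ ω ∈ Effects T, ∀ (x : E) (hx : x ∈ D),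
      ω ⟨x, hD hx⟩ = η ⟨f x, hmaps x hx⟩) :
    ∃ (φ : PartialMap T C) (g : PartialMap (Effects T) (Effects C)), IsRefinement T C φ g ∧
      φ.dom = D ∧ ∀ x : φ.dom, φ.toFun x = f x := by
  classical
  let φ : PartialMap T C :=
    { dom := D
      toFun := fun x => f x
      dom_subset := hD
      maps := fun x => hmaps x x.2
      affine := fun x y t h0 h1 =>
        ⟨(hconv x x.2 y y.2 t h0 h1).1, (hconv x x.2 y y.2 t h0 h1).2⟩
      onto := fun y hy => by
        obtain ⟨x, hx, hxy⟩ := honto y hy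
        exact ⟨⟨x, hx⟩, hxy⟩ }
  let R : (T → ℝ) → (C → ℝ) → Prop := fun ω η => ∀ (x : E) (hx : x ∈ D),
    ω ⟨x, hD hx⟩ = η ⟨f x, hmaps x hx⟩
  have huniq : ∀ ω η η', R ω η → R ω η' → η = η' := by
    intro ω η η' h h'
    funext c
    obtain ⟨x, hx, hxc⟩ := honto c c.2
    have h1 := h x hx
    have h2 := h' x hx
    have hc : (⟨f x, hmaps x hx⟩ : C) = c := Subtype.ext hxc
    rw [hc] at h1 h2
    rw [← h1, ← h2]
  let dom : Set (T → ℝ) := {ω | ω ∈ Effects T ∧ ∃ η ∈ Effects C, R ω η}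
  have hcomb : ∀ ω ω' : T → ℝ, ∀ η η' : C → ℝ, ∀ t : ℝ, R ω η → R ω' η' →
      R (t • ω + (1 - t) • ω') (t • η + (1 - t) • η') := by
    intro ω ω' η η' t h h' x hx
    simp only [Pi.add_apply, Pi.smul_apply, smul_eq_mul]
    rw [h x hx, h' x hx]
  let g : PartialMap (Effects T) (Effects C) :=
    { dom := dom
      toFun := fun ω => ω.2.2.choose
      dom_subset := fun ω hω => hω.1
      maps := fun ω => ω.2.2.choose_spec.1
      affine := by
        intro ω ω' t h0 h1
        have hmem : t • (ω : T → ℝ) + (1 - t) • (ω' : T → ℝ) ∈ dom := by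
          refine ⟨effects_convex T ω.2.1 ω'.2.1 h0 h1, _,
            effects_convex C ω.2.2.choose_spec.1 ω'.2.2.choose_spec.1 h0 h1,
            hcomb _ _ _ _ t ω.2.2.choose_spec.2 ω'.2.2.choose_spec.2⟩
        refine ⟨hmem, ?_⟩
        exact huniq _ _ _ hmem.2.choose_spec.2
          (hcomb _ _ _ _ t ω.2.2.choose_spec.2 ω'.2.2.choose_spec.2)
      onto := by
        intro η hη
        obtain ⟨ω, hω, hR⟩ := hext η hη
        have hmem : ω ∈ dom := ⟨hω, η, hη, hR⟩
        exact ⟨⟨ω, hmem⟩, huniq ω _ _ hmem.2.choose_spec.2 hR⟩ }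
  refine ⟨φ, g, ⟨hT, ?_⟩, rfl, fun x => rfl⟩
  intro a ω
  exact (ω.2.2.choose_spec.2 a a.2).symm

/-- Effects respect finite convex combinations. -/
theorem effects_sum {C : Set E} (hC : Convex ℝ C) {ω : C → ℝ} (hω : ω ∈ Effects C)
    {ι : Type*} (s : Finset ι) (w : ι → ℝ) (p : ι → C) (hw : ∀ i ∈ s, 0 ≤ w i)
    (hsum : ∑ i ∈ s, w i = 1) (z : C) (hz : (z : E) = ∑ i ∈ s, w i • (p i : E)) :
    ω z = ∑ i ∈ s, w i * ω (p i) := by
  classical
  let ω' : E → ℝ := fun x => if h : x ∈ C then ω ⟨x, h⟩ else 0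
  have hω' : ∀ x : C, ω' x = ω x := fun x => dif_pos x.2
  have haff : ∀ x ∈ C, ∀ y ∈ C, ∀ a b : ℝ, 0 ≤ a → 0 ≤ b → a + b = 1 →
      ω' (a • x + b • y) = a * ω' x + b * ω' y := by
    intro x hx y hy a b ha hb hab
    have hmem : a • x + b • y ∈ C := hC hx hy ha hb hab
    have hb' : b = 1 - a := by linarith
    have h1 := hω.2 ⟨x, hx⟩ ⟨y, hy⟩ ⟨a • x + b • y, hmem⟩ a ha (by linarith)
      (show a • x + b • y = a • x + (1 - a) • y by rw [← hb'])
    have e1 := hω' ⟨x, hx⟩
    have e2 := hω' ⟨y, hy⟩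
    have e3 := hω' ⟨a • x + b • y, hmem⟩
    simp only at e1 e2 e3
    rw [e1, e2, e3, h1, hb']
  have hconv : ConvexOn ℝ C ω' := ⟨hC, fun x hx y hy a b ha hb hab =>
    (haff x hx y hy a b ha hb hab).le⟩
  have hconc : ConcaveOn ℝ C ω' := ⟨hC, fun x hx y hy a b ha hb hab =>
    (haff x hx y hy a b ha hb hab).ge⟩
  have h1 := hconv.map_sum_le (t := s) (w := w) (p := fun i => (p i : E)) hw hsum
    (fun i _ => (p i).2)
  have h2 := hconc.le_map_sum (t := s) (w := w) (p := fun i => (p i : E)) hw hsum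
    (fun i _ => (p i).2)
  have h3 := le_antisymm h1 h2
  rw [← hz, hω'] at h3
  rw [h3]
  refine Finset.sum_congr rfl (fun i _ => ?_)
  rw [hω']
  rfl

theorem isSimplex_stdSimplex (ι : Type) [Fintype ι] [DecidableEq ι] [Nonempty ι] :
    IsSimplex (stdSimplex ℝ ι) := by
  obtain ⟨n, hn⟩ : ∃ n, Fintype.card ι = n + 1 :=
    ⟨Fintype.card ι - 1, (Nat.sub_add_cancel Fintype.card_pos).symm⟩
  let e : Fin (n + 1) ≃ ι := (Fintype.equivFinOfCardEq hn).symm
  refine ⟨n, fun i => Pi.single (e i) 1, ?_, ?_⟩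
  · have h1 : LinearIndependent ℝ (fun i : ι => (Pi.single i (1 : ℝ) : ι → ℝ)) :=
      Pi.linearIndependent_single_one ι ℝ
    exact (h1.comp e e.injective).affineIndependent
  · rw [← convexHull_rangle_single_eq_stdSimplex]
    congr 1
    ext x
    constructor
    · rintro ⟨i, rfl⟩
      exact ⟨e.symm i, by simp⟩
    · rintro ⟨i, rfl⟩
      exact ⟨e i, rfl⟩

theorem linear_effect {ι : Type} [Fintype ι] (W : ι → ℝ) (hW : ∀ i, 0 ≤ W i ∧ W i ≤ 1) :
    (fun x : stdSimplex ℝ ι => ∑ i, W i * x.1 i) ∈ Effects (stdSimplex ℝ ι) := by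
  refine ⟨fun x => ⟨?_, ?_⟩, fun x y z t _ _ hz => ?_⟩
  · exact Finset.sum_nonneg (fun i _ => mul_nonneg (hW i).1 (x.2.1 i))
  · calc ∑ i, W i * x.1 i ≤ ∑ i, x.1 i := by
          refine Finset.sum_le_sum (fun i _ => ?_)
          have := mul_le_mul_of_nonneg_right (hW i).2 (x.2.1 i)
          rw [one_mul] at this
          exact this
      _ = 1 := x.2.2
  · simp only
    rw [Finset.mul_sum, Finset.mul_sum, ← Finset.sum_add_distrib]
    refine Finset.sum_congr rfl (fun i _ => ?_)
    have : z.1 i = t * x.1 i + (1 - t) * y.1 i := by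
      rw [hz]; simp only [Pi.add_apply, Pi.smul_apply, smul_eq_mul]
    rw [this]
    ring

/-- The extreme points of a simplex number at most its number of vertices. -/
theorem simplex_card {T : Set E} {n : ℕ} {e : Fin (n + 1) → E}
    (hT : T = convexHull ℝ (Set.range e)) : (T.extremePoints ℝ).Finite ∧
      (T.extremePoints ℝ).ncard ≤ n + 1 := by
  have hsub : T.extremePoints ℝ ⊆ Set.range e := by
    rw [hT]; exact extremePoints_convexHull_subset
  refine ⟨(Set.finite_range e).subset hsub, ?_⟩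
  calc (T.extremePoints ℝ).ncard ≤ (Set.range e).ncard :=
        Set.ncard_le_ncard hsub (Set.finite_range e)
    _ ≤ (Set.univ : Set (Fin (n + 1))).ncard := by
        rw [← Set.image_univ]
        exact Set.ncard_image_le (Set.finite_univ)
    _ = n + 1 := by rw [Set.ncard_univ]; simp

theorem convexHull_range_eq {ι : Type} [Fintype ι] (e : ι → E) :
    convexHull ℝ (Set.range e) = {x | ∃ w ∈ stdSimplex ℝ ι, x = ∑ i, w i • e i} := by
  classical
  apply Subset.antisymm
  · apply convexHull_min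
    · rintro _ ⟨i, rfl⟩
      refine ⟨Pi.single i 1, single_mem_stdSimplex ℝ i, ?_⟩
      rw [Finset.sum_eq_single i]
      · simp
      · intro j _ hj
        simp [hj]
      · intro h; exact absurd (Finset.mem_univ i) h
    · rintro _ ⟨w, hw, rfl⟩ _ ⟨v, hv, rfl⟩ a b ha hb hab
      refine ⟨a • w + b • v, convex_stdSimplex ℝ ι hw hv ha hb hab, ?_⟩
      rw [Finset.smul_sum, Finset.smul_sum, ← Finset.sum_add_distrib]
      refine Finset.sum_congr rfl (fun i _ => ?_)
      simp only [Pi.add_apply, Pi.smul_apply, smul_eq_mul, add_smul, mul_smul]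
  · rintro _ ⟨w, hw, rfl⟩
    exact (convex_convexHull ℝ (Set.range e)).sum_mem (fun i _ => hw.1 i) hw.2
      (fun i _ => subset_convexHull ℝ _ ⟨i, rfl⟩)

/-- Barycentric coordinates. -/
theorem exists_bary {ι : Type} [Fintype ι] {e : ι → E} (he : AffineIndependent ℝ e) {T : Set E}
    (hT : T = convexHull ℝ (Set.range e)) : ∃ w : T → ι → ℝ, (∀ z, w z ∈ stdSimplex ℝ ι) ∧
      (∀ z : T, (z : E) = ∑ i, w z i • e i) ∧
      ∀ (z : T) (v : ι → ℝ), ∑ i, v i = 1 → (z : E) = ∑ i, v i • e i → v = w z := by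
  classical
  have h1 : ∀ z : T, ∃ w ∈ stdSimplex ℝ ι, (z : E) = ∑ i, w i • e i := by
    rintro ⟨z, hz⟩
    have h2 : z ∈ convexHull ℝ (Set.range e) := hT ▸ hz
    rw [convexHull_range_eq] at h2
    exact h2
  choose w hw hz using h1
  refine ⟨w, hw, hz, ?_⟩
  intro z v hv hzv
  refine (affineIndependent_iff_eq_of_fintype_affineCombination_eq ℝ e).1 he v (w z) hv
    (hw z).2 ?_
  rw [Finset.affineCombination_eq_linear_combination _ _ _ hv,
    Finset.affineCombination_eq_linear_combination _ _ _ (hw z).2, ← hzv, ← hz z]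

/-- Barycentric coordinates are effects. -/
theorem bary_effect {ι : Type} [Fintype ι] {e : ι → E} {T : Set E}
    {w : T → ι → ℝ} (hw : ∀ z, w z ∈ stdSimplex ℝ ι) (hz : ∀ z : T, (z : E) = ∑ i, w z i • e i)
    (huniq : ∀ (z : T) (v : ι → ℝ), ∑ i, v i = 1 → (z : E) = ∑ i, v i • e i → v = w z)
    (i : ι) : (fun z : T => w z i) ∈ Effects T := by
  classical
  refine ⟨fun z => ⟨(hw z).1 i, ?_⟩, fun x y z t h0 h1 hxyz => ?_⟩
  · calc w z i ≤ ∑ j, w z j :=
        Finset.single_le_sum (fun j _ => (hw z).1 j) (Finset.mem_univ i)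
      _ = 1 := (hw z).2
  · have h := huniq z (t • w x + (1 - t) • w y) (by
      simp only [Pi.add_apply, Pi.smul_apply, smul_eq_mul]
      rw [Finset.sum_add_distrib, ← Finset.mul_sum, ← Finset.mul_sum, (hw x).2, (hw y).2]
      ring) (by
      rw [hxyz]
      conv_lhs => rw [hz x, hz y]
      rw [Finset.smul_sum, Finset.smul_sum, ← Finset.sum_add_distrib]
      refine Finset.sum_congr rfl (fun i _ => ?_)
      simp only [Pi.add_apply, Pi.smul_apply, smul_eq_mul, add_smul, mul_smul])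
    simp only
    rw [← h]
    simp

/-- Partial affine maps respect finite convex combinations when the domain is convex. -/
theorem PartialMap.map_sum {X : Set E} {Y : Set F} (φ : PartialMap X Y) {ι : Type*}
    (s : Finset ι) (w : ι → ℝ) (p : ι → φ.dom) (hw : ∀ i ∈ s, 0 ≤ w i)
    (hsum : ∑ i ∈ s, w i = 1) (z : φ.dom) (hz : (z : E) = ∑ i ∈ s, w i • (p i : E)) :
    φ.toFun z = ∑ i ∈ s, w i • φ.toFun (p i) := by
  classical
  have hconv : Convex ℝ φ.dom := by
    intro x hx y hy a b ha hb hab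
    obtain ⟨h, _⟩ := φ.affine ⟨x, hx⟩ ⟨y, hy⟩ a ha (by linarith)
    have hb' : b = 1 - a := by linarith
    rw [hb']; exact h
  induction s using Finset.induction_on generalizing w z with
  | empty => simp at hsum
  | insert i s his ih =>
    rw [Finset.sum_insert his] at hsum hz ⊢
    have hwi : 0 ≤ w i := hw i (Finset.mem_insert_self _ _)
    have hs0 : 0 ≤ ∑ j ∈ s, w j :=
      Finset.sum_nonneg (fun j hj => hw j (Finset.mem_insert_of_mem hj))
    rcases hs0.eq_or_lt with h0 | hpos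
    · have hwi1 : w i = 1 := by linarith
      have hz0 : ∀ j ∈ s, w j = 0 := (Finset.sum_eq_zero_iff_of_nonneg
        (fun j hj => hw j (Finset.mem_insert_of_mem hj))).1 h0.symm
      have e1 : ∑ j ∈ s, w j • (p j : E) = 0 :=
        Finset.sum_eq_zero (fun j hj => by rw [hz0 j hj, zero_smul])
      have e2 : ∑ j ∈ s, w j • φ.toFun (p j) = 0 :=
        Finset.sum_eq_zero (fun j hj => by rw [hz0 j hj, zero_smul])
      rw [e1, hwi1, one_smul, add_zero] at hz
      rw [e2, hwi1, one_smul, add_zero]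
      have : z = p i := Subtype.ext hz
      rw [this]
    · set S := ∑ j ∈ s, w j with hS
      have hSne : S ≠ 0 := hpos.ne'
      have hsum' : ∑ j ∈ s, w j / S = 1 := by
        rw [← Finset.sum_div, ← hS, div_self hSne]
      have hmem : ∑ j ∈ s, (w j / S) • (p j : E) ∈ φ.dom :=
        hconv.sum_mem (fun j hj => div_nonneg (hw j (Finset.mem_insert_of_mem hj)) hpos.le) hsum'
          (fun j _ => (p j).2)
      have h3 := ih (fun j => w j / S)
        (fun j hj => div_nonneg (hw j (Finset.mem_insert_of_mem hj)) hpos.le) hsum'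
        ⟨_, hmem⟩ rfl
      obtain ⟨h4, h5⟩ := φ.affine (p i) ⟨_, hmem⟩ (w i) hwi (by linarith)
      have h1w : 1 - w i = S := by linarith
      have hzz : z = ⟨_, h4⟩ := by
        apply Subtype.ext
        simp only
        rw [hz, h1w, Finset.smul_sum]
        congr 1
        refine Finset.sum_congr rfl (fun j _ => ?_)
        rw [smul_smul, mul_div_cancel₀ _ hSne]
      rw [hzz, h5, h3, h1w, Finset.smul_sum]
      congr 1
      refine Finset.sum_congr rfl (fun j _ => ?_)
      rw [smul_smul, mul_div_cancel₀ _ hSne]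

theorem not_isSimplex_of_card [FiniteDimensional ℝ E] {C : Set E}
    (h : Module.finrank ℝ E + 1 < (C.extremePoints ℝ).ncard) : ¬ IsSimplex C := by
  rintro ⟨n, e, he, hC⟩
  have h1 := he.card_le_finrank_succ
  have h2 := (simplex_card hC).2
  have h3 : Module.finrank ℝ (vectorSpan ℝ (Set.range e)) ≤ Module.finrank ℝ E :=
    Submodule.finrank_le _
  simp only [Fintype.card_fin] at h1
  omega

end Pool.Agent.V11217.Refine
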