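import Mathlib
import Pool.Agent.V11217.Refine

/-!
The middle section of the odd cube, its extreme points and its simplicial refinements.
-/

namespace Pool.Agent.V11217.Hyper

open Set Pool.Agent.V11217.Refine Finset

variable (l : ℕ)

/-- the middle slice of the cube of dimension `2 l + 1` -/
def C : Set (Fin (2 * l + 1) → ℝ) := {x | (∀ j, 0 ≤ x j ∧ x j ≤ 1) ∧ ∑ j, x j = l + 1 / 2}

variable {l}

/-- the extreme points of the slice -/
noncomputable def vert (s : Finset (Fin (2 * l + 1))) (j : Fin (2 * l + 1)) :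
    Fin (2 * l + 1) → ℝ := fun k => if k ∈ s then 1 else if k = j then 1 / 2 else 0

/-- indicator vectors -/
noncomputable def ind (s : Finset (Fin (2 * l + 1))) : Fin (2 * l + 1) → ℝ :=
  fun k => if k ∈ s then 1 else 0

theorem sum_ind (s : Finset (Fin (2 * l + 1))) : ∑ k, ind s k = s.card := by
  simp [ind]

theorem sum_vert {s : Finset (Fin (2 * l + 1))} {j : Fin (2 * l + 1)} (hj : j ∉ s) :
    ∑ k, vert s j k = s.card + 1 / 2 := by
  have h : ∀ k, vert s j k = ind s k + (if k = j then (1 / 2 : ℝ) else 0) := by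
    intro k
    simp only [vert, ind]
    by_cases hk : k ∈ s
    · have : k ≠ j := fun h => hj (h ▸ hk)
      simp [hk, this]
    · simp [hk]
  simp only [h]
  rw [Finset.sum_add_distrib, sum_ind]
  simp

theorem C_convex : Convex ℝ (C l) := by
  rintro x ⟨hx1, hx2⟩ y ⟨hy1, hy2⟩ a b ha hb hab
  refine ⟨fun j => ⟨?_, ?_⟩, ?_⟩
  · simp only [Pi.add_apply, Pi.smul_apply, smul_eq_mul]
    have := mul_nonneg ha (hx1 j).1
    have := mul_nonneg hb (hy1 j).1
    linarith
  · simp only [Pi.add_apply, Pi.smul_apply, smul_eq_mul]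
    have := mul_le_mul_of_nonneg_left (hx1 j).2 ha
    have := mul_le_mul_of_nonneg_left (hy1 j).2 hb
    linarith
  · simp only [Pi.add_apply, Pi.smul_apply, smul_eq_mul]
    rw [Finset.sum_add_distrib, ← Finset.mul_sum, ← Finset.mul_sum, hx2, hy2, ← add_mul, hab,
      one_mul]

theorem C_compact : IsCompact (C l) := by
  have h1 : IsCompact (Set.Icc (0 : Fin (2 * l + 1) → ℝ) 1) := isCompact_Icc
  refine h1.of_isClosed_subset ?_ ?_
  · have e : C l = {x : Fin (2 * l + 1) → ℝ | ∀ j, 0 ≤ x j ∧ x j ≤ 1} ∩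
        {x : Fin (2 * l + 1) → ℝ | ∑ j, x j = (l : ℝ) + 1 / 2} := rfl
    rw [e]
    refine IsClosed.inter ?_ ?_
    · have : {x : Fin (2 * l + 1) → ℝ | ∀ j, 0 ≤ x j ∧ x j ≤ 1} = Set.Icc 0 1 := by
        ext x
        simp only [Set.mem_setOf_eq, Set.mem_Icc, Pi.le_def, Pi.zero_apply, Pi.one_apply]
        exact ⟨fun h => ⟨fun j => (h j).1, fun j => (h j).2⟩, fun h j => ⟨h.1 j, h.2 j⟩⟩
      rw [this]
      exact isClosed_Icc
    · exact isClosed_eq (continuous_finsetSum _ (fun j _ => continuous_apply j))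
        continuous_const
  · rintro x ⟨hx, -⟩
    exact ⟨fun j => (hx j).1, fun j => (hx j).2⟩

theorem vert_mem {s : Finset (Fin (2 * l + 1))} {j : Fin (2 * l + 1)} (hs : s.card = l)
    (hj : j ∉ s) : vert s j ∈ C l := by
  refine ⟨fun k => ?_, ?_⟩
  · simp only [vert]
    split_ifs <;> norm_num
  · rw [sum_vert hj, hs]

theorem aux {a b u v : ℝ} (ha : 0 < a) (hb : 0 < b) (hu : 0 ≤ u) (hv : 0 ≤ v)
    (h : a * u + b * v = 0) : u = 0 := by
  have h1 := mul_nonneg ha.le hu
  have h2 := mul_nonneg hb.le hv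
  have h3 : a * u = 0 := by linarith
  exact (mul_eq_zero.1 h3).resolve_left ha.ne'

theorem vert_extreme {s : Finset (Fin (2 * l + 1))} {j : Fin (2 * l + 1)} (hs : s.card = l)
    (hj : j ∉ s) : vert s j ∈ (C l).extremePoints ℝ := by
  rw [mem_extremePoints_iff_left]
  refine ⟨vert_mem hs hj, ?_⟩
  rintro p ⟨hp1, hp2⟩ q ⟨hq1, hq2⟩ ⟨a, b, ha, hb, hab, heq⟩
  have hk : ∀ k, a * p k + b * q k = vert s j k := fun k => congrFun heq k
  have hne : ∀ k, k ≠ j → p k = vert s j k := by
    intro k hkj
    have h := hk k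
    by_cases hks : k ∈ s
    · have e : vert s j k = 1 := by simp [vert, hks]
      rw [e] at h ⊢
      have := aux ha hb (sub_nonneg.2 (hp1 k).2) (sub_nonneg.2 (hq1 k).2)
        (by linear_combination hab - h)
      linarith
    · have e : vert s j k = 0 := by simp [vert, hks, hkj]
      rw [e] at h ⊢
      exact aux ha hb (hp1 k).1 (hq1 k).1 h
  have hsum : ∑ k, p k = ∑ k, vert s j k := by rw [hp2, sum_vert hj, hs]
  funext k
  by_cases hkj : k = j
  · subst hkj
    rw [← Finset.add_sum_erase _ _ (Finset.mem_univ k),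
      ← Finset.add_sum_erase (a := k) Finset.univ (vert s k) (Finset.mem_univ k)] at hsum
    have : ∑ i ∈ Finset.univ.erase k, p i = ∑ i ∈ Finset.univ.erase k, vert s k i :=
      Finset.sum_congr rfl (fun i hi => hne i (Finset.ne_of_mem_erase hi))
    linarith
  · exact hne k hkj

theorem extreme_form {x : Fin (2 * l + 1) → ℝ} (hx : x ∈ (C l).extremePoints ℝ) :
    ∃ (s : Finset (Fin (2 * l + 1))) (j : Fin (2 * l + 1)), s.card = l ∧ j ∉ s ∧
      x = vert s j := by
  classical
  rw [mem_extremePoints_iff_left] at hx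
  obtain ⟨⟨hx1, hx2⟩, hext⟩ := hx
  -- at most one fractional coordinate
  have huniq : ∀ i k, i ≠ k → 0 < x i → x i < 1 → 0 < x k → x k < 1 → False := by
    intro i k hik hi0 hi1 hk0 hk1
    obtain ⟨ε, hε, h1, h2, h3, h4⟩ : ∃ ε : ℝ, 0 < ε ∧ ε ≤ x i ∧ ε ≤ 1 - x i ∧ ε ≤ x k ∧
        ε ≤ 1 - x k := by
      refine ⟨min (min (x i) (1 - x i)) (min (x k) (1 - x k)), ?_, ?_, ?_, ?_, ?_⟩
      · exact lt_min (lt_min hi0 (by linarith)) (lt_min hk0 (by linarith))
      · exact (min_le_left _ _).trans (min_le_left _ _)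
      · exact (min_le_left _ _).trans (min_le_right _ _)
      · exact (min_le_right _ _).trans (min_le_left _ _)
      · exact (min_le_right _ _).trans (min_le_right _ _)
    have hmem : ∀ δ : ℝ, (δ = ε ∨ δ = -ε) →
        (x + Pi.single i δ - Pi.single k δ : Fin (2 * l + 1) → ℝ) ∈ C l := by
      intro δ hδ
      refine ⟨fun j => ?_, ?_⟩
      · simp only [Pi.add_apply, Pi.sub_apply, Pi.single_apply]
        have := hx1 j
        by_cases hji : j = i
        · subst hji
          rw [if_pos rfl, if_neg hik]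
          rcases hδ with rfl | rfl <;> constructor <;> linarith
        · by_cases hjk : j = k
          · subst hjk
            rw [if_neg hji, if_pos rfl]
            rcases hδ with rfl | rfl <;> constructor <;> linarith
          · rw [if_neg hji, if_neg hjk]
            constructor <;> linarith
      · simp only [Pi.add_apply, Pi.sub_apply]
        rw [Finset.sum_sub_distrib, Finset.sum_add_distrib, hx2]
        simp
    have h5 := hext _ (hmem ε (Or.inl rfl)) _ (hmem (-ε) (Or.inr rfl))
      ⟨1 / 2, 1 / 2, by norm_num, by norm_num, by norm_num, by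
        funext j
        simp only [Pi.add_apply, Pi.sub_apply, Pi.smul_apply, smul_eq_mul, Pi.single_apply]
        split_ifs <;> ring⟩
    have h6 := congrFun h5 i
    simp only [Pi.add_apply, Pi.sub_apply, Pi.single_apply, if_true, if_neg hik] at h6
    linarith
  let s : Finset (Fin (2 * l + 1)) := Finset.univ.filter (fun k => x k = 1)
  have hs : ∀ k, k ∈ s ↔ x k = 1 := by intro k; simp [s]
  by_cases hfrac : ∃ j, 0 < x j ∧ x j < 1
  · obtain ⟨j, hj0, hj1⟩ := hfrac
    have hjs : j ∉ s := by rw [hs]; exact hj1.ne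
    have hzero : ∀ k, k ∉ s → k ≠ j → x k = 0 := by
      intro k hk hkj
      rw [hs] at hk
      by_contra h0
      exact huniq j k (Ne.symm hkj) hj0 hj1 (lt_of_le_of_ne (hx1 k).1 (Ne.symm h0))
        (lt_of_le_of_ne (hx1 k).2 hk)
    have hx3 : ∑ k, x k = s.card + x j := by
      have h : ∀ k, x k = ind s k + (if k = j then x j else 0) := by
        intro k
        simp only [ind]
        by_cases hk : k ∈ s
        · have hkj : k ≠ j := fun h => hjs (h ▸ hk)
          simp [hk, hkj, (hs k).1 hk]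
        · by_cases hkj : k = j
          · subst hkj; simp [hk]
          · simp [hk, hkj, hzero k hk hkj]
      rw [Finset.sum_congr rfl (fun k _ => h k), Finset.sum_add_distrib, sum_ind]
      simp
    rw [hx2] at hx3
    have hcard : s.card = l := by
      have h1 : (s.card : ℝ) < l + 1 := by linarith
      have h2 : (l : ℝ) < s.card + 1 := by linarith
      have h1' : s.card < l + 1 := by exact_mod_cast h1
      have h2' : l < s.card + 1 := by exact_mod_cast h2
      omega
    refine ⟨s, j, hcard, hjs, ?_⟩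
    funext k
    simp only [vert]
    by_cases hk : k ∈ s
    · simp [hk, (hs k).1 hk]
    · by_cases hkj : k = j
      · subst hkj
        rw [hcard] at hx3
        simp only [hk, if_false, if_true]
        linarith
      · simp [hk, hkj, hzero k hk hkj]
  · exfalso
    push Not at hfrac
    have h : ∀ k, x k = ind s k := by
      intro k
      simp only [ind]
      by_cases hk : k ∈ s
      · simp [hk, (hs k).1 hk]
      · rw [if_neg hk]
        rw [hs] at hk
        by_contra h0
        have h1 := hfrac k (lt_of_le_of_ne (hx1 k).1 (Ne.symm h0))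
        exact hk (le_antisymm (hx1 k).2 h1)
    have h2 : ∑ k, x k = s.card := by
      rw [Finset.sum_congr rfl (fun k _ => h k), sum_ind]
    rw [hx2] at h2
    have h3 : (2 * l + 1 : ℝ) = 2 * s.card := by linarith
    have h4 : 2 * l + 1 = 2 * s.card := by exact_mod_cast h3
    omega

variable (l)

/-- the pairs describing the extreme points -/
def pairs : Finset (Σ _ : Finset (Fin (2 * l + 1)), Fin (2 * l + 1)) :=
  (Finset.powersetCard l Finset.univ).sigma (fun s => sᶜ)

theorem mem_pairs (p : Σ _ : Finset (Fin (2 * l + 1)), Fin (2 * l + 1)) :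
    p ∈ pairs l ↔ p.1.card = l ∧ p.2 ∉ p.1 := by
  simp [pairs, Finset.mem_powersetCard]

theorem card_pairs : (pairs l).card = (l + 1) * (2 * l + 1).choose l := by
  unfold pairs
  rw [Finset.card_sigma]
  rw [Finset.sum_congr rfl (g := fun _ => l + 1)]
  · rw [Finset.sum_const, Finset.card_powersetCard, Finset.card_univ, Fintype.card_fin,
      smul_eq_mul, mul_comm]
  · intro s hs
    rw [Finset.mem_powersetCard] at hs
    rw [Finset.card_compl, Fintype.card_fin, hs.2]
    omega

theorem extremePoints_eq : (C l).extremePoints ℝ = (fun p : (Σ _ : Finset (Fin (2 * l + 1)),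
    Fin (2 * l + 1)) => vert p.1 p.2) '' (↑(pairs l) : Set _) := by
  ext x
  constructor
  · intro hx
    obtain ⟨s, j, hs, hj, rfl⟩ := extreme_form hx
    exact ⟨⟨s, j⟩, (mem_pairs l _).2 ⟨hs, hj⟩, rfl⟩
  · rintro ⟨⟨s, j⟩, hp, rfl⟩
    have := (mem_pairs l _).1 hp
    exact vert_extreme this.1 this.2

theorem vert_injOn : Set.InjOn (fun p : (Σ _ : Finset (Fin (2 * l + 1)),
    Fin (2 * l + 1)) => vert p.1 p.2) (↑(pairs l) : Set _) := by
  rintro ⟨s, j⟩ hp ⟨s', j'⟩ hp' heq
  obtain ⟨hs, hj⟩ := (mem_pairs l _).1 hp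
  obtain ⟨hs', hj'⟩ := (mem_pairs l _).1 hp'
  simp only at hs hj hs' hj' heq
  have h1 : ∀ (s : Finset (Fin (2 * l + 1))) (j k : Fin (2 * l + 1)),
      k ∈ s ↔ vert s j k = 1 := by
    intro s j k
    simp only [vert]
    by_cases hk : k ∈ s
    · simp [hk]
    · by_cases hkj : k = j
      · have : j ∉ s := fun h => hk (hkj ▸ h)
        simp [hkj, this]
      · simp [hk, hkj]
  have hss : s = s' := by
    ext k
    rw [h1 s j k, h1 s' j' k, heq]
  subst hss
  have h2 : ∀ (j k : Fin (2 * l + 1)), j ∉ s → (k = j ↔ vert s j k = 1 / 2) := by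
    intro j k hj
    simp only [vert]
    by_cases hk : k ∈ s
    · have : k ≠ j := fun h => hj (h ▸ hk)
      simp only [hk, this, if_true, false_iff]
      norm_num
    · by_cases hkj : k = j
      · simp [hk, hkj, hj]
      · simp only [hk, hkj, if_false, false_iff]
        norm_num
  have : j = j' := by
    rw [h2 j' j hj', ← heq]
    exact (h2 j j hj).1 rfl
  rw [this]

theorem ncard_extreme : ((C l).extremePoints ℝ).ncard = (l + 1) * (2 * l + 1).choose l := by
  have h := (vert_injOn l).ncard_image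
  rw [extremePoints_eq l, h, Set.ncard_coe_finset, card_pairs]

theorem finite_extreme : ((C l).extremePoints ℝ).Finite := by
  rw [extremePoints_eq]
  exact (pairs l).finite_toSet.image _

theorem C_eq : C l = convexHull ℝ ((C l).extremePoints ℝ) := by
  have h := closure_convexHull_extremePoints (C_compact (l := l)) (C_convex (l := l))
  rw [((finite_extreme l).isClosed_convexHull ℝ).closure_eq] at h
  exact h.symm

theorem polytope : IsPolytope (C l) := by
  refine ⟨(finite_extreme l).toFinset, ?_, ?_⟩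
  · rw [Set.Finite.toFinset_nonempty]
    obtain ⟨s, hs⟩ : ∃ s : Finset (Fin (2 * l + 1)), s.card = l := by
      obtain ⟨s, -, hs⟩ := Finset.exists_subset_card_eq
        (s := (Finset.univ : Finset (Fin (2 * l + 1)))) (n := l) (by simp; omega)
      exact ⟨s, hs⟩
    obtain ⟨j, hj⟩ : ∃ j, j ∉ s := by
      by_contra hcon
      push Not at hcon
      have : s = Finset.univ := Finset.eq_univ_iff_forall.2 hcon
      rw [this, Finset.card_univ, Fintype.card_fin] at hs
      omega
    exact ⟨_, vert_extreme hs hj⟩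
  · rw [Set.Finite.coe_toFinset]
    exact C_eq l

theorem not_simplex (hl : 1 ≤ l) : ¬ IsSimplex (C l) := by
  apply not_isSimplex_of_card
  rw [ncard_extreme]
  simp only [Module.finrank_fintype_fun_eq_card, Fintype.card_fin]
  have h1 : ∀ r, 1 ≤ r → r ≤ l → 2 * l + 1 ≤ (2 * l + 1).choose r := by
    intro r hr
    induction r, hr using Nat.le_induction with
    | base => intro _; simp
    | succ r _ ih =>
      intro hrl
      exact (ih (by omega)).trans (Nat.choose_le_succ_of_lt_half_left (by omega))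
  have h2 := h1 l hl le_rfl
  nlinarith

/-- lower level -/
abbrev Lo : Type := {s : Finset (Fin (2 * l + 1)) // s.card = l}

/-- upper level -/
abbrev Up : Type := {s : Finset (Fin (2 * l + 1)) // s.card = l + 1}

theorem card_index : Fintype.card (Lo l ⊕ Up l) = 2 * (2 * l + 1).choose l := by
  have h1 : Fintype.card (Lo l) = (2 * l + 1).choose l := by
    have := Fintype.card_finset_len (α := Fin (2 * l + 1)) l
    rw [Fintype.card_fin] at this
    exact this
  have h2 : Fintype.card (Up l) = (2 * l + 1).choose (l + 1) := by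
    have := Fintype.card_finset_len (α := Fin (2 * l + 1)) (l + 1)
    rw [Fintype.card_fin] at this
    exact this
  rw [Fintype.card_sum, h1, h2, Nat.choose_symm_half]
  ring

/-- the simplex -/
def T : Set (Lo l ⊕ Up l → ℝ) := stdSimplex ℝ (Lo l ⊕ Up l)

/-- the point of the cube of a vertex of the simplex -/
noncomputable def pt : Lo l ⊕ Up l → (Fin (2 * l + 1) → ℝ) := Sum.elim (fun s => ind s.1) (fun s => ind s.1)

/-- the map `f` -/
noncomputable def fmap (w : Lo l ⊕ Up l → ℝ) : Fin (2 * l + 1) → ℝ := ∑ i, w i • pt l i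

/-- the domain of `f` -/
def D : Set (Lo l ⊕ Up l → ℝ) := {w | w ∈ T l ∧ fmap l w ∈ C l}

theorem fmap_affine (x y : Lo l ⊕ Up l → ℝ) (a b : ℝ) :
    fmap l (a • x + b • y) = a • fmap l x + b • fmap l y := by
  simp only [fmap]
  rw [Finset.smul_sum, Finset.smul_sum, ← Finset.sum_add_distrib]
  refine Finset.sum_congr rfl (fun i _ => ?_)
  simp only [Pi.add_apply, Pi.smul_apply, smul_eq_mul, add_smul, mul_smul]

theorem D_convex : Convex ℝ (D l) := by
  rintro x ⟨hx1, hx2⟩ y ⟨hy1, hy2⟩ a b ha hb hab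
  refine ⟨convex_stdSimplex ℝ _ hx1 hy1 ha hb hab, ?_⟩
  rw [fmap_affine]
  exact C_convex hx2 hy2 ha hb hab

variable {l}

/-- midpoints of a lower and an upper vertex -/
noncomputable def mid (s : Lo l) (u : Up l) : Fin (2 * l + 1) → ℝ :=
  fun k => (ind s.1 k + ind u.1 k) / 2

theorem ind_nonneg (s : Finset (Fin (2 * l + 1))) (k) : 0 ≤ ind s k := by
  simp only [ind]; split_ifs <;> norm_num

theorem ind_le (s : Finset (Fin (2 * l + 1))) (k) : ind s k ≤ 1 := by
  simp only [ind]; split_ifs <;> norm_num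

theorem mid_mem (s : Lo l) (u : Up l) : mid s u ∈ C l := by
  refine ⟨fun k => ?_, ?_⟩
  · simp only [mid]
    have := ind_nonneg s.1 k
    have := ind_nonneg u.1 k
    have := ind_le s.1 k
    have := ind_le u.1 k
    constructor <;> linarith
  · simp only [mid]
    rw [← Finset.sum_div, Finset.sum_add_distrib, sum_ind, sum_ind, s.2, u.2]
    push_cast
    ring

theorem onto (c : Fin (2 * l + 1) → ℝ) (hc : c ∈ C l) : ∃ x ∈ D l, fmap l x = c := by
  classical
  have hconv : Convex ℝ (fmap l '' D l) := by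
    rintro _ ⟨x, hx, rfl⟩ _ ⟨y, hy, rfl⟩ a b ha hb hab
    exact ⟨a • x + b • y, D_convex l hx hy ha hb hab, fmap_affine l x y a b⟩
  have hsub : (C l).extremePoints ℝ ⊆ fmap l '' D l := by
    intro x hx
    have hxC := extremePoints_subset hx
    obtain ⟨s, j, hs, hj, rfl⟩ := extreme_form hx
    have hu : (insert j s).card = l + 1 := by rw [Finset.card_insert_of_notMem hj, hs]
    let w : Lo l ⊕ Up l → ℝ := (1 / 2 : ℝ) • Pi.single (Sum.inl ⟨s, hs⟩) 1 +
      (1 / 2 : ℝ) • Pi.single (Sum.inr ⟨insert j s, hu⟩) 1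
    have hsingle : ∀ i, fmap l (Pi.single i 1) = pt l i := by
      intro i
      simp only [fmap]
      rw [Finset.sum_eq_single i]
      · simp
      · intro k _ hk; simp [hk]
      · intro h; exact absurd (Finset.mem_univ i) h
    have hfw : fmap l w = vert s j := by
      simp only [w]
      rw [fmap_affine, hsingle, hsingle]
      funext k
      simp only [pt, Sum.elim_inl, Sum.elim_inr, Pi.add_apply, Pi.smul_apply, smul_eq_mul, ind,
        vert, Finset.mem_insert]
      by_cases hk : k ∈ s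
      · simp [hk]; norm_num
      · by_cases hkj : k = j
        · simp [hkj, hj]
        · simp [hk, hkj]
    refine ⟨w, ⟨?_, by rw [hfw]; exact hxC⟩, hfw⟩
    exact convex_stdSimplex ℝ _ (single_mem_stdSimplex ℝ _) (single_mem_stdSimplex ℝ _)
      (by norm_num) (by norm_num) (by norm_num)
  have h2 := convexHull_min hsub hconv
  rw [← C_eq] at h2
  exact h2 hc

theorem masses {w : Lo l ⊕ Up l → ℝ} (hw : w ∈ D l) :
    ∑ s : Lo l, w (Sum.inl s) = 1 / 2 ∧ ∑ u : Up l, w (Sum.inr u) = 1 / 2 := by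
  obtain ⟨⟨h0, h1⟩, h2⟩ := hw
  have h3 := h2.2
  rw [Fintype.sum_sum_type] at h1
  have h4 : ∑ j, fmap l w j = l * ∑ s : Lo l, w (Sum.inl s) +
      (l + 1) * ∑ u : Up l, w (Sum.inr u) := by
    simp only [fmap, Finset.sum_apply, Pi.smul_apply, smul_eq_mul]
    rw [Finset.sum_comm, Fintype.sum_sum_type]
    simp only [pt, Sum.elim_inl, Sum.elim_inr]
    congr 1
    · rw [Finset.mul_sum]
      refine Finset.sum_congr rfl (fun s _ => ?_)
      rw [← Finset.mul_sum, sum_ind, s.2]
      ring
    · rw [Finset.mul_sum]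
      refine Finset.sum_congr rfl (fun s _ => ?_)
      rw [← Finset.mul_sum, sum_ind, s.2]
      push_cast
      ring
  rw [h4] at h3
  have h5 : (l : ℝ) * (∑ s : Lo l, w (Sum.inl s) + ∑ u : Up l, w (Sum.inr u)) = l := by
    rw [h1, mul_one]
  constructor <;> linarith

theorem ext (η : C l → ℝ) (hη : η ∈ Effects (C l)) : ∃ ω ∈ Effects (T l),
    ∀ (x : Lo l ⊕ Up l → ℝ) (hx : x ∈ D l), ω ⟨x, hx.1⟩ = η ⟨fmap l x, hx.2⟩ := by
  classical
  let F : Lo l → Up l → ℝ := fun s u => 2 * η ⟨mid s u, mid_mem s u⟩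
  have hF0 : ∀ s u, 0 ≤ F s u := fun s u => by
    have := (hη.1 ⟨mid s u, mid_mem s u⟩).1
    simp only [F]; linarith
  have hF2 : ∀ s u, F s u ≤ 2 := fun s u => by
    have := (hη.1 ⟨mid s u, mid_mem s u⟩).2
    simp only [F]; linarith
  -- parallelogram relation
  have hpar : ∀ s u s' u', F s u + F s' u' = F s u' + F s' u := by
    intro s u s' u'
    have hm : ((1 / 2 : ℝ) • mid s u + (1 - 1 / 2 : ℝ) • mid s' u' : Fin (2 * l + 1) → ℝ) ∈ C l :=
      C_convex (mid_mem s u) (mid_mem s' u') (by norm_num) (by norm_num) (by norm_num)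
    have e1 := hη.2 ⟨_, mid_mem s u⟩ ⟨_, mid_mem s' u'⟩ ⟨_, hm⟩ (1 / 2) (by norm_num)
      (by norm_num) rfl
    have e2 := hη.2 ⟨_, mid_mem s u'⟩ ⟨_, mid_mem s' u⟩ ⟨_, hm⟩ (1 / 2) (by norm_num)
      (by norm_num) (by
        funext k
        simp only [mid, Pi.add_apply, Pi.smul_apply, smul_eq_mul]
        ring)
    simp only [F]
    linarith
  -- complements
  let cU : Lo l → Up l := fun s => ⟨s.1ᶜ, by
    rw [Finset.card_compl, Fintype.card_fin, s.2]; omega⟩
  let cL : Up l → Lo l := fun u => ⟨u.1ᶜ, by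
    rw [Finset.card_compl, Fintype.card_fin, u.2]; omega⟩
  -- the key estimate
  have hkey : ∀ (s : Lo l) (u : Up l) (s' : Lo l) (u' : Up l),
      (∀ k, ind s.1 k + ind u'.1 k = 1) → (∀ k, ind s'.1 k + ind u.1 k = 1) →
      ∀ (s'' : Lo l) (u'' : Up l), (∀ k, ind s''.1 k + ind u''.1 k = 1) →
      F s u - F s'' u'' ≤ 1 := by
    intro s u s' u' h1 h2 s'' u'' h3
    -- mid s u and mid s' u' are symmetric about the centre mid s'' u''
    have e1 := hη.2 ⟨_, mid_mem s u⟩ ⟨_, mid_mem s' u'⟩ ⟨_, mid_mem s'' u''⟩ (1 / 2)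
      (by norm_num) (by norm_num) (by
        funext k
        simp only [mid, Pi.add_apply, Pi.smul_apply, smul_eq_mul]
        have := h1 k
        have := h2 k
        have := h3 k
        linarith)
    have b1 := (hη.1 ⟨_, mid_mem s' u'⟩).1
    have b2 := (hη.1 ⟨_, mid_mem s u⟩).2
    simp only [F]
    linarith
  have hindc : ∀ (s : Finset (Fin (2 * l + 1))) k, ind s k + ind sᶜ k = 1 := by
    intro s k
    simp only [ind, Finset.mem_compl]
    by_cases hk : k ∈ s <;> simp [hk]
  have hindc' : ∀ (s : Finset (Fin (2 * l + 1))) k, ind sᶜ k + ind s k = 1 := by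
    intro s k; rw [add_comm]; exact hindc s k
  obtain ⟨s0⟩ : Nonempty (Lo l) := by
    obtain ⟨s, -, hs⟩ := Finset.exists_subset_card_eq
      (s := (Finset.univ : Finset (Fin (2 * l + 1)))) (n := l) (by simp; omega)
    exact ⟨⟨s, hs⟩⟩
  let u0 : Up l := cU s0
  let hL : Lo l → ℝ := fun s => F s u0
  let hU : Up l → ℝ := fun u => F s0 u - F s0 u0
  have hFsum : ∀ s u, F s u = hL s + hU u := by
    intro s u
    have := hpar s u s0 u0
    simp only [hL, hU]
    linarith
  -- the parameter
  have hlam : ∃ lam : ℝ, (∀ s, hL s - 1 ≤ lam ∧ lam ≤ hL s) ∧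
      ∀ u, -hU u ≤ lam ∧ lam ≤ 1 - hU u := by
    obtain ⟨lam, h1, h2⟩ := exists_between_of_forall_le
      (s := Set.range (fun s => hL s - 1) ∪ Set.range (fun u => -hU u))
      (t := Set.range hL ∪ Set.range (fun u => 1 - hU u))
      ⟨_, Or.inl ⟨s0, rfl⟩⟩ ⟨_, Or.inl ⟨s0, rfl⟩⟩ (by
        rintro _ (⟨s, rfl⟩ | ⟨u, rfl⟩) _ (⟨s', rfl⟩ | ⟨u', rfl⟩)
        · -- `hL s - hL s' ≤ 1`
          have h := hkey s (cU s') s' (cU s) (hindc s.1) (hindc s'.1) s' (cU s') (hindc s'.1)
          rw [hFsum, hFsum] at h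
          simp only
          linarith
        · have h := hF2 s u'
          rw [hFsum] at h
          simp only
          linarith
        · have h := hF0 s' u
          rw [hFsum] at h
          simp only
          linarith
        · have h := hkey (cL u) u' (cL u') u (hindc' u.1) (hindc' u'.1) (cL u) u (hindc' u.1)
          rw [hFsum, hFsum] at h
          simp only
          linarith)
    refine ⟨lam, fun s => ⟨h1 (Or.inl ⟨s, rfl⟩), h2 (Or.inl ⟨s, rfl⟩)⟩,
      fun u => ⟨h1 (Or.inr ⟨u, rfl⟩), h2 (Or.inr ⟨u, rfl⟩)⟩⟩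
  obtain ⟨lam, hlam1, hlam2⟩ := hlam
  let W : Lo l ⊕ Up l → ℝ := Sum.elim (fun s => hL s - lam) (fun u => hU u + lam)
  refine ⟨fun x => ∑ i, W i * x.1 i, linear_effect W ?_, ?_⟩
  · rintro (s | u)
    · simp only [W, Sum.elim_inl]
      constructor <;> linarith [(hlam1 s).1, (hlam1 s).2]
    · simp only [W, Sum.elim_inr]
      constructor <;> linarith [(hlam2 u).1, (hlam2 u).2]
  · intro x hx
    obtain ⟨hA, hB⟩ := masses hx
    have key := effects_sum C_convex hη (Finset.univ : Finset (Lo l × Up l))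
      (fun p => 4 * (x (Sum.inl p.1) * x (Sum.inr p.2))) (fun p => ⟨_, mid_mem p.1 p.2⟩)
      (fun p _ => mul_nonneg (by norm_num) (mul_nonneg (hx.1.1 _) (hx.1.1 _)))
      (by
        rw [← Finset.mul_sum, Fintype.sum_prod_type]
        simp only [← Finset.mul_sum]
        rw [← Finset.sum_mul, hA, hB]
        norm_num)
      ⟨fmap l x, hx.2⟩
      (by
        funext k
        simp only [fmap, Finset.sum_apply, Pi.smul_apply, smul_eq_mul, mid]
        rw [Fintype.sum_sum_type, Fintype.sum_prod_type]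
        simp only [pt, Sum.elim_inl, Sum.elim_inr]
        have e : ∀ (s : Lo l) (u : Up l), 4 * (x (Sum.inl s) * x (Sum.inr u)) *
            ((ind s.1 k + ind u.1 k) / 2) = 2 * (x (Sum.inl s) * ind s.1 k) * x (Sum.inr u) +
            2 * x (Sum.inl s) * (x (Sum.inr u) * ind u.1 k) := by
          intro s u; ring
        simp only [e]
        simp only [Finset.sum_add_distrib, ← Finset.mul_sum, ← Finset.sum_mul]
        rw [hA, hB]
        ring)
    rw [key]
    simp only
    have e : ∀ p : Lo l × Up l, 4 * (x (Sum.inl p.1) * x (Sum.inr p.2)) *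
        η ⟨mid p.1 p.2, mid_mem p.1 p.2⟩ = 2 * (x (Sum.inl p.1) * hL p.1) * x (Sum.inr p.2) +
        2 * x (Sum.inl p.1) * (x (Sum.inr p.2) * hU p.2) := by
      intro p
      have h := hFsum p.1 p.2
      have h' : η ⟨mid p.1 p.2, mid_mem p.1 p.2⟩ = (hL p.1 + hU p.2) / 2 := by
        rw [← h]; simp only [F]; ring
      rw [h']
      ring
    simp only [e]
    rw [Fintype.sum_prod_type, Fintype.sum_sum_type]
    simp only [Finset.sum_add_distrib, ← Finset.mul_sum, ← Finset.sum_mul, W, Sum.elim_inl,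
      Sum.elim_inr]
    rw [hA, hB]
    have e3 : ∑ s : Lo l, (hL s - lam) * x (Sum.inl s) =
        ∑ s : Lo l, x (Sum.inl s) * hL s - lam / 2 := by
      have : ∀ s : Lo l, (hL s - lam) * x (Sum.inl s) =
          x (Sum.inl s) * hL s - lam * x (Sum.inl s) := fun s => by ring
      simp only [this]
      rw [Finset.sum_sub_distrib, ← Finset.mul_sum, hA]
      ring
    have e4 : ∑ u : Up l, (hU u + lam) * x (Sum.inr u) =
        ∑ u : Up l, x (Sum.inr u) * hU u + lam / 2 := by
      have : ∀ u : Up l, (hU u + lam) * x (Sum.inr u) =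
          x (Sum.inr u) * hU u + lam * x (Sum.inr u) := fun u => by ring
      simp only [this]
      rw [Finset.sum_add_distrib, ← Finset.mul_sum, hB]
      ring
    rw [e3, e4]
    ring

theorem nonempty_index : Nonempty (Lo l ⊕ Up l) := by
  obtain ⟨s, -, hs⟩ := Finset.exists_subset_card_eq
      (s := (Finset.univ : Finset (Fin (2 * l + 1)))) (n := l) (by simp; omega)
  exact ⟨Sum.inl ⟨s, hs⟩⟩

variable (l)

theorem refinement : ∃ (φ : PartialMap (T l) (C l)) (g : PartialMap (Effects (T l)) (Effects (C l))),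
    IsRefinement (T l) (C l) φ g := by
  classical
  have := nonempty_index (l := l)
  obtain ⟨φ, g, h, -, -⟩ := exists_refinement (T l) (C l) (isSimplex_stdSimplex (Lo l ⊕ Up l))
    (D l) (fun x hx => hx.1) (fmap l) (fun x hx y hy t h0 h1 =>
      ⟨D_convex l hx hy h0 (by linarith) (by ring), fmap_affine l x y t (1 - t)⟩)
    (fun x hx => hx.2) onto ext
  exact ⟨φ, g, h⟩

end Pool.Agent.V11217.Hyper
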