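import Mathlib
import Pool.Agent.V11217.Hyper

/-!
Lower bound for the number of vertices of simplicial refinements of the middle slice.
-/

namespace Pool.Agent.V11217.Hyper

open Set Pool.Agent.V11217.Refine Finset

variable (l : ℕ)

/-- the index type of pairs -/
abbrev PT : Type := Σ _ : Finset (Fin (2 * l + 1)), Fin (2 * l + 1)

variable {l}

/-- `P` lies on the cube edge given by the pair `p` -/
def OnEdge (P : Fin (2 * l + 1) → ℝ) (p : PT l) : Prop :=
  (∀ k ∈ p.1, P k = 1) ∧ ∀ k, k ∉ p.1 → k ≠ p.2 → P k = 0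

open Classical in
/-- doubled weights -/
noncomputable def wt (P : Fin (2 * l + 1) → ℝ) (p : PT l) : ℕ :=
  if OnEdge P p then (if P p.2 = 1 / 2 then 2 else 1) else 0

theorem wt_sum_le (hl : 1 ≤ l) (P : Fin (2 * l + 1) → ℝ) :
    ∑ p ∈ pairs l, wt P p ≤ l + 1 := by
  classical
  let R := (pairs l).filter (OnEdge P)
  have hR : ∀ p, p ∈ R ↔ (p.1.card = l ∧ p.2 ∉ p.1) ∧ OnEdge P p := by
    intro p; simp only [R, Finset.mem_filter, mem_pairs]
  have hsum : ∑ p ∈ pairs l, wt P p = ∑ p ∈ R, wt P p := by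
    symm
    apply Finset.sum_subset (Finset.filter_subset _ _)
    intro p hp hpR
    have : ¬ OnEdge P p := fun h => hpR (Finset.mem_filter.2 ⟨hp, h⟩)
    simp [wt, this]
  rw [hsum]
  let S : Finset (Fin (2 * l + 1)) := Finset.univ.filter (fun k => P k = 1)
  have hS : ∀ k, k ∈ S ↔ P k = 1 := by intro k; simp [S]
  -- the first component is determined
  have hfst : ∀ p ∈ R, p.1 = S.erase p.2 := by
    intro p hp
    obtain ⟨⟨h1, h2⟩, h3, h4⟩ := (hR p).1 hp
    ext k
    rw [Finset.mem_erase, hS]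
    constructor
    · intro hk; exact ⟨fun h => h2 (h ▸ hk), h3 k hk⟩
    · rintro ⟨hkne, hk1⟩
      by_contra hk
      rw [h4 k hk hkne] at hk1
      norm_num at hk1
  by_cases hfrac : ∃ p ∈ R, P p.2 ≠ 0 ∧ P p.2 ≠ 1
  · obtain ⟨p, hp, hp0, hp1⟩ := hfrac
    have hsub : R ⊆ {p} := by
      intro q hq
      obtain ⟨⟨h1, h2⟩, h3, h4⟩ := (hR q).1 hq
      have hsnd : p.2 = q.2 := by
        by_contra hne
        by_cases hmem : p.2 ∈ q.1
        · exact hp1 (h3 _ hmem)
        · exact hp0 (h4 _ hmem hne)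
      have hf : p.1 = q.1 := by
        rw [hfst p hp, hfst q hq, hsnd]
      rw [Finset.mem_singleton]
      exact Sigma.ext hf.symm (heq_of_eq hsnd.symm)
    calc ∑ p ∈ R, wt P p ≤ ∑ q ∈ {p}, wt P q := Finset.sum_le_sum_of_subset hsub
      _ = wt P p := Finset.sum_singleton _ _
      _ ≤ 2 := by unfold wt; split_ifs <;> omega
      _ ≤ l + 1 := by omega
  · push Not at hfrac
    have h1 : ∀ p ∈ R, wt P p ≤ 1 := by
      intro p hp
      have h : P p.2 ≠ 1 / 2 := by
        intro h
        have := hfrac p hp (by rw [h]; norm_num)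
        rw [h] at this
        norm_num at this
      unfold wt
      split_ifs <;> omega
    have h2 : ∑ p ∈ R, wt P p ≤ R.card := by
      calc ∑ p ∈ R, wt P p ≤ ∑ p ∈ R, 1 := Finset.sum_le_sum h1
        _ = R.card := by simp
    refine h2.trans ?_
    have hinj : Set.InjOn (fun p : PT l => p.2) (↑R : Set (PT l)) := by
      intro p hp q hq hpq
      have hf : p.1 = q.1 := by
        rw [hfst p hp, hfst q hq]
        simp only at hpq
        rw [hpq]
      exact Sigma.ext hf (heq_of_eq hpq)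
    rw [← Finset.card_image_of_injOn hinj]
    by_cases hRe : R.Nonempty
    · obtain ⟨p, hp⟩ := hRe
      by_cases hpS : p.2 ∈ S
      · -- all second components lie in `S`
        have hcS : S.card = l + 1 := by
          have h := hfst p hp
          have h3 := ((hR p).1 hp).1.1
          rw [h, Finset.card_erase_of_mem hpS] at h3
          omega
        rw [← hcS]
        apply Finset.card_le_card
        intro k hk
        obtain ⟨q, hq, rfl⟩ := Finset.mem_image.1 hk
        by_contra hqS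
        have h := hfst q hq
        have h3 := ((hR q).1 hq).1.1
        rw [h, Finset.erase_eq_of_notMem hqS] at h3
        omega
      · have hcS : S.card = l := by
          have h := hfst p hp
          have h3 := ((hR p).1 hp).1.1
          rw [h, Finset.erase_eq_of_notMem hpS] at h3
          exact h3
        have hcS' : Sᶜ.card = l + 1 := by
          rw [Finset.card_compl, Fintype.card_fin, hcS]; omega
        rw [← hcS']
        apply Finset.card_le_card
        intro k hk
        obtain ⟨q, hq, rfl⟩ := Finset.mem_image.1 hk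
        rw [Finset.mem_compl]
        intro hqS
        have h := hfst q hq
        have h3 := ((hR q).1 hq).1.1
        rw [h, Finset.card_erase_of_mem hqS] at h3
        omega
    · rw [Finset.not_nonempty_iff_eq_empty] at hRe
      rw [hRe]
      simp

theorem two_le {N : ℕ} (P : Fin N → Fin (2 * l + 1) → ℝ) (hP : ∀ i k, 0 ≤ P i k ∧ P i k ≤ 1)
    (w : Fin N → ℝ) (hw : w ∈ stdSimplex ℝ (Fin N)) (p : PT l) (hp : p ∈ pairs l)
    (hw2 : ∀ k, vert p.1 p.2 k = ∑ i, w i * P i k) : 2 ≤ ∑ i, wt (P i) p := by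
  classical
  obtain ⟨hps, hpj⟩ := (mem_pairs l p).1 hp
  -- support lies on the edge
  have hsupp : ∀ i, w i ≠ 0 → OnEdge (P i) p := by
    intro i hi
    refine ⟨fun k hk => ?_, fun k hk hkj => ?_⟩
    · have h := hw2 k
      have e : vert p.1 p.2 k = 1 := by simp [vert, hk]
      rw [e] at h
      have h0 : ∑ i, w i * (1 - P i k) = 0 := by
        have : ∀ i, w i * (1 - P i k) = w i - w i * P i k := fun i => by ring
        simp only [this]
        rw [Finset.sum_sub_distrib, hw.2, ← h, sub_self]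
      have h1 := (Finset.sum_eq_zero_iff_of_nonneg (fun i _ =>
        mul_nonneg (hw.1 i) (sub_nonneg.2 (hP i k).2))).1 h0 i (Finset.mem_univ i)
      have h2 := (mul_eq_zero.1 h1).resolve_left hi
      linarith
    · have h := hw2 k
      have e : vert p.1 p.2 k = 0 := by simp [vert, hk, hkj]
      rw [e] at h
      have h1 := (Finset.sum_eq_zero_iff_of_nonneg (fun i _ =>
        mul_nonneg (hw.1 i) (hP i k).1)).1 h.symm i (Finset.mem_univ i)
      exact (mul_eq_zero.1 h1).resolve_left hi
  have hj := hw2 p.2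
  have e : vert p.1 p.2 p.2 = 1 / 2 := by simp [vert, hpj]
  rw [e] at hj
  by_cases hhalf : ∃ i, w i ≠ 0 ∧ P i p.2 = 1 / 2
  · obtain ⟨i, hi, hih⟩ := hhalf
    calc 2 = wt (P i) p := by simp only [wt, hsupp i hi, hih, if_true]
      _ ≤ ∑ i, wt (P i) p := Finset.single_le_sum (f := fun i => wt (P i) p)
          (fun _ _ => Nat.zero_le _) (Finset.mem_univ i)
  · push Not at hhalf
    have h0 : ∑ i, w i * (P i p.2 - 1 / 2) = 0 := by
      have : ∀ i, w i * (P i p.2 - 1 / 2) = w i * P i p.2 - w i * (1 / 2) := fun i => by ring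
      simp only [this]
      rw [Finset.sum_sub_distrib, ← hj, ← Finset.sum_mul, hw.2]
      ring
    obtain ⟨i0, hi0⟩ : ∃ i, w i ≠ 0 := by
      by_contra hcon
      push Not at hcon
      have := hw.2
      simp only [hcon] at this
      simp at this
    have hne : ∃ i ∈ (Finset.univ : Finset (Fin N)), w i * (P i p.2 - 1 / 2) ≠ 0 :=
      ⟨i0, Finset.mem_univ _, mul_ne_zero hi0 (sub_ne_zero.2 (hhalf i0 hi0))⟩
    obtain ⟨i1, -, hi1⟩ := Finset.exists_pos_of_sum_zero_of_exists_nonzero _ h0 hne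
    obtain ⟨i2, -, hi2⟩ := Finset.exists_pos_of_sum_zero_of_exists_nonzero
      (fun i => -(w i * (P i p.2 - 1 / 2))) (by
        rw [Finset.sum_neg_distrib, h0, neg_zero])
      (by
        obtain ⟨i, hi, hin⟩ := hne
        exact ⟨i, hi, neg_ne_zero.2 hin⟩)
    have hw1 : w i1 ≠ 0 := fun h => by rw [h] at hi1; simp at hi1
    have hw2' : w i2 ≠ 0 := fun h => by rw [h] at hi2; simp at hi2
    have hne12 : i1 ≠ i2 := by
      rintro rfl
      linarith
    have hone : ∀ i, w i ≠ 0 → 1 ≤ wt (P i) p := by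
      intro i hi
      simp only [wt, hsupp i hi, if_true]
      split_ifs <;> omega
    calc 2 ≤ wt (P i1) p + wt (P i2) p := by
          have := hone i1 hw1
          have := hone i2 hw2'
          omega
      _ = ∑ i ∈ {i1, i2}, wt (P i) p := by rw [Finset.sum_pair hne12]
      _ ≤ ∑ i, wt (P i) p := Finset.sum_le_sum_of_subset (Finset.subset_univ _)

theorem comb_lower (hl : 1 ≤ l) {N : ℕ} (P : Fin N → Fin (2 * l + 1) → ℝ)
    (hP : ∀ i k, 0 ≤ P i k ∧ P i k ≤ 1)
    (h : ∀ p ∈ pairs l, ∃ w ∈ stdSimplex ℝ (Fin N), ∀ k, vert p.1 p.2 k = ∑ i, w i * P i k) :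
    2 * (2 * l + 1).choose l ≤ N := by
  classical
  have h1 : ∑ p ∈ pairs l, 2 ≤ ∑ p ∈ pairs l, ∑ i, wt (P i) p := by
    refine Finset.sum_le_sum (fun p hp => ?_)
    obtain ⟨w, hw, hw2⟩ := h p hp
    exact two_le P hP w hw p hp hw2
  rw [Finset.sum_const, card_pairs, Finset.sum_comm, smul_eq_mul] at h1
  have h2 : ∑ i, ∑ p ∈ pairs l, wt (P i) p ≤ ∑ _i : Fin N, (l + 1) :=
    Finset.sum_le_sum (fun i _ => wt_sum_le hl (P i))
  rw [Finset.sum_const, Finset.card_univ, Fintype.card_fin, smul_eq_mul] at h2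
  have h3 := h1.trans h2
  have h4 : (l + 1) * (2 * (2 * l + 1).choose l) ≤ (l + 1) * N := by
    calc (l + 1) * (2 * (2 * l + 1).choose l) = (l + 1) * (2 * l + 1).choose l * 2 := by ring
      _ ≤ N * (l + 1) := h3
      _ = (l + 1) * N := by ring
  exact Nat.le_of_mul_le_mul_left h4 (Nat.succ_pos l)

/-- Every simplicial refinement of the slice has at least `2 * binom (2 l + 1) l` vertices. -/
theorem lower_bound (hl : 1 ≤ l) {E : Type} [AddCommGroup E] [Module ℝ E] {S : Set E}
    (φ : PartialMap S (C l)) (g : PartialMap (Effects S) (Effects (C l)))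
    (href : IsRefinement S (C l) φ g) {N : ℕ} {e : Fin N → E}
    (hS : S = convexHull ℝ (Set.range e)) : 2 * (2 * l + 1).choose l ≤ N := by
  classical
  obtain ⟨-, hcompat⟩ := href
  have hSconv : Convex ℝ S := by rw [hS]; exact convex_convexHull ℝ _
  have heS : ∀ i, e i ∈ S := by
    intro i; rw [hS]; exact subset_convexHull ℝ _ ⟨i, rfl⟩
  -- coordinate effects
  have hcoord : ∀ k : Fin (2 * l + 1), (fun c : C l => c.1 k) ∈ Effects (C l) := by
    intro k
    refine ⟨fun c => c.2.1 k, fun x y z t _ _ hz => ?_⟩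
    have := congrFun hz k
    simpa using this
  choose ω hω using fun k => g.onto _ (hcoord k)
  have hωE : ∀ k, (ω k : S → ℝ) ∈ Effects S := fun k => g.dom_subset (ω k).2
  refine comb_lower hl (fun i k => (ω k : S → ℝ) ⟨e i, heS i⟩) (fun i k => (hωE k).1 _) ?_
  intro p hp
  obtain ⟨hps, hpj⟩ := (mem_pairs l p).1 hp
  obtain ⟨a, ha⟩ := φ.onto _ (vert_mem hps hpj)
  have haS : (a : E) ∈ convexHull ℝ (Set.range e) := hS.subset (φ.dom_subset a.2)
  rw [convexHull_range_eq] at haS
  obtain ⟨w, hw, haw⟩ := haS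
  refine ⟨w, hw, fun k => ?_⟩
  have h1 := hcompat a (ω k)
  rw [hω k] at h1
  simp only at h1
  rw [ha] at h1
  rw [h1]
  exact effects_sum hSconv (hωE k) Finset.univ w (fun i => ⟨e i, heS i⟩) (fun i _ => hw.1 i) hw.2
    ⟨a, φ.dom_subset a.2⟩ haw

end Pool.Agent.V11217.Hyper
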