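import Mathlib
import Pool.Agent.V11217.HyperLower

/-!
Extreme points and dimension of simplices.
-/

namespace Pool.Agent.V11217.Refine

open Set

variable {E : Type} [AddCommGroup E] [Module ℝ E]

theorem extremePoints_simplex {N : ℕ} {e : Fin N → E} (he : AffineIndependent ℝ e) {T : Set E}
    (hT : T = convexHull ℝ (Set.range e)) : T.extremePoints ℝ = Set.range e := by
  classical
  apply Subset.antisymm
  · rw [hT]; exact extremePoints_convexHull_subset
  · rintro _ ⟨i, rfl⟩
    have heT : ∀ j, e j ∈ T := fun j => by rw [hT]; exact subset_convexHull ℝ _ ⟨j, rfl⟩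
    obtain ⟨w, hw, hz, huniq⟩ := exists_bary he hT
    rw [mem_extremePoints_iff_left]
    refine ⟨heT i, ?_⟩
    rintro x hx y hy ⟨a, b, ha, hb, hab, hxy⟩
    have hei : w ⟨e i, heT i⟩ = Pi.single i 1 := by
      symm
      apply huniq
      · simp
      · rw [Finset.sum_eq_single i]
        · simp
        · intro j _ hj; simp [hj]
        · intro h; exact absurd (Finset.mem_univ i) h
    have hcomb : a • w ⟨x, hx⟩ + b • w ⟨y, hy⟩ = w ⟨e i, heT i⟩ := by
      apply huniq
      · simp only [Pi.add_apply, Pi.smul_apply, smul_eq_mul]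
        rw [Finset.sum_add_distrib, ← Finset.mul_sum, ← Finset.mul_sum, (hw _).2, (hw _).2]
        linarith
      · simp only
        rw [← hxy]
        have e1 := hz ⟨x, hx⟩
        have e2 := hz ⟨y, hy⟩
        simp only at e1 e2
        conv_lhs => rw [e1, e2]
        rw [Finset.smul_sum, Finset.smul_sum, ← Finset.sum_add_distrib]
        refine Finset.sum_congr rfl (fun i _ => ?_)
        simp only [Pi.add_apply, Pi.smul_apply, smul_eq_mul, add_smul, mul_smul]
    rw [hei] at hcomb
    have hzero : ∀ j, j ≠ i → w ⟨x, hx⟩ j = 0 := by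
      intro j hj
      have h := congrFun hcomb j
      simp only [Pi.add_apply, Pi.smul_apply, smul_eq_mul, Pi.single_eq_of_ne hj] at h
      have h1 := mul_nonneg ha.le ((hw ⟨x, hx⟩).1 j)
      have h2 := mul_nonneg hb.le ((hw ⟨y, hy⟩).1 j)
      have h3 : a * w ⟨x, hx⟩ j = 0 := by linarith
      exact (mul_eq_zero.1 h3).resolve_left ha.ne'
    have hone : w ⟨x, hx⟩ i = 1 := by
      have h := (hw ⟨x, hx⟩).2
      rw [Finset.sum_eq_single i (fun j _ hj => hzero j hj)
        (fun h => absurd (Finset.mem_univ i) h)] at h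
      exact h
    have h := hz ⟨x, hx⟩
    rw [Finset.sum_eq_single i (fun j _ hj => by rw [hzero j hj, zero_smul])
      (fun h => absurd (Finset.mem_univ i) h), hone, one_smul] at h
    exact h

theorem ncard_extremePoints_simplex {N : ℕ} {e : Fin N → E} (he : AffineIndependent ℝ e)
    {T : Set E} (hT : T = convexHull ℝ (Set.range e)) : (T.extremePoints ℝ).ncard = N := by
  rw [extremePoints_simplex he hT, ← Set.image_univ, Set.InjOn.ncard_image he.injective.injOn,
    Set.ncard_univ]
  simp

theorem finrank_simplex {N : ℕ} {e : Fin (N + 1) → E} (he : AffineIndependent ℝ e)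
    {T : Set E} (hT : T = convexHull ℝ (Set.range e)) :
    Module.finrank ℝ (vectorSpan ℝ T) = N := by
  have h1 : vectorSpan ℝ T = vectorSpan ℝ (Set.range e) := by
    rw [← direction_affineSpan, ← direction_affineSpan, hT, affineSpan_convexHull]
  rw [h1]
  exact he.finrank_vectorSpan (by simp)

theorem stdSimplex_vertices (ι : Type) [Fintype ι] [DecidableEq ι] {n : ℕ}
    (hn : Fintype.card ι = n) : ∃ e : Fin n → (ι → ℝ), AffineIndependent ℝ e ∧
      stdSimplex ℝ ι = convexHull ℝ (Set.range e) := by
  let e : Fin n ≃ ι := (Fintype.equivFinOfCardEq hn).symm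
  refine ⟨fun i => Pi.single (e i) 1, ?_, ?_⟩
  · have h1 : LinearIndependent ℝ (fun i : ι => (Pi.single i (1 : ℝ) : ι → ℝ)) :=
      Pi.linearIndependent_single_one ι ℝ
    exact (h1.comp e e.injective).affineIndependent
  · rw [← convexHull_rangle_single_eq_stdSimplex]
    congr 1
    ext x
    constructor
    · rintro ⟨i, rfl⟩
      exact ⟨e.symm i, by simp⟩
    · rintro ⟨i, rfl⟩
      exact ⟨e i, rfl⟩

end Pool.Agent.V11217.Refine
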