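import Pool.Agent.V11217.NWL

/-! The criteria for a function given in a half plane. -/

set_option autoImplicit false

open Complex Filter Topology Finset

namespace Pool.Agent.V11217.NW

theorem Rep.congr {ι : Type} {F F' : ℂ → ℂ} {c : ι → ℂ} {l : ι → ℝ} {ε : ℝ} (R : Rep ε F c l)
    (h : ∀ w : ℂ, -ε ≤ w.re → F' w = F w) : Rep ε F' c l :=
  ⟨R.nonneg, R.sum, fun w hw => by rw [h w hw, R.eq w hw]⟩

/-- ordinary Dirichlet series -/
theorem lseries_eq {a : ℕ → ℂ} {s : ℂ} (hs : LSeriesSummable a s) :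
    LSeries a s = dser (fun m => a (m + 1)) s := by
  unfold LSeries dser
  rw [hs.tsum_eq_zero_add, LSeries.term_zero, zero_add]
  refine tsum_congr fun m => ?_
  rw [LSeries.term_of_ne_zero (Nat.succ_ne_zero m), Complex.cpow_neg, div_eq_mul_inv]
  push_cast
  rfl

theorem lseries_sum {a : ℕ → ℂ} (hs : LSeriesSummable a ((7 / 4 : ℝ) : ℂ)) :
    Summable fun m : ℕ => ‖a (m + 1)‖ * ((m : ℝ) + 1) ^ (-(7 / 4) : ℝ) := by
  have h1 := (summable_nat_add_iff 1).2 hs.norm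
  refine h1.congr fun m => ?_
  rw [LSeries.norm_term_eq, if_neg (Nat.succ_ne_zero m), ofReal_re, div_eq_mul_inv,
    Real.rpow_neg (by positivity)]
  push_cast
  rfl

theorem lseries_rep {a : ℕ → ℂ} (hs : ∀ s : ℂ, 1 < s.re → LSeriesSummable a s) :
    ∃ (c : ℕ → ℂ) (l : ℕ → ℝ), Rep (1 / 4) (fun w => LSeries a (2 + w)) c l := by
  have h1 := lseries_sum (hs ((7 / 4 : ℝ) : ℂ) (by rw [ofReal_re]; norm_num))
  exact ⟨_, _, (dser_rep h1).congr fun w hw => lseries_eq (hs _ (by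
    rw [add_re, Complex.re_ofNat]
    linarith))⟩

/-- two holomorphic functions which agree for `Re s > τ` agree for `Re s > σ` -/
theorem agree {G L : ℂ → ℂ} {σ τ : ℝ} (hG : ∀ s : ℂ, σ < s.re → DifferentiableAt ℂ G s)
    (hL : ∀ s : ℂ, σ < s.re → DifferentiableAt ℂ L s) (h : ∀ s : ℂ, τ < s.re → G s = L s) :
    ∀ s : ℂ, σ < s.re → G s = L s := by
  have hU : IsOpen {z : ℂ | σ < z.re} := isOpen_lt continuous_const Complex.continuous_re
  have hpre : IsPreconnected {z : ℂ | σ < z.re} := (convex_halfSpace_re_gt σ).isPreconnected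
  have hA1 : AnalyticOnNhd ℂ G {z : ℂ | σ < z.re} :=
    DifferentiableOn.analyticOnNhd (fun z hz => (hG z hz).differentiableWithinAt) hU
  have hA2 : AnalyticOnNhd ℂ L {z : ℂ | σ < z.re} :=
    DifferentiableOn.analyticOnNhd (fun z hz => (hL z hz).differentiableWithinAt) hU
  have hz0 : ((max σ τ + 1 : ℝ) : ℂ).re = max σ τ + 1 := Complex.ofReal_re _
  have hm1 := le_max_left σ τ
  have hm2 := le_max_right σ τ
  have hev : G =ᶠ[𝓝 ((max σ τ + 1 : ℝ) : ℂ)] L := by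
    have : {z : ℂ | τ < z.re} ∈ 𝓝 ((max σ τ + 1 : ℝ) : ℂ) :=
      (isOpen_lt continuous_const Complex.continuous_re).mem_nhds (by
        change τ < _
        rw [hz0]
        linarith)
    filter_upwards [this] with z hz
    exact h z hz
  exact fun s hs => hA1.eqOn_of_preconnected_of_eventuallyEq hA2 hpre
    (z₀ := ((max σ τ + 1 : ℝ) : ℂ)) (by
      change σ < _
      rw [hz0]
      linarith) hev hs

theorem shift_growth {G : ℂ → ℂ} {B : ℝ} {κ : ℕ} {σ : ℝ} {z : ℂ} (hz : ‖z‖ ≤ 2)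
    (h : ∀ s : ℂ, σ ≤ s.re → ‖G s‖ ≤ B * (1 + ‖s‖) ^ κ) :
    ∀ s : ℂ, σ ≤ (s + z).re → ‖G (s + z)‖ ≤ |B| * 3 ^ κ * (1 + ‖s‖) ^ κ := by
  intro s hs
  refine (h _ hs).trans ?_
  have h5 : 1 + ‖s + z‖ ≤ 3 * (1 + ‖s‖) := by
    have := norm_add_le s z
    have := norm_nonneg s
    linarith
  calc B * (1 + ‖s + z‖) ^ κ ≤ |B| * (3 * (1 + ‖s‖)) ^ κ :=
        mul_le_mul (le_abs_self B) (pow_le_pow_left₀ (by positivity) h5 _) (by positivity)
          (abs_nonneg _)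
    _ = _ := by rw [mul_pow]; ring

theorem re_p (w : ℂ) : (w + 2).re = w.re + 2 := by simp

theorem re_m (s : ℂ) : (s + -2).re = s.re - 2 := by
  simp
  ring

variable {L : ℂ → ℂ} {σ₀ : ℝ} {ι : Type} {cc : ι → ℂ} {l : ι → ℝ}

theorem half_plane [Countable ι] (R : Rep (1 / 4) (fun w => L (2 + w)) cc l)
    (hL : ∀ s : ℂ, σ₀ < s.re → DifferentiableAt ℂ L s) (hσ : σ₀ ≤ 2) {c : ℝ} (hc : 2 - c ≤ σ₀)
    (hc0 : 0 < c) :
    (∃ G : ℂ → ℂ, (∀ s : ℂ, 2 - c < s.re → DifferentiableAt ℂ G s) ∧ (∀ s : ℂ, σ₀ < s.re → G s = L s) ∧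
      ∀ α : ℝ, α < c → ∃ (B : ℝ) (κ : ℕ), ∀ s : ℂ, 2 - α ≤ s.re → ‖G s‖ ≤ B * (1 + ‖s‖) ^ κ) ↔
    ∀ α : ℝ, 0 < α → α < c → ∃ (C : ℝ) (κ : ℕ), DB (fun w => L (2 + w)) α C κ := by
  rw [← criterion' R hc0]
  constructor
  · rintro ⟨G, h1, h2, h3⟩
    refine ⟨fun w => G (w + 2), fun w hw => ?_, fun w hw => ?_, fun α hα => ?_⟩
    · have h4 : DifferentiableAt ℂ G (w + 2) := h1 _ (by rw [re_p]; linarith)
      exact DifferentiableAt.comp (f := fun w : ℂ => w + 2) w h4 (by fun_prop)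
    · beta_reduce
      rw [add_comm 2 w]
      exact h2 _ (by rw [re_p]; linarith)
    · obtain ⟨B, κ, h4⟩ := h3 α hα
      exact ⟨_, κ, fun w hw => shift_growth (z := 2) (by simp) h4 w (by rw [re_p]; linarith)⟩
  · rintro ⟨G, h1, h2, h3⟩
    have h0 : ∀ s : ℂ, 2 - c < s.re → DifferentiableAt ℂ (fun s => G (s + -2)) s := by
      intro s hs
      have h4 : DifferentiableAt ℂ G (s + -2) := h1 _ (by rw [re_m]; linarith)
      exact DifferentiableAt.comp (f := fun s : ℂ => s + -2) s h4 (by fun_prop)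
    refine ⟨fun s => G (s + -2), h0, ?_, fun α hα => ?_⟩
    · refine agree (τ := 2) (fun s hs => h0 s (by linarith)) hL fun s hs => ?_
      rw [h2 (s + -2) (by rw [re_m]; linarith)]
      beta_reduce
      congr 1
      ring
    · obtain ⟨B, κ, h5⟩ := h3 α hα
      exact ⟨_, κ, fun s hs => shift_growth (z := -2) (by simp) h5 s (by rw [re_m]; linarith)⟩

theorem whole_plane [Countable ι] (R : Rep (1 / 4) (fun w => L (2 + w)) cc l)
    (hL : ∀ s : ℂ, σ₀ < s.re → DifferentiableAt ℂ L s) (hσ : σ₀ ≤ 2) :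
    (∃ G : ℂ → ℂ, Differentiable ℂ G ∧ (∀ s : ℂ, σ₀ < s.re → G s = L s) ∧
      ∀ σ : ℝ, ∃ (B : ℝ) (κ : ℕ), ∀ s : ℂ, σ ≤ s.re → ‖G s‖ ≤ B * (1 + ‖s‖) ^ κ) ↔
    ∀ α : ℝ, 0 < α → ∃ (C : ℝ) (κ : ℕ), DB (fun w => L (2 + w)) α C κ := by
  constructor
  · rintro ⟨G, g1, g2, g3⟩ α hα
    have h1 := le_abs_self σ₀
    have h2 := neg_abs_le σ₀
    exact (half_plane R hL hσ (c := α + |σ₀| + 2) (by linarith) (by positivity)).1
      ⟨G, fun s _ => g1 s, g2, fun α' _ => g3 (2 - α')⟩ α hα (by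
        have := abs_nonneg σ₀
        linarith)
  · intro H
    obtain ⟨h1, h2, h3⟩ := continues_everywhere R (by norm_num) H
    have h0 : ∀ s : ℂ, DifferentiableAt ℂ (fun s => G (fun w => L (2 + w)) 1 (s + -2)) s := fun s =>
      DifferentiableAt.comp (f := fun s : ℂ => s + -2) s (h1 (s + -2)) (by fun_prop)
    refine ⟨fun s => G (fun w => L (2 + w)) 1 (s + -2), h0, ?_, fun σ => ?_⟩
    · refine agree (τ := 2) (fun s _ => h0 s) hL fun s hs => ?_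
      rw [h2 (s + -2) (by rw [re_m]; linarith)]
      congr 1
      ring
    · obtain ⟨B, κ, h5⟩ := h3 (σ - 2)
      exact ⟨_, κ, fun s hs => shift_growth (z := -2) (by simp) h5 s (by rw [re_m]; linarith)⟩

/-- one step suffices in a half plane -/
theorem one_step_half (R : Rep (1 / 4) (fun w => L (2 + w)) cc l)
    (hL : ∀ s : ℂ, σ₀ < s.re → DifferentiableAt ℂ L s) {c : ℝ} (hc : 2 - c ≤ σ₀)
    (hc0 : 0 < c) (H : ∀ α : ℝ, 0 < α → α < c →
      ∃ C : ℝ, ∀ n : ℕ, 1 ≤ n → ‖D (fun w => L (2 + w)) 1 n‖ ≤ C * (n : ℝ) ^ (-α)) :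
    ∃ G : ℂ → ℂ, (∀ s : ℂ, 2 - c < s.re → DifferentiableAt ℂ G s) ∧ ∀ s : ℂ, σ₀ < s.re → G s = L s := by
  have h2 := one_step_free R (by norm_num) hc0 H
  have h0 : ∀ s : ℂ, 2 - c < s.re →
      DifferentiableAt ℂ (fun s => G (fun w => L (2 + w)) 1 (s + -2)) s := fun s hs =>
    DifferentiableAt.comp (f := fun s : ℂ => s + -2) s
      (h2.1 (s + -2) (by rw [re_m]; linarith)) (by fun_prop)
  refine ⟨fun s => G (fun w => L (2 + w)) 1 (s + -2), h0, ?_⟩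
  refine agree (τ := 2) (fun s hs => h0 s (by linarith)) hL fun s hs => ?_
  rw [h2.2 (s + -2) (by rw [re_m]; linarith)]
  congr 1
  ring

/-- one step suffices in the plane -/
theorem one_step_whole (R : Rep (1 / 4) (fun w => L (2 + w)) cc l)
    (hL : ∀ s : ℂ, σ₀ < s.re → DifferentiableAt ℂ L s) (H : ∀ α : ℝ,
      ∃ C : ℝ, ∀ n : ℕ, 1 ≤ n → ‖D (fun w => L (2 + w)) 1 n‖ ≤ C * (n : ℝ) ^ (-α)) :
    ∃ G : ℂ → ℂ, Differentiable ℂ G ∧ ∀ s : ℂ, σ₀ < s.re → G s = L s := by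
  have h2 := one_step R (by norm_num) H
  have h0 : ∀ s : ℂ, DifferentiableAt ℂ (fun s => G (fun w => L (2 + w)) 1 (s + -2)) s := fun s =>
    DifferentiableAt.comp (f := fun s : ℂ => s + -2) s (h2.1 (s + -2)) (by fun_prop)
  refine ⟨fun s => G (fun w => L (2 + w)) 1 (s + -2), h0, ?_⟩
  refine agree (τ := 2) (fun s _ => h0 s) hL fun s hs => ?_
  rw [h2.2 (s + -2) (by rw [re_m]; linarith)]
  congr 1
  ring

end Pool.Agent.V11217.NW
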