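import Mathlib
import Pool.Agent.V11217.Refine

/-!
A trapezoid and a refinement of it by a 4-simplex.
-/

namespace Pool.Agent.V11217.Trapezoid

open Set Pool.Agent.V11217.Refine

/-- the trapezoid with vertices (0,0), (3,0), (2,1), (1,1) -/
def C : Set (ℝ × ℝ) := {p | 0 ≤ p.2 ∧ p.2 ≤ 1 ∧ p.2 ≤ p.1 ∧ p.1 ≤ 3 - p.2}

/-- the standard 4-simplex -/
def T : Set (Fin 5 → ℝ) := stdSimplex ℝ (Fin 5)

/-- the domain of `f` -/
def D : Set (Fin 5 → ℝ) := {x | x ∈ T ∧ x 0 = 2 * (x 3 + x 4)}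

/-- the map `f` -/
def f (x : Fin 5 → ℝ) : ℝ × ℝ := (3 * x 2 + 6 * x 3 + 3 * x 4, 3 * x 3 + 3 * x 4)

theorem D_sub : D ⊆ T := fun _ hx => hx.1

theorem mem_T (x : Fin 5 → ℝ) : x ∈ T ↔ (0 ≤ x 0 ∧ 0 ≤ x 1 ∧ 0 ≤ x 2 ∧ 0 ≤ x 3 ∧ 0 ≤ x 4) ∧
    x 0 + x 1 + x 2 + x 3 + x 4 = 1 := by
  simp only [T, stdSimplex, mem_setOf_eq, Fin.forall_fin_succ, Fin.sum_univ_succ]
  simp
  intro _ _ _ _ _
  constructor <;> intro h <;> linarith

theorem C_convex : Convex ℝ C := by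
  rintro ⟨a1, a2⟩ ⟨h1, h2, h3, h4⟩ ⟨b1, b2⟩ ⟨g1, g2, g3, g4⟩ s t hs ht hst
  simp only [C, mem_setOf_eq, Prod.smul_mk, Prod.mk_add_mk, smul_eq_mul] at *
  obtain rfl : t = 1 - s := by linarith
  refine ⟨?_, ?_, ?_, ?_⟩ <;> nlinarith

theorem c1_mem : ((0, 0) : ℝ × ℝ) ∈ C := by simp only [C, mem_setOf_eq]; norm_num
theorem c2_mem : ((3, 0) : ℝ × ℝ) ∈ C := by simp only [C, mem_setOf_eq]; norm_num
theorem c3_mem : ((2, 1) : ℝ × ℝ) ∈ C := by simp only [C, mem_setOf_eq]; norm_num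
theorem c4_mem : ((1, 1) : ℝ × ℝ) ∈ C := by simp only [C, mem_setOf_eq]; norm_num

theorem onto (p : ℝ × ℝ) (hp : p ∈ C) : ∃ x ∈ D, f x = p := by
  obtain ⟨u, y⟩ := p
  obtain ⟨h1, h2, h3, h4⟩ := hp
  simp only at h1 h2 h3 h4
  have hpos : 0 < 3 - 2 * y := by linarith
  let t : ℝ := (u - y) / (3 - 2 * y)
  have ht0 : 0 ≤ t := div_nonneg (by linarith) hpos.le
  have ht1 : t ≤ 1 := by
    rw [div_le_one hpos]; linarith
  have ht : t * (3 - 2 * y) = u - y := div_mul_cancel₀ _ hpos.ne'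
  refine ⟨![2 * y / 3, (1 - y) * (1 - t), (1 - y) * t, y * t / 3, y * (1 - t) / 3], ?_, ?_⟩
  · refine ⟨?_, ?_⟩
    · rw [mem_T]
      refine ⟨⟨?_, ?_, ?_, ?_, ?_⟩, ?_⟩
      · change 0 ≤ 2 * y / 3; positivity
      · change 0 ≤ (1 - y) * (1 - t); exact mul_nonneg (by linarith) (by linarith)
      · change 0 ≤ (1 - y) * t; exact mul_nonneg (by linarith) (by linarith)
      · change 0 ≤ y * t / 3; positivity
      · change 0 ≤ y * (1 - t) / 3
        exact div_nonneg (mul_nonneg h1 (by linarith)) (by norm_num)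
      · change 2 * y / 3 + (1 - y) * (1 - t) + (1 - y) * t + y * t / 3 + y * (1 - t) / 3 = 1
        ring
    · change 2 * y / 3 = 2 * (y * t / 3 + y * (1 - t) / 3)
      ring
  · refine Prod.ext ?_ ?_
    · change 3 * ((1 - y) * t) + 6 * (y * t / 3) + 3 * (y * (1 - t) / 3) = u
      linarith
    · change 3 * (y * t / 3) + 3 * (y * (1 - t) / 3) = y
      ring

theorem maps (x : Fin 5 → ℝ) (hx : x ∈ D) : f x ∈ C := by
  obtain ⟨hT, h0⟩ := hx
  rw [mem_T] at hT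
  obtain ⟨⟨a0, a1, a2, a3, a4⟩, hs⟩ := hT
  simp only [C, f, mem_setOf_eq]
  refine ⟨by linarith, by linarith, by linarith, by linarith⟩

theorem affine (x : Fin 5 → ℝ) (hx : x ∈ D) (y : Fin 5 → ℝ) (hy : y ∈ D) (t : ℝ) (h0 : 0 ≤ t)
    (h1 : t ≤ 1) : t • x + (1 - t) • y ∈ D ∧
      f (t • x + (1 - t) • y) = t • f x + (1 - t) • f y := by
  refine ⟨⟨?_, ?_⟩, ?_⟩
  · exact (convex_stdSimplex ℝ (Fin 5)) hx.1 hy.1 h0 (by linarith) (by ring)
  · simp only [Pi.add_apply, Pi.smul_apply, smul_eq_mul]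
    rw [hx.2, hy.2]; ring
  · refine Prod.ext ?_ ?_
    · simp only [f, Pi.add_apply, Pi.smul_apply, smul_eq_mul, Prod.smul_mk, Prod.mk_add_mk]
      ring
    · simp only [f, Pi.add_apply, Pi.smul_apply, smul_eq_mul, Prod.smul_mk, Prod.mk_add_mk]
      ring

theorem ext (η : C → ℝ) (hη : η ∈ Effects C) : ∃ ω ∈ Effects T, ∀ (x : Fin 5 → ℝ) (hx : x ∈ D),
    ω ⟨x, D_sub hx⟩ = η ⟨f x, maps x hx⟩ := by
  obtain ⟨h1, h1'⟩ := hη.1 ⟨(0, 0), c1_mem⟩
  obtain ⟨h2, h2'⟩ := hη.1 ⟨(3, 0), c2_mem⟩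
  obtain ⟨h3, h3'⟩ := hη.1 ⟨(2, 1), c3_mem⟩
  obtain ⟨h4, h4'⟩ := hη.1 ⟨(1, 1), c4_mem⟩
  have hm : ((3 / 2, 3 / 4) : ℝ × ℝ) ∈ C := by simp only [C, mem_setOf_eq]; norm_num
  have e1 := hη.2 ⟨(2, 1), c3_mem⟩ ⟨(0, 0), c1_mem⟩ ⟨(3 / 2, 3 / 4), hm⟩ (3 / 4)
    (by norm_num) (by norm_num) (by
      simp only [Prod.smul_mk, Prod.mk_add_mk, smul_eq_mul]; norm_num)
  have e2 := hη.2 ⟨(1, 1), c4_mem⟩ ⟨(3, 0), c2_mem⟩ ⟨(3 / 2, 3 / 4), hm⟩ (3 / 4)
    (by norm_num) (by norm_num) (by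
      simp only [Prod.smul_mk, Prod.mk_add_mk, smul_eq_mul]; norm_num)
  set η1 := η ⟨(0, 0), c1_mem⟩ with hη1
  set η2 := η ⟨(3, 0), c2_mem⟩ with hη2
  set η3 := η ⟨(2, 1), c3_mem⟩ with hη3
  set η4 := η ⟨(1, 1), c4_mem⟩ with hη4
  have hrel : 3 * (η3 - η4) = η2 - η1 := by linarith
  let m : ℝ := max 0 (max ((3 * η3 - 1) / 2) ((3 * η4 - 1) / 2))
  have m0 : 0 ≤ m := le_max_left _ _
  have m3 : (3 * η3 - 1) / 2 ≤ m := (le_max_left _ _).trans (le_max_right _ _)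
  have m4 : (3 * η4 - 1) / 2 ≤ m := (le_max_right _ _).trans (le_max_right _ _)
  have m1 : m ≤ 1 := max_le (by norm_num) (max_le (by linarith) (by linarith))
  have m3' : 2 * m ≤ 3 * η3 := by
    have : m ≤ 3 * η3 / 2 := max_le (by linarith) (max_le (by linarith) (by linarith))
    linarith
  have m4' : 2 * m ≤ 3 * η4 := by
    have : m ≤ 3 * η4 / 2 := max_le (by linarith) (max_le (by linarith) (by linarith))
    linarith
  refine ⟨fun x => ∑ i, (![m, η1, η2, 3 * η3 - 2 * m, 3 * η4 - 2 * m] : Fin 5 → ℝ) i * x.1 i,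
    linear_effect _ ?_, ?_⟩
  · intro i
    fin_cases i
    · exact ⟨m0, m1⟩
    · exact ⟨h1, h1'⟩
    · exact ⟨h2, h2'⟩
    · constructor
      · change 0 ≤ 3 * η3 - 2 * m; linarith
      · change 3 * η3 - 2 * m ≤ 1; linarith
    · constructor
      · change 0 ≤ 3 * η4 - 2 * m; linarith
      · change 3 * η4 - 2 * m ≤ 1; linarith
  · intro x hx
    obtain ⟨hT, h0⟩ := hx
    have hT' := (mem_T x).1 hT
    obtain ⟨⟨a0, a1, a2, a3, a4⟩, hs⟩ := hT'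
    have key := effects_sum C_convex hη (Finset.univ : Finset (Fin 4))
      ![x 1, x 2, 3 * x 3, 3 * x 4]
      ![⟨(0, 0), c1_mem⟩, ⟨(3, 0), c2_mem⟩, ⟨(2, 1), c3_mem⟩, ⟨(1, 1), c4_mem⟩]
      (by
        intro i _
        fin_cases i
        · exact a1
        · exact a2
        · change 0 ≤ 3 * x 3; linarith
        · change 0 ≤ 3 * x 4; linarith)
      (by
        simp only [Fin.sum_univ_succ, Fin.sum_univ_zero]
        change x 1 + (x 2 + (3 * x 3 + (3 * x 4 + 0))) = 1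
        linarith)
      ⟨f x, maps x ⟨hT, h0⟩⟩
      (by
        simp only [Fin.sum_univ_succ, Fin.sum_univ_zero]
        change f x = x 1 • ((0, 0) : ℝ × ℝ) + (x 2 • ((3, 0) : ℝ × ℝ) +
          ((3 * x 3) • ((2, 1) : ℝ × ℝ) + ((3 * x 4) • ((1, 1) : ℝ × ℝ) + 0)))
        simp only [f, Prod.smul_mk, Prod.mk_add_mk, smul_eq_mul, add_zero]
        refine Prod.ext ?_ ?_
        · simp only; ring
        · simp only; ring)
    rw [key]
    simp only [Fin.sum_univ_succ, Fin.sum_univ_zero]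
    change m * x 0 + (η1 * x 1 + (η2 * x 2 + ((3 * η3 - 2 * m) * x 3 +
      ((3 * η4 - 2 * m) * x 4 + 0)))) =
      x 1 * η1 + (x 2 * η2 + (3 * x 3 * η3 + (3 * x 4 * η4 + 0)))
    rw [h0]; ring

theorem simplex_T : IsSimplex T := isSimplex_stdSimplex (Fin 5)

theorem refinement : ∃ (φ : PartialMap T C) (g : PartialMap (Effects T) (Effects C)),
    IsRefinement T C φ g ∧ φ.dom = D ∧ ∀ x : φ.dom, φ.toFun x = f x :=
  exists_refinement T C simplex_T D D_sub f affine maps onto ext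

theorem aux {a b u v : ℝ} (ha : 0 < a) (hb : 0 < b) (hu : 0 ≤ u) (hv : 0 ≤ v)
    (h : a * u + b * v = 0) : u = 0 ∧ v = 0 := by
  have h1 := mul_nonneg ha.le hu
  have h2 := mul_nonneg hb.le hv
  have h3 : a * u = 0 := by linarith
  have h4 : b * v = 0 := by linarith
  exact ⟨(mul_eq_zero.1 h3).resolve_left ha.ne', (mul_eq_zero.1 h4).resolve_left hb.ne'⟩

theorem ext1 : ((0, 0) : ℝ × ℝ) ∈ C.extremePoints ℝ := by
  rw [mem_extremePoints_iff_left]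
  refine ⟨c1_mem, ?_⟩
  rintro ⟨p1, p2⟩ ⟨h1, h2, h3, h4⟩ ⟨q1, q2⟩ ⟨g1, g2, g3, g4⟩ ⟨a, b, ha, hb, hab, heq⟩
  simp only [Prod.smul_mk, Prod.mk_add_mk, smul_eq_mul, Prod.mk.injEq] at *
  obtain ⟨e1, e2⟩ := heq
  have k1 := aux ha hb h1 g1 e2
  have k2 := aux ha hb (sub_nonneg.2 h3) (sub_nonneg.2 g3) (by linarith)
  exact ⟨by linarith [k1.1, k2.1], k1.1⟩

theorem ext2 : ((3, 0) : ℝ × ℝ) ∈ C.extremePoints ℝ := by
  rw [mem_extremePoints_iff_left]
  refine ⟨c2_mem, ?_⟩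
  rintro ⟨p1, p2⟩ ⟨h1, h2, h3, h4⟩ ⟨q1, q2⟩ ⟨g1, g2, g3, g4⟩ ⟨a, b, ha, hb, hab, heq⟩
  simp only [Prod.smul_mk, Prod.mk_add_mk, smul_eq_mul, Prod.mk.injEq] at *
  obtain ⟨e1, e2⟩ := heq
  have k1 := aux ha hb h1 g1 e2
  have k2 := aux ha hb (sub_nonneg.2 h4) (sub_nonneg.2 g4) (by linear_combination 3 * hab - e1 - e2)
  exact ⟨by linarith [k1.1, k2.1], k1.1⟩

theorem ext3 : ((2, 1) : ℝ × ℝ) ∈ C.extremePoints ℝ := by
  rw [mem_extremePoints_iff_left]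
  refine ⟨c3_mem, ?_⟩
  rintro ⟨p1, p2⟩ ⟨h1, h2, h3, h4⟩ ⟨q1, q2⟩ ⟨g1, g2, g3, g4⟩ ⟨a, b, ha, hb, hab, heq⟩
  simp only [Prod.smul_mk, Prod.mk_add_mk, smul_eq_mul, Prod.mk.injEq] at *
  obtain ⟨e1, e2⟩ := heq
  have k1 := aux ha hb (sub_nonneg.2 h2) (sub_nonneg.2 g2) (by linear_combination hab - e2)
  have k2 := aux ha hb (sub_nonneg.2 h4) (sub_nonneg.2 g4) (by linear_combination 3 * hab - e1 - e2)
  exact ⟨by linarith [k1.1, k2.1], by linarith [k1.1]⟩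

theorem ext4 : ((1, 1) : ℝ × ℝ) ∈ C.extremePoints ℝ := by
  rw [mem_extremePoints_iff_left]
  refine ⟨c4_mem, ?_⟩
  rintro ⟨p1, p2⟩ ⟨h1, h2, h3, h4⟩ ⟨q1, q2⟩ ⟨g1, g2, g3, g4⟩ ⟨a, b, ha, hb, hab, heq⟩
  simp only [Prod.smul_mk, Prod.mk_add_mk, smul_eq_mul, Prod.mk.injEq] at *
  obtain ⟨e1, e2⟩ := heq
  have k1 := aux ha hb (sub_nonneg.2 h2) (sub_nonneg.2 g2) (by linear_combination hab - e2)
  have k2 := aux ha hb (sub_nonneg.2 h3) (sub_nonneg.2 g3) (by linarith)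
  exact ⟨by linarith [k1.1, k2.1], by linarith [k1.1]⟩

/-- the four vertices -/
noncomputable def verts : Finset (ℝ × ℝ) := {(0, 0), (3, 0), (2, 1), (1, 1)}

theorem C_eq : C = convexHull ℝ (↑verts : Set (ℝ × ℝ)) := by
  apply Subset.antisymm
  · intro p hp
    obtain ⟨x, hx, rfl⟩ := onto p hp
    obtain ⟨hT, h0⟩ := hx
    have hT' := (mem_T x).1 hT
    obtain ⟨⟨a0, a1, a2, a3, a4⟩, hs⟩ := hT'
    have hmem : ∀ i : Fin 4, (![(0, 0), (3, 0), (2, 1), (1, 1)] : Fin 4 → ℝ × ℝ) i ∈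
        convexHull ℝ (↑verts : Set (ℝ × ℝ)) := by
      intro i
      apply subset_convexHull
      fin_cases i <;> simp [verts]
    have := (convex_convexHull ℝ (↑verts : Set (ℝ × ℝ))).sum_mem
      (t := (Finset.univ : Finset (Fin 4))) (w := ![x 1, x 2, 3 * x 3, 3 * x 4])
      (z := ![(0, 0), (3, 0), (2, 1), (1, 1)])
      (by
        intro i _
        fin_cases i
        · exact a1
        · exact a2
        · change 0 ≤ 3 * x 3; linarith
        · change 0 ≤ 3 * x 4; linarith)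
      (by
        simp only [Fin.sum_univ_succ, Fin.sum_univ_zero]
        change x 1 + (x 2 + (3 * x 3 + (3 * x 4 + 0))) = 1
        linarith)
      (fun i _ => hmem i)
    convert this using 1
    simp only [Fin.sum_univ_succ, Fin.sum_univ_zero]
    change f x = x 1 • ((0, 0) : ℝ × ℝ) + (x 2 • ((3, 0) : ℝ × ℝ) +
          ((3 * x 3) • ((2, 1) : ℝ × ℝ) + ((3 * x 4) • ((1, 1) : ℝ × ℝ) + 0)))
    simp only [f, Prod.smul_mk, Prod.mk_add_mk, smul_eq_mul, add_zero]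
    refine Prod.ext ?_ ?_
    · simp only; ring
    · simp only; ring
  · apply convexHull_min _ C_convex
    intro p hp
    simp only [verts, Finset.coe_insert, Finset.coe_singleton, mem_insert_iff,
      mem_singleton_iff] at hp
    rcases hp with rfl | rfl | rfl | rfl
    · exact c1_mem
    · exact c2_mem
    · exact c3_mem
    · exact c4_mem

theorem polytope_C : IsPolytope C := ⟨verts, by simp [verts], C_eq⟩

theorem extremePoints_C : C.extremePoints ℝ = (↑verts : Set (ℝ × ℝ)) := by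
  apply Subset.antisymm
  · rw [C_eq]; exact extremePoints_convexHull_subset
  · intro p hp
    simp only [verts, Finset.coe_insert, Finset.coe_singleton, mem_insert_iff,
      mem_singleton_iff] at hp
    rcases hp with rfl | rfl | rfl | rfl
    · exact ext1
    · exact ext2
    · exact ext3
    · exact ext4

theorem not_simplex_C : ¬ IsSimplex C := by
  apply not_isSimplex_of_card
  rw [extremePoints_C, Set.ncard_coe_finset]
  have h1 : Module.finrank ℝ (ℝ × ℝ) = 2 := by simp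
  have h2 : verts.card = 4 := by
    unfold verts
    rw [Finset.card_insert_of_notMem, Finset.card_insert_of_notMem, Finset.card_insert_of_notMem,
      Finset.card_singleton]
    · simp
    · simp
    · simp
  omega

end Pool.Agent.V11217.Trapezoid
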