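import Mathlib

/-!
Strategies with memory written as functions of the list of the opponent's moves.
-/

namespace Pool.Agent.V11217

/-- state of a machine after reading the first `n` moves of the play `p` -/
def runState {S M : Type*} (step : S → M → S) (s0 : S) (p : ℕ → M) : ℕ → S
  | 0 => s0
  | n + 1 => step (runState step s0 p n) (p n)

/-- the strategy given by a machine with memory -/
def machine {S M R : Type*} [Inhabited R] (step : S → M → S) (s0 : S) (resp : S → M → R) :
    List M → R := fun h =>
  match h.getLast? with
  | none => default
  | some m => resp (h.dropLast.foldl step s0) m

theorem foldl_range {S M : Type*} (step : S → M → S) (s0 : S) (p : ℕ → M) (n : ℕ) :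
    ((List.range n).map p).foldl step s0 = runState step s0 p n := by
  induction n with
  | zero => rfl
  | succ n ih =>
    rw [List.range_succ, List.map_append, List.foldl_append, ih]
    rfl

theorem machine_range {S M R : Type*} [Inhabited R] (step : S → M → S) (s0 : S)
    (resp : S → M → R) (p : ℕ → M) (n : ℕ) :
    machine step s0 resp ((List.range (n + 1)).map p) =
      resp (runState step s0 p n) (p n) := by
  rw [List.range_succ, List.map_append]
  simp only [machine, List.map_cons, List.map_nil, List.getLast?_append, List.getLast?_singleton,
    Option.some_or, List.dropLast_concat]
  rw [foldl_range]

end Pool.Agent.V11217
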