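import Mathlib

/-!
Complex-number algebra for triangles inscribed in an ellipse and circumscribed to an ellipse.
-/

namespace Pool.Agent.V11217.Poncelet

open Complex ComplexConjugate

/-- A quadratic polynomial with three distinct roots vanishes. -/
theorem quad_zero {r2 r1 r0 z1 z2 z3 : ℂ} (h12 : z1 ≠ z2) (h13 : z1 ≠ z3) (h23 : z2 ≠ z3)
    (e1 : r2 * z1^2 + r1 * z1 + r0 = 0) (e2 : r2 * z2^2 + r1 * z2 + r0 = 0)
    (e3 : r2 * z3^2 + r1 * z3 + r0 = 0) : r2 = 0 ∧ r1 = 0 ∧ r0 = 0 := by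
  have a12 : r2 * (z1 + z2) + r1 = 0 := by
    apply mul_left_cancel₀ (sub_ne_zero.2 h12)
    linear_combination e1 - e2
  have a13 : r2 * (z1 + z3) + r1 = 0 := by
    apply mul_left_cancel₀ (sub_ne_zero.2 h13)
    linear_combination e1 - e3
  have a2 : r2 = 0 := by
    apply mul_left_cancel₀ (sub_ne_zero.2 h23)
    linear_combination a12 - a13
  have a1 : r1 = 0 := by rw [a2] at a12; linear_combination a12
  refine ⟨a2, a1, ?_⟩
  rw [a2, a1] at e1
  linear_combination e1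

/-- The relation between the vertices and the inscribed ellipse. -/
theorem relation {z1 z2 z3 k k' γ δ γ' δ' : ℂ} (h12 : z1 ≠ z2) (h13 : z1 ≠ z3) (h23 : z2 ≠ z3)
    (hz1 : z1 ≠ 0) (hz2 : z2 ≠ 0) (hz3 : z3 ≠ 0)
    (e12 : (z1 + z2 - k - z1 * z2 * k')^2 = 4 * (γ + z1 * z2 * δ') * (δ + z1 * z2 * γ'))
    (e13 : (z1 + z3 - k - z1 * z3 * k')^2 = 4 * (γ + z1 * z3 * δ') * (δ + z1 * z3 * γ'))
    (e23 : (z2 + z3 - k - z2 * z3 * k')^2 = 4 * (γ + z2 * z3 * δ') * (δ + z2 * z3 * γ')) :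
    z1 + z2 + z3 = 2 * k + z1 * z2 * z3 * (k'^2 - 4 * γ' * δ') := by
  set s1 := z1 + z2 + z3 with hs1
  set s2 := z1 * z2 + z1 * z3 + z2 * z3 with hs2
  set s3 := z1 * z2 * z3 with hs3
  set κ := s1 - 2 * k with hκ
  have key := quad_zero (r2 := (k - s1)^2 + 2 * s3 * k' - 4 * γ * δ - s2 - s1 * κ)
    (r1 := 2 * (k - s1) * s3 * k' - 4 * s3 * (γ * γ' + δ * δ') + s3 + s2 * κ)
    (r0 := s3^2 * (k'^2 - 4 * γ' * δ') - s3 * κ) h12 h13 h23
    (by simp only [hκ, hs1, hs2, hs3]; linear_combination z1^2 * e23)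
    (by simp only [hκ, hs1, hs2, hs3]; linear_combination z2^2 * e13)
    (by simp only [hκ, hs1, hs2, hs3]; linear_combination z3^2 * e12)
  have h0 := key.2.2
  have hs3ne : s3 ≠ 0 := mul_ne_zero (mul_ne_zero hz1 hz2) hz3
  have h1 : s3 * (k'^2 - 4 * γ' * δ') - κ = 0 := by
    apply mul_left_cancel₀ hs3ne
    linear_combination h0
  rw [hκ] at h1
  linear_combination -h1

/-- If the ellipse `k + γ w + δ w̄`, `|w| = 1`, lies in the open unit disc then
`|k² - 4γδ| < 1`. -/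
theorem norm_lt_one {k γ δ : ℂ} (h : ∀ w : ℂ, ‖w‖ = 1 → ‖k + γ * w + δ * conj w‖ < 1) :
    ‖k^2 - 4 * γ * δ‖ < 1 := by
  have hprod : ∀ w : ℂ, ‖w‖ = 1 → ‖k^2 - (γ * w + δ * conj w)^2‖ < 1 := by
    intro w hw
    have h1 := h w hw
    have h2 := h (-w) (by simpa using hw)
    have h3 : k^2 - (γ * w + δ * conj w)^2 = (k + γ * w + δ * conj w) *
        (k + γ * (-w) + δ * conj (-w)) := by simp; ring
    rw [h3, norm_mul]
    have h4 := norm_nonneg (k + γ * w + δ * conj w)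
    have h5 := norm_nonneg (k + γ * (-w) + δ * conj (-w))
    nlinarith
  have hk : ‖k‖ < 1 := by
    have h1 := h 1 (by simp)
    have h2 := h (-1) (by simp)
    have h3 : k = (1/2 : ℂ) * ((k + γ * 1 + δ * conj 1) + (k + γ * (-1) + δ * conj (-1))) := by
      simp; ring
    calc ‖k‖ = ‖(1/2 : ℂ) * ((k + γ * 1 + δ * conj 1) + (k + γ * (-1) + δ * conj (-1)))‖ := by
          rw [← h3]
      _ = 1/2 * ‖(k + γ * 1 + δ * conj 1) + (k + γ * (-1) + δ * conj (-1))‖ := by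
          rw [norm_mul]; norm_num
      _ ≤ 1/2 * (‖k + γ * 1 + δ * conj 1‖ + ‖k + γ * (-1) + δ * conj (-1)‖) := by
          gcongr; exact norm_add_le _ _
      _ < 1 := by linarith
  have hk2 : ‖k^2‖ < 1 := by
    rw [norm_pow]
    have := norm_nonneg k
    nlinarith
  by_cases hγ : γ = 0
  · rw [hγ]; simpa using hk2
  by_cases hδ : δ = 0
  · rw [hδ]; simpa using hk2
  -- choose `w` with `w² = δ|γ| / (γ|δ|)`
  have hγn : (0:ℝ) < ‖γ‖ := norm_pos_iff.2 hγ
  have hδn : (0:ℝ) < ‖δ‖ := norm_pos_iff.2 hδ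
  obtain ⟨w, hw⟩ := IsAlgClosed.exists_pow_nat_eq (δ * ‖γ‖ / (γ * ‖δ‖)) (n := 2) (by norm_num)
  have hwn : ‖w‖ = 1 := by
    have h1 : ‖w‖^2 = 1 := by
      rw [← norm_pow, hw, norm_div, norm_mul, norm_mul, norm_real, norm_real, norm_norm, norm_norm]
      field_simp
    have h2 := norm_nonneg w
    nlinarith
  have hγc : (‖γ‖ : ℂ) ≠ 0 := by exact_mod_cast hγn.ne'
  have hδc : (‖δ‖ : ℂ) ≠ 0 := by exact_mod_cast hδn.ne'
  have hwc : w * conj w = 1 := by
    rw [mul_conj, normSq_eq_norm_sq, hwn]; simp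
  have hwc2 : (conj w)^2 = γ * ‖δ‖ / (δ * ‖γ‖) := by
    have h1 : w^2 * (conj w)^2 = 1 := by rw [← mul_pow, hwc, one_pow]
    rw [hw] at h1
    field_simp at h1 ⊢
    linear_combination h1
  set τ : ℝ := ‖γ‖/‖δ‖ + ‖δ‖/‖γ‖ + 2 with hτ
  have hτ4 : 4 ≤ τ := by
    have h1 : ‖γ‖/‖δ‖ + ‖δ‖/‖γ‖ - 2 = (‖γ‖ - ‖δ‖)^2 / (‖γ‖ * ‖δ‖) := by
      field_simp
      ring
    have h2 : 0 ≤ (‖γ‖ - ‖δ‖)^2 / (‖γ‖ * ‖δ‖) := by positivity
    rw [hτ]; linarith
  have hsq : (γ * w + δ * conj w)^2 = γ * δ * τ := by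
    have h1 : (γ * w + δ * conj w)^2 = γ^2 * w^2 + δ^2 * (conj w)^2 + 2 * γ * δ * (w * conj w) := by
      ring
    rw [h1, hw, hwc2, hwc, hτ]
    push_cast
    field_simp
  have h1 := hprod w hwn
  rw [hsq] at h1
  have hτpos : (0:ℝ) < τ := by linarith
  have hτc : (τ : ℂ) ≠ 0 := by exact_mod_cast hτpos.ne'
  have hcomb : k^2 - 4 * γ * δ = ((1 - 4/τ : ℝ) : ℂ) * k^2 + ((4/τ : ℝ) : ℂ) * (k^2 - γ * δ * τ) := by
    push_cast
    field_simp
    ring
  have hθ0 : 0 ≤ 1 - 4/τ := by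
    rw [sub_nonneg, div_le_one hτpos]; exact hτ4
  have hθ1 : 0 < 4/τ := by positivity
  calc ‖k^2 - 4 * γ * δ‖ ≤ ‖((1 - 4/τ : ℝ) : ℂ) * k^2‖ + ‖((4/τ : ℝ) : ℂ) * (k^2 - γ * δ * τ)‖ := by
        rw [hcomb]; exact norm_add_le _ _
    _ = (1 - 4/τ) * ‖k^2‖ + (4/τ) * ‖k^2 - γ * δ * τ‖ := by
        rw [norm_mul, norm_mul, norm_real, norm_real, Real.norm_of_nonneg hθ0,
          Real.norm_of_nonneg hθ1.le]
    _ < 1 := by nlinarith [norm_nonneg (k^2)]

/-- The equations of the circumcentre. -/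
theorem circum {α β O z1 z2 z3 : ℂ} {R : ℝ} (h12 : z1 ≠ z2) (h13 : z1 ≠ z3) (h23 : z2 ≠ z3)
    (hz1 : z1 * conj z1 = 1) (hz2 : z2 * conj z2 = 1) (hz3 : z3 * conj z3 = 1)
    (e1 : (α * z1 + β * conj z1 - O) * conj (α * z1 + β * conj z1 - O) = R)
    (e2 : (α * z2 + β * conj z2 - O) * conj (α * z2 + β * conj z2 - O) = R)
    (e3 : (α * z3 + β * conj z3 - O) * conj (α * z3 + β * conj z3 - O) = R) :
    conj O * α + O * conj β = α * conj β * (z1 + z2 + z3) +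
      conj α * β * (conj z1 * conj z2 * conj z3) ∧
    O * conj O - R = α * conj β * (z1 * z2 + z1 * z3 + z2 * z3) +
      conj α * β * (conj z1 * conj z2 + conj z1 * conj z3 + conj z2 * conj z3)
      - (α * conj α + β * conj β) := by
  simp only [map_sub, map_add, map_mul, conj_conj] at e1 e2 e3
  set a := conj α
  set b := conj β
  set o := conj O
  set y1 := conj z1
  set y2 := conj z2
  set y3 := conj z3
  set X := α * b * (z1 + z2 + z3) + a * β * (y1 * y2 * y3) - o * α - O * b with hX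
  set Y := a * β * (y1 + y2 + y3) + α * b * (z1 * z2 * z3) - O * a - o * β with hY
  set K := α * a + β * b - α * b * (z1 * z2 + z1 * z3 + z2 * z3) -
    a * β * (y1 * y2 + y1 * y3 + y2 * y3) + O * o - R with hK
  have key := quad_zero (r2 := X) (r1 := K) (r0 := Y) h12 h13 h23 ?_ ?_ ?_
  · refine ⟨?_, ?_⟩
    · have := key.1
      rw [hX] at this
      linear_combination -this
    · have := key.2.1
      rw [hK] at this
      linear_combination this
  · have h : X * z1 + Y * y1 + K = 0 := by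
      rw [hX, hY, hK]
      linear_combination e1 + (-α * a - β * b + α * b * (z2 * z3) + a * β * (y2 * y3)) * hz1
    linear_combination z1 * h - Y * hz1
  · have h : X * z2 + Y * y2 + K = 0 := by
      rw [hX, hY, hK]
      linear_combination e2 + (-α * a - β * b + α * b * (z1 * z3) + a * β * (y1 * y3)) * hz2
    linear_combination z2 * h - Y * hz2
  · have h : X * z3 + Y * y3 + K = 0 := by
      rw [hX, hY, hK]
      linear_combination e3 + (-α * a - β * b + α * b * (z1 * z2) + a * β * (y1 * y2)) * hz3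
    linear_combination z3 * h - Y * hz3

end Pool.Agent.V11217.Poncelet
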