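import Mathlib
import Pool.Agent.V11217.Poncelet

/-!
Ellipses in the Euclidean plane `ℂ`, tangent lines, Poncelet triangles: basic results.
-/

namespace Pool.Agent.V11217.Poncelet

open Complex ComplexConjugate Affine

/-- An ellipse in the Euclidean plane `ℂ`, given by its centre and a positive definite quadratic
form `A x² + 2 B x y + C y²`. -/
structure Ellipse where
  center : ℂ
  A : ℝ
  B : ℝ
  C : ℝ
  hA : 0 < A
  hdet : 0 < A * C - B ^ 2

/-- The quadratic form of the ellipse evaluated at `p - center`. -/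
def Ellipse.q (E : Ellipse) (p : ℂ) : ℝ :=
  E.A * (p.re - E.center.re)^2 + 2 * E.B * (p.re - E.center.re) * (p.im - E.center.im) +
    E.C * (p.im - E.center.im)^2

/-- The points of the ellipse. -/
def Ellipse.curve (E : Ellipse) : Set ℂ := {p | E.q p = 1}

/-- The points strictly inside the ellipse. -/
def Ellipse.inside (E : Ellipse) : Set ℂ := {p | E.q p < 1}

/-- The nonzero vector `v` is parallel to an axis of `E`, that is, it is an eigenvector of the
matrix of the quadratic form. -/
def Ellipse.IsAxisDir (E : Ellipse) (v : ℂ) : Prop :=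
  v ≠ 0 ∧ (E.A * v.re + E.B * v.im) * v.im = (E.B * v.re + E.C * v.im) * v.re

/-- The line through `p` and `q` is tangent to the ellipse: it meets it in exactly one point. -/
def Ellipse.Tangent (E : Ellipse) (p q : ℂ) : Prop :=
  ∃! x, x ∈ line[ℝ, p, q] ∧ x ∈ E.curve

/-- `T` is a Poncelet 3-periodic of the pair `(E, Ec)`: its vertices lie on `E` and its sides are
tangent to `Ec`. -/
def Periodic (E Ec : Ellipse) (T : Affine.Triangle ℝ ℂ) : Prop :=
  (∀ i, T.points i ∈ E.curve) ∧ ∀ i j, i ≠ j → Ec.Tangent (T.points i) (T.points j)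

/-- Every ellipse is the image of the unit circle under `z ↦ c + α z + β z̄`. -/
theorem Ellipse.param (E : Ellipse) : ∃ μ ν α β : ℂ,
    (∀ p, E.q p = normSq (μ * (p - E.center) + ν * conj (p - E.center))) ∧
    (∀ p, E.center + α * (μ * (p - E.center) + ν * conj (p - E.center)) +
      β * conj (μ * (p - E.center) + ν * conj (p - E.center)) = p) ∧
    (∀ z, μ * (α * z + β * conj z) + ν * conj (α * z + β * conj z) = z) ∧
    normSq β < normSq α ∧ normSq ν < normSq μ := by
  set a := √E.A with ha
  have hapos : 0 < a := Real.sqrt_pos.2 E.hA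
  have ha2 : a^2 = E.A := Real.sq_sqrt E.hA.le
  set b := E.B / a with hb
  have hCb : 0 < E.C - b^2 := by
    rw [hb, div_pow, ha2]
    have := E.hdet
    have h2 : E.C - E.B^2 / E.A = (E.A * E.C - E.B^2) / E.A := by
      field_simp [E.hA.ne']
    rw [h2]
    exact div_pos this E.hA
  set d := √(E.C - b^2) with hd
  have hdpos : 0 < d := Real.sqrt_pos.2 hCb
  have hd2 : d^2 = E.C - b^2 := Real.sq_sqrt hCb.le
  set μ : ℂ := ⟨(a + d)/2, -b/2⟩ with hμ
  set ν : ℂ := ⟨(a - d)/2, b/2⟩ with hν
  have hD : normSq μ - normSq ν = a * d := by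
    simp only [normSq_apply, hμ, hν]
    ring
  have hDpos : 0 < normSq μ - normSq ν := by rw [hD]; positivity
  set D : ℂ := ((normSq μ - normSq ν : ℝ) : ℂ) with hDdef
  have hDne : D ≠ 0 := by
    rw [hDdef]; exact_mod_cast hDpos.ne'
  have hDval : μ * conj μ - ν * conj ν = D := by
    rw [mul_conj, mul_conj, hDdef]; push_cast; ring
  have hDc : conj D = D := by rw [hDdef, conj_ofReal]
  refine ⟨μ, ν, conj μ / D, -ν / D, ?_, ?_, ?_, ?_, ?_⟩
  · intro p
    simp only [Ellipse.q, normSq_apply, hμ, hν, mul_re, mul_im, add_re, add_im, sub_re, sub_im,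
      conj_re, conj_im]
    have hB : E.B = a * b := by rw [hb]; field_simp
    rw [hB, ← ha2]
    have hC : E.C = d^2 + b^2 := by rw [hd2]; ring
    rw [hC]
    ring
  · intro p
    have h1 : conj (μ * (p - E.center) + ν * conj (p - E.center)) =
        conj μ * conj (p - E.center) + conj ν * (p - E.center) := by
      simp
    rw [h1]
    field_simp
    linear_combination (p - E.center) * hDval
  · intro z
    have h1 : conj (conj μ / D * z + -ν / D * conj z) = μ / D * conj z + -conj ν / D * z := by
      simp [hDc]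
    rw [h1]
    field_simp
    linear_combination z * hDval
  · have h1 : normSq (conj μ / D) = normSq μ / normSq D := by
      rw [normSq_div, normSq_conj]
    have h2 : normSq (-ν / D) = normSq ν / normSq D := by
      rw [normSq_div, normSq_neg]
    rw [h1, h2]
    have : 0 < normSq D := normSq_pos.2 hDne
    gcongr
    linarith
  · linarith

theorem mem_line_iff {p q x : ℂ} : x ∈ line[ℝ, p, q] ↔ ∃ t : ℝ, p + t * (q - p) = x := by
  have h1 : x = (x - p) +ᵥ p := by simp
  constructor
  · intro h
    rw [h1, vadd_left_mem_affineSpan_pair] at h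
    obtain ⟨t, ht⟩ := h
    refine ⟨t, ?_⟩
    rw [vsub_eq_sub, real_smul] at ht
    rw [ht]; ring
  · rintro ⟨t, ht⟩
    rw [h1, vadd_left_mem_affineSpan_pair]
    refine ⟨t, ?_⟩
    rw [vsub_eq_sub, real_smul, ← ht]
    ring

theorem mul_conj_one {z : ℂ} (h : normSq z = 1) : z * conj z = 1 := by
  rw [mul_conj, h]; simp

/-- The tangency condition for a chord of `E`. -/
theorem tangent_rel {Ec : Ellipse} {c1 μ ν α β : ℂ}
    (hinv : ∀ p, c1 + α * (μ * (p - c1) + ν * conj (p - c1)) +
      β * conj (μ * (p - c1) + ν * conj (p - c1)) = p)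
    {μ2 ν2 α2 β2 : ℂ} (hq2 : ∀ p, Ec.q p = normSq (μ2 * (p - Ec.center) + ν2 * conj (p - Ec.center)))
    (hinv2 : ∀ p, Ec.center + α2 * (μ2 * (p - Ec.center) + ν2 * conj (p - Ec.center)) +
      β2 * conj (μ2 * (p - Ec.center) + ν2 * conj (p - Ec.center)) = p)
    (hinv2' : ∀ z, μ2 * (α2 * z + β2 * conj z) + ν2 * conj (α2 * z + β2 * conj z) = z)
    (hαβ2 : normSq β2 < normSq α2) (hμν : normSq ν < normSq μ)
    {k γ δ : ℂ} (hk : k = μ * (Ec.center - c1) + ν * conj (Ec.center - c1))
    (hγ : γ = μ * α2 + ν * conj β2) (hδ : δ = μ * β2 + ν * conj α2)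
    {p1 p2 z1 z2 : ℂ} (hz1 : z1 = μ * (p1 - c1) + ν * conj (p1 - c1))
    (hz2 : z2 = μ * (p2 - c1) + ν * conj (p2 - c1)) (hn1 : normSq z1 = 1) (hn2 : normSq z2 = 1)
    (hne : z1 ≠ z2) (htan : Ec.Tangent p1 p2) :
    (z1 + z2 - k - z1 * z2 * conj k)^2 =
      4 * (γ + z1 * z2 * conj δ) * (δ + z1 * z2 * conj γ) := by
  have hu1 := mul_conj_one hn1
  have hu2 := mul_conj_one hn2
  obtain ⟨x, ⟨hxl, hxc⟩, huniq⟩ := htan
  obtain ⟨t, ht⟩ := mem_line_iff.1 hxl
  set W := μ2 * (x - Ec.center) + ν2 * conj (x - Ec.center) with hW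
  have hxW : x = Ec.center + α2 * W + β2 * conj W := (hinv2 x).symm
  have hWn : normSq W = 1 := by rw [← hq2]; exact hxc
  have hWu := mul_conj_one hWn
  -- the image of `x` in the `z`-plane
  have hZx : k + γ * W + δ * conj W = z1 + t * (z2 - z1) := by
    have h1 : μ * (x - c1) + ν * conj (x - c1) = k + γ * W + δ * conj W := by
      rw [hxW, hk, hγ, hδ]
      simp only [map_sub, map_add, map_mul, conj_conj]
      ring
    have h2 : μ * (x - c1) + ν * conj (x - c1) = z1 + t * (z2 - z1) := by
      rw [← ht, hz1, hz2]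
      simp only [map_sub, map_add, map_mul, conj_ofReal]
      ring
    rw [← h1, h2]
  set s := z1 * z2 with hs
  have hsu : s * conj s = 1 := by
    rw [hs, map_mul]
    linear_combination z2 * conj z2 * hu1 + hu2
  set g := γ + s * conj δ with hg
  set h := δ + s * conj γ with hh
  have hcg : conj g = conj s * h := by
    rw [hg, hh, map_add, map_mul, conj_conj]
    linear_combination (-conj γ) * hsu
  have hch : conj h = conj s * g := by
    rw [hg, hh, map_add, map_mul, conj_conj]
    linear_combination (-conj δ) * hsu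
  have hgne : g ≠ 0 := by
    intro h0
    have h1 : γ = -(s * conj δ) := by rw [hg] at h0; linear_combination h0
    have h2 : normSq γ = normSq δ := by
      rw [h1, normSq_neg, normSq_mul, normSq_conj]
      have : normSq s = 1 := by rw [hs, normSq_mul, hn1, hn2, one_mul]
      rw [this, one_mul]
    have h3 : normSq γ - normSq δ = (normSq μ - normSq ν) * (normSq α2 - normSq β2) := by
      have : ((normSq γ - normSq δ : ℝ) : ℂ) =
          (((normSq μ - normSq ν) * (normSq α2 - normSq β2) : ℝ) : ℂ) := by
        push_cast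
        rw [← mul_conj γ, ← mul_conj δ, ← mul_conj μ, ← mul_conj ν, ← mul_conj α2,
          ← mul_conj β2, hγ, hδ]
        simp only [map_add, map_mul, conj_conj]
        ring
      exact_mod_cast this
    have h4 : 0 < (normSq μ - normSq ν) * (normSq α2 - normSq β2) :=
      mul_pos (by linarith) (by linarith)
    linarith
  have hhne : h ≠ 0 := by
    intro h0
    apply hgne
    have : conj h = 0 := by rw [h0, map_zero]
    rw [hch] at this
    rcases mul_eq_zero.1 this with h1 | h1
    · exfalso
      rw [h1, mul_zero] at hsu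
      exact zero_ne_one hsu
    · exact h1
  have hsc : conj s ≠ 0 := by
    intro h0; rw [h0, mul_zero] at hsu; exact zero_ne_one hsu
  -- equation of the line
  have hT : g * W + h * conj W = z1 + z2 - k - s * conj k := by
    have h1 : conj (k + γ * W + δ * conj W) = conj z1 + t * (conj z2 - conj z1) := by
      rw [hZx]; simp
    simp only [map_add, map_mul, conj_conj] at h1
    rw [hg, hh]
    linear_combination hZx + s * h1 + (1 - t) * (z2 * hu1) + t * (z1 * hu2)
  -- the other point
  set W' := h * conj W / g with hW'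
  have hW'c : conj W' = g * W / h := by
    rw [hW', map_div₀, map_mul, conj_conj, hcg, hch]
    field_simp
  have hW'n : normSq W' = 1 := by
    have : ((normSq W' : ℝ) : ℂ) = 1 := by
      rw [← mul_conj, hW'c, hW']
      field_simp
      linear_combination hWu
    exact_mod_cast this
  have hT' : g * W' + h * conj W' = z1 + z2 - k - s * conj k := by
    rw [← hT, hW'c, hW']
    field_simp
    ring
  set ζ := k + γ * W' + δ * conj W' with hζ
  have hζline : ζ + s * conj ζ = z1 + z2 := by
    rw [hζ]
    simp only [map_add, map_mul, conj_conj]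
    rw [hg, hh] at hT'
    linear_combination hT'
  have hne' : z2 - z1 ≠ 0 := sub_ne_zero.2 (Ne.symm hne)
  have hz1ne : z1 ≠ 0 := by intro h0; rw [h0, zero_mul] at hu1; exact zero_ne_one hu1
  have hz2ne : z2 ≠ 0 := by intro h0; rw [h0, zero_mul] at hu2; exact zero_ne_one hu2
  obtain ⟨t', ht'⟩ : ∃ t' : ℝ, (t' : ℂ) = (ζ - z1) / (z2 - z1) := by
    have hreal : conj ((ζ - z1) / (z2 - z1)) = (ζ - z1) / (z2 - z1) := by
      rw [map_div₀, map_sub, map_sub]
      have hd : conj z2 - conj z1 ≠ 0 := by
        rw [← map_sub]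
        exact (map_ne_zero _).2 hne'
      rw [div_eq_div_iff hd hne']
      have hc1 : conj z1 = z1⁻¹ := by
        field_simp; linear_combination hu1
      have hc2 : conj z2 = z2⁻¹ := by
        field_simp; linear_combination hu2
      have hcζ : conj ζ = (z1 + z2 - ζ) / s := by
        have : s ≠ 0 := mul_ne_zero hz1ne hz2ne
        field_simp
        linear_combination hζline
      rw [hc1, hc2, hcζ, hs]
      field_simp
      ring
    exact ⟨_, conj_eq_iff_re.1 hreal⟩
  set x' := Ec.center + α2 * W' + β2 * conj W' with hx'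
  have hx'c : x' ∈ Ec.curve := by
    change Ec.q x' = 1
    rw [hq2, ← hW'n, hx']
    congr 1
    have := hinv2' W'
    have h1 : Ec.center + α2 * W' + β2 * conj W' - Ec.center = α2 * W' + β2 * conj W' := by ring
    rw [h1, this]
  have hZx' : μ * (x' - c1) + ν * conj (x' - c1) = ζ := by
    rw [hx', hζ, hk, hγ, hδ]
    simp only [map_sub, map_add, map_mul, conj_conj]
    ring
  have hx'l : x' ∈ line[ℝ, p1, p2] := by
    rw [mem_line_iff]
    refine ⟨t', ?_⟩
    have h1 : z1 + t' * (z2 - z1) = ζ := by
      rw [ht']; field_simp; ring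
    have h2 := hinv x'
    have h3 := hinv p1
    have h4 := hinv p2
    rw [hZx'] at h2
    rw [← hz1] at h3
    rw [← hz2] at h4
    have h5 : conj ζ = conj z1 + t' * (conj z2 - conj z1) := by
      rw [← h1]; simp
    rw [← h2, h5, ← h1]
    linear_combination (-1 + (t' : ℂ)) * h3 - t' * h4
  have heq : x' = x := huniq x' ⟨hx'l, hx'c⟩
  have hWW : W' = W := by
    have h1 : μ2 * (x' - Ec.center) + ν2 * conj (x' - Ec.center) = W' := by
      rw [hx']
      have h1 : Ec.center + α2 * W' + β2 * conj W' - Ec.center = α2 * W' + β2 * conj W' := by ring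
      rw [h1, hinv2']
    rw [← h1, heq]
  have hgW : h * conj W = g * W := by
    have h1 : W' * g = h * conj W := by rw [hW']; field_simp
    rw [← h1, hWW, mul_comm]
  rw [← hT]
  linear_combination (h * conj W - g * W) * hgW + 4 * g * h * hWu

end Pool.Agent.V11217.Poncelet
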