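import Mathlib
import Pool.Agent.V11217.Poncelet2

/-!
The circumcircle power of Poncelet triangles.
-/

namespace Pool.Agent.V11217.Poncelet

open Complex ComplexConjugate Affine

theorem alg {α a β b k kb c cb G g P p O o s t D R : ℂ} (hD : D = α * a - β * b) (hDne : D ≠ 0)
    (hG : G + c * g = 2 * D * kb) (hg : g + cb * G = 2 * D * k)
    (hGP : G = p * α - P * b) (hgP : g = P * a - p * β)
    (h1 : o * α + O * b = α * b * (2 * k + s * c) + a * β * t)
    (h1' : O * a + o * β = a * β * (2 * kb + t * cb) + α * b * s)
    (h2 : O * o - R = α * b * (2 * kb * s + cb) + a * β * (2 * k * t + c) - (α * a + β * b)) :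
    (P - O) * (p - o) - R = P * p - (2 * α * b * k * g + 2 * a * β * kb * G) / D +
      α * b * cb + a * β * c - (α * a + β * b) := by
  have key : D * (P * o + p * O) = 2 * α * b * k * g + 2 * a * β * kb * G +
      2 * s * α * b * kb * D + 2 * t * a * β * k * D := by
    have h3 : D * (P * o + p * O) = (o * α + O * b) * g + (O * a + o * β) * G := by
      rw [hGP, hgP, hD]; ring
    rw [h3, h1, h1']
    linear_combination s * α * b * hG + t * a * β * hg
  have key2 : P * o + p * O = (2 * α * b * k * g + 2 * a * β * kb * G) / D +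
      2 * s * α * b * kb + 2 * t * a * β * k := by
    field_simp
    linear_combination key
  linear_combination h2 - key2

theorem conj_two : conj (2:ℂ) = 2 := map_ofNat _ 2

theorem conj_four : conj (4:ℂ) = 4 := map_ofNat _ 4

theorem conjG (W c cb : ℂ) (h : conj c = cb) :
    conj ((W - c * conj W) / (1 - c * cb)) = (conj W - cb * W) / (1 - c * cb) := by
  have h' : conj cb = c := by rw [← h, conj_conj]
  rw [map_div₀, map_sub, map_sub, map_mul, map_mul, conj_conj, map_one, h, h']
  congr 1
  ring

theorem q1 (E Ec : Ellipse) (hin : Ec.curve ⊆ E.inside) :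
    ∃ (P : ℂ) (κ : ℝ), ∀ T : Affine.Triangle ℝ ℂ, Periodic E Ec T → T.circumsphere.power P = κ := by
  obtain ⟨μ, ν, α, β, hq, hinv, hinv', hαβ, hμν⟩ := E.param
  obtain ⟨μ2, ν2, α2, β2, hq2, hinv2, hinv2', hαβ2, hμν2⟩ := Ec.param
  set c1 := E.center with hc1
  set k := μ * (Ec.center - c1) + ν * conj (Ec.center - c1) with hk
  set γ := μ * α2 + ν * conj β2 with hγ
  set δ := μ * β2 + ν * conj α2 with hδ
  have hdisc : ∀ w : ℂ, ‖w‖ = 1 → ‖k + γ * w + δ * conj w‖ < 1 := by
    intro w hw
    have hwn : normSq w = 1 := by rw [normSq_eq_norm_sq, hw]; norm_num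
    set y := Ec.center + α2 * w + β2 * conj w with hy
    have hyc : y ∈ Ec.curve := by
      change Ec.q y = 1
      rw [hq2, hy]
      have h1 : Ec.center + α2 * w + β2 * conj w - Ec.center = α2 * w + β2 * conj w := by ring
      rw [h1, hinv2', hwn]
    have hyi : E.q y < 1 := hin hyc
    rw [hq] at hyi
    have h2 : μ * (y - c1) + ν * conj (y - c1) = k + γ * w + δ * conj w := by
      rw [hy, hk, hγ, hδ]
      simp only [map_sub, map_add, map_mul, conj_conj]
      ring
    rw [h2, normSq_eq_norm_sq] at hyi
    have := norm_nonneg (k + γ * w + δ * conj w)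
    nlinarith
  have hcn := norm_lt_one hdisc
  set cb := k^2 - 4 * γ * δ with hcb
  set c := conj cb with hc
  have hccb : c * cb = ((normSq cb : ℝ) : ℂ) := by rw [hc, mul_comm, mul_conj]
  have hcn2 : normSq cb < 1 := by
    rw [normSq_eq_norm_sq]
    have := norm_nonneg cb
    nlinarith
  have h1c : (1 - c * cb) ≠ 0 := by
    rw [hccb]
    have : (1 - normSq cb : ℝ) ≠ 0 := by linarith
    exact_mod_cast this
  set D : ℂ := α * conj α - β * conj β with hD
  have hDr : D = ((normSq α - normSq β : ℝ) : ℂ) := by rw [hD, mul_conj, mul_conj]; push_cast; ring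
  have hDc : conj D = D := by rw [hDr, conj_ofReal]
  have hDne : D ≠ 0 := by
    rw [hDr]
    have : normSq α - normSq β ≠ 0 := by linarith
    exact_mod_cast this
  set W := 2 * D * conj k with hW
  have hWc : conj W = 2 * D * k := by
    rw [hW, map_mul, map_mul, conj_conj, hDc, conj_two]
  set G := (W - c * conj W) / (1 - c * cb) with hG
  have hGc : conj G = (conj W - cb * W) / (1 - c * cb) := by
    have hcc : conj c = cb := by rw [hc, conj_conj]
    exact conjG W c cb hcc
  set P := (α * conj G + β * G) / D with hP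
  have hPc : conj P = (conj α * G + conj β * conj G) / D := by
    rw [hP, map_div₀, map_add, map_mul, map_mul, conj_conj, hDc]
  have eG : G + c * conj G = 2 * D * conj k := by
    rw [hGc, hG, ← hW]
    field_simp
    ring
  have eg : conj G + cb * G = 2 * D * k := by
    rw [← hWc, hGc, hG]
    have h1c' : (1 - cb * c) ≠ 0 := by rw [mul_comm]; exact h1c
    field_simp
    ring
  have eGP : G = conj P * α - P * conj β := by
    rw [hPc, hP]
    field_simp
    rw [hD]
    ring
  have egP : conj G = P * conj α - conj P * β := by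
    rw [hPc, hP]
    field_simp
    rw [hD]
    ring
  set κc := P * conj P - (2 * α * conj β * k * conj G + 2 * conj α * β * conj k * G) / D +
      α * conj β * cb + conj α * β * c - (α * conj α + β * conj β) with hκ
  refine ⟨c1 + P, κc.re, ?_⟩
  intro T hT
  set p := T.points with hp
  set O := T.circumcenter with hO
  set R := T.circumradius with hR
  have hpinj : Function.Injective p := T.independent.injective
  set z : Fin 3 → ℂ := fun i => μ * (p i - c1) + ν * conj (p i - c1) with hz
  have hzp : ∀ i, c1 + α * z i + β * conj (z i) = p i := fun i => hinv (p i)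
  have hzn : ∀ i, normSq (z i) = 1 := by
    intro i
    have : E.q (p i) = 1 := hT.1 i
    rw [hq] at this
    exact this
  have hzu : ∀ i, z i * conj (z i) = 1 := fun i => mul_conj_one (hzn i)
  have hzne : ∀ i j, i ≠ j → z i ≠ z j := by
    intro i j hij h
    apply hij
    apply hpinj
    rw [← hzp i, ← hzp j, h]
  have hz0 : ∀ i, z i ≠ 0 := by
    intro i h
    have := hzu i
    rw [h, zero_mul] at this
    exact zero_ne_one this
  have hrel : ∀ i j, i ≠ j → (z i + z j - k - z i * z j * conj k)^2 =
      4 * (γ + z i * z j * conj δ) * (δ + z i * z j * conj γ) := by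
    intro i j hij
    exact tangent_rel hinv hq2 hinv2 hinv2' hαβ2 hμν hk hγ hδ rfl rfl (hzn i) (hzn j)
      (hzne i j hij) (hT.2 i j hij)
  have hsum := relation (hzne 0 1 (by decide)) (hzne 0 2 (by decide)) (hzne 1 2 (by decide))
    (hz0 0) (hz0 1) (hz0 2) (hrel 0 1 (by decide)) (hrel 0 2 (by decide)) (hrel 1 2 (by decide))
  have hcval : conj k ^ 2 - 4 * conj γ * conj δ = c := by
    rw [hc, hcb, map_sub, map_pow, map_mul, map_mul, conj_four]
  rw [hcval] at hsum
  have hsumc : conj (z 0) + conj (z 1) + conj (z 2) =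
      2 * conj k + conj (z 0) * conj (z 1) * conj (z 2) * cb := by
    have := congrArg conj hsum
    simp only [map_add, map_mul, hc, conj_conj, conj_two] at this
    exact this
  have hpow : ∀ i, (α * z i + β * conj (z i) - (O - c1)) *
      conj (α * z i + β * conj (z i) - (O - c1)) = ((R^2 : ℝ) : ℂ) := by
    intro i
    have h1 : α * z i + β * conj (z i) - (O - c1) = p i - O := by
      rw [← hzp i]; ring
    have h2 : dist (p i) O = R := T.dist_circumcenter_eq_circumradius i
    rw [h1, mul_conj, normSq_eq_norm_sq, ← dist_eq_norm, h2]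
  obtain ⟨hc1', hc2'⟩ := circum (hzne 0 1 (by decide)) (hzne 0 2 (by decide)) (hzne 1 2 (by decide))
    (hzu 0) (hzu 1) (hzu 2) (hpow 0) (hpow 1) (hpow 2)
  set O' := O - c1 with hO'
  set s := z 0 * z 1 * z 2 with hs
  set t := conj (z 0) * conj (z 1) * conj (z 2) with ht
  have hst : conj s = t := by rw [hs, ht]; simp
  have hts : conj t = s := by rw [← hst, conj_conj]
  -- `σ₂ = σ₃ σ̄₁`
  have hs2 : z 0 * z 1 + z 0 * z 2 + z 1 * z 2 = s * (conj (z 0) + conj (z 1) + conj (z 2)) := by
    rw [hs]
    linear_combination (-(z 1 * z 2)) * hzu 0 - z 0 * z 2 * hzu 1 - z 0 * z 1 * hzu 2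
  have hs2c : conj (z 0) * conj (z 1) + conj (z 0) * conj (z 2) + conj (z 1) * conj (z 2) =
      t * (z 0 + z 1 + z 2) := by
    have := congrArg conj hs2
    simp only [map_add, map_mul, conj_conj, hst] at this
    exact this
  have hstu : s * t = 1 := by
    rw [hs, ht]
    linear_combination z 1 * conj (z 1) * z 2 * conj (z 2) * hzu 0 +
      z 2 * conj (z 2) * hzu 1 + hzu 2
  have e1 : conj O' * α + O' * conj β = α * conj β * (2 * k + s * c) + conj α * β * t := by
    rw [hc1', hsum]
  have e1' : O' * conj α + conj O' * β = conj α * β * (2 * conj k + t * cb) + α * conj β * s := by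
    have := congrArg conj e1
    simp only [map_add, map_mul, conj_conj, hst, hts] at this
    rw [hc, conj_conj] at this
    rw [conj_two] at this
    linear_combination this
  have e2 : O' * conj O' - ((R^2 : ℝ) : ℂ) = α * conj β * (2 * conj k * s + cb) +
      conj α * β * (2 * k * t + c) - (α * conj α + β * conj β) := by
    rw [hc2', hs2, hs2c, hsum, hsumc]
    linear_combination (α * conj β * cb + conj α * β * c) * hstu
  have hfinal := alg hD hDne eG eg eGP egP e1 e1' e2
  -- the power
  have hpower : ((T.circumsphere.power (c1 + P) : ℝ) : ℂ) = κc := by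
    have h3 : T.circumsphere.power (c1 + P) = normSq (P - O') - R^2 := by
      rw [EuclideanGeometry.Sphere.power, normSq_eq_norm_sq]
      have : dist (c1 + P) T.circumsphere.center = ‖P - O'‖ := by
        rw [dist_eq_norm, hO']
        congr 1
        change c1 + P - O = _
        ring
      rw [this]
      rfl
    rw [h3]
    push_cast
    rw [← mul_conj, map_sub]
    push_cast at hfinal
    rw [hfinal, hκ]
  rw [← hpower, ofReal_re]

end Pool.Agent.V11217.Poncelet
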