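import Pool.Agent.V11217.GramLis

/-!
The combinatorial heart: the words `3 4^m 11323 0^m 1` and `3 4^m 12133 0^m 1` over `ℕ`.
(letters `0,1,2,3,4` stand for the five smallest letters).
-/

namespace Pool.Agent.V11217.Gram

open List

/-- letters `1,2,3` of a word -/
def mid (x : List ℕ) : List ℕ := x.filter (fun a => decide (1 ≤ a ∧ a ≤ 3))

def KA : List (List ℕ) :=
  [[3,1,1,3,2,3,1], [3,1,1,3,3,2,1], [3,1,3,1,2,3,1], [3,3,1,1,2,3,1]]

def KB : List (List ℕ) :=
  [[3,1,2,1,3,3,1], [3,1,2,3,1,3,1], [3,1,2,3,3,1,1], [3,2,1,1,3,3,1]]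

/-- all words of length `k` over `{1,2,3}` -/
def words : ℕ → List (List ℕ)
  | 0 => [[]]
  | k + 1 => (words k).flatMap (fun w => [1 :: w, 2 :: w, 3 :: w])

theorem mem_words : ∀ (k : ℕ) (w : List ℕ), w.length = k → (∀ a ∈ w, 1 ≤ a ∧ a ≤ 3) →
    w ∈ words k := by
  intro k
  induction k with
  | zero => intro w hw _; rw [List.length_eq_zero_iff.1 hw]; simp [words]
  | succ k ih =>
    intro w hw h
    cases w with
    | nil => simp at hw
    | cons a w =>
      have h1 := ih w (by simpa using hw) (fun b hb => h b (by simp [hb]))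
      have ha := h a (by simp)
      rw [words, List.mem_flatMap]
      refine ⟨w, h1, ?_⟩
      obtain ⟨ha1, ha2⟩ := ha
      interval_cases a <;> simp

/-- the test used for the finite check -/
def test (r : List ℕ) : Bool :=
  if r.count 1 = 3 ∧ r.count 2 = 1 ∧ r.count 3 = 3 ∧ lis r 1 2 = 3 ∧ lis r 2 3 = 3 ∧ lis r 1 3 = 4
  then
    (List.range 8).all (fun i => (List.range 8).all (fun j =>
      if i ≤ j ∧ 1 ≤ (r.take i).count 3 ∧ lis (r.take i) 1 3 ≤ (r.take i).count 3 ∧
          1 ≤ (r.drop j).count 1 ∧ lis (r.drop j) 1 3 ≤ (r.drop j).count 1 then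
        decide ((r ∈ KA ∨ r ∈ KB) ∧ (2 ≤ (r.take i).count 3 → r ∉ KB) ∧
          (2 ≤ (r.drop j).count 1 → r ∉ KA))
      else true))
  else true

theorem test_all : (words 7).all test = true := by decide +kernel

theorem disjoint_AB : ∀ r ∈ KA, r ∉ KB := by decide

theorem tails_ne : ∀ a ∈ KA, ∀ b ∈ KB, ¬ (lis a.tail 1 2 = lis b.tail 1 2 ∧
    lis a.tail 2 3 = lis b.tail 2 3 ∧ lis a.tail 1 3 = lis b.tail 1 3) := by decide +kernel

theorem heads_ne : ∀ a ∈ KA, ∀ b ∈ KB, ¬ (lis a.dropLast 1 2 = lis b.dropLast 1 2 ∧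
    lis a.dropLast 2 3 = lis b.dropLast 2 3 ∧ lis a.dropLast 1 3 = lis b.dropLast 1 3) := by
  decide +kernel

theorem mid_append (u v : List ℕ) : mid (u ++ v) = mid u ++ mid v := List.filter_append ..

theorem lis_mid (x : List ℕ) {p q : ℕ} (hp : 1 ≤ p) (hq : q ≤ 3) : lis (mid x) p q = lis x p q :=
  lis_filter x _ p q (fun a h1 h2 => by simp; omega)

theorem count_mid (x : List ℕ) {a : ℕ} (h1 : 1 ≤ a) (h2 : a ≤ 3) : (mid x).count a = x.count a := by
  rw [← lis_self, ← lis_self, lis_mid x h1 h2]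

theorem length_mid (x : List ℕ) : (mid x).length = x.count 1 + x.count 2 + x.count 3 := by
  induction x with
  | nil => simp [mid]
  | cons a x ih =>
    by_cases h : 1 ≤ a ∧ a ≤ 3
    · have : mid (a :: x) = a :: mid x := List.filter_cons_of_pos (by simpa using h)
      rw [this, List.length_cons, ih]
      obtain ⟨h1, h2⟩ := h
      interval_cases a <;> simp <;> omega
    · have : mid (a :: x) = mid x := List.filter_cons_of_neg (by simpa using h)
      rw [this, ih, List.count_cons_of_ne (by omega), List.count_cons_of_ne (by omega),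
        List.count_cons_of_ne (by omega)]

/-- the numerical data of the class of `3 4^m 11323 0^m 1` that are used -/
structure Facts (m : ℕ) (x : List ℕ) : Prop where
  c0 : x.count 0 = m
  c1 : x.count 1 = 3
  c2 : x.count 2 = 1
  c3 : x.count 3 = 3
  c4 : x.count 4 = m
  l01 : lis x 0 1 = m + 1
  l03 : lis x 0 3 = m + 1
  l04 : lis x 0 4 = m + 1
  l34 : lis x 3 4 = m + 1
  l14 : lis x 1 4 = m + 1
  l12 : lis x 1 2 = 3
  l23 : lis x 2 3 = 3
  l13 : lis x 1 3 = 4

theorem main_split {m : ℕ} (hm : 6 ≤ m) {x : List ℕ} (h : Facts m x) :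
    ∃ A Z B : List ℕ, mid x = A ++ Z ++ B ∧ 1 ≤ A.count 3 ∧ lis A 1 3 ≤ A.count 3 ∧
      1 ≤ B.count 1 ∧ lis B 1 3 ≤ B.count 1 ∧ (x.head? = some 4 → 2 ≤ A.count 3) ∧
      (x.getLast? = some 0 → 2 ≤ B.count 1) := by
  obtain ⟨w1, w2, e12, s12⟩ := exists_split x 0
  obtain ⟨w3, w4, e34, s34⟩ := exists_split x 3
  simp only [zero_add, Nat.reduceAdd] at s12 s34
  rw [h.l01] at s12
  rw [h.l34] at s34
  -- bounds on counts
  have c0 : w1.count 0 + w2.count 0 = m := by rw [← List.count_append, ← e12, h.c0]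
  have c1 : w1.count 1 + w2.count 1 = 3 := by rw [← List.count_append, ← e12, h.c1]
  have c3 : w3.count 3 + w4.count 3 = 3 := by rw [← List.count_append, ← e34, h.c3]
  have c4 : w3.count 4 + w4.count 4 = m := by rw [← List.count_append, ← e34, h.c4]
  -- LIS bounds
  have b1 : w1.count 0 + lis w2 1 3 ≤ m + 1 := by
    rw [← h.l03, e12, ← lis_self w1 0]
    exact (Nat.add_le_add_left (lis_mono (Nat.zero_le 1) le_rfl) _).trans
      (lis_add_le (u := w1) (v := w2) (p := 0) (r := 0) (q := 3) le_rfl (by omega))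
  have b2 : lis w3 1 3 + w4.count 4 ≤ m + 1 := by
    rw [← h.l14, e34, ← lis_self w4 4]
    exact (Nat.add_le_add_right (lis_mono (le_refl 1) (show 3 ≤ 4 by omega)) _).trans
      (lis_add_le (u := w3) (v := w4) (p := 1) (r := 4) (q := 4) (by omega) le_rfl)
  -- comparison of the two splits
  have key : ∃ z, w1 = w3 ++ z ∧ w4 = z ++ w2 := by
    rcases List.append_eq_append_iff.1 (e12.symm.trans e34) with ⟨z, e1, e2⟩ | ⟨z, e1, e2⟩
    · -- w3 = w1 ++ z, w2 = z ++ w4
      exfalso
      have : w1.count 0 + w4.count 4 ≤ m + 1 := by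
        rw [← h.l04, e12, e2, ← lis_self w1 0, ← lis_self w4 4]
        refine (Nat.add_le_add_left ?_ _).trans
          (lis_add_le (u := w1) (v := z ++ w4) (p := 0) (r := 0) (q := 4) le_rfl (by omega))
        exact (lis_mono (Nat.zero_le 4) le_rfl).trans (lis_append_le_right z w4 0 4)
      omega
    · exact ⟨z, e1, e2⟩
  obtain ⟨z, e1, e2⟩ := key
  refine ⟨mid w3, mid z, mid w2, ?_, ?_, ?_, ?_, ?_, ?_, ?_⟩
  · rw [e12, e1, mid_append, mid_append]
  · rw [count_mid _ (by omega) (by omega)]; omega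
  · rw [count_mid _ (by omega) (by omega), lis_mid _ (by omega) (by omega)]; omega
  · rw [count_mid _ (by omega) (by omega)]; omega
  · rw [count_mid _ (by omega) (by omega), lis_mid _ (by omega) (by omega)]; omega
  · intro hh
    rw [count_mid _ (by omega) (by omega)]
    cases w3 with
    | nil => simp at c4 s34; omega
    | cons a t =>
      rw [e34] at hh
      simp only [List.cons_append, List.head?_cons, Option.some.injEq] at hh
      subst hh
      rw [List.count_cons_self] at c4
      omega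
  · intro hh
    rw [count_mid _ (by omega) (by omega)]
    rcases List.eq_nil_or_concat w2 with rfl | ⟨t, a, rfl⟩
    · simp at c0 s12; omega
    · rw [List.concat_eq_append] at *
      rw [e12] at hh
      rw [← List.append_assoc, List.getLast?_append] at hh
      simp only [List.getLast?_singleton, Option.some_or, Option.some.injEq] at hh
      subst hh
      rw [List.count_append, List.count_singleton_self] at c0
      omega

theorem side_facts {m : ℕ} (hm : 6 ≤ m) {x : List ℕ} (h : Facts m x) :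
    (mid x ∈ KA ∨ mid x ∈ KB) ∧ (x.head? = some 4 → mid x ∉ KB) ∧
      (x.getLast? = some 0 → mid x ∉ KA) := by
  obtain ⟨A, Z, B, e, a1, a2, b1, b2, hh, hl⟩ := main_split hm h
  have hlen : (mid x).length = 7 := by rw [length_mid, h.c1, h.c2, h.c3]
  have hmem : mid x ∈ words 7 := mem_words 7 _ hlen (fun a ha => by
    have := (List.mem_filter.1 ha).2; simpa using this)
  have ht := List.all_eq_true.1 test_all _ hmem
  rw [test, if_pos ⟨by rw [count_mid _ (by omega) (by omega), h.c1],
    by rw [count_mid _ (by omega) (by omega), h.c2],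
    by rw [count_mid _ (by omega) (by omega), h.c3],
    by rw [lis_mid _ (by omega) (by omega), h.l12],
    by rw [lis_mid _ (by omega) (by omega), h.l23],
    by rw [lis_mid _ (by omega) (by omega), h.l13]⟩] at ht
  have hl' : A.length + Z.length + B.length = 7 := by
    rw [← hlen, e]; simp; omega
  have h1 := List.all_eq_true.1 ht A.length (List.mem_range.2 (by omega))
  have h2 := List.all_eq_true.1 h1 (A ++ Z).length (List.mem_range.2 (by simp; omega))
  have t1 : (mid x).take A.length = A := by rw [e, List.append_assoc]; simp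
  have t2 : (mid x).drop (A ++ Z).length = B := by rw [e]; simp
  rw [t1, t2, if_pos ⟨by simp, a1, a2, b1, b2⟩] at h2
  have h3 := of_decide_eq_true h2
  exact ⟨h3.1, fun h => h3.2.1 (hh h), fun h => h3.2.2 (hl h)⟩

/-- words with letters `< n`, in the same class as `w` -/
def G (n : ℕ) (x y : List ℕ) : Prop := ∀ p q, p < n → q < n → lis x p q = lis y p q

theorem G.symm {n : ℕ} {x y : List ℕ} (h : G n x y) : G n y x :=
  fun p q hp hq => (h p q hp hq).symm

theorem G.trans {n : ℕ} {x y z : List ℕ} (h : G n x y) (h' : G n y z) : G n x z :=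
  fun p q hp hq => (h p q hp hq).trans (h' p q hp hq)

theorem G.cons {n : ℕ} {x y : List ℕ} (h : G n x y) (a : ℕ) : G n (a :: x) (a :: y) := by
  intro p q hp hq
  rw [lis_cons, lis_cons]
  by_cases ha : p ≤ a ∧ a ≤ q
  · rw [if_pos ha, if_pos ha, h p q hp hq, h a q (by omega) hq]
  · rw [if_neg ha, if_neg ha, h p q hp hq]

theorem G.concat {n : ℕ} {x y : List ℕ} (h : G n x y) (b : ℕ) : G n (x ++ [b]) (y ++ [b]) := by
  intro p q hp hq
  rw [lis_concat, lis_concat]
  by_cases ha : p ≤ b ∧ b ≤ q
  · rw [if_pos ha, if_pos ha, h p q hp hq, h p b hp (by omega)]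
  · rw [if_neg ha, if_neg ha, h p q hp hq]

theorem G.append_left {n : ℕ} {x y : List ℕ} (h : G n x y) (u : List ℕ) :
    G n (u ++ x) (u ++ y) := by
  induction u with
  | nil => exact h
  | cons a u ih => exact ih.cons a

theorem G.append_right {n : ℕ} {x y : List ℕ} (h : G n x y) (u : List ℕ) :
    G n (x ++ u) (y ++ u) := by
  induction u using List.reverseRecOn with
  | nil => simpa using h
  | append_singleton u a ih =>
    rw [← List.append_assoc, ← List.append_assoc]; exact ih.concat a

/-- the word `3 4^m 11323 0^m 1` -/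
def W (m : ℕ) : List ℕ := 3 :: (replicate m 4 ++ ([1,1,3,2,3] ++ (replicate m 0 ++ [1])))

/-- the word `3 4^m 12133 0^m 1` -/
def W' (m : ℕ) : List ℕ := 3 :: (replicate m 4 ++ ([1,2,1,3,3] ++ (replicate m 0 ++ [1])))

theorem lis_clip {w : List ℕ} (hw : ∀ a ∈ w, a ≤ 4) (p q : ℕ) (hq : 4 ≤ q) :
    lis w p q = lis w p 4 := by
  induction w generalizing p with
  | nil => simp
  | cons a w ih =>
    have ha := hw a (by simp)
    have ih' := ih (fun b hb => hw b (by simp [hb]))
    rw [lis_cons, lis_cons, ih' p, ih' a]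
    by_cases h : p ≤ a
    · rw [if_pos ⟨h, by omega⟩, if_pos ⟨h, ha⟩]
    · rw [if_neg (fun h' => h h'.1), if_neg (fun h' => h h'.1)]

theorem lis_big {w : List ℕ} (hw : ∀ a ∈ w, a ≤ 4) (p q : ℕ) (hp : 4 < p) : lis w p q = 0 := by
  induction w with
  | nil => simp
  | cons a w ih =>
    have ha := hw a (by simp)
    rw [lis_cons, if_neg (by omega), ih (fun b hb => hw b (by simp [hb]))]

theorem W_le (m : ℕ) : ∀ a ∈ W m, a ≤ 4 := by
  intro a ha; simp [W, List.mem_replicate] at ha; omega

theorem W'_le (m : ℕ) : ∀ a ∈ W' m, a ≤ 4 := by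
  intro a ha; simp [W', List.mem_replicate] at ha; omega

theorem lis_W (m : ℕ) (hm : 3 ≤ m) : ∀ p q, p ≤ 4 → q ≤ 4 → lis (W m) p q = lis (W' m) p q := by
  intro p q hp hq
  interval_cases p <;> interval_cases q <;>
    (simp [W, W', lis_cons, lis_replicate]; try omega)

theorem W_equiv (n m : ℕ) (hm : 3 ≤ m) : G n (W m) (W' m) := by
  intro p q _ _
  by_cases hp : p ≤ 4
  · by_cases hq : q ≤ 4
    · exact lis_W m hm p q hp hq
    · rw [lis_clip (W_le m) p q (by omega), lis_clip (W'_le m) p q (by omega)]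
      exact lis_W m hm p 4 hp le_rfl
  · rw [lis_big (W_le m) p q (by omega), lis_big (W'_le m) p q (by omega)]

theorem facts_W (m : ℕ) (hm : 3 ≤ m) : Facts m (W m) where
  c0 := by simp [W, List.count_append, List.count_replicate]
  c1 := by simp [W, List.count_append, List.count_replicate]
  c2 := by simp [W, List.count_append, List.count_replicate]
  c3 := by simp [W, List.count_append, List.count_replicate]
  c4 := by simp [W, List.count_append, List.count_replicate]
  l01 := by simp [W, lis_cons, lis_replicate]; omega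
  l03 := by simp [W, lis_cons, lis_replicate]; omega
  l04 := by simp [W, lis_cons, lis_replicate]; omega
  l34 := by simp [W, lis_cons, lis_replicate]; omega
  l14 := by simp [W, lis_cons, lis_replicate]; omega
  l12 := by simp [W, lis_cons, lis_replicate]
  l23 := by simp [W, lis_cons, lis_replicate]
  l13 := by simp [W, lis_cons, lis_replicate]

theorem mid_W (m : ℕ) : mid (W m) ∈ KA := by
  simp [W, mid, List.filter_append, KA]

theorem mid_W' (m : ℕ) : mid (W' m) ∈ KB := by
  simp [W', mid, List.filter_append, KB]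

theorem G.facts {n m : ℕ} (hn : 5 ≤ n) (hm : 3 ≤ m) {x : List ℕ} (h : G n (W m) x) :
    Facts m x := by
  have f := facts_W m hm
  constructor
  · rw [← lis_self, ← h 0 0 (by omega) (by omega), lis_self, f.c0]
  · rw [← lis_self, ← h 1 1 (by omega) (by omega), lis_self, f.c1]
  · rw [← lis_self, ← h 2 2 (by omega) (by omega), lis_self, f.c2]
  · rw [← lis_self, ← h 3 3 (by omega) (by omega), lis_self, f.c3]
  · rw [← lis_self, ← h 4 4 (by omega) (by omega), lis_self, f.c4]
  · rw [← h 0 1 (by omega) (by omega), f.l01]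
  · rw [← h 0 3 (by omega) (by omega), f.l03]
  · rw [← h 0 4 (by omega) (by omega), f.l04]
  · rw [← h 3 4 (by omega) (by omega), f.l34]
  · rw [← h 1 4 (by omega) (by omega), f.l14]
  · rw [← h 1 2 (by omega) (by omega), f.l12]
  · rw [← h 2 3 (by omega) (by omega), f.l23]
  · rw [← h 1 3 (by omega) (by omega), f.l13]

/-- letters of a word in the class are `≤ 4` -/
theorem G.letters {n m : ℕ} {x : List ℕ} (h : G n (W m) x) {a : ℕ} (ha : a ∈ x) (han : a < n) :
    a ≤ 4 := by
  by_contra hc
  have h1 := h a a han han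
  rw [lis_self, lis_self, List.count_eq_zero_of_not_mem] at h1
  · exact absurd (List.count_pos_iff.2 ha) (by omega)
  · intro h2; exact absurd (W_le m a h2) (by omega)

theorem mid_cons {a : ℕ} (h1 : 1 ≤ a) (h2 : a ≤ 3) (x : List ℕ) : mid (a :: x) = a :: mid x :=
  List.filter_cons_of_pos (by simp; omega)

theorem mid_concat {a : ℕ} (h1 : 1 ≤ a) (h2 : a ≤ 3) (x : List ℕ) :
    mid (x ++ [a]) = mid x ++ [a] := by
  rw [mid_append, mid_cons h1 h2]; rfl

theorem step_cons {n m : ℕ} (hn : 5 ≤ n) (hm : 6 ≤ m) {a : ℕ} {x y : List ℕ} (ha : a < n)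
    (hxy : G n x y) (hx : G n (W m) (a :: x)) (hs : mid (a :: x) ∈ KA) :
    mid (a :: y) ∈ KA := by
  have hy : G n (W m) (a :: y) := hx.trans (hxy.cons a)
  have fx := hx.facts hn (by omega)
  have fy := hy.facts hn (by omega)
  have sy := side_facts hm fy
  by_contra hc
  have hB := sy.1.resolve_left hc
  have ha4 : a ≤ 4 := hx.letters (by simp) ha
  by_cases h0 : a = 0
  · subst h0
    have e1 := fx.l04
    have e2 := fx.l14
    rw [lis_cons, if_pos (by omega)] at e1
    rw [lis_cons, if_neg (by omega)] at e2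
    have := lis_mono (w := x) (p := 1) (q := 4) (p' := 0) (q' := 4) (by omega) le_rfl
    omega
  by_cases h4 : a = 4
  · subst h4; exact sy.2.1 (by simp) hB
  · have h1 : 1 ≤ a := by omega
    have h3 : a ≤ 3 := by omega
    refine tails_ne _ hs _ hB ?_
    rw [mid_cons h1 h3, mid_cons h1 h3, List.tail_cons, List.tail_cons]
    refine ⟨?_, ?_, ?_⟩ <;> rw [lis_mid _ (by omega) (by omega), lis_mid _ (by omega) (by omega)]
    · exact hxy 1 2 (by omega) (by omega)
    · exact hxy 2 3 (by omega) (by omega)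
    · exact hxy 1 3 (by omega) (by omega)

theorem step_concat {n m : ℕ} (hn : 5 ≤ n) (hm : 6 ≤ m) {b : ℕ} {x y : List ℕ} (hb : b < n)
    (hxy : G n x y) (hx : G n (W m) (x ++ [b])) (hs : mid (x ++ [b]) ∈ KA) :
    mid (y ++ [b]) ∈ KA := by
  have hy : G n (W m) (y ++ [b]) := hx.trans (hxy.concat b)
  have fx := hx.facts hn (by omega)
  have fy := hy.facts hn (by omega)
  have sx := side_facts hm fx
  have sy := side_facts hm fy
  by_contra hc
  have hB := sy.1.resolve_left hc
  have hb4 : b ≤ 4 := hx.letters (by simp) hb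
  by_cases h0 : b = 0
  · subst h0; exact sx.2.2 (by simp) hs
  by_cases h4 : b = 4
  · subst h4
    have e1 := fx.l04
    have e2 := fx.l03
    rw [lis_concat, if_pos (by omega)] at e1
    rw [lis_concat, if_neg (by omega)] at e2
    have := lis_mono (w := x) (p := 0) (q := 3) (p' := 0) (q' := 4) (by omega) (by omega)
    omega
  · have h1 : 1 ≤ b := by omega
    have h3 : b ≤ 3 := by omega
    refine heads_ne _ hs _ hB ?_
    rw [mid_concat h1 h3, mid_concat h1 h3, List.dropLast_concat, List.dropLast_concat]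
    refine ⟨?_, ?_, ?_⟩ <;> rw [lis_mid _ (by omega) (by omega), lis_mid _ (by omega) (by omega)]
    · exact hxy 1 2 (by omega) (by omega)
    · exact hxy 2 3 (by omega) (by omega)
    · exact hxy 1 3 (by omega) (by omega)

theorem side_left {n m : ℕ} (hn : 5 ≤ n) (hm : 6 ≤ m) {p x y : List ℕ} (hp : ∀ a ∈ p, a < n)
    (hne : p ≠ []) (hxy : G n x y) (hx : G n (W m) (p ++ x)) :
    mid (p ++ x) ∈ KA ↔ mid (p ++ y) ∈ KA := by
  cases p with
  | nil => exact absurd rfl hne
  | cons a p =>
    have h1 : G n (p ++ x) (p ++ y) := hxy.append_left p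
    have ha : a < n := hp a (by simp)
    exact ⟨fun h => step_cons hn hm ha h1 hx h,
      fun h => step_cons hn hm ha h1.symm (hx.trans (h1.cons a)) h⟩

theorem side_right {n m : ℕ} (hn : 5 ≤ n) (hm : 6 ≤ m) {x y q : List ℕ} (hq : ∀ a ∈ q, a < n)
    (hne : q ≠ []) (hxy : G n x y) (hx : G n (W m) (x ++ q)) :
    mid (x ++ q) ∈ KA ↔ mid (y ++ q) ∈ KA := by
  rcases List.eq_nil_or_concat q with rfl | ⟨t, b, rfl⟩
  · exact absurd rfl hne
  · rw [List.concat_eq_append] at *
    rw [← List.append_assoc] at hx ⊢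
    rw [← List.append_assoc]
    have h1 : G n (x ++ t) (y ++ t) := hxy.append_right t
    have hb : b < n := hq b (by simp)
    exact ⟨fun h => step_concat hn hm hb h1 hx h,
      fun h => step_concat hn hm hb h1.symm (hx.trans (h1.concat b)) h⟩

end Pool.Agent.V11217.Gram
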