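import Mathlib

/-!
Longest weakly increasing scattered subsequences with letters in a window, and their recursion.
-/

namespace Pool.Agent.V11217.Gram

/-- `phi w p q` is the largest length of a weakly increasing scattered subsequence of `w`
all of whose letters lie in `[p, q]`. -/
noncomputable def phi {α : Type*} [LinearOrder α] (w : List α) (p q : α) : ℕ :=
  sSup {k | ∃ s : List α, s.Sublist w ∧ s.Pairwise (· ≤ ·) ∧ (∀ a ∈ s, p ≤ a ∧ a ≤ q) ∧
    s.length = k}

section lis
variable {α : Type*} [LinearOrder α]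

/-- computable version of `phi` -/
def lis : List α → α → α → ℕ
  | [], _, _ => 0
  | a :: w, p, q => if p ≤ a ∧ a ≤ q then max (lis w p q) (1 + lis w a q) else lis w p q

@[simp] theorem lis_nil (p q : α) : lis [] p q = 0 := rfl

theorem lis_cons (a : α) (w : List α) (p q : α) :
    lis (a :: w) p q = if p ≤ a ∧ a ≤ q then max (lis w p q) (1 + lis w a q) else lis w p q := rfl

theorem lis_le_cons (a : α) (w : List α) (p q : α) : lis w p q ≤ lis (a :: w) p q := by
  rw [lis_cons]; split_ifs
  · exact le_max_left _ _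
  · exact le_rfl

theorem length_le_lis : ∀ (w s : List α) (p q : α), s.Sublist w → s.Pairwise (· ≤ ·) →
    (∀ a ∈ s, p ≤ a ∧ a ≤ q) → s.length ≤ lis w p q := by
  intro w
  induction w with
  | nil => intro s p q hs _ _; rw [List.sublist_nil.1 hs]; simp
  | cons a w ih =>
    intro s p q hs hp hr
    rcases List.sublist_cons_iff.1 hs with h | ⟨t, rfl, h⟩
    · exact (ih s p q h hp hr).trans (lis_le_cons a w p q)
    · have ha := hr a (by simp)
      rw [lis_cons, if_pos ha]
      have := ih t a q h (List.pairwise_cons.1 hp).2 (fun b hb =>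
        ⟨(List.pairwise_cons.1 hp).1 b hb, (hr b (by simp [hb])).2⟩)
      simp only [List.length_cons]
      omega

theorem exists_lis : ∀ (w : List α) (p q : α), ∃ s : List α, s.Sublist w ∧
    s.Pairwise (· ≤ ·) ∧ (∀ a ∈ s, p ≤ a ∧ a ≤ q) ∧ s.length = lis w p q := by
  intro w
  induction w with
  | nil => intro p q; exact ⟨[], by simp⟩
  | cons a w ih =>
    intro p q
    by_cases ha : p ≤ a ∧ a ≤ q
    · rw [lis_cons, if_pos ha]
      rcases le_total (lis w p q) (1 + lis w a q) with h | h
      · obtain ⟨s, h1, h2, h3, h4⟩ := ih a q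
        refine ⟨a :: s, h1.cons_cons a, List.pairwise_cons.2 ⟨fun b hb => (h3 b hb).1, h2⟩, ?_, ?_⟩
        · intro b hb
          rcases List.mem_cons.1 hb with rfl | hb
          · exact ha
          · exact ⟨ha.1.trans (h3 b hb).1, (h3 b hb).2⟩
        · rw [max_eq_right h, List.length_cons, h4]; omega
      · obtain ⟨s, h1, h2, h3, h4⟩ := ih p q
        exact ⟨s, h1.trans (List.sublist_cons_self a w), h2, h3, by rw [max_eq_left h, h4]⟩
    · rw [lis_cons, if_neg ha]
      obtain ⟨s, h1, h2, h3, h4⟩ := ih p q
      exact ⟨s, h1.trans (List.sublist_cons_self a w), h2, h3, h4⟩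

theorem phi_eq_lis (w : List α) (p q : α) : phi w p q = lis w p q := by
  have : IsGreatest {k | ∃ s : List α, s.Sublist w ∧ s.Pairwise (· ≤ ·) ∧
      (∀ a ∈ s, p ≤ a ∧ a ≤ q) ∧ s.length = k} (lis w p q) := by
    refine ⟨exists_lis w p q, ?_⟩
    rintro k ⟨s, h1, h2, h3, rfl⟩
    exact length_le_lis w s p q h1 h2 h3
  exact this.csSup_eq

theorem lis_mono {w : List α} {p q p' q' : α} (hp : p' ≤ p) (hq : q ≤ q') :
    lis w p q ≤ lis w p' q' := by
  obtain ⟨s, h1, h2, h3, h4⟩ := exists_lis w p q
  rw [← h4]
  exact length_le_lis w s p' q' h1 h2 (fun a ha => ⟨hp.trans (h3 a ha).1, (h3 a ha).2.trans hq⟩)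

theorem lis_add_le {u v : List α} {p r q : α} (h1 : p ≤ r) (h2 : r ≤ q) :
    lis u p r + lis v r q ≤ lis (u ++ v) p q := by
  obtain ⟨s, a1, a2, a3, a4⟩ := exists_lis u p r
  obtain ⟨t, b1, b2, b3, b4⟩ := exists_lis v r q
  rw [← a4, ← b4, ← List.length_append]
  refine length_le_lis _ _ _ _ (a1.append b1) ?_ ?_
  · rw [List.pairwise_append]
    exact ⟨a2, b2, fun a ha b hb => (a3 a ha).2.trans (b3 b hb).1⟩
  · intro a ha
    rcases List.mem_append.1 ha with ha | ha
    · exact ⟨(a3 a ha).1, (a3 a ha).2.trans h2⟩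
    · exact ⟨h1.trans (b3 a ha).1, (b3 a ha).2⟩

theorem lis_append_le_left (u v : List α) (p q : α) : lis u p q ≤ lis (u ++ v) p q := by
  obtain ⟨s, a1, a2, a3, a4⟩ := exists_lis u p q
  rw [← a4]
  exact length_le_lis _ _ _ _ (a1.trans (List.sublist_append_left u v)) a2 a3

theorem lis_append_le_right (u v : List α) (p q : α) : lis v p q ≤ lis (u ++ v) p q := by
  obtain ⟨s, a1, a2, a3, a4⟩ := exists_lis v p q
  rw [← a4]
  exact length_le_lis _ _ _ _ (a1.trans (List.sublist_append_right u v)) a2 a3

theorem lis_eq_zero_of_lt {w : List α} {p q : α} (h : q < p) : lis w p q = 0 := by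
  obtain ⟨s, a1, a2, a3, a4⟩ := exists_lis w p q
  rw [← a4]
  cases s with
  | nil => rfl
  | cons a s => exact absurd ((a3 a (by simp)).1.trans (a3 a (by simp)).2) (not_le.2 h)

theorem lis_self (w : List α) (a : α) : lis w a a = w.count a := by
  induction w with
  | nil => simp
  | cons b w ih =>
    rw [lis_cons, List.count_cons]
    by_cases hb : b = a
    · subst hb; simp [ih]; omega
    · have : ¬ (a ≤ b ∧ b ≤ a) := fun h => hb (le_antisymm h.2 h.1)
      rw [if_neg this, ih]; simp [hb]

/-- recursion at the right end -/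
theorem lis_concat (u : List α) (b p q : α) :
    lis (u ++ [b]) p q = if p ≤ b ∧ b ≤ q then max (lis u p q) (1 + lis u p b) else lis u p q := by
  induction u generalizing p with
  | nil => simp [lis_cons]
  | cons a u ih =>
    rw [List.cons_append, lis_cons, ih p, ih a, lis_cons, lis_cons]
    by_cases hb : p ≤ b ∧ b ≤ q
    · by_cases ha : p ≤ a ∧ a ≤ q
      · by_cases hab : a ≤ b
        · rw [if_pos ha, if_pos hb, if_pos ⟨hab, hb.2⟩, if_pos hb, if_pos ha, if_pos ⟨ha.1, hab⟩]
          omega
        · have h0 : lis u a b = 0 := lis_eq_zero_of_lt (not_le.1 hab)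
          rw [if_pos ha, if_pos hb, if_neg (fun h => hab h.1), if_pos hb, if_pos ha,
            if_neg (fun h => hab h.2)]
          omega
      · have : ¬ (p ≤ a ∧ a ≤ b) := fun h => ha ⟨h.1, h.2.trans hb.2⟩
        rw [if_neg ha, if_pos hb, if_pos hb, if_neg ha, if_neg this]
    · by_cases ha : p ≤ a ∧ a ≤ q
      · have : ¬ (a ≤ b ∧ b ≤ q) := fun h => hb ⟨ha.1.trans h.1, h.2⟩
        rw [if_pos ha, if_neg hb, if_neg this, if_neg hb, if_pos ha]
      · rw [if_neg ha, if_neg hb, if_neg hb, if_neg ha]

theorem lis_map {β : Type*} [LinearOrder β] (f : α → β) (hf : StrictMono f) (w : List α) (p q : α) :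
    lis (w.map f) (f p) (f q) = lis w p q := by
  induction w generalizing p with
  | nil => simp
  | cons a w ih =>
    simp only [List.map_cons, lis_cons, ih, hf.le_iff_le]

/-- the window only sees the letters inside it -/
theorem lis_filter (w : List α) (P : α → Bool) (p q : α)
    (h : ∀ a, p ≤ a → a ≤ q → P a = true) : lis (w.filter P) p q = lis w p q := by
  induction w generalizing p with
  | nil => simp
  | cons a w ih =>
    by_cases hP : P a = true
    · rw [List.filter_cons_of_pos hP, lis_cons, lis_cons, ih p h]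
      by_cases ha : p ≤ a ∧ a ≤ q
      · rw [if_pos ha, if_pos ha, ih a (fun b h1 h2 => h b (ha.1.trans h1) h2)]
      · rw [if_neg ha, if_neg ha]
    · rw [List.filter_cons_of_neg hP, ih p h, lis_cons, if_neg]
      exact fun ha => hP (h a ha.1 ha.2)

theorem lis_replicate (m : ℕ) (a : α) (w : List α) (p q : α) :
    lis (List.replicate m a ++ w) p q =
      if p ≤ a ∧ a ≤ q then max (lis w p q) (m + lis w a q) else lis w p q := by
  induction m generalizing p with
  | zero =>
    simp only [List.replicate_zero, List.nil_append, zero_add]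
    split_ifs with h
    · exact (max_eq_left (lis_mono h.1 le_rfl)).symm
    · rfl
  | succ m ih =>
    rw [List.replicate_succ, List.cons_append, lis_cons, ih, ih]
    by_cases h : p ≤ a ∧ a ≤ q
    · have := lis_mono (w := w) (q := q) (q' := q) h.1 le_rfl
      simp only [h, le_refl, and_self, if_true]; omega
    · simp only [h, if_false]

/-- splitting a longest subsequence over two adjacent letters -/
theorem exists_split (w : List ℕ) (p : ℕ) : ∃ u v : List ℕ, w = u ++ v ∧
    lis w p (p + 1) = u.count p + v.count (p + 1) := by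
  induction w with
  | nil => exact ⟨[], [], by simp⟩
  | cons a w ih =>
    obtain ⟨u, v, h1, h2⟩ := ih
    rw [lis_cons]
    by_cases ha : a = p
    · subst ha
      refine ⟨a :: u, v, by rw [h1, List.cons_append], ?_⟩
      rw [if_pos ⟨le_rfl, by omega⟩, List.count_cons_self]
      omega
    · by_cases hb : a = p + 1
      · subst hb
        rw [if_pos ⟨by omega, le_rfl⟩, lis_self]
        rcases le_total (lis w p (p + 1)) (1 + w.count (p + 1)) with h | h
        · refine ⟨[], (p + 1) :: w, by simp, ?_⟩
          rw [max_eq_right h, List.count_cons_self]; simp; omega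
        · refine ⟨(p + 1) :: u, v, by rw [h1, List.cons_append], ?_⟩
          rw [max_eq_left h, h2, List.count_cons_of_ne (by omega)]
      · refine ⟨a :: u, v, by rw [h1, List.cons_append], ?_⟩
        rw [if_neg (by omega), h2, List.count_cons_of_ne ha]

end lis

end Pool.Agent.V11217.Gram
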