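import Mathlib
import Pool.Agent.V11217.Omega1

/-!
Mazur's theorem for `2^(omega one)`: a real-valued sequentially continuous function is
continuous.  Consequences for maps into topological groups.
-/

namespace Pool.Agent.V11217

open Set Filter Topology

theorem mazur_core {Ω : Type*} [LinearOrder Ω] (hc : ∀ w : Ω, (Set.Iio w).Countable)
    (hunc : ¬ (Set.univ : Set Ω).Countable)
    (g : Set Ω → ℝ)
    (hg : ∀ (C : ℕ → Set Ω) (D : Set Ω), (∀ ξ, ∀ᶠ n in atTop, (ξ ∈ C n ↔ ξ ∈ D)) →
      Tendsto (fun n => g (C n)) atTop (𝓝 (g D)))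
    (h0 : g ∅ = 0) (ε : ℝ) (hε : 0 < ε) :
    ∃ F : Set Ω, F.Finite ∧ ∀ D, Disjoint D F → |g D| < 3 * ε := by
  classical
  -- step 2
  have step2 : ∃ F : Finset Ω, ∀ C : Set Ω, C.Countable → Disjoint C (F : Set Ω) → |g C| ≤ ε := by
    by_contra hcon
    push Not at hcon
    choose C hCc hCd hCg using hcon
    obtain ⟨A, -, hAc, hAcl⟩ := exists_countable_closed C hCc ∅ countable_empty
    obtain ⟨h, hh⟩ := Set.countable_iff_exists_injOn.1 hAc
    have hfin : ∀ n : ℕ, {x | x ∈ A ∧ h x ≤ n}.Finite := by
      intro n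
      refine Set.Finite.of_finite_image (f := h) ((Set.finite_Iic n).subset ?_)
        (hh.mono (fun x hx => hx.1))
      rintro _ ⟨x, hx, rfl⟩
      exact hx.2
    let F : ℕ → Finset Ω := fun n => (hfin n).toFinset
    have hFA : ∀ n, (F n : Set Ω) ⊆ A := by
      intro n x hx
      simp only [F, Finite.coe_toFinset, mem_setOf_eq] at hx
      exact hx.1
    have hlim := hg (fun n => C (F n)) ∅ (by
      intro ξ
      by_cases hξ : ξ ∈ A
      · filter_upwards [eventually_ge_atTop (h ξ)] with n hn
        simp only [mem_empty_iff_false, iff_false]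
        intro hmem
        refine (Set.disjoint_left.1 (hCd (F n))) hmem ?_
        simp only [F, Finite.coe_toFinset, mem_setOf_eq]
        exact ⟨hξ, hn⟩
      · refine Eventually.of_forall fun n => ?_
        simp only [mem_empty_iff_false, iff_false]
        intro hmem
        exact hξ (hAcl (F n) (hFA n) hmem))
    rw [h0] at hlim
    have h1 : ∀ᶠ n in atTop, |g (C (F n))| < ε := by
      have := (hlim.abs).eventually (gt_mem_nhds (by simpa using hε))
      simpa using this
    obtain ⟨n, hn⟩ := h1.exists
    exact absurd hn (not_lt.2 (hCg (F n)).le)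
  obtain ⟨F, hF⟩ := step2
  refine ⟨F, F.finite_toSet, ?_⟩
  intro D hDF
  by_contra hD
  push Not at hD
  have hinj : ∀ ξ : Ω, ∃ h : Ω → ℕ, Set.InjOn h (Set.Iio ξ) := fun ξ =>
    Set.countable_iff_exists_injOn.1 (hc ξ)
  choose h hh using hinj
  let B : Ω → ℕ → Set Ω := fun α n => {ξ | ξ ∈ D ∧ (ξ ≤ α ∨ h ξ α ≤ n)}
  have hB : ∀ α, ∃ n, 2 * ε ≤ |g (B α n)| := by
    intro α
    have hl := hg (B α) D (by
      intro ξ
      filter_upwards [eventually_ge_atTop (h ξ α)] with n hn
      simp only [B, mem_setOf_eq]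
      constructor
      · exact fun hx => hx.1
      · exact fun hx => ⟨hx, Or.inr hn⟩)
    have := (hl.abs).eventually (lt_mem_nhds (show 2 * ε < |g D| by linarith))
    obtain ⟨n, hn⟩ := this.exists
    exact ⟨n, hn.le⟩
  choose N hN using hB
  -- pigeonhole
  have hpig : ∃ n, ¬ ({α | N α = n} : Set Ω).Countable := by
    by_contra hcon
    push Not at hcon
    apply hunc
    have : (Set.univ : Set Ω) = ⋃ n, {α | N α = n} := by
      ext x; simp
    rw [this]
    exact countable_iUnion hcon
  obtain ⟨n, hn⟩ := hpig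
  have hnext : ∀ a : Ω, ∃ b, a < b ∧ N b = n := by
    intro a
    by_contra hcon
    push Not at hcon
    apply hn
    refine ((hc a).insert a).mono ?_
    intro b hb
    simp only [mem_setOf_eq] at hb
    rcases lt_trichotomy a b with hab | hab | hab
    · exact absurd hb (hcon b hab)
    · left; exact hab.symm
    · right; exact hab
  choose s hs1 hs2 using hnext
  have hne : Nonempty Ω := by
    by_contra hcon
    rw [not_nonempty_iff] at hcon
    exact hunc (by rw [Set.univ_eq_empty_iff.2 hcon]; exact countable_empty)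
  let a : ℕ → Ω := fun k => Nat.rec (s hne.some) (fun _ x => s x) k
  have ha1 : ∀ k, a k < a (k+1) := fun k => hs1 _
  have hamono : StrictMono a := strictMono_nat_of_lt_succ ha1
  have ha2 : ∀ k, N (a k) = n := by
    intro k
    cases k with
    | zero => exact hs2 _
    | succ k => exact hs2 _
  let D' : Set Ω := {ξ | ξ ∈ D ∧ ∃ k, ξ ≤ a k}
  have hD'c : D'.Countable := by
    refine Set.Countable.mono (s₂ := ⋃ k, insert (a k) (Set.Iio (a k))) ?_
      (countable_iUnion fun k => (hc (a k)).insert _)
    rintro ξ ⟨-, k, hk⟩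
    refine mem_iUnion.2 ⟨k, ?_⟩
    rcases hk.eq_or_lt with h1 | h1
    · left; exact h1
    · right; exact h1
  have hD'd : Disjoint D' (F : Set Ω) := hDF.mono_left (fun ξ hξ => hξ.1)
  have hl := hg (fun k => B (a k) n) D' (by
    intro ξ
    by_cases hξ : ∃ k, ξ ≤ a k
    · obtain ⟨k0, hk0⟩ := hξ
      filter_upwards [eventually_ge_atTop k0] with k hk
      simp only [B, D', mem_setOf_eq]
      constructor
      · exact fun hx => ⟨hx.1, k0, hk0⟩
      · exact fun hx => ⟨hx.1, Or.inl (hk0.trans (hamono.monotone hk))⟩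
    · push Not at hξ
      have hinj : Function.Injective (fun k => h ξ (a k)) := by
        intro i j hij
        exact hamono.injective (hh ξ (hξ i) (hξ j) hij)
      have hfin : {k | h ξ (a k) ≤ n}.Finite :=
        (Set.finite_Iic n).preimage hinj.injOn
      have hev : ∀ᶠ k in atTop, ¬ (h ξ (a k) ≤ n) := by
        have := hfin.compl_mem_cofinite
        rw [Nat.cofinite_eq_atTop] at this
        exact this
      filter_upwards [hev] with k hk
      simp only [B, D', mem_setOf_eq]
      constructor
      · rintro ⟨_, h1 | h1⟩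
        · exact absurd h1 (not_le.2 (hξ k))
        · exact absurd h1 hk
      · rintro ⟨_, k', hk'⟩
        exact absurd hk' (not_le.2 (hξ k')))
  have h2 : 2 * ε ≤ |g D'| := by
    refine ge_of_tendsto' hl.abs ?_
    intro k
    have := hN (a k)
    rw [ha2 k] at this
    exact this
  have h3 := hF D' hD'c hD'd
  linarith

/-- Mazur: a sequentially continuous real function on `2^(omega one)` is continuous. -/
theorem mazur_real {Ω : Type*} [LinearOrder Ω] (hc : ∀ w : Ω, (Set.Iio w).Countable)
    (hunc : ¬ (Set.univ : Set Ω).Countable) (f : (Ω → Bool) → ℝ) (hf : SeqContinuous f) :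
    Continuous f := by
  classical
  rw [continuous_iff_continuousAt]
  intro p
  let e : Set Ω → (Ω → Bool) := fun C ξ => xor (decide (ξ ∈ C)) (p ξ)
  have he0 : e ∅ = p := by
    funext ξ; simp [e]
  let g : Set Ω → ℝ := fun C => f (e C) - f p
  have hg : ∀ (C : ℕ → Set Ω) (D : Set Ω), (∀ ξ, ∀ᶠ n in atTop, (ξ ∈ C n ↔ ξ ∈ D)) →
      Tendsto (fun n => g (C n)) atTop (𝓝 (g D)) := by
    intro C D hCD
    refine Tendsto.sub_const (hf ?_) _
    rw [tendsto_pi_nhds]
    intro ξ
    refine tendsto_nhds_of_eventually_eq ?_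
    filter_upwards [hCD ξ] with n hn
    simp only [e]
    congr 1
    simp only [hn]
  have h0 : g ∅ = 0 := by simp [g, he0]
  rw [Metric.continuousAt_iff']
  intro ε hε
  obtain ⟨F, hF, hFD⟩ := mazur_core hc hunc g hg h0 (ε/3) (by linarith)
  have hU : {x : Ω → Bool | ∀ ξ ∈ F, x ξ = p ξ} ∈ 𝓝 p := by
    have : {x : Ω → Bool | ∀ ξ ∈ F, x ξ = p ξ} = ⋂ ξ ∈ F, {x : Ω → Bool | x ξ = p ξ} := by
      ext x; simp
    rw [this, Filter.biInter_mem hF]
    intro ξ _
    have hop : IsOpen {x : Ω → Bool | x ξ = p ξ} := by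
      have hcx : Continuous (fun x : Ω → Bool => x ξ) := continuous_apply ξ
      exact (isOpen_discrete ({p ξ} : Set Bool)).preimage hcx
    exact hop.mem_nhds rfl
  filter_upwards [hU] with x hx
  let C : Set Ω := {ξ | x ξ ≠ p ξ}
  have hxC : e C = x := by
    funext ξ
    simp only [e, C, mem_setOf_eq]
    cases hxx : x ξ <;> cases hpp : p ξ <;> simp
  have hd : Disjoint C F := by
    rw [Set.disjoint_left]
    intro ξ h1 h2
    exact h1 (hx ξ h2)
  have := hFD C hd
  simp only [g, hxC] at this
  rw [Real.dist_eq]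
  linarith

/-- A sequentially continuous map from `2^(omega one)` to a completely regular space is
continuous. -/
theorem mazur_cr {Ω : Type*} [LinearOrder Ω] (hc : ∀ w : Ω, (Set.Iio w).Countable)
    (hunc : ¬ (Set.univ : Set Ω).Countable) {Y : Type*} [TopologicalSpace Y]
    [CompletelyRegularSpace Y] (f : (Ω → Bool) → Y) (hf : SeqContinuous f) :
    Continuous f := by
  rw [continuous_iff_continuousAt]
  intro p
  intro U hU
  obtain ⟨V, hVU, hVo, hpV⟩ := mem_nhds_iff.1 hU
  obtain ⟨φ, hφ, hφ0, hφ1⟩ := CompletelyRegularSpace.completely_regular (f p) Vᶜ hVo.isClosed_compl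
    (by simpa using hpV)
  have hcont : Continuous (fun x => (φ (f x) : ℝ)) := by
    refine mazur_real hc hunc _ ?_
    intro x q hx
    exact ((continuous_subtype_val.comp hφ).tendsto (f q)).comp (hf hx)
  have hev : ∀ᶠ x in 𝓝 p, (φ (f x) : ℝ) < 1 := by
    refine hcont.continuousAt.eventually (gt_mem_nhds ?_)
    simp [hφ0]
  rw [mem_map]
  filter_upwards [hev] with x hx
  by_contra hxU
  have : φ (f x) = 1 := hφ1 (fun h => hxU (hVU h))
  rw [this] at hx
  simp at hx

theorem not_sequential_cantor {Ω : Type*} (hunc : ¬ (Set.univ : Set Ω).Countable) :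
    ¬ SequentialSpace (Ω → Bool) := by
  intro hseq
  let C : Set (Ω → Bool) := {x | {ξ | x ξ = true}.Countable}
  have hC : IsSeqClosed C := by
    intro u x hu hx
    rw [tendsto_pi_nhds] at hx
    have hsub : {ξ | x ξ = true} ⊆ ⋃ n, {ξ | u n ξ = true} := by
      intro ξ hξ
      have h1 := hx ξ
      rw [nhds_discrete, tendsto_pure] at h1
      obtain ⟨n, hn⟩ := h1.exists
      refine mem_iUnion.2 ⟨n, ?_⟩
      simp only [mem_setOf_eq] at hξ ⊢
      rw [hn, hξ]
    exact (countable_iUnion hu).mono hsub
  have hCc : IsClosed C := hC.isClosed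
  have hmem : (fun _ => true : Ω → Bool) ∈ closure C := by
    rw [mem_closure_iff_nhds]
    intro U hU
    rw [nhds_pi, Filter.mem_pi] at hU
    obtain ⟨I, hI, t, ht, hsub⟩ := hU
    classical
    refine ⟨fun ξ => decide (ξ ∈ I), hsub ?_, ?_⟩
    · intro ξ hξ
      have : (true : Bool) ∈ t ξ := mem_of_mem_nhds (ht ξ)
      simp only [hξ, decide_true]
      exact this
    · simp only [C, mem_setOf_eq, decide_eq_true_eq]
      exact hI.countable
  rw [hCc.closure_eq] at hmem
  apply hunc
  have : (Set.univ : Set Ω) = {ξ | (fun _ => true : Ω → Bool) ξ = true} := by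
    ext; simp
  rw [this]
  exact hmem

theorem univ_not_countable {W : Type*} [LinearOrder W]
    (h : ∀ S : Set W, S.Countable → ∃ w, ∀ s ∈ S, s < w) : ¬ (Set.univ : Set W).Countable := by
  intro hc
  obtain ⟨w, hw⟩ := h _ hc
  exact lt_irrefl _ (hw w (mem_univ _))

/-- If `X` is a space all of whose sequentially continuous maps to completely regular spaces are
continuous then the coinduced group topology is an s-topology. -/
theorem coinduced_s_group {X : Type} [TopologicalSpace X] {G : Type} [Group G] (i : X → G)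
    (hX : ∀ (Y : Type) [TopologicalSpace Y] [CompletelyRegularSpace Y] (f : X → Y),
      SeqContinuous f → Continuous f) :
    ∃ S : Set (ℕ → G),
      (∀ u ∈ S, Filter.Tendsto u Filter.atTop
        (@nhds _ (GroupTopology.coinduced i).toTopologicalSpace 1)) ∧
      (GroupTopology.coinduced i) = sInf {t : GroupTopology G |
              ∀ u ∈ S, Filter.Tendsto u Filter.atTop (@nhds _ t.toTopologicalSpace 1)} := by
  set τ := GroupTopology.coinduced i with hτ
  refine ⟨{u | Filter.Tendsto u Filter.atTop (@nhds _ τ.toTopologicalSpace 1)}, fun u hu => hu, ?_⟩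
  have hi : Continuous[_, τ.toTopologicalSpace] i := GroupTopology.coinduced_continuous i
  apply le_antisymm
  · apply le_sInf
    intro t ht
    refine sInf_le ?_
    simp only [mem_setOf_eq]
    rw [← continuous_iff_coinduced_le]
    letI : TopologicalSpace G := t.toTopologicalSpace
    haveI : IsTopologicalGroup G := t.toIsTopologicalGroup
    haveI : CompletelyRegularSpace G := by
      letI := IsTopologicalGroup.rightUniformSpace G
      infer_instance
    refine hX G i ?_
    intro x p hx
    have h1 : Tendsto (fun n => (i p)⁻¹ * i (x n)) atTop (𝓝 1) := by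
      apply ht
      simp only [mem_setOf_eq]
      letI : TopologicalSpace G := τ.toTopologicalSpace
      haveI : IsTopologicalGroup G := τ.toIsTopologicalGroup
      have h2 : Tendsto (fun n => i (x n)) atTop (𝓝 (i p)) := (hi.tendsto p).comp hx
      have h3 := h2.const_mul ((i p)⁻¹)
      simpa using h3
    have h4 := h1.const_mul (i p)
    simp only [mul_inv_cancel_left, mul_one] at h4
    exact h4
  · exact sInf_le (fun u hu => hu)

end Pool.Agent.V11217
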