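import Mathlib

/-! Newton series: the binomial coefficients as functions of the upper index. -/

set_option autoImplicit false

open Complex Filter Topology Finset

namespace Pool.Agent.V11217.NW

/-- `(-1)^n` times the binomial coefficient `w` over `n` -/
noncomputable def P (n : ℕ) (w : ℂ) : ℂ := ∏ k ∈ range n, (((k : ℂ) - w) / ((k : ℂ) + 1))

theorem P_zero (w : ℂ) : P 0 w = 1 := by simp [P]

theorem P_succ (n : ℕ) (w : ℂ) : P (n + 1) w = P n w * (((n : ℂ) - w) / ((n : ℂ) + 1)) := by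
  unfold P
  rw [prod_range_succ]

theorem P_diff (n : ℕ) : Differentiable ℂ (P n) := by
  unfold P
  fun_prop

theorem cast_ne (n : ℕ) : (n : ℂ) + 1 ≠ 0 := by exact_mod_cast Nat.succ_ne_zero n

theorem P_choose (n : ℕ) (a : ℂ) : P n a = (-1) ^ n * Ring.choose a n := by
  have h : ∀ n : ℕ, P n a * (n.factorial : ℂ) = (-1) ^ n * (descPochhammer ℤ n).smeval a := by
    intro n
    induction n with
    | zero => simp [P_zero]
    | succ n ih =>
      have h1 : (descPochhammer ℤ (n + 1)).smeval a = (descPochhammer ℤ n).smeval a * (a - n) := by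
        simp [descPochhammer_succ_right, Polynomial.smeval_mul, Polynomial.smeval_natCast]
      rw [h1, P_succ, Nat.factorial_succ]
      push_cast
      have h2 := cast_ne n
      calc P n a * (((n : ℂ) - a) / ((n : ℂ) + 1)) * (((n : ℂ) + 1) * (n.factorial : ℂ)) =
          (P n a * (n.factorial : ℂ)) * ((n : ℂ) - a) := by field_simp
        _ = _ := by rw [ih]; ring
  have h1 := h n
  rw [Ring.descPochhammer_eq_factorial_smul_choose, nsmul_eq_mul] at h1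
  have h2 : (n.factorial : ℂ) ≠ 0 := by exact_mod_cast n.factorial_ne_zero
  apply mul_right_cancel₀ h2
  rw [h1]
  ring

/-- the binomial series -/
theorem P_hasSum (w : ℂ) {y : ℂ} (hy : ‖y‖ < 1) :
    HasSum (fun n => P n w * y ^ n) ((1 - y) ^ w) := by
  have h := (one_add_cpow_hasFPowerSeriesOnBall_zero (a := w)).hasSum (y := -y) (by
    rw [Metric.mem_eball, edist_zero_right, enorm_neg]
    rw [← ENNReal.ofReal_one, ← ofReal_norm]
    exact (ENNReal.ofReal_lt_ofReal_iff one_pos).2 hy)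
  rw [zero_add, ← sub_eq_add_neg] at h
  refine h.congr_fun fun n => ?_
  rw [binomialSeries_apply, P_choose]
  simp only [smul_eq_mul, List.ofFn_const, List.prod_replicate]
  rw [neg_pow y]
  ring

theorem norm_one_sub_le (z : ℂ) : ‖1 - z‖ ≤ Real.exp (-z.re + ‖z‖ ^ 2 / 2) := by
  have h1 : ‖1 - z‖ ^ 2 = 1 + (-2 * z.re + ‖z‖ ^ 2) := by
    rw [← Complex.normSq_eq_norm_sq, ← Complex.normSq_eq_norm_sq, Complex.normSq_apply,
      Complex.normSq_apply]
    simp only [sub_re, one_re, sub_im, one_im]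
    ring
  have h2 := Real.add_one_le_exp (-2 * z.re + ‖z‖ ^ 2)
  have h3 : ‖1 - z‖ ^ 2 ≤ (Real.exp (-z.re + ‖z‖ ^ 2 / 2)) ^ 2 := by
    rw [h1, ← Real.exp_nat_mul]
    have : ((2 : ℕ) : ℝ) * (-z.re + ‖z‖ ^ 2 / 2) = -2 * z.re + ‖z‖ ^ 2 := by push_cast; ring
    rw [this]
    linarith
  exact le_of_sq_le_sq h3 (Real.exp_pos _).le

theorem sum_sq_le (m : ℕ) : ∑ k ∈ range m, (1 : ℝ) / ((k : ℝ) + 1) ^ 2 ≤ 2 := by
  have h : ∀ m : ℕ, ∑ k ∈ range m, (1 : ℝ) / ((k : ℝ) + 1) ^ 2 ≤ 2 - 1 / ((m : ℝ) + 1 / 2) := by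
    intro m
    induction m with
    | zero => norm_num
    | succ m ih =>
      rw [sum_range_succ]
      have h1 : (1 : ℝ) / ((m : ℝ) + 1) ^ 2 ≤ 1 / ((m : ℝ) + 1 / 2) - 1 / ((m : ℝ) + 1 + 1 / 2) := by
        have hm : (0 : ℝ) ≤ m := Nat.cast_nonneg _
        rw [div_sub_div _ _ (by positivity) (by positivity), div_le_div_iff₀ (by positivity) (by positivity)]
        nlinarith
      push_cast
      linarith
  refine (h m).trans ?_
  have : (0 : ℝ) ≤ 1 / ((m : ℝ) + 1 / 2) := by positivity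
  linarith

theorem harm_eq (m : ℕ) : ((harmonic m : ℚ) : ℝ) = ∑ k ∈ range m, (1 : ℝ) / ((k : ℝ) + 1) := by
  unfold harmonic
  push_cast
  exact sum_congr rfl fun k _ => by rw [one_div]

theorem harm_ge (m : ℕ) : Real.log ((m : ℝ) + 1) ≤ ∑ k ∈ range m, (1 : ℝ) / ((k : ℝ) + 1) := by
  have := log_add_one_le_harmonic m
  rw [harm_eq] at this
  push_cast at this
  exact this

theorem harm_le (m : ℕ) : ∑ k ∈ range m, (1 : ℝ) / ((k : ℝ) + 1) ≤ 1 + Real.log ((m : ℝ) + 1) := by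
  have := harmonic_le_one_add_log m
  rw [harm_eq] at this
  refine this.trans ?_
  rcases Nat.eq_zero_or_pos m with rfl | h
  · simp
  · have : Real.log m ≤ Real.log ((m : ℝ) + 1) :=
      Real.log_le_log (by exact_mod_cast h) (by linarith)
    linarith

theorem P_eq (m : ℕ) (w : ℂ) :
    P (m + 1) w = -w / ((m : ℂ) + 1) * ∏ k ∈ range m, (1 - w / ((k : ℂ) + 1)) := by
  induction m with
  | zero => rw [P_succ, P_zero]; simp
  | succ m ih =>
    rw [P_succ, ih, prod_range_succ]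
    have h1 := cast_ne m
    have h2 := cast_ne (m + 1)
    push_cast at h2 ⊢
    field_simp

theorem P_bound (n : ℕ) (hn : 1 ≤ n) (w : ℂ) :
    ‖P n w‖ ≤ ‖w‖ * Real.exp (‖w‖ + ‖w‖ ^ 2) * (n : ℝ) ^ (-w.re - 1) := by
  obtain ⟨m, rfl⟩ : ∃ m, n = m + 1 := ⟨n - 1, by omega⟩
  have hm : (0 : ℝ) < (m : ℝ) + 1 := by positivity
  have h1 : ∏ k ∈ range m, ‖1 - w / ((k : ℂ) + 1)‖ ≤
      Real.exp (∑ k ∈ range m, (-w.re * (1 / ((k : ℝ) + 1)) + ‖w‖ ^ 2 / 2 * (1 / ((k : ℝ) + 1) ^ 2))) := by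
    rw [Real.exp_sum]
    refine prod_le_prod (fun k _ => norm_nonneg _) fun k _ => ?_
    refine (norm_one_sub_le _).trans (le_of_eq ?_)
    congr 1
    have e1 : w / ((k : ℂ) + 1) = w * ((1 / ((k : ℝ) + 1) : ℝ) : ℂ) := by
      push_cast
      ring
    rw [e1, Complex.re_mul_ofReal, norm_mul, Complex.norm_real, mul_pow]
    rw [Real.norm_of_nonneg (by positivity)]
    rw [div_pow, one_pow]
    ring
  have h2 : ∑ k ∈ range m, (-w.re * (1 / ((k : ℝ) + 1)) + ‖w‖ ^ 2 / 2 * (1 / ((k : ℝ) + 1) ^ 2)) ≤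
      -w.re * Real.log ((m : ℝ) + 1) + (‖w‖ + ‖w‖ ^ 2) := by
    rw [sum_add_distrib, ← mul_sum, ← mul_sum]
    have e1 := harm_ge m
    have e2 := harm_le m
    have e3 := sum_sq_le m
    have e4 := abs_le.1 (Complex.abs_re_le_norm w)
    have e5 : -w.re * (∑ k ∈ range m, (1 : ℝ) / ((k : ℝ) + 1) - Real.log ((m : ℝ) + 1)) ≤ ‖w‖ * 1 :=
      mul_le_mul (by linarith [e4.1]) (by linarith) (by linarith) (norm_nonneg _)
    have e6 : ‖w‖ ^ 2 / 2 * ∑ k ∈ range m, (1 : ℝ) / ((k : ℝ) + 1) ^ 2 ≤ ‖w‖ ^ 2 / 2 * 2 :=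
      mul_le_mul_of_nonneg_left e3 (by positivity)
    linarith
  rw [P_eq, norm_mul, norm_div, norm_neg, norm_prod]
  have h3 : ‖((m : ℂ) + 1)‖ = (m : ℝ) + 1 := by
    have : ((m : ℂ) + 1) = (((m : ℝ) + 1 : ℝ) : ℂ) := by push_cast; rfl
    rw [this, Complex.norm_real, Real.norm_of_nonneg hm.le]
  rw [h3]
  push_cast
  have h4 : ((m : ℝ) + 1) ^ (-w.re - 1) = Real.exp (-w.re * Real.log ((m : ℝ) + 1)) / ((m : ℝ) + 1) := by
    rw [Real.rpow_sub hm, Real.rpow_one, Real.rpow_def_of_pos hm]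
    congr 2
    ring
  rw [h4]
  calc ‖w‖ / ((m : ℝ) + 1) * ∏ k ∈ range m, ‖1 - w / ((k : ℂ) + 1)‖ ≤
      ‖w‖ / ((m : ℝ) + 1) * Real.exp (-w.re * Real.log ((m : ℝ) + 1) + (‖w‖ + ‖w‖ ^ 2)) :=
        mul_le_mul_of_nonneg_left (h1.trans (Real.exp_le_exp.2 h2)) (by positivity)
    _ = _ := by rw [Real.exp_add]; ring

end Pool.Agent.V11217.NW
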