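import Pool.Agent.V11217.NWA

/-! Newton series of general Dirichlet series. -/

set_option autoImplicit false

open Complex Filter Topology Finset

namespace Pool.Agent.V11217.NW

variable {ι : Type} {F : ℂ → ℂ} {c : ι → ℂ} {l : ι → ℝ} {ε : ℝ}

/-- the `n`-th difference with step `h` at `0`, up to sign -/
noncomputable def D (F : ℂ → ℂ) (h n : ℕ) : ℂ :=
  ∑ k ∈ range (n + 1), (-1 : ℂ) ^ k * (n.choose k : ℂ) * F ((h * k : ℕ) : ℂ)

/-- `F` is an absolutely convergent general Dirichlet series for `Re w ≥ -ε` -/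
structure Rep (ε : ℝ) (F : ℂ → ℂ) (c : ι → ℂ) (l : ι → ℝ) : Prop where
  nonneg : ∀ i, 0 ≤ l i
  sum : Summable fun i => ‖c i‖ * Real.exp (ε * l i)
  eq : ∀ w : ℂ, -ε ≤ w.re → F w = ∑' i, c i * cexp (-(w * l i))

namespace Rep

theorem norm_term (i : ι) (w : ℂ) :
    ‖c i * cexp (-(w * l i))‖ = ‖c i‖ * Real.exp (-(w.re * l i)) := by
  rw [norm_mul, Complex.norm_exp, neg_re, re_mul_ofReal]

theorem summ_norm (R : Rep ε F c l) {w : ℂ} (hw : -ε ≤ w.re) :
    Summable fun i => ‖c i * cexp (-(w * l i))‖ := by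
  refine Summable.of_nonneg_of_le (fun i => norm_nonneg _) (fun i => ?_) R.sum
  rw [norm_term]
  refine mul_le_mul_of_nonneg_left (Real.exp_le_exp.2 ?_) (norm_nonneg _)
  have := mul_le_mul_of_nonneg_right hw (R.nonneg i)
  linarith

theorem summ (R : Rep ε F c l) {w : ℂ} (hw : -ε ≤ w.re) :
    Summable fun i => c i * cexp (-(w * l i)) := (R.summ_norm hw).of_norm

theorem summ_c (R : Rep ε F c l) (hε : 0 ≤ ε) : Summable fun i => ‖c i‖ := by
  refine Summable.of_nonneg_of_le (fun i => norm_nonneg _) (fun i => ?_) R.sum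
  exact le_mul_of_one_le_right (norm_nonneg _) (Real.one_le_exp (mul_nonneg hε (R.nonneg i)))

theorem D_hasSum (R : Rep ε F c l) (hε : 0 ≤ ε) (h n : ℕ) :
    HasSum (fun i => c i * (1 - cexp (-(h * l i))) ^ n) (D F h n) := by
  have h1 : ∀ k ∈ range (n + 1), HasSum (fun i => (-1 : ℂ) ^ k * (n.choose k : ℂ) *
      (c i * cexp (-(((h * k : ℕ) : ℂ) * l i)))) ((-1 : ℂ) ^ k * (n.choose k : ℂ) * F ((h * k : ℕ) : ℂ)) := by
    intro k _
    have hk : -ε ≤ ((h * k : ℕ) : ℂ).re := by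
      rw [natCast_re]
      have : (0 : ℝ) ≤ ((h * k : ℕ) : ℝ) := Nat.cast_nonneg _
      linarith
    rw [R.eq _ hk]
    exact (R.summ hk).hasSum.mul_left _
  refine (hasSum_sum h1).congr_fun fun i => ?_
  rw [sub_eq_neg_add, add_pow, mul_sum]
  refine sum_congr rfl fun k _ => ?_
  rw [one_pow, mul_one, neg_pow (cexp _), ← Complex.exp_nat_mul]
  have : (k : ℂ) * -(h * l i) = -(((h * k : ℕ) : ℂ) * l i) := by push_cast; ring
  rw [this]
  ring

theorem yb (R : Rep ε F c l) (h : ℕ) (i : ι) :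
    ∃ y : ℝ, 0 ≤ y ∧ y < 1 ∧ (1 - cexp (-(h * l i))) = (y : ℂ) := by
  refine ⟨1 - Real.exp (-(h * l i)), ?_, ?_, ?_⟩
  · have : Real.exp (-(h * l i)) ≤ 1 := Real.exp_le_one_iff.2 (by
      have := mul_nonneg (Nat.cast_nonneg (α := ℝ) h) (R.nonneg i)
      linarith)
    linarith
  · have := Real.exp_pos (-(h * l i))
    linarith
  · push_cast
    rfl

theorem D_bound (R : Rep ε F c l) (hε : 0 ≤ ε) (h n : ℕ) : ‖D F h n‖ ≤ ∑' i, ‖c i‖ := by
  rw [← (R.D_hasSum hε h n).tsum_eq]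
  refine tsum_of_norm_bounded (R.summ_c hε).hasSum fun i => ?_
  obtain ⟨y, h0, h1, h2⟩ := R.yb h i
  rw [h2, norm_mul, norm_pow, Complex.norm_real, Real.norm_of_nonneg h0]
  exact mul_le_of_le_one_right (norm_nonneg _) (pow_le_one₀ h0 h1.le)

theorem P_summable {u : ℂ} (hu : 0 < u.re) : Summable fun n => ‖P n u‖ := by
  rw [← summable_nat_add_iff 1]
  have h1 : Summable fun n : ℕ => ((n : ℝ)) ^ (-u.re - 1) :=
    Real.summable_nat_rpow.2 (by linarith)
  have h2 := ((summable_nat_add_iff 1).2 h1).mul_left (‖u‖ * Real.exp (‖u‖ + ‖u‖ ^ 2))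
  exact Summable.of_nonneg_of_le (fun n => norm_nonneg _) (fun n => P_bound (n + 1) (by omega) u) h2

/-- **Newton's series** -/
theorem newton (R : Rep ε F c l) (hε : 0 ≤ ε) {h : ℕ} (hh : 1 ≤ h) {w : ℂ} (hw : 0 < w.re) :
    HasSum (fun n => P n (w / h) * D F h n) (F w) := by
  have hh0 : (0 : ℝ) < h := by exact_mod_cast hh
  have hhc : (h : ℂ) ≠ 0 := by exact_mod_cast hh0.ne'
  have hu : 0 < (w / h).re := by
    have : w / h = w * ((1 / (h : ℝ) : ℝ) : ℂ) := by push_cast; ring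
    rw [this, re_mul_ofReal]
    positivity
  obtain ⟨u, hu'⟩ : ∃ u, u = w / (h : ℂ) := ⟨_, rfl⟩
  rw [← hu'] at hu ⊢
  have hwu : w = u * h := by rw [hu']; field_simp
  set f : ι × ℕ → ℂ := fun p => c p.1 * (P p.2 u * (1 - cexp (-(h * l p.1))) ^ p.2) with hf
  have hs : Summable f := by
    refine Summable.of_norm_bounded ((R.summ_c hε).mul_of_nonneg (P_summable hu)
      (fun i => norm_nonneg _) (fun n => norm_nonneg _)) fun p => ?_
    obtain ⟨y, h0, h1, h2⟩ := R.yb h p.1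
    rw [hf]
    simp only
    rw [h2, norm_mul, norm_mul, norm_pow, Complex.norm_real, Real.norm_of_nonneg h0]
    exact mul_le_mul_of_nonneg_left (mul_le_of_le_one_right (norm_nonneg _) (pow_le_one₀ h0 h1.le))
      (norm_nonneg _)
  have h1 : HasSum (fun i => c i * cexp (-(w * l i))) (∑' p, f p) := by
    refine hs.hasSum.prod_fiberwise fun i => ?_
    have h3 : HasSum (fun n => P n u * (1 - cexp (-(h * l i))) ^ n) (cexp (-(w * l i))) := by
      obtain ⟨y, h0, h1, h2⟩ := R.yb h i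
      have h4 := P_hasSum u (y := (y : ℂ)) (by rw [Complex.norm_real, Real.norm_of_nonneg h0]; exact h1)
      rw [← h2] at h4
      convert h4 using 1
      have e1 : (1 - (1 - cexp (-(h * l i)))) = cexp ((-(h * l i) : ℝ) : ℂ) := by
        push_cast
        ring
      rw [e1, ← Complex.ofReal_exp, Complex.cpow_def_of_ne_zero (by
        exact_mod_cast (Real.exp_pos _).ne'), ← Complex.ofReal_log (Real.exp_pos _).le, Real.log_exp,
        hwu]
      congr 1
      push_cast
      ring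
    exact h3.mul_left (c i)
  have h2 : HasSum (fun n => P n u * D F h n) (∑' p, f p) := by
    have h3 := ((Equiv.prodComm ℕ ι).hasSum_iff (f := f)).2 hs.hasSum
    refine h3.prod_fiberwise fun n => ?_
    refine ((R.D_hasSum hε h n).mul_left (P n u)).congr_fun fun i => ?_
    simp only [hf, Function.comp_apply, Equiv.prodComm_apply, Prod.swap_prod_mk]
    ring
  have h3 : F w = ∑' p, f p := by
    rw [R.eq w (by linarith), h1.tsum_eq]
  rw [h3]
  exact h2

end Rep

/-! ### sums of powers -/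

theorem rpow_step {η : ℝ} (hη : 0 < η) {M : ℝ} (hM : 2 ≤ M) :
    M ^ (-1 - η) ≤ ((M - 1) ^ (-η) - M ^ (-η)) / η := by
  have hM0 : 0 < M := by linarith
  have h1 : (M - 1) = M * (1 - 1 / M) := by field_simp
  have h2 : 0 < 1 - 1 / M := by
    have : 1 / M ≤ 1 / 2 := one_div_le_one_div_of_le (by norm_num) hM
    linarith
  have h3 : 1 + η / M ≤ (1 - 1 / M) ^ (-η) := by
    rw [Real.rpow_def_of_pos h2]
    have h4 := Real.log_le_sub_one_of_pos h2
    have h5 := Real.add_one_le_exp (Real.log (1 - 1 / M) * -η)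
    have h6 : η / M ≤ Real.log (1 - 1 / M) * -η := by
      have : η / M = (1 / M) * η := by ring
      rw [this]
      nlinarith
    linarith
  rw [le_div_iff₀ hη, h1, Real.mul_rpow hM0.le h2.le]
  have h4 : M ^ (-1 - η) = M ^ (-η) / M := by
    rw [show -1 - η = -η - 1 by ring, Real.rpow_sub hM0, Real.rpow_one]
  rw [h4]
  have h5 : 0 < M ^ (-η) := Real.rpow_pos_of_pos hM0 _
  have h6 : M ^ (-η) / M * η = M ^ (-η) * (η / M) := by ring
  rw [h6]
  nlinarith

theorem sum_rpow_le {η : ℝ} (hη : 0 < η) (N : ℕ) :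
    ∑ n ∈ range N, (n : ℝ) ^ (-1 - η) ≤ 1 + 1 / η := by
  have h : ∀ N : ℕ, ∑ n ∈ range (N + 2), (n : ℝ) ^ (-1 - η) ≤
      1 + 1 / η - ((N : ℝ) + 1) ^ (-η) / η := by
    intro N
    induction N with
    | zero =>
      rw [sum_range_succ, sum_range_one]
      rw [Nat.cast_zero, Real.zero_rpow (by linarith)]
      simp
    | succ N ih =>
      rw [sum_range_succ]
      have h1 := rpow_step hη (M := (N : ℝ) + 2) (by
        have : (0 : ℝ) ≤ N := Nat.cast_nonneg _
        linarith)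
      push_cast at h1 ⊢
      have e1 : (N : ℝ) + 2 - 1 = N + 1 := by ring
      rw [e1, sub_div] at h1
      have e2 : (N : ℝ) + 1 + 1 = N + 2 := by ring
      rw [e2]
      linarith
  refine le_trans ?_ ((h N).trans ?_)
  · exact sum_le_sum_of_subset_of_nonneg (range_mono (by omega))
      (fun n _ _ => Real.rpow_nonneg (Nat.cast_nonneg _) _)
  · have : 0 ≤ ((N : ℝ) + 1) ^ (-η) / η := by positivity
    linarith

end Pool.Agent.V11217.NW
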