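import Pool.Agent.V11217.NWB

/-! Continuation from bounds for differences. -/

set_option autoImplicit false

open Complex Filter Topology Finset

namespace Pool.Agent.V11217.NW

variable {ι : Type} {F : ℂ → ℂ} {c : ι → ℂ} {l : ι → ℝ} {ε : ℝ}

/-- the Newton series with step `h` -/
noncomputable def G (F : ℂ → ℂ) (h : ℕ) (w : ℂ) : ℂ := ∑' n, P n (w / h) * D F h n

/-- bounds for the differences, for a fixed exponent -/
def DB (F : ℂ → ℂ) (a C : ℝ) (κ : ℕ) : Prop :=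
  ∀ h n : ℕ, 1 ≤ h → 1 ≤ n → ‖D F h n‖ ≤ C * (h : ℝ) ^ κ * (n : ℝ) ^ (-(a / h))

/-- bounds for the differences with the step `h` -/
def DBh (F : ℂ → ℂ) (a C : ℝ) (κ h : ℕ) : Prop :=
  ∀ n : ℕ, 1 ≤ n → ‖D F h n‖ ≤ C * (h : ℝ) ^ κ * (n : ℝ) ^ (-(a / h))

/-- the majorant -/
noncomputable def maj (A B η : ℝ) (n : ℕ) : ℝ := (if n = 0 then A else 0) + B * (n : ℝ) ^ (-1 - η)

theorem maj_summable (A B : ℝ) {η : ℝ} (hη : 0 < η) : Summable (maj A B η) := by
  unfold maj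
  refine Summable.add ?_ ((Real.summable_nat_rpow.2 (by linarith)).mul_left B)
  exact summable_of_ne_finset_zero (s := {0}) fun n hn => by
    rw [if_neg]
    simpa using hn

theorem maj_tsum {A B η : ℝ} (hη : 0 < η) (hA : 0 ≤ A) (hB : 0 ≤ B) :
    ∑' n, maj A B η n ≤ A + B * (1 + 1 / η) := by
  have h0 : ∀ n, 0 ≤ maj A B η n := fun n => by
    unfold maj
    refine add_nonneg ?_ (mul_nonneg hB (Real.rpow_nonneg (Nat.cast_nonneg _) _))
    split_ifs <;> simp [hA]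
  refine Real.tsum_le_of_sum_range_le h0 fun N => ?_
  unfold maj
  rw [sum_add_distrib, ← mul_sum]
  refine add_le_add ?_ (mul_le_mul_of_nonneg_left (sum_rpow_le hη N) hB)
  rw [sum_ite_eq' (range N) 0 (fun _ => A)]
  split_ifs <;> simp [hA]

theorem re_div (w : ℂ) (h : ℕ) : (w / h).re = w.re / h := by
  have : w / h = w * ((1 / (h : ℝ) : ℝ) : ℂ) := by push_cast; ring
  rw [this, re_mul_ofReal]
  ring

theorem norm_div_nat (w : ℂ) (h : ℕ) : ‖w / h‖ = ‖w‖ / h := by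
  rw [norm_div, Complex.norm_natCast]

theorem term_bound {a C : ℝ} {κ h : ℕ} (H : DBh F a C κ h) (hC : 0 ≤ C) (hh : 1 ≤ h) {b r : ℝ}
    {w : ℂ} (hw : -b ≤ w.re) (hr : ‖w‖ / h ≤ r) (n : ℕ) :
    ‖P n (w / h) * D F h n‖ ≤
      maj ‖D F h 0‖ (r * Real.exp (r + r ^ 2) * (C * (h : ℝ) ^ κ)) ((a - b) / h) n := by
  have hh0 : (0 : ℝ) < h := by exact_mod_cast hh
  have hr0 : 0 ≤ r := (by positivity : (0 : ℝ) ≤ ‖w‖ / h).trans hr
  unfold maj
  rcases Nat.eq_zero_or_pos n with rfl | hn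
  · rw [P_zero, one_mul, if_pos rfl]
    exact le_add_of_nonneg_right (mul_nonneg (by positivity)
      (Real.rpow_nonneg (Nat.cast_nonneg _) _))
  · rw [if_neg (by omega), zero_add, norm_mul]
    have hn0 : (0 : ℝ) < n := by exact_mod_cast hn
    have hn1 : (1 : ℝ) ≤ n := by exact_mod_cast hn
    have h1 := P_bound n hn (w / h)
    rw [norm_div_nat, re_div] at h1
    have h2 := H n hn
    have h3 : (n : ℝ) ^ (-(w.re / h) - 1) ≤ (n : ℝ) ^ (b / h - 1) :=
      Real.rpow_le_rpow_of_exponent_le hn1 (by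
        have : -(w.re / h) = (-w.re) / h := by ring
        rw [this]
        have : (-w.re) / h ≤ b / h := by gcongr; linarith
        linarith)
    have h4 : ‖w‖ / h * Real.exp (‖w‖ / h + (‖w‖ / h) ^ 2) ≤ r * Real.exp (r + r ^ 2) := by
      have h5 : 0 ≤ ‖w‖ / h := by positivity
      refine mul_le_mul hr (Real.exp_le_exp.2 ?_) (Real.exp_pos _).le hr0
      gcongr
    calc ‖P n (w / h)‖ * ‖D F h n‖ ≤ (r * Real.exp (r + r ^ 2) * (n : ℝ) ^ (b / h - 1)) *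
          (C * (h : ℝ) ^ κ * (n : ℝ) ^ (-(a / h))) := by
          refine mul_le_mul (h1.trans (mul_le_mul h4 h3 (Real.rpow_nonneg hn0.le _) (by positivity)))
            h2 (norm_nonneg _) (by positivity)
      _ = r * Real.exp (r + r ^ 2) * (C * (h : ℝ) ^ κ) *
          ((n : ℝ) ^ (b / h - 1) * (n : ℝ) ^ (-(a / h))) := by ring
      _ = _ := by
        rw [← Real.rpow_add hn0]
        congr 2
        ring

theorem G_diff {a C : ℝ} {κ h : ℕ} (H : DBh F a C κ h) (hC : 0 ≤ C) (hh : 1 ≤ h) {w : ℂ}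
    (hw : -a < w.re) : DifferentiableAt ℂ (G F h) w := by
  have hh0 : (0 : ℝ) < h := by exact_mod_cast hh
  obtain ⟨b, h1, h2⟩ := exists_between hw
  have hopen : IsOpen ({z : ℂ | b < z.re} ∩ Metric.ball 0 (‖w‖ + 1)) :=
    (isOpen_lt continuous_const continuous_re).inter Metric.isOpen_ball
  have hmem : w ∈ {z : ℂ | b < z.re} ∩ Metric.ball 0 (‖w‖ + 1) := by
    refine ⟨h2, ?_⟩
    rw [mem_ball_zero_iff]
    linarith
  have key := differentiableOn_tsum_of_summable_norm (F := fun n (z : ℂ) => P n (z / h) * D F h n)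
    (U := {z : ℂ | b < z.re} ∩ Metric.ball 0 (‖w‖ + 1))
    (maj_summable ‖D F h 0‖ ((‖w‖ + 1) * Real.exp ((‖w‖ + 1) + (‖w‖ + 1) ^ 2) * (C * (h : ℝ) ^ κ))
      (η := (a - (-b)) / h) (div_pos (by linarith) hh0))
    (fun n => (((P_diff n).comp (by fun_prop)).mul_const _).differentiableOn) hopen
    (fun n z hz => term_bound H hC hh (by
      have : b < z.re := hz.1
      linarith) (by
      have h3 := mem_ball_zero_iff.1 hz.2
      have h4 : (1 : ℝ) ≤ h := by exact_mod_cast hh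
      exact (div_le_self (norm_nonneg _) h4).trans h3.le) n)
  exact (key w hmem).differentiableAt (hopen.mem_nhds hmem)

theorem G_eq {a C : ℝ} {κ : ℕ} (R : Rep ε F c l) (hε : 0 ≤ ε) (H : DB F a C κ) (hC : 0 ≤ C)
    (ha : 0 < a) {h : ℕ} (hh : 1 ≤ h) {w : ℂ} (hw : -a < w.re) : G F h w = G F 1 w := by
  have hU : IsOpen {z : ℂ | -a < z.re} := isOpen_lt continuous_const continuous_re
  have hpre : IsPreconnected {z : ℂ | -a < z.re} := (convex_halfSpace_re_gt (-a)).isPreconnected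
  have hA : ∀ h : ℕ, 1 ≤ h → AnalyticOnNhd ℂ (G F h) {z : ℂ | -a < z.re} := fun h hh =>
    (DifferentiableOn.analyticOnNhd (fun z hz => (G_diff (fun n hn => H h n hh hn) hC hh hz).differentiableWithinAt) hU)
  have hF : ∀ h : ℕ, 1 ≤ h → ∀ z : ℂ, 0 < z.re → G F h z = F z := fun h hh z hz =>
    (R.newton hε hh hz).tsum_eq
  have hev : G F h =ᶠ[𝓝 (1 : ℂ)] G F 1 := by
    have : {z : ℂ | 0 < z.re} ∈ 𝓝 (1 : ℂ) :=
      (isOpen_lt continuous_const continuous_re).mem_nhds (by simp)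
    filter_upwards [this] with z hz
    rw [hF h hh z hz, hF 1 le_rfl z hz]
  exact (hA h hh).eqOn_of_preconnected_of_eventuallyEq (hA 1 le_rfl) hpre
    (z₀ := 1) (by simp only [Set.mem_ofPred_eq, one_re]; linarith) hev hw

/-- **Continuation from bounds for differences.** -/
theorem continues (R : Rep ε F c l) (hε : 0 ≤ ε) {c₀ : ℝ} (hc₀ : 0 < c₀)
    (H : ∀ a : ℝ, 0 < a → a < c₀ → ∃ (C : ℝ) (κ : ℕ), DB F a C κ) :
    (∀ w : ℂ, -c₀ < w.re → DifferentiableAt ℂ (G F 1) w) ∧ (∀ w : ℂ, 0 < w.re → G F 1 w = F w) ∧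
      ∀ a : ℝ, a < c₀ → ∃ (B : ℝ) (κ : ℕ), ∀ w : ℂ, -a ≤ w.re → ‖G F 1 w‖ ≤ B * (1 + ‖w‖) ^ κ := by
  have H' : ∀ a : ℝ, 0 < a → a < c₀ → ∃ (C : ℝ) (κ : ℕ), 0 ≤ C ∧ DB F a C κ := by
    intro a ha hac
    obtain ⟨C, κ, h⟩ := H a ha hac
    refine ⟨|C|, κ, abs_nonneg _, fun h' n hh hn => (h h' n hh hn).trans ?_⟩
    have : 0 ≤ (h' : ℝ) ^ κ * (n : ℝ) ^ (-(a / h')) :=
      mul_nonneg (by positivity) (Real.rpow_nonneg (Nat.cast_nonneg _) _)
    nlinarith [le_abs_self C]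
  refine ⟨fun w hw => ?_, fun w hw => (R.newton hε le_rfl hw).tsum_eq, fun a ha => ?_⟩
  · obtain ⟨a, h1, h2⟩ := exists_between (max_lt hc₀ (by linarith : -w.re < c₀))
    obtain ⟨C, κ, hC, h⟩ := H' a ((le_max_left _ _).trans_lt h1) h2
    exact G_diff (fun n hn => h 1 n le_rfl hn) hC le_rfl (by linarith [(le_max_right 0 (-w.re)).trans_lt h1])
  · obtain ⟨b, h1, h2⟩ := exists_between (max_lt hc₀ ha)
    have hb : 0 < b := (le_max_left _ _).trans_lt h1
    have hab : a < b := (le_max_right 0 a).trans_lt h1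
    obtain ⟨C, κ, hC, h⟩ := H' b hb h2
    obtain ⟨S, hS⟩ : ∃ S, S = ∑' i, ‖c i‖ := ⟨_, rfl⟩
    have hS0 : 0 ≤ S := by
      rw [hS]
      exact tsum_nonneg fun i => norm_nonneg _
    refine ⟨S + Real.exp 2 * C * (2 : ℝ) ^ κ * (1 + 2 / (b - a)), κ + 1, fun w hw => ?_⟩
    obtain ⟨m, hm⟩ : ∃ m, m = ⌈‖w‖⌉₊ + 1 := ⟨_, rfl⟩
    have hm1 : 1 ≤ m := by omega
    have hm0 : (0 : ℝ) < m := by exact_mod_cast hm1
    have hm2 : ‖w‖ ≤ m := by
      rw [hm]
      push_cast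
      exact (Nat.le_ceil _).trans (by linarith)
    have hm3 : (m : ℝ) ≤ 2 * (1 + ‖w‖) := by
      rw [hm]
      push_cast
      have := Nat.ceil_lt_add_one (norm_nonneg w)
      have := norm_nonneg w
      linarith
    rw [← G_eq R hε h hC hb hm1 (by linarith : -b < w.re)]
    have hη : 0 < (b - a) / m := div_pos (by linarith) hm0
    have h3 : ‖G F m w‖ ≤ ∑' n, maj ‖D F m 0‖ (1 * Real.exp (1 + 1 ^ 2) * (C * (m : ℝ) ^ κ))
        ((b - a) / m) n := by
      unfold G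
      exact tsum_of_norm_bounded (maj_summable _ _ hη).hasSum
        (fun n => term_bound (fun n hn => h m n hm1 hn) hC hm1 hw (by rw [div_le_one hm0]; exact hm2) n)
    have h4 := maj_tsum hη (norm_nonneg (D F m 0))
      (by positivity : 0 ≤ 1 * Real.exp (1 + 1 ^ 2) * (C * (m : ℝ) ^ κ))
    have h5 : ‖D F m 0‖ ≤ S := by
      rw [hS]
      exact R.D_bound hε m 0
    have hw1 : (1 : ℝ) ≤ 1 + ‖w‖ := by linarith [norm_nonneg w]
    have e1 : 1 / ((b - a) / m) = m / (b - a) := by rw [one_div_div]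
    have h6 : 1 + (m : ℝ) / (b - a) ≤ (1 + 2 / (b - a)) * (1 + ‖w‖) := by
      have hba : 0 < b - a := by linarith
      have : (m : ℝ) / (b - a) ≤ 2 * (1 + ‖w‖) / (b - a) := by gcongr
      have e2 : 2 * (1 + ‖w‖) / (b - a) = 2 / (b - a) * (1 + ‖w‖) := by ring
      rw [e2] at this
      nlinarith
    have h7 : (m : ℝ) ^ κ ≤ (2 : ℝ) ^ κ * (1 + ‖w‖) ^ κ := by
      rw [← mul_pow]
      gcongr
    have h8 : (1 : ℝ) ≤ (1 + ‖w‖) ^ (κ + 1) := one_le_pow₀ hw1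
    calc ‖G F m w‖ ≤ ‖D F m 0‖ + 1 * Real.exp (1 + 1 ^ 2) * (C * (m : ℝ) ^ κ) *
          (1 + 1 / ((b - a) / m)) := h3.trans h4
      _ ≤ S * (1 + ‖w‖) ^ (κ + 1) + Real.exp 2 * (C * ((2 : ℝ) ^ κ * (1 + ‖w‖) ^ κ)) *
          ((1 + 2 / (b - a)) * (1 + ‖w‖)) := by
          rw [e1]
          have e3 : 1 * Real.exp (1 + 1 ^ 2) = Real.exp 2 := by norm_num
          rw [e3]
          refine add_le_add (h5.trans (le_mul_of_one_le_right hS0 h8)) ?_
          refine mul_le_mul ?_ h6 ?_ (by positivity)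
          · gcongr
          · have : 0 < b - a := by linarith
            positivity
      _ = _ := by ring

end Pool.Agent.V11217.NW
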