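import Pool.Agent.V11217.NWC

/-! The Noerlund-Rice integral. -/

set_option autoImplicit false

open Complex Filter Topology Finset MeasureTheory

namespace Pool.Agent.V11217.NW

/-- the beta function `B(s, n + 1)` -/
noncomputable def T (n : ℕ) (s : ℂ) : ℂ := (n.factorial : ℂ) / ∏ j ∈ range (n + 1), (s + (j : ℂ))

theorem T_eq (n : ℕ) (s : ℂ) :
    T n s = s⁻¹ * ∏ j ∈ range n, (((j : ℂ) + 1) / (s + ((j : ℂ) + 1))) := by
  unfold T
  rw [prod_range_succ', prod_div_distrib]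
  have h1 : ∏ j ∈ range n, ((j : ℂ) + 1) = (n.factorial : ℂ) := by
    rw [← Finset.prod_range_add_one_eq_factorial]
    push_cast
    rfl
  rw [h1]
  push_cast
  rw [add_zero]
  field_simp

theorem ne_add {s : ℂ} (hs : 0 < s.re) (j : ℕ) : s + (j : ℂ) ≠ 0 := by
  intro h
  have h1 : (s + (j : ℂ)).re = 0 := by rw [h]; rfl
  rw [add_re, natCast_re] at h1
  have : (0 : ℝ) ≤ j := Nat.cast_nonneg _
  linarith

theorem T_diff (n : ℕ) {s : ℂ} (hs : 0 < s.re) : DifferentiableAt ℂ (T n) s := by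
  unfold T
  have h1 : DifferentiableAt ℂ (fun s : ℂ => ∏ j ∈ range (n + 1), (s + (j : ℂ))) s := by fun_prop
  exact (differentiableAt_const _).div h1 (prod_ne_zero_iff.2 fun j _ => ne_add hs j)

theorem lower (n : ℕ) {σ : ℝ} (hσ : 0 ≤ σ) :
    ∏ j ∈ range n, (((j : ℝ) + 1) / (σ + ((j : ℝ) + 1))) ≤
      Real.exp (2 * σ ^ 2) * ((n : ℝ) + 1) ^ (-σ) := by
  have hn : (0 : ℝ) < (n : ℝ) + 1 := by positivity
  have h1 : ∏ j ∈ range n, (((j : ℝ) + 1) / (σ + ((j : ℝ) + 1))) ≤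
      Real.exp (∑ j ∈ range n, (-σ * (1 / ((j : ℝ) + 1)) + σ ^ 2 * (1 / ((j : ℝ) + 1) ^ 2))) := by
    rw [Real.exp_sum]
    refine prod_le_prod (fun j _ => by positivity) fun j _ => ?_
    have hj : (0 : ℝ) < (j : ℝ) + 1 := by positivity
    have hp : 0 < ((j : ℝ) + 1) / (σ + ((j : ℝ) + 1)) := by positivity
    rw [← Real.log_le_iff_le_exp hp]
    have h2 := Real.log_le_sub_one_of_pos hp
    refine h2.trans ?_
    have h3 : ((j : ℝ) + 1) / (σ + ((j : ℝ) + 1)) - 1 = -σ / (σ + ((j : ℝ) + 1)) := by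
      field_simp
      ring
    rw [h3]
    have h4 : -σ * (1 / ((j : ℝ) + 1)) + σ ^ 2 * (1 / ((j : ℝ) + 1) ^ 2) =
        (-σ * ((j : ℝ) + 1) + σ ^ 2) / ((j : ℝ) + 1) ^ 2 := by
      field_simp
    rw [h4, div_le_div_iff₀ (by positivity) (by positivity)]
    have h5 : (-σ * ((j : ℝ) + 1) + σ ^ 2) * (σ + ((j : ℝ) + 1)) - -σ * ((j : ℝ) + 1) ^ 2 = σ ^ 3 := by
      ring
    have h6 : 0 ≤ σ ^ 3 := by positivity
    linarith
  refine h1.trans ?_
  rw [Real.rpow_def_of_pos hn, ← Real.exp_add, Real.exp_le_exp, sum_add_distrib, ← mul_sum, ← mul_sum]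
  have e1 := harm_ge n
  have e2 := sum_sq_le n
  nlinarith [mul_le_mul_of_nonneg_left e1 hσ, mul_le_mul_of_nonneg_left e2 (sq_nonneg σ)]

theorem T_bound {n K : ℕ} (hK : K ≤ n) {s : ℂ} (hs : 0 < s.re) :
    ‖T n s‖ ≤ s.re⁻¹ * (Real.exp (2 * s.re ^ 2) * ((n : ℝ) + 1) ^ (-s.re)) *
      ((2 + s.re + K) / (1 + |s.im|)) ^ K := by
  rw [T_eq, norm_mul, norm_inv, norm_prod]
  have h0 : ‖s‖⁻¹ ≤ s.re⁻¹ := inv_anti₀ hs (Complex.re_le_norm s)
  have ht : 0 < 1 + |s.im| := by positivity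
  obtain ⟨q, hq⟩ : ∃ q : ℝ, q = (2 + s.re + K) / (1 + |s.im|) := ⟨_, rfl⟩
  have hq0 : 0 < q := by rw [hq]; positivity
  have h1 : ∀ j ∈ range n, ‖((j : ℂ) + 1) / (s + ((j : ℂ) + 1))‖ ≤
      (((j : ℝ) + 1) / (s.re + ((j : ℝ) + 1))) * (if j < K then q else 1) := by
    intro j _
    have hj : (0 : ℝ) < (j : ℝ) + 1 := by positivity
    have e1 : ‖((j : ℂ) + 1)‖ = (j : ℝ) + 1 := by
      have : ((j : ℂ) + 1) = (((j : ℝ) + 1 : ℝ) : ℂ) := by push_cast; rfl
      rw [this, Complex.norm_real, Real.norm_of_nonneg hj.le]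
    have e2 : s.re + ((j : ℝ) + 1) ≤ ‖s + ((j : ℂ) + 1)‖ := by
      refine le_trans (le_of_eq ?_) (Complex.re_le_norm _)
      simp
    have e3 : |s.im| ≤ ‖s + ((j : ℂ) + 1)‖ := by
      refine le_trans (le_of_eq ?_) (Complex.abs_im_le_norm _)
      simp
    rw [norm_div, e1]
    split_ifs with hjK
    · have hjK' : (j : ℝ) + 1 ≤ K := by exact_mod_cast hjK
      have e4 : (s.re + ((j : ℝ) + 1)) * (1 + |s.im|) ≤ ‖s + ((j : ℂ) + 1)‖ * (2 + s.re + K) := by
        have h5 : 0 ≤ |s.im| := abs_nonneg _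
        have h6 : 0 ≤ ‖s + ((j : ℂ) + 1)‖ := norm_nonneg _
        nlinarith
      rw [hq, div_mul_div_comm, div_le_div_iff₀ (by linarith) (by positivity)]
      have : ((j : ℝ) + 1) * ((s.re + ((j : ℝ) + 1)) * (1 + |s.im|)) ≤
          ((j : ℝ) + 1) * (‖s + ((j : ℂ) + 1)‖ * (2 + s.re + K)) :=
        mul_le_mul_of_nonneg_left e4 hj.le
      linarith
    · rw [mul_one]
      exact div_le_div_of_nonneg_left hj.le (by positivity) e2
  have h2 : ∏ j ∈ range n, (if j < K then q else 1) = q ^ K := by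
    rw [prod_ite, prod_const, prod_const_one, mul_one]
    congr 1
    have : (range n).filter (fun j => j < K) = range K := by
      ext j
      simp only [mem_filter, mem_range]
      omega
    rw [this, card_range]
  have h3 : ∏ j ∈ range n, ‖((j : ℂ) + 1) / (s + ((j : ℂ) + 1))‖ ≤
      (Real.exp (2 * s.re ^ 2) * ((n : ℝ) + 1) ^ (-s.re)) * q ^ K := by
    calc _ ≤ ∏ j ∈ range n, ((((j : ℝ) + 1) / (s.re + ((j : ℝ) + 1))) * (if j < K then q else 1)) :=
          prod_le_prod (fun j _ => norm_nonneg _) h1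
      _ = (∏ j ∈ range n, (((j : ℝ) + 1) / (s.re + ((j : ℝ) + 1)))) * q ^ K := by
          rw [prod_mul_distrib, h2]
      _ ≤ _ := mul_le_mul_of_nonneg_right (lower n hs.le) (by positivity)
  rw [← hq, mul_assoc]
  exact mul_le_mul h0 h3 (prod_nonneg fun j _ => norm_nonneg _) (by positivity)

/-! ### lines -/

theorem re_line (σ t : ℝ) : ((σ : ℂ) + t * I).re = σ := by simp

theorem im_line (σ t : ℝ) : ((σ : ℂ) + t * I).im = t := by simp

theorem integrable_line {Φ : ℂ → ℂ} {σ K : ℝ} (hd : ∀ t : ℝ, DifferentiableAt ℂ Φ ((σ : ℂ) + t * I))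
    (hb : ∀ t : ℝ, ‖Φ ((σ : ℂ) + t * I)‖ ≤ K / (1 + t ^ 2)) :
    Integrable (fun t : ℝ => Φ ((σ : ℂ) + t * I)) := by
  have hcont : Continuous (fun t : ℝ => Φ ((σ : ℂ) + t * I)) := by
    rw [continuous_iff_continuousAt]
    intro t
    exact ContinuousAt.comp (g := Φ) (f := fun t : ℝ => (σ : ℂ) + t * I) (hd t).continuousAt
      (by fun_prop)
  refine Integrable.mono' ((integrable_inv_one_add_sq).const_mul K) hcont.aestronglyMeasurable
    (Eventually.of_forall fun t => ?_)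
  rw [← div_eq_mul_inv]
  exact hb t

theorem vshift {Φ : ℂ → ℂ} {a b K : ℝ} (hab : a ≤ b) (hK : 0 ≤ K)
    (hd : ∀ z : ℂ, a ≤ z.re → z.re ≤ b → DifferentiableAt ℂ Φ z)
    (hb : ∀ z : ℂ, a ≤ z.re → z.re ≤ b → ‖Φ z‖ ≤ K / (1 + z.im ^ 2)) :
    ∫ t : ℝ, Φ (a + t * I) = ∫ t : ℝ, Φ (b + t * I) := by
  have hrect : ∀ T : ℝ, (∫ x in a..b, Φ (x + ((-T : ℝ) : ℂ) * I)) - (∫ x in a..b, Φ (x + T * I)) +
      I • (∫ y in (-T)..T, Φ (b + y * I)) - I • (∫ y in (-T)..T, Φ (a + y * I)) = 0 := by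
    intro T
    have h1 := Complex.integral_boundary_rect_eq_zero_of_differentiableOn Φ
      ((a : ℂ) + ((-T : ℝ) : ℂ) * I) ((b : ℂ) + (T : ℂ) * I) (by
        intro z hz
        have h2 := hz.1
        simp only [Set.mem_preimage, re_line, Set.uIcc_of_le hab] at h2
        exact (hd z h2.1 h2.2).differentiableWithinAt)
    simpa using h1
  have hA : Tendsto (fun T : ℝ => ∫ x in (-T)..T, Φ (a + x * I)) atTop
      (𝓝 (∫ t : ℝ, Φ (a + t * I))) :=
    intervalIntegral_tendsto_integral (integrable_line (fun t => hd _ (by rw [re_line])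
      (by rw [re_line]; exact hab)) (fun t => by
        have := hb ((a : ℂ) + t * I) (by rw [re_line]) (by rw [re_line]; exact hab)
        rwa [im_line] at this)) tendsto_neg_atTop_atBot tendsto_id
  have hB : Tendsto (fun T : ℝ => ∫ x in (-T)..T, Φ (b + x * I)) atTop
      (𝓝 (∫ t : ℝ, Φ (b + t * I))) :=
    intervalIntegral_tendsto_integral (integrable_line (fun t => hd _ (by rw [re_line]; exact hab)
      (by rw [re_line])) (fun t => by
        have := hb ((b : ℂ) + t * I) (by rw [re_line]; exact hab) (by rw [re_line])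
        rwa [im_line] at this)) tendsto_neg_atTop_atBot tendsto_id
  have hE : Tendsto (fun T : ℝ => K / (1 + T ^ 2) * |b - a|) atTop (𝓝 0) := by
    have h1 : Tendsto (fun T : ℝ => 1 + T ^ 2) atTop atTop :=
      tendsto_atTop_add_const_left _ _ (tendsto_pow_atTop two_ne_zero)
    have h2 := (h1.const_div_atTop K).mul_const |b - a|
    simpa using h2
  have hside : ∀ T : ℝ, ‖∫ x in a..b, Φ (x + T * I)‖ ≤ K / (1 + T ^ 2) * |b - a| := by
    intro T
    apply intervalIntegral.norm_integral_le_of_norm_le_const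
    intro x hx
    rw [Set.uIoc_of_le hab] at hx
    have := hb ((x : ℂ) + T * I) (by rw [re_line]; exact hx.1.le) (by rw [re_line]; exact hx.2)
    rwa [im_line] at this
  have hV1 : Tendsto (fun T : ℝ => ∫ x in a..b, Φ (x + T * I)) atTop (𝓝 0) :=
    squeeze_zero_norm hside hE
  have hV2 : Tendsto (fun T : ℝ => ∫ x in a..b, Φ (x + ((-T : ℝ) : ℂ) * I)) atTop (𝓝 0) := by
    refine squeeze_zero_norm (fun T => ?_) hE
    have := hside (-T)
    rwa [neg_sq] at this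
  have hlim := ((hV2.sub hV1).add (hB.const_smul I)).sub (hA.const_smul I)
  simp only [hrect] at hlim
  have h0 := tendsto_nhds_unique hlim tendsto_const_nhds
  rw [sub_zero, zero_add, ← smul_sub, smul_eq_mul] at h0
  have h1 := (mul_eq_zero.1 h0).resolve_left I_ne_zero
  exact (sub_eq_zero.1 h1).symm

end Pool.Agent.V11217.NW
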