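import Pool.Agent.V11217.NWD

/-! Mellin inversion for the beta function, and bounds for differences from a continuation. -/

set_option autoImplicit false

open Complex Filter Topology Finset MeasureTheory

namespace Pool.Agent.V11217.NW

/-- truncated power -/
noncomputable def tp (n : ℕ) (t : ℝ) : ℂ := ((max 0 (1 - t) : ℝ) : ℂ) ^ n

theorem tp_cont (n : ℕ) : Continuous (tp n) := by
  unfold tp
  fun_prop

theorem tp_zero {n : ℕ} (hn : n ≠ 0) {t : ℝ} (ht : 1 ≤ t) : tp n t = 0 := by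
  unfold tp
  rw [max_eq_left (by linarith)]
  simp [hn]

theorem tp_eq (n : ℕ) {t : ℝ} (ht : t ≤ 1) : tp n t = (1 - (t : ℂ)) ^ n := by
  unfold tp
  rw [max_eq_right (by linarith)]
  push_cast
  rfl

theorem conv_aux {n : ℕ} (hn : n ≠ 0) {s : ℂ} (hs : 0 < s.re) :
    IntegrableOn (fun t : ℝ => (t : ℂ) ^ (s - 1) • tp n t) (Set.Ioi 0) := by
  have h1 := Complex.betaIntegral_convergent (u := s) (v := (n : ℂ) + 1) hs (by
    rw [add_re, natCast_re, one_re]
    positivity)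
  rw [intervalIntegrable_iff_integrableOn_Ioc_of_le zero_le_one] at h1
  have h2 : IntegrableOn (fun t : ℝ => (t : ℂ) ^ (s - 1) • tp n t) (Set.Ioc 0 1) := by
    refine h1.congr_fun (fun t ht => ?_) measurableSet_Ioc
    simp only
    rw [tp_eq n ht.2, add_sub_cancel_right, cpow_natCast, smul_eq_mul]
  refine h2.of_forall_diff_eq_zero measurableSet_Ioi fun t ht => ?_
  have h3 : 1 ≤ t := by
    by_contra h
    exact ht.2 ⟨ht.1, (not_le.1 h).le⟩
  rw [tp_zero hn h3, smul_zero]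

theorem mellin_tp {n : ℕ} (hn : n ≠ 0) {s : ℂ} (hs : 0 < s.re) : mellin (tp n) s = T n s := by
  have h1 := Complex.betaIntegral_eval_nat_add_one_right hs n
  unfold T
  rw [← h1]
  unfold mellin Complex.betaIntegral
  rw [intervalIntegral.integral_of_le zero_le_one]
  rw [setIntegral_eq_of_subset_of_forall_diff_eq_zero (s := Set.Ioc 0 1) measurableSet_Ioi
    (fun t ht => ht.1) (fun t ht => by
      have h3 : 1 ≤ t := by
        by_contra h
        exact ht.2 ⟨ht.1, (not_le.1 h).le⟩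
      rw [tp_zero hn h3, smul_zero])]
  refine setIntegral_congr_fun measurableSet_Ioc fun t ht => ?_
  rw [tp_eq n ht.2, add_sub_cancel_right, cpow_natCast, smul_eq_mul]

/-- a bound on vertical lines for `n ≥ 2` -/
theorem T_line {n : ℕ} (hn : 2 ≤ n) {σ : ℝ} (hσ : 0 < σ) :
    ∃ M : ℝ, 0 ≤ M ∧ ∀ t : ℝ, ‖T n ((σ : ℂ) + t * I)‖ ≤ M / (1 + t ^ 2) := by
  refine ⟨σ⁻¹ * (Real.exp (2 * σ ^ 2) * ((n : ℝ) + 1) ^ (-σ)) * (2 + σ + (2 : ℕ)) ^ 2, by positivity,
    fun t => ?_⟩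
  have h1 := T_bound hn (s := (σ : ℂ) + t * I) (by rw [re_line]; exact hσ)
  rw [re_line, im_line] at h1
  refine h1.trans ?_
  rw [div_pow, mul_div_assoc]
  refine mul_le_mul_of_nonneg_left ?_ (by positivity)
  refine div_le_div_of_nonneg_left (by positivity) (by positivity) ?_
  have := abs_nonneg t
  have h2 : t ^ 2 = |t| ^ 2 := (sq_abs t).symm
  rw [h2]
  nlinarith

theorem T_int {n : ℕ} (hn : 2 ≤ n) {σ : ℝ} (hσ : 0 < σ) :
    Integrable (fun t : ℝ => T n ((σ : ℂ) + t * I)) := by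
  obtain ⟨M, _, h⟩ := T_line hn hσ
  exact integrable_line (fun t => T_diff n (by rw [re_line]; exact hσ)) h

theorem inversion {n : ℕ} (hn : 2 ≤ n) {σ : ℝ} (hσ : 0 < σ) {y : ℝ} (hy : 0 < y) (hy1 : y ≤ 1) :
    ∫ t : ℝ, (y : ℂ) ^ (-((σ : ℂ) + t * I)) * T n ((σ : ℂ) + t * I) =
      (2 * Real.pi : ℝ) * (1 - (y : ℂ)) ^ n := by
  have hn0 : n ≠ 0 := by omega
  have hT : ∀ t : ℝ, mellin (tp n) ((σ : ℂ) + t * I) = T n ((σ : ℂ) + t * I) := fun t =>
    mellin_tp hn0 (by rw [re_line]; exact hσ)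
  have h := mellinInv_mellin_eq σ (tp n) hy (conv_aux hn0 (by rw [ofReal_re]; exact hσ))
    (by
      unfold VerticalIntegrable
      simp only [hT]
      exact T_int hn hσ) (tp_cont n).continuousAt
  rw [tp_eq n hy1] at h
  unfold mellinInv at h
  simp only [hT, smul_eq_mul] at h
  rw [← h, Complex.real_smul, ← mul_assoc, ← Complex.ofReal_mul,
    mul_one_div_cancel (by positivity : (2 * Real.pi : ℝ) ≠ 0), Complex.ofReal_one, one_mul]

variable {ι : Type} {F : ℂ → ℂ} {c : ι → ℂ} {l : ι → ℝ} {ε : ℝ}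

/-- **the differences as integrals** -/
theorem Rep.D_integral [Countable ι] (R : Rep ε F c l) (hε : 0 ≤ ε) {h n : ℕ} (hn : 2 ≤ n) {σ : ℝ}
    (hσ : 0 < σ) (hhσ : h * σ ≤ ε) :
    ∫ t : ℝ, F (-(h * ((σ : ℂ) + t * I))) * T n ((σ : ℂ) + t * I) = (2 * Real.pi : ℝ) * D F h n := by
  have hre : ∀ t : ℝ, (-((h : ℂ) * ((σ : ℂ) + t * I))).re = -(h * σ) := by
    intro t
    rw [neg_re]
    have : (h : ℂ) = ((h : ℝ) : ℂ) := by push_cast; rfl
    rw [this, re_ofReal_mul, re_line]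
  have hcp : ∀ (i : ι) (t : ℝ), cexp (-(-(h * ((σ : ℂ) + t * I)) * l i)) =
      ((Real.exp (-(h * l i)) : ℝ) : ℂ) ^ (-((σ : ℂ) + t * I)) := by
    intro i t
    rw [Complex.cpow_def_of_ne_zero (by exact_mod_cast (Real.exp_pos _).ne'),
      ← Complex.ofReal_log (Real.exp_pos _).le, Real.log_exp]
    congr 1
    push_cast
    ring
  have hFt : ∀ t : ℝ, F (-(h * ((σ : ℂ) + t * I))) * T n ((σ : ℂ) + t * I) =
      ∑' i, c i * (((Real.exp (-(h * l i)) : ℝ) : ℂ) ^ (-((σ : ℂ) + t * I)) * T n ((σ : ℂ) + t * I)) := by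
    intro t
    rw [R.eq _ (by rw [hre]; linarith), ← tsum_mul_right]
    refine tsum_congr fun i => ?_
    rw [hcp]
    ring
  simp only [hFt]
  have hle : ∀ i, Real.exp (-(h * l i)) ≤ 1 := fun i => Real.exp_le_one_iff.2 (by
    have := mul_nonneg (Nat.cast_nonneg (α := ℝ) h) (R.nonneg i)
    linarith)
  have hnorm : ∀ (i : ι) (t : ℝ), ‖c i * (((Real.exp (-(h * l i)) : ℝ) : ℂ) ^ (-((σ : ℂ) + t * I)) *
      T n ((σ : ℂ) + t * I))‖ = (‖c i‖ * Real.exp (h * σ * l i)) * ‖T n ((σ : ℂ) + t * I)‖ := by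
    intro i t
    rw [norm_mul, norm_mul, ← hcp, Complex.norm_exp, neg_re, re_mul_ofReal, hre]
    rw [mul_assoc]
    congr 3
    ring
  have hI : ∀ i, Integrable (fun t : ℝ => c i * (((Real.exp (-(h * l i)) : ℝ) : ℂ) ^
      (-((σ : ℂ) + t * I)) * T n ((σ : ℂ) + t * I))) := by
    intro i
    refine Integrable.mono' ((T_int hn hσ).norm.const_mul (‖c i‖ * Real.exp (h * σ * l i))) ?_
      (Eventually.of_forall fun t => (hnorm i t).le)
    have h1 : Continuous fun t : ℝ => ((Real.exp (-(h * l i)) : ℝ) : ℂ) ^ (-((σ : ℂ) + t * I)) := by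
      have h2 : (fun t : ℝ => ((Real.exp (-(h * l i)) : ℝ) : ℂ) ^ (-((σ : ℂ) + t * I))) =
          fun t : ℝ => cexp (-(-(h * ((σ : ℂ) + t * I)) * l i)) := by
        funext t
        rw [hcp]
      rw [h2]
      fun_prop
    exact ((h1.aestronglyMeasurable).mul (T_int hn hσ).aestronglyMeasurable).const_mul _
  have hS : Summable fun i => ∫ t : ℝ, ‖c i * (((Real.exp (-(h * l i)) : ℝ) : ℂ) ^
      (-((σ : ℂ) + t * I)) * T n ((σ : ℂ) + t * I))‖ := by
    simp only [hnorm]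
    simp only [integral_const_mul]
    refine Summable.mul_right _ ?_
    refine Summable.of_nonneg_of_le (fun i => by positivity) (fun i => ?_) R.sum
    refine mul_le_mul_of_nonneg_left (Real.exp_le_exp.2 ?_) (norm_nonneg _)
    exact mul_le_mul_of_nonneg_right hhσ (R.nonneg i)
  have h1 := hasSum_integral_of_summable_integral_norm hI hS
  rw [← h1.tsum_eq]
  rw [← ((R.D_hasSum hε h n).mul_left ((2 * Real.pi : ℝ) : ℂ)).tsum_eq]
  refine tsum_congr fun i => ?_
  rw [integral_const_mul, inversion hn hσ (Real.exp_pos _) (hle i)]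
  push_cast
  ring

end Pool.Agent.V11217.NW
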