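import Pool.Agent.V11217.NWE

/-! Bounds for the differences from a continuation of polynomial growth. -/

set_option autoImplicit false

open Complex Filter Topology Finset MeasureTheory

namespace Pool.Agent.V11217.NW

variable {ι : Type} {F : ℂ → ℂ} {c : ι → ℂ} {l : ι → ℝ} {ε : ℝ}

/-- the constant -/
noncomputable def MM (a B : ℝ) (κ : ℕ) : ℝ :=
  B * (2 + a) ^ κ * Real.exp (2 * a ^ 2) * (2 + a + (κ + 2 : ℕ)) ^ (κ + 2)

theorem strip {Gf : ℂ → ℂ} {a B : ℝ} {κ : ℕ} (hB : 0 ≤ B)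
    (hg : ∀ w : ℂ, -a ≤ w.re → ‖Gf w‖ ≤ B * (1 + ‖w‖) ^ κ) {h n : ℕ} (hh : 1 ≤ h) (hn : κ + 2 ≤ n)
    {s : ℂ} (hs : 0 < s.re) (hs2 : h * s.re ≤ a) :
    ‖Gf (-(h * s)) * T n s‖ ≤
      (MM a B κ * (h : ℝ) ^ κ * (s.re⁻¹ * ((n : ℝ) + 1) ^ (-s.re))) / (1 + s.im ^ 2) := by
  have hh1 : (1 : ℝ) ≤ h := by exact_mod_cast hh
  have hsa : s.re ≤ a := by nlinarith
  have ha : 0 < a := hs.trans_le hsa
  have ht : 0 < 1 + |s.im| := by positivity
  have him : 0 ≤ |s.im| := abs_nonneg _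
  have hnorm : ‖-((h : ℂ) * s)‖ ≤ a + h * |s.im| := by
    rw [norm_neg, norm_mul, Complex.norm_natCast]
    have h1 := Complex.norm_le_abs_re_add_abs_im s
    rw [abs_of_pos hs] at h1
    nlinarith
  have hre : (-((h : ℂ) * s)).re = -(h * s.re) := by
    rw [neg_re]
    have : (h : ℂ) = ((h : ℝ) : ℂ) := by push_cast; rfl
    rw [this, re_ofReal_mul]
  have h1 : ‖Gf (-(h * s))‖ ≤ B * ((2 + a) ^ κ * (h : ℝ) ^ κ * (1 + |s.im|) ^ κ) := by
    refine (hg _ (by rw [hre]; linarith)).trans (mul_le_mul_of_nonneg_left ?_ hB)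
    rw [← mul_pow, ← mul_pow]
    refine pow_le_pow_left₀ (by positivity) ?_ _
    nlinarith [mul_nonneg (sub_nonneg.2 hh1) him, mul_nonneg ha.le (mul_nonneg (by linarith : (0:ℝ) ≤ h) him),
      mul_nonneg ha.le (sub_nonneg.2 hh1), mul_nonneg (by linarith : (0:ℝ) ≤ h) him]
  have h2 := T_bound hn hs
  have h3 : s.re⁻¹ * (Real.exp (2 * s.re ^ 2) * ((n : ℝ) + 1) ^ (-s.re)) *
      ((2 + s.re + (κ + 2 : ℕ)) / (1 + |s.im|)) ^ (κ + 2) ≤
      s.re⁻¹ * (Real.exp (2 * a ^ 2) * ((n : ℝ) + 1) ^ (-s.re)) *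
      ((2 + a + (κ + 2 : ℕ)) ^ (κ + 2) / (1 + |s.im|) ^ (κ + 2)) := by
    rw [div_pow]
    gcongr
  calc ‖Gf (-(h * s)) * T n s‖ = ‖Gf (-(h * s))‖ * ‖T n s‖ := norm_mul _ _
    _ ≤ (B * ((2 + a) ^ κ * (h : ℝ) ^ κ * (1 + |s.im|) ^ κ)) *
        (s.re⁻¹ * (Real.exp (2 * a ^ 2) * ((n : ℝ) + 1) ^ (-s.re)) *
      ((2 + a + (κ + 2 : ℕ)) ^ (κ + 2) / (1 + |s.im|) ^ (κ + 2))) :=
        mul_le_mul h1 (h2.trans h3) (norm_nonneg _) (by positivity)
    _ = (MM a B κ * (h : ℝ) ^ κ * (s.re⁻¹ * ((n : ℝ) + 1) ^ (-s.re))) *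
        ((1 + |s.im|) ^ κ / (1 + |s.im|) ^ (κ + 2)) := by
        unfold MM
        ring
    _ ≤ (MM a B κ * (h : ℝ) ^ κ * (s.re⁻¹ * ((n : ℝ) + 1) ^ (-s.re))) * (1 / (1 + s.im ^ 2)) := by
        refine mul_le_mul_of_nonneg_left ?_ (by unfold MM; positivity)
        rw [div_le_div_iff₀ (by positivity) (by positivity), pow_add]
        have h4 : 1 + s.im ^ 2 ≤ (1 + |s.im|) ^ 2 := by
          have : s.im ^ 2 = |s.im| ^ 2 := (sq_abs _).symm
          rw [this]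
          nlinarith
        have h5 : 0 < (1 + |s.im|) ^ κ := by positivity
        nlinarith
    _ = _ := by rw [mul_one_div]

theorem MM_nonneg {a B : ℝ} (ha : 0 ≤ a) (hB : 0 ≤ B) (κ : ℕ) : 0 ≤ MM a B κ := by
  unfold MM
  positivity

/-- **Bounds for the differences.** -/
theorem bounds [Countable ι] (R : Rep ε F c l) (hε : 0 < ε) {c₀ : ℝ} {Gf : ℂ → ℂ}
    (hd : ∀ w : ℂ, -c₀ < w.re → DifferentiableAt ℂ Gf w)
    (heq : ∀ w : ℂ, -ε ≤ w.re → -c₀ < w.re → Gf w = F w) {a : ℝ} (ha : 0 < a) (hac : a < c₀) {B : ℝ}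
    {κ : ℕ} (hB : 0 ≤ B) (hg : ∀ w : ℂ, -a ≤ w.re → ‖Gf w‖ ≤ B * (1 + ‖w‖) ^ κ) :
    DB F a (MM a B κ / a + (∑' i, ‖c i‖) * ((κ + 2 : ℕ) : ℝ) ^ a) (κ + 1) := by
  obtain ⟨S, hS⟩ : ∃ S, S = ∑' i, ‖c i‖ := ⟨_, rfl⟩
  have hS0 : 0 ≤ S := by
    rw [hS]
    exact tsum_nonneg fun i => norm_nonneg _
  rw [← hS]
  have hM := MM_nonneg ha.le hB κ
  intro h n hh hn
  have hh1 : (1 : ℝ) ≤ h := by exact_mod_cast hh
  have hh0 : (0 : ℝ) < h := by linarith
  have hn1 : (1 : ℝ) ≤ n := by exact_mod_cast hn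
  have hn0 : (0 : ℝ) < n := by linarith
  have hp : 0 < (n : ℝ) ^ (-(a / h)) := Real.rpow_pos_of_pos hn0 _
  by_cases hnK : κ + 2 ≤ n
  · have hn2 : 2 ≤ n := by omega
    obtain ⟨b, hb⟩ : ∃ b, b = min a ε := ⟨_, rfl⟩
    have hb0 : 0 < b := by rw [hb]; exact lt_min ha hε
    have hba : b ≤ a := by rw [hb]; exact min_le_left _ _
    have hbε : b ≤ ε := by rw [hb]; exact min_le_right _ _
    have hσ1 : 0 < b / h := by positivity
    have hσ2 : 0 < a / h := by positivity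
    have e1 : (h : ℝ) * (b / h) = b := by field_simp
    have e2 : (h : ℝ) * (a / h) = a := by field_simp
    have hcast : (h : ℂ) = ((h : ℝ) : ℂ) := by push_cast; rfl
    have hre : ∀ s : ℂ, (-((h : ℂ) * s)).re = -(h * s.re) := by
      intro s
      rw [neg_re, hcast, re_ofReal_mul]
    have h1 := R.D_integral hε.le hn2 hσ1 (h := h) (by rw [e1]; exact hbε)
    have h2 : ∫ t : ℝ, F (-(h * (((b / h : ℝ) : ℂ) + t * I))) * T n (((b / h : ℝ) : ℂ) + t * I) =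
        ∫ t : ℝ, Gf (-(h * (((b / h : ℝ) : ℂ) + t * I))) * T n (((b / h : ℝ) : ℂ) + t * I) := by
      refine integral_congr_ae (Eventually.of_forall fun t => ?_)
      simp only
      rw [heq _ (by rw [hre, re_line, e1]; linarith) (by rw [hre, re_line, e1]; linarith)]
    have h3 : ∀ z : ℂ, b / h ≤ z.re → z.re ≤ a / h → 0 < z.re ∧ h * z.re ≤ a := by
      intro z hz1 hz2
      refine ⟨hσ1.trans_le hz1, ?_⟩
      have := mul_le_mul_of_nonneg_left hz2 hh0.le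
      linarith
    have h4 := vshift (Φ := fun s => Gf (-(h * s)) * T n s) (a := b / h) (b := a / h)
      (K := MM a B κ * (h : ℝ) ^ κ * ((b / h)⁻¹ * 1)) (by gcongr) (by positivity)
      (fun z hz1 hz2 => by
        obtain ⟨h5, h6⟩ := h3 z hz1 hz2
        refine DifferentiableAt.mul ?_ (T_diff n h5)
        have h7 : DifferentiableAt ℂ Gf (-(h * z)) := hd _ (by rw [hre]; linarith)
        exact h7.comp z (by fun_prop))
      (fun z hz1 hz2 => by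
        obtain ⟨h5, h6⟩ := h3 z hz1 hz2
        refine (strip hB hg hh hnK h5 h6).trans ?_
        refine div_le_div_of_nonneg_right ?_ (by positivity)
        refine mul_le_mul_of_nonneg_left ?_ (by positivity)
        refine mul_le_mul (inv_anti₀ hσ1 hz1) ?_ (Real.rpow_nonneg (by positivity) _) (by positivity)
        exact Real.rpow_le_one_of_one_le_of_nonpos (by linarith) (by linarith))
    have h5 : ‖∫ t : ℝ, Gf (-(h * (((a / h : ℝ) : ℂ) + t * I))) * T n (((a / h : ℝ) : ℂ) + t * I)‖ ≤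
        (MM a B κ * (h : ℝ) ^ κ * ((a / h)⁻¹ * ((n : ℝ) + 1) ^ (-(a / h)))) * Real.pi := by
      have h6 : ∀ t : ℝ, ‖Gf (-(h * (((a / h : ℝ) : ℂ) + t * I))) * T n (((a / h : ℝ) : ℂ) + t * I)‖ ≤
          (MM a B κ * (h : ℝ) ^ κ * ((a / h)⁻¹ * ((n : ℝ) + 1) ^ (-(a / h)))) * (1 + t ^ 2)⁻¹ := by
        intro t
        have h7 := strip hB hg hh hnK (s := ((a / h : ℝ) : ℂ) + t * I) (by rw [re_line]; exact hσ2)
          (by rw [re_line, e2])
        rw [re_line, im_line] at h7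
        rw [← div_eq_mul_inv]
        exact h7
      refine (norm_integral_le_of_norm_le (integrable_inv_one_add_sq.const_mul _)
        (Eventually.of_forall h6)).trans (le_of_eq ?_)
      rw [integral_const_mul, integral_univ_inv_one_add_sq]
    rw [← h4, ← h2, h1, norm_mul, Complex.norm_real, Real.norm_of_nonneg (by positivity)] at h5
    have h6 : ((n : ℝ) + 1) ^ (-(a / h)) ≤ (n : ℝ) ^ (-(a / h)) :=
      Real.rpow_le_rpow_of_nonpos hn0 (by linarith) (by linarith)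
    have e3 : (a / h)⁻¹ = h / a := inv_div _ _
    rw [e3] at h5
    have h7 : ‖D F h n‖ ≤ (MM a B κ * (h : ℝ) ^ κ * (h / a * ((n : ℝ) + 1) ^ (-(a / h)))) := by
      have hpi := Real.pi_pos
      have h8 : 0 ≤ ‖D F h n‖ := norm_nonneg _
      have h9 : Real.pi * ‖D F h n‖ ≤ Real.pi * (MM a B κ * (h : ℝ) ^ κ *
          (h / a * ((n : ℝ) + 1) ^ (-(a / h)))) := by nlinarith
      exact le_of_mul_le_mul_left h9 hpi
    refine h7.trans ?_
    calc MM a B κ * (h : ℝ) ^ κ * (h / a * ((n : ℝ) + 1) ^ (-(a / h))) ≤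
        MM a B κ * (h : ℝ) ^ κ * (h / a * (n : ℝ) ^ (-(a / h))) := by gcongr
      _ = (MM a B κ / a) * (h : ℝ) ^ (κ + 1) * (n : ℝ) ^ (-(a / h)) := by ring
      _ ≤ _ := by
        refine mul_le_mul_of_nonneg_right (mul_le_mul_of_nonneg_right ?_ (by positivity)) hp.le
        exact le_add_of_nonneg_right (by positivity)
  · push Not at hnK
    have h1 := R.D_bound hε.le h n
    rw [← hS] at h1
    have h2 : 1 ≤ ((κ + 2 : ℕ) : ℝ) ^ a * (n : ℝ) ^ (-(a / h)) := by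
      rw [Real.rpow_neg hn0.le, ← div_eq_mul_inv, one_le_div (Real.rpow_pos_of_pos hn0 _)]
      calc (n : ℝ) ^ (a / h) ≤ (n : ℝ) ^ a :=
            Real.rpow_le_rpow_of_exponent_le hn1 (div_le_self ha.le hh1)
        _ ≤ _ := Real.rpow_le_rpow hn0.le (by exact_mod_cast hnK.le) ha.le
    have h3 : (1 : ℝ) ≤ (h : ℝ) ^ (κ + 1) := one_le_pow₀ hh1
    calc ‖D F h n‖ ≤ S := h1
      _ ≤ S * (((κ + 2 : ℕ) : ℝ) ^ a * (n : ℝ) ^ (-(a / h))) := le_mul_of_one_le_right hS0 h2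
      _ ≤ S * (((κ + 2 : ℕ) : ℝ) ^ a * (n : ℝ) ^ (-(a / h))) * (h : ℝ) ^ (κ + 1) :=
          le_mul_of_one_le_right (by positivity) h3
      _ = (0 + S * ((κ + 2 : ℕ) : ℝ) ^ a) * (h : ℝ) ^ (κ + 1) * (n : ℝ) ^ (-(a / h)) := by ring
      _ ≤ _ := by
        refine mul_le_mul_of_nonneg_right (mul_le_mul_of_nonneg_right ?_ (by positivity)) hp.le
        exact add_le_add_left (by positivity) _

end Pool.Agent.V11217.NW
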