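import Pool.Agent.V11217.NWF

/-! The exponential of a general Dirichlet series. -/

set_option autoImplicit false

open Complex Filter Topology Finset

namespace Pool.Agent.V11217.NW

theorem pow_hasSum {ι : Type} {f : ι → ℂ} (hf : Summable fun i => ‖f i‖) (n : ℕ) :
    (Summable fun v : Fin n → ι => ∏ j, ‖f (v j)‖) ∧
      HasSum (fun v : Fin n → ι => ∏ j, f (v j)) ((∑' i, f i) ^ n) := by
  induction n with
  | zero =>
    refine ⟨?_, ?_⟩
    · exact Summable.of_finite
    · have h := hasSum_unique (fun v : Fin 0 → ι => ∏ j, f (v j))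
      simpa only [Finset.univ_eq_empty, Finset.prod_empty, pow_zero] using h
  | succ n ih =>
    obtain ⟨h1, h2⟩ := ih
    have hs : Summable fun p : ι × (Fin n → ι) => ‖f p.1‖ * ∏ j, ‖f (p.2 j)‖ :=
      hf.mul_of_nonneg h1 (fun i => norm_nonneg _) (fun v => prod_nonneg fun j _ => norm_nonneg _)
    let e : ι × (Fin n → ι) ≃ (Fin (n + 1) → ι) := Fin.consEquiv (fun _ => ι)
    have he : ∀ p : ι × (Fin n → ι), ∀ g : ι → ℝ, ∏ j, g (e p j) = g p.1 * ∏ j, g (p.2 j) := by
      intro p g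
      rw [Fin.prod_univ_succ]
      simp [e]
    have he' : ∀ p : ι × (Fin n → ι), ∏ j, f (e p j) = f p.1 * ∏ j, f (p.2 j) := by
      intro p
      rw [Fin.prod_univ_succ]
      simp [e]
    refine ⟨?_, ?_⟩
    · rw [← e.summable_iff]
      refine hs.congr fun p => ?_
      simp only [Function.comp_apply]
      exact (he p (fun i => ‖f i‖)).symm
    · rw [← e.hasSum_iff]
      have h3 := hf.of_norm.hasSum.mul h2 (Summable.of_norm (by
        refine hs.congr fun p => ?_
        rw [norm_mul, norm_prod]))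
      rw [pow_succ']
      refine h3.congr_fun fun p => ?_
      simp only [Function.comp_apply]
      exact he' p

theorem exp_hasSum {ι : Type} {f : ι → ℂ} (hf : Summable fun i => ‖f i‖) :
    (Summable fun p : Σ n : ℕ, (Fin n → ι) => (∏ j, ‖f (p.2 j)‖) / (p.1.factorial : ℝ)) ∧
      HasSum (fun p : Σ n : ℕ, (Fin n → ι) => (∏ j, f (p.2 j)) / (p.1.factorial : ℂ))
        (cexp (∑' i, f i)) := by
  have hg : ∀ n : ℕ, HasSum (fun v : Fin n → ι => ∏ j, ‖f (v j)‖) ((∑' i, ‖f i‖) ^ n) := by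
    intro n
    have hf' : Summable fun i => ‖((‖f i‖ : ℝ) : ℂ)‖ := by simpa using hf
    have h := (pow_hasSum hf' n).2
    have h2 : ∑' i, ((‖f i‖ : ℝ) : ℂ) = ((∑' i, ‖f i‖ : ℝ) : ℂ) := (Complex.ofReal_tsum _).symm
    rw [h2] at h
    have h3 : (fun v : Fin n → ι => ∏ j, ((‖f (v j)‖ : ℝ) : ℂ)) =
        fun v : Fin n → ι => ((∏ j, ‖f (v j)‖ : ℝ) : ℂ) := by
      funext v
      push_cast
      rfl
    rw [h3, ← Complex.ofReal_pow] at h
    exact Complex.hasSum_ofReal.1 h
  have hsum : Summable fun p : Σ n : ℕ, (Fin n → ι) => (∏ j, ‖f (p.2 j)‖) / (p.1.factorial : ℝ) := by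
    rw [summable_sigma_of_nonneg (fun p => by
      exact div_nonneg (prod_nonneg fun j _ => norm_nonneg _) (Nat.cast_nonneg _))]
    refine ⟨fun n => ?_, ?_⟩
    · change Summable fun v : Fin n → ι => (∏ j, ‖f (v j)‖) / (n.factorial : ℝ)
      exact (hg n).summable.div_const (n.factorial : ℝ)
    have h1 : (fun n : ℕ => ∑' v : Fin n → ι, (∏ j, ‖f (v j)‖) / (n.factorial : ℝ)) =
        fun n : ℕ => (∑' i, ‖f i‖) ^ n / (n.factorial : ℝ) := by
      funext n
      rw [tsum_div_const, (hg n).tsum_eq]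
    change Summable fun n : ℕ => ∑' v : Fin n → ι, (∏ j, ‖f (v j)‖) / (n.factorial : ℝ)
    rw [h1]
    exact Real.summable_pow_div_factorial _
  refine ⟨hsum, ?_⟩
  have h1 : HasSum (fun n : ℕ => (∑' i, f i) ^ n / (n.factorial : ℂ)) (cexp (∑' i, f i)) := by
    rw [Complex.exp_eq_exp_ℂ]
    exact NormedSpace.expSeries_div_hasSum_exp _
  refine HasSum.sigma_of_hasSum h1 (fun n => ?_) ?_
  · change HasSum (fun v : Fin n → ι => (∏ j, f (v j)) / (n.factorial : ℂ)) _
    exact (pow_hasSum hf n).2.div_const (n.factorial : ℂ)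
  · refine Summable.of_norm (hsum.congr fun p => ?_)
    rw [norm_div, norm_prod, Complex.norm_natCast]

variable {ι : Type} {F : ℂ → ℂ} {c : ι → ℂ} {l : ι → ℝ} {ε : ℝ}

/-- coefficients of the exponential -/
noncomputable def ce (c : ι → ℂ) (p : Σ n : ℕ, (Fin n → ι)) : ℂ :=
  (∏ j, c (p.2 j)) / (p.1.factorial : ℂ)

/-- frequencies of the exponential -/
noncomputable def le' (l : ι → ℝ) (p : Σ n : ℕ, (Fin n → ι)) : ℝ := ∑ j, l (p.2 j)

theorem Rep.exp (R : Rep ε F c l) :
    Rep ε (fun w => cexp (F w)) (ce c) (le' l) where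
  nonneg p := sum_nonneg fun j _ => R.nonneg _
  sum := by
    have h1 : Summable fun i => ‖((‖c i‖ * Real.exp (ε * l i) : ℝ) : ℂ)‖ := by
      refine R.sum.congr fun i => ?_
      rw [Complex.norm_real, Real.norm_of_nonneg (by positivity)]
    refine (exp_hasSum h1).1.congr fun p => ?_
    unfold ce le'
    rw [norm_div, norm_prod, Complex.norm_natCast, mul_sum, Real.exp_sum, div_mul_eq_mul_div,
      ← prod_mul_distrib]
    congr 1
    refine prod_congr rfl fun j _ => ?_
    rw [Complex.norm_real, Real.norm_of_nonneg (by positivity)]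
  eq w hw := by
    have h1 := (exp_hasSum (R.summ_norm hw)).2
    rw [R.eq w hw, ← h1.tsum_eq]
    refine tsum_congr fun p => ?_
    unfold ce le'
    rw [div_mul_eq_mul_div]
    congr 1
    push_cast
    rw [mul_sum, ← sum_neg_distrib, Complex.exp_sum, ← prod_mul_distrib]

/-- polynomial growth on closed half planes -/
def Continuation (F : ℂ → ℂ) (c₀ : ℝ) (Gf : ℂ → ℂ) : Prop :=
  (∀ w : ℂ, -c₀ < w.re → DifferentiableAt ℂ Gf w) ∧ (∀ w : ℂ, 0 < w.re → Gf w = F w) ∧
    ∀ a : ℝ, a < c₀ → ∃ (B : ℝ) (κ : ℕ), ∀ w : ℂ, -a ≤ w.re → ‖Gf w‖ ≤ B * (1 + ‖w‖) ^ κ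

/-- **The criterion.** `F` is holomorphic for `Re w > -ε₁`, `ε < ε₁`. -/
theorem criterion [Countable ι] (R : Rep ε F c l) (hε : 0 < ε) {ε₁ : ℝ} (hε₁ : ε < ε₁)
    (hF : ∀ w : ℂ, -ε₁ < w.re → DifferentiableAt ℂ F w) {c₀ : ℝ} (hc₀ : 0 < c₀) :
    (∃ Gf : ℂ → ℂ, Continuation F c₀ Gf) ↔
      ∀ a : ℝ, 0 < a → a < c₀ → ∃ (C : ℝ) (κ : ℕ), DB F a C κ := by
  constructor
  · rintro ⟨Gf, h1, h2, h3⟩ a ha hac
    obtain ⟨B, κ, h4⟩ := h3 a hac
    obtain ⟨m, hm⟩ : ∃ m, m = min c₀ ε₁ := ⟨_, rfl⟩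
    have hm1 : m ≤ c₀ := by rw [hm]; exact min_le_left _ _
    have hm2 : m ≤ ε₁ := by rw [hm]; exact min_le_right _ _
    have hm0 : 0 < m := by rw [hm]; exact lt_min hc₀ (hε.trans hε₁)
    have hU : IsOpen {z : ℂ | -m < z.re} := isOpen_lt continuous_const continuous_re
    have hpre : IsPreconnected {z : ℂ | -m < z.re} := (convex_halfSpace_re_gt (-m)).isPreconnected
    have hA1 : AnalyticOnNhd ℂ Gf {z : ℂ | -m < z.re} :=
      DifferentiableOn.analyticOnNhd (fun z hz => (h1 z (by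
        have : -m < z.re := hz
        linarith)).differentiableWithinAt) hU
    have hA2 : AnalyticOnNhd ℂ F {z : ℂ | -m < z.re} :=
      DifferentiableOn.analyticOnNhd (fun z hz => (hF z (by
        have : -m < z.re := hz
        linarith)).differentiableWithinAt) hU
    have hev : Gf =ᶠ[𝓝 (1 : ℂ)] F := by
      have : {z : ℂ | 0 < z.re} ∈ 𝓝 (1 : ℂ) :=
        (isOpen_lt continuous_const continuous_re).mem_nhds (by simp)
      filter_upwards [this] with z hz
      exact h2 z hz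
    have hEq := hA1.eqOn_of_preconnected_of_eventuallyEq hA2 hpre
      (z₀ := 1) (by simp only [Set.mem_ofPred_eq, one_re]; linarith) hev
    exact ⟨_, _, bounds R hε h1 (fun w hw1 hw2 => hEq (by
      simp only [Set.mem_ofPred_eq]
      rw [hm, ← neg_lt_neg_iff, neg_neg]
      exact lt_min (by linarith) (by linarith))) ha hac (le_max_right B 0) (fun w hw =>
        (h4 w hw).trans (mul_le_mul_of_nonneg_right (le_max_left _ _) (by positivity)))⟩
  · intro H
    exact ⟨G F 1, continues R hε.le hc₀ H⟩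

end Pool.Agent.V11217.NW
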