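import Pool.Agent.V11217.NWG

/-! Sums of general Dirichlet series; finitely many Euler factors. -/

set_option autoImplicit false

open Complex Filter Topology Finset

namespace Pool.Agent.V11217.NW

variable {ε : ℝ}

theorem Rep.add {ι₁ ι₂ : Type} {F₁ F₂ : ℂ → ℂ} {c₁ : ι₁ → ℂ} {l₁ : ι₁ → ℝ} {c₂ : ι₂ → ℂ} {l₂ : ι₂ → ℝ}
    (R₁ : Rep ε F₁ c₁ l₁) (R₂ : Rep ε F₂ c₂ l₂) :
    Rep ε (fun w => F₁ w + F₂ w) (Sum.elim c₁ c₂) (Sum.elim l₁ l₂) where
  nonneg i := by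
    rcases i with i | i
    · exact R₁.nonneg i
    · exact R₂.nonneg i
  sum := (R₁.sum.hasSum.sum (f := fun i => ‖Sum.elim c₁ c₂ i‖ * Real.exp (ε * Sum.elim l₁ l₂ i))
    R₂.sum.hasSum).summable
  eq w hw := by
    have h := (R₁.summ hw).hasSum.sum
      (f := fun i => Sum.elim c₁ c₂ i * cexp (-(w * Sum.elim l₁ l₂ i))) (R₂.summ hw).hasSum
    rw [R₁.eq w hw, R₂.eq w hw]
    exact h.tsum_eq.symm

/-- coefficients of the logarithms of finitely many local factors at `2 + w` -/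
noncomputable def cF {J : Type} (q : J → ℕ) (β : J → ℂ) (p : J × ℕ) : ℂ :=
  (β p.1 * (q p.1 : ℂ) ^ (-2 : ℤ)) ^ (p.2 + 1) / ((p.2 + 1 : ℕ) : ℂ)

/-- frequencies -/
noncomputable def lF {J : Type} (q : J → ℕ) (p : J × ℕ) : ℝ := ((p.2 : ℝ) + 1) * Real.log (q p.1)

/-- the logarithm of finitely many Euler factors -/
noncomputable def FF {J : Type} [Fintype J] (q : J → ℕ) (β : J → ℂ) (w : ℂ) : ℂ :=
  ∑ j, -log (1 - β j * (q j : ℂ) ^ (-2 : ℤ) * cexp (-(w * Real.log (q j))))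

theorem norm_lt {q : ℕ} (hq : 2 ≤ q) {β : ℂ} (hβ : ‖β‖ ≤ q) {w : ℂ} (hw : -(1 / 4) ≤ w.re) :
    ‖β * (q : ℂ) ^ (-2 : ℤ) * cexp (-(w * Real.log q))‖ ≤ (q : ℝ) ^ (-(3 / 4 : ℝ)) := by
  have hq2 : (2 : ℝ) ≤ q := by exact_mod_cast hq
  have hq0 : (0 : ℝ) < q := by linarith
  rw [norm_mul, norm_mul, norm_zpow, Complex.norm_natCast, Complex.norm_exp, neg_re, re_mul_ofReal]
  have h1 : Real.exp (-(w.re * Real.log q)) ≤ (q : ℝ) ^ (1 / 4 : ℝ) := by
    rw [Real.rpow_def_of_pos hq0, Real.exp_le_exp]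
    have : 0 ≤ Real.log q := Real.log_nonneg (by linarith)
    nlinarith
  have h2 : ‖β‖ * (q : ℝ) ^ (-2 : ℤ) ≤ (q : ℝ) ^ (-(1 : ℝ)) := by
    have e1 : (q : ℝ) ^ (-2 : ℤ) = (q : ℝ)⁻¹ * (q : ℝ)⁻¹ := by
      rw [zpow_neg, zpow_ofNat, sq, mul_inv]
    rw [e1, Real.rpow_neg_one]
    calc ‖β‖ * ((q : ℝ)⁻¹ * (q : ℝ)⁻¹) ≤ q * ((q : ℝ)⁻¹ * (q : ℝ)⁻¹) := by gcongr
      _ = (q : ℝ)⁻¹ := by field_simp
  calc ‖β‖ * (q : ℝ) ^ (-2 : ℤ) * Real.exp (-(w.re * Real.log q)) ≤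
      (q : ℝ) ^ (-(1 : ℝ)) * (q : ℝ) ^ (1 / 4 : ℝ) := by gcongr
    _ = _ := by
      rw [← Real.rpow_add hq0]
      norm_num

theorem pow_lt_one {q : ℕ} (hq : 2 ≤ q) : (q : ℝ) ^ (-(3 / 4 : ℝ)) < 1 :=
  Real.rpow_lt_one_of_one_lt_of_neg (by exact_mod_cast hq) (by norm_num)

theorem FF_rep {J : Type} [Fintype J] {q : J → ℕ} (hq : ∀ j, 2 ≤ q j) {β : J → ℂ}
    (hβ : ∀ j, ‖β j‖ ≤ q j) : Rep (1 / 4) (FF q β) (cF q β) (lF q) := by
  have hterm : ∀ (w : ℂ) (j : J) (k : ℕ), cF q β (j, k) * cexp (-(w * lF q (j, k))) =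
      (β j * (q j : ℂ) ^ (-2 : ℤ) * cexp (-(w * Real.log (q j)))) ^ (k + 1) / ((k + 1 : ℕ) : ℂ) := by
    intro w j k
    unfold cF lF
    simp only
    rw [mul_pow (β j * (q j : ℂ) ^ (-2 : ℤ)), ← Complex.exp_nat_mul, div_mul_eq_mul_div]
    congr 3
    push_cast
    ring
  have hlog : ∀ (w : ℂ), -(1 / 4) ≤ w.re → ∀ j : J,
      HasSum (fun k : ℕ => cF q β (j, k) * cexp (-(w * lF q (j, k))))
        (-log (1 - β j * (q j : ℂ) ^ (-2 : ℤ) * cexp (-(w * Real.log (q j))))) := by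
    intro w hw j
    have h2 := hasSum_taylorSeries_neg_log ((norm_lt (hq j) (hβ j) hw).trans_lt (pow_lt_one (hq j)))
    have h3 := (hasSum_nat_add_iff' (f := fun n : ℕ =>
      (β j * (q j : ℂ) ^ (-2 : ℤ) * cexp (-(w * Real.log (q j)))) ^ n / (n : ℂ)) 1).2 h2
    simp only [hterm]
    simpa using h3
  have hsum : Summable fun p : J × ℕ => ‖cF q β p‖ * Real.exp (1 / 4 * lF q p) := by
    rw [summable_prod_of_nonneg (fun p => by positivity)]
    refine ⟨fun j => ?_, Summable.of_finite⟩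
    have h1 : ∀ k : ℕ, ‖cF q β (j, k)‖ * Real.exp (1 / 4 * lF q (j, k)) =
        ‖cF q β (j, k) * cexp (-(((-(1 / 4) : ℝ) : ℂ) * lF q (j, k)))‖ := by
      intro k
      rw [norm_mul, Complex.norm_exp, neg_re, re_mul_ofReal, ofReal_re]
      congr 2
      ring
    simp only [h1, hterm]
    refine Summable.of_nonneg_of_le (fun k => norm_nonneg _) (fun k => ?_)
      ((summable_geometric_of_lt_one (by positivity) (pow_lt_one (hq j))))
    rw [norm_div, norm_pow, Complex.norm_natCast]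
    have h2 := norm_lt (hq j) (hβ j) (w := ((-(1 / 4) : ℝ) : ℂ)) (by rw [ofReal_re])
    have h3 := pow_lt_one (hq j)
    have h4 : (0 : ℝ) ≤ (q j : ℝ) ^ (-(3 / 4 : ℝ)) := by positivity
    calc _ ≤ ((q j : ℝ) ^ (-(3 / 4 : ℝ))) ^ (k + 1) / 1 := by
          refine div_le_div₀ (by positivity) (pow_le_pow_left₀ (norm_nonneg _) h2 _) one_pos ?_
          push_cast
          have : (0 : ℝ) ≤ k := Nat.cast_nonneg _
          linarith
      _ ≤ ((q j : ℝ) ^ (-(3 / 4 : ℝ))) ^ k := by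
          rw [div_one, pow_succ]
          exact mul_le_of_le_one_right (by positivity) h3.le
  refine ⟨fun p => ?_, hsum, fun w hw => ?_⟩
  · unfold lF
    have : 0 ≤ Real.log (q p.1) := Real.log_nonneg (by
      have : (2 : ℝ) ≤ q p.1 := by exact_mod_cast hq p.1
      linarith)
    positivity
  · have hs : Summable fun p : J × ℕ => cF q β p * cexp (-(w * lF q p)) := by
      refine Summable.of_norm_bounded hsum fun p => ?_
      rw [Rep.norm_term]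
      refine mul_le_mul_of_nonneg_left (Real.exp_le_exp.2 ?_) (norm_nonneg _)
      have h1 : 0 ≤ lF q p := by
        unfold lF
        have : 0 ≤ Real.log (q p.1) := Real.log_nonneg (by
          have : (2 : ℝ) ≤ q p.1 := by exact_mod_cast hq p.1
          linarith)
        positivity
      nlinarith
    have h1 := hs.hasSum.prod_fiberwise (fun j => hlog w hw j)
    unfold FF
    rw [← h1.tsum_eq, tsum_fintype]

theorem exp_FF {J : Type} [Fintype J] {q : J → ℕ} (hq : ∀ j, 2 ≤ q j) {β : J → ℂ}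
    (hβ : ∀ j, ‖β j‖ ≤ q j) {w : ℂ} (hw : -(1 / 4) ≤ w.re) :
    cexp (FF q β w) = ∏ j, (1 - β j * (q j : ℂ) ^ (-(2 + w)))⁻¹ := by
  unfold FF
  rw [Complex.exp_sum]
  refine prod_congr rfl fun j _ => ?_
  have hq2 : (2 : ℝ) ≤ q j := by exact_mod_cast hq j
  have hqc : (q j : ℂ) ≠ 0 := by
    have : (0 : ℝ) < q j := by linarith
    exact_mod_cast this.ne'
  have h1 : (q j : ℂ) ^ (-2 : ℤ) * cexp (-(w * Real.log (q j))) = (q j : ℂ) ^ (-(2 + w)) := by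
    rw [neg_add, Complex.cpow_add _ _ hqc, ← Complex.cpow_intCast]
    congr 1
    · push_cast
      rfl
    · rw [Complex.cpow_def_of_ne_zero hqc, ← Complex.ofReal_natCast,
        ← Complex.ofReal_log (by linarith)]
      congr 1
      ring
  rw [mul_assoc, h1, Complex.exp_neg, Complex.exp_log]
  intro h0
  have h2 := norm_lt (hq j) (hβ j) hw
  rw [mul_assoc, h1, ← sub_eq_zero.1 h0, norm_one] at h2
  exact absurd (pow_lt_one (hq j)) (not_lt.2 h2)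

end Pool.Agent.V11217.NW
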