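import Pool.Agent.V11217.NWH
import Pool.Agent.TH942.ES.Star
import Pool.Agent.TH942.ES.NF

/-! The Euler product of an elliptic curve as an exponential of a general Dirichlet series at `2 + w`. -/

set_option autoImplicit false

open Complex Filter Topology Finset NumberField IsDedekindDomain

namespace Pool.Agent.V11217.NW

open Pool.Agent.TH942.ES Pool.Agent.TH942.SL
open Pool.Agent.H921R2.TatePole (nm two_le_nm)

theorem one_step {ι : Type} {F : ℂ → ℂ} {c : ι → ℂ} {l : ι → ℝ} {ε : ℝ} (R : Rep ε F c l)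
    (hε : 0 ≤ ε) (H : ∀ α : ℝ, ∃ C : ℝ, ∀ n : ℕ, 1 ≤ n → ‖D F 1 n‖ ≤ C * (n : ℝ) ^ (-α)) :
    Differentiable ℂ (G F 1) ∧ ∀ w : ℂ, 0 < w.re → G F 1 w = F w := by
  refine ⟨fun w => ?_, fun w hw => (R.newton hε le_rfl hw).tsum_eq⟩
  obtain ⟨C, hC⟩ := H (|w.re| + 1)
  refine G_diff (a := |w.re| + 1) (C := |C|) (κ := 0) (fun n hn => ?_) (abs_nonneg _) le_rfl ?_
  · rw [Nat.cast_one, div_one, one_pow, mul_one]
    exact (hC n hn).trans (mul_le_mul_of_nonneg_right (le_abs_self C)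
      (Real.rpow_nonneg (Nat.cast_nonneg _) _))
  · have := neg_abs_le w.re
    linarith

section sys

variable {X : Type} {d : ℕ} {N : X → ℕ} {α : X → Fin d → ℂ}

/-- the coefficients at `1 + w` -/
noncomputable def cg (N : X → ℕ) (α : X → Fin d → ℂ) (p : X × ℕ) : ℂ :=
  (cP N α p : ℂ) * ((Real.exp (-lamP N p) : ℝ) : ℂ)

/-- the logarithm at `1 + w` -/
noncomputable def Fg (N : X → ℕ) (α : X → Fin d → ℂ) (w : ℂ) : ℂ :=
  ∑' p, cg N α p * cexp (-(w * lamP N p))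

theorem Fg_rep (E : Sys N α) : Rep (1 / 4) (Fg N α) (cg N α) (lamP N) where
  nonneg p := by
    unfold lamP
    have h1 := E.logN p.1
    positivity
  sum := by
    refine (E.cP_sum (σ := 3 / 4) (by norm_num)).congr fun p => ?_
    unfold cg
    rw [norm_mul, Complex.norm_real, Complex.norm_real, Real.norm_eq_abs,
      Real.norm_of_nonneg (Real.exp_pos _).le, mul_assoc, ← Real.exp_add]
    congr 2
    ring
  eq w _ := rfl

theorem exp_Fg (E : Sys N α) (hreal : ∀ v k, (∑ i, zv N α v i ^ k).im = 0) {w : ℂ}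
    (hw : -(1 / 2) < w.re) : cexp (Fg N α w) = LE N α (1 + w) := by
  have := E.cnt
  obtain ⟨e, he⟩ := Countable.exists_injective_nat (X × ℕ)
  rw [← E.exp_DD hreal he (s := 1 + w) (by rw [add_re, one_re]; linarith)]
  congr 1
  have h3 : DD (lamS N e) (cS N α e) (1 + w) = ∑' p, (cP N α p : ℂ) * cexp (-((1 + w) * lamP N p)) :=
    tsum_cS he (fun c l => (c : ℂ) * cexp (-((1 + w) * l))) (fun l => by simp)
  rw [h3]
  unfold Fg cg
  refine tsum_congr fun p => ?_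
  rw [mul_assoc]
  congr 1
  rw [Complex.ofReal_exp, ← Complex.exp_add]
  congr 1
  push_cast
  ring

end sys

variable {K : Type} [Field K] [NumberField K]

/-- the norms of the good primes -/
noncomputable def Ng (a b : 𝓞 K) (v : {v // GoodV a b v}) : ℕ := nm v.1

theorem real_pow (a b : 𝓞 K) (v : {v // GoodV a b v}) (k : ℕ) :
    (∑ i, zv (fun v : {v // GoodV a b v} => nm v.1) (alV a b) v i ^ k).im = 0 := by
  rw [Fin.sum_univ_two]
  unfold zv alV
  rw [rt_conj]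
  have h : ((starRingEnd ℂ) (rt (trV a b v.1) 0) / ((√((nm v.1 : ℕ) : ℝ) : ℝ) : ℂ)) ^ k =
      (starRingEnd ℂ) ((rt (trV a b v.1) 0 / ((√((nm v.1 : ℕ) : ℝ) : ℝ) : ℂ)) ^ k) := by
    rw [map_pow, map_div₀, Complex.conj_ofReal]
  rw [h, Complex.add_conj, Complex.ofReal_im]

/-- the Euler product at `2 + w` -/
noncomputable def Lw (a b : 𝓞 K) (S : Finset (HeightOneSpectrum (𝓞 K)))
    (β : HeightOneSpectrum (𝓞 K) → Fin 2 → ℂ) (s : ℂ) : ℂ :=
  LE (fun v : {v // GoodV a b v} => nm v.1) (alV a b) (s - 1) *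
    ∏ v ∈ S, ∏ i, (1 - β v i * (nm v : ℂ) ^ (-s))⁻¹

theorem fac_ne {q : ℕ} (hq : 2 ≤ q) {β : ℂ} (hβ : ‖β‖ ≤ q) {s : ℂ} (hs : 3 / 2 < s.re) :
    (1 - β * (q : ℂ) ^ (-s)) ≠ 0 := by
  intro h0
  have hq2 : (2 : ℝ) ≤ q := by exact_mod_cast hq
  have hq0 : (0 : ℝ) < q := by linarith
  have h1 : ‖β * (q : ℂ) ^ (-s)‖ = 1 := by rw [← sub_eq_zero.1 h0, norm_one]
  rw [norm_mul, Complex.norm_natCast_cpow_of_pos (by omega), neg_re] at h1
  have h2 : (q : ℝ) ^ (-s.re) < (q : ℝ) ^ (-1 : ℝ) :=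
    Real.rpow_lt_rpow_of_exponent_lt (by linarith) (by linarith)
  have h3 : (0 : ℝ) < (q : ℝ) ^ (-s.re) := Real.rpow_pos_of_pos hq0 _
  have h4 : ‖β‖ * (q : ℝ) ^ (-s.re) < 1 := by
    calc ‖β‖ * (q : ℝ) ^ (-s.re) ≤ q * (q : ℝ) ^ (-s.re) := by gcongr
      _ < q * (q : ℝ) ^ (-1 : ℝ) := by gcongr
      _ = 1 := by rw [Real.rpow_neg_one]; field_simp
  linarith

theorem Lw_diff (a b : 𝓞 K) (S : Finset (HeightOneSpectrum (𝓞 K)))
    {β : HeightOneSpectrum (𝓞 K) → Fin 2 → ℂ} (hβ : ∀ v ∈ S, ∀ i, ‖β v i‖ ≤ nm v) {s : ℂ}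
    (hs : 3 / 2 < s.re) : DifferentiableAt ℂ (Lw a b S β) s := by
  have h1 : DifferentiableAt ℂ (LE (fun v : {v // GoodV a b v} => nm v.1) (alV a b)) (s - 1) :=
    ((curve_sys a b).LE_diff (by rw [sub_re, one_re]; linarith)).1
  have h2 : DifferentiableAt ℂ (fun s => LE (fun v : {v // GoodV a b v} => nm v.1) (alV a b) (s - 1)) s :=
    DifferentiableAt.comp (f := fun s : ℂ => s - 1) s h1 (by fun_prop)
  refine h2.mul ?_
  have h3 : ∀ v ∈ S, DifferentiableAt ℂ (fun s : ℂ => ∏ i, (1 - β v i * (nm v : ℂ) ^ (-s))⁻¹) s := by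
    intro v hv
    have hq := two_le_nm v
    have hqc : (nm v : ℂ) ≠ 0 := by
      have : nm v ≠ 0 := by omega
      exact_mod_cast this
    have h4 : ∀ i ∈ (Finset.univ : Finset (Fin 2)),
        DifferentiableAt ℂ (fun s : ℂ => (1 - β v i * (nm v : ℂ) ^ (-s))⁻¹) s := by
      intro i _
      refine DifferentiableAt.inv ?_ (fac_ne hq (hβ v hv i) hs)
      refine (differentiableAt_const _).sub ((differentiableAt_const _).mul ?_)
      exact DifferentiableAt.const_cpow (by fun_prop) (Or.inl hqc)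
    have h5 := DifferentiableAt.fun_finsetProd h4
    exact h5
  exact DifferentiableAt.fun_finsetProd h3

/-- the index set of the finitely many factors -/
abbrev JJ (S : Finset (HeightOneSpectrum (𝓞 K))) : Type := {v // v ∈ S} × Fin 2

theorem exp_total (a b : 𝓞 K) (S : Finset (HeightOneSpectrum (𝓞 K)))
    {β : HeightOneSpectrum (𝓞 K) → Fin 2 → ℂ} (hβ : ∀ v ∈ S, ∀ i, ‖β v i‖ ≤ nm v) {w : ℂ}
    (hw : -(1 / 4) ≤ w.re) :
    cexp (Fg (fun v : {v // GoodV a b v} => nm v.1) (alV a b) w +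
      FF (fun j : JJ S => nm j.1.1) (fun j : JJ S => β j.1.1 j.2) w) = Lw a b S β (2 + w) := by
  rw [Complex.exp_add, exp_Fg (curve_sys a b) (real_pow a b) (by linarith),
    exp_FF (fun j => two_le_nm _) (fun j => hβ _ j.1.2 _) hw]
  unfold Lw
  have e1 : 2 + w - 1 = 1 + w := by ring
  rw [e1]
  congr 1
  rw [← Finset.univ_product_univ, Finset.prod_product]
  rw [← Finset.prod_coe_sort S (fun v => ∏ i, (1 - β v i * (nm v : ℂ) ^ (-(2 + w)))⁻¹)]

theorem total_rep (a b : 𝓞 K) (S : Finset (HeightOneSpectrum (𝓞 K)))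
    {β : HeightOneSpectrum (𝓞 K) → Fin 2 → ℂ} (hβ : ∀ v ∈ S, ∀ i, ‖β v i‖ ≤ nm v) :
    ∃ (ι : Type) (_ : Countable ι) (c : ι → ℂ) (l : ι → ℝ),
      Rep (1 / 4) (fun w => Lw a b S β (2 + w)) c l := by
  have E := curve_sys a b
  have := E.cnt
  have R := ((Fg_rep E).add (FF_rep (J := JJ S) (q := fun j => nm j.1.1) (β := fun j => β j.1.1 j.2)
    (fun j => two_le_nm _) (fun j => hβ _ j.1.2 _))).exp
  exact ⟨_, inferInstance, _, _, R.nonneg, R.sum, fun w hw => by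
    rw [← R.eq w hw]
    exact (exp_total a b S hβ hw).symm⟩

/-- **The criterion for elliptic curves.** -/
theorem curve_criterion (a b : 𝓞 K) (S : Finset (HeightOneSpectrum (𝓞 K)))
    {β : HeightOneSpectrum (𝓞 K) → Fin 2 → ℂ} (hβ : ∀ v ∈ S, ∀ i, ‖β v i‖ ≤ nm v) {c₀ : ℝ}
    (hc₀ : 0 < c₀) :
    (∃ Gf : ℂ → ℂ, Continuation (fun w => Lw a b S β (2 + w)) c₀ Gf) ↔
      ∀ α : ℝ, 0 < α → α < c₀ → ∃ (C : ℝ) (κ : ℕ), DB (fun w => Lw a b S β (2 + w)) α C κ := by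
  obtain ⟨ι, hι, c, l, R⟩ := total_rep a b S hβ
  exact criterion R (by norm_num) (ε₁ := 1 / 2) (by norm_num) (fun w hw => by
    have h1 : DifferentiableAt ℂ (Lw a b S β) (2 + w) := Lw_diff a b S hβ (by
      rw [add_re]
      norm_num
      linarith)
    exact h1.comp w (by fun_prop)) hc₀

end Pool.Agent.V11217.NW
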