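import Pool.Agent.V11217.NWI
import Pool.Agent.TH942.SL.Prim

/-! Logarithms of zero-free continuations of finite order. -/

set_option autoImplicit false

open Complex Filter Topology Finset

namespace Pool.Agent.V11217.NW

open Pool.Agent.TH942.SL

/-- the continuation of the logarithm -/
theorem holo_log {c₀ ε₁ : ℝ} (hc₀ : 0 < c₀) (hε₁ : 0 < ε₁) {G F : ℂ → ℂ}
    (hG : ∀ w : ℂ, -c₀ < w.re → DifferentiableAt ℂ G w) (hG0 : ∀ w : ℂ, -c₀ < w.re → G w ≠ 0)
    (hF : ∀ w : ℂ, -ε₁ < w.re → DifferentiableAt ℂ F w) (h : ∀ w : ℂ, 0 < w.re → G w = cexp (F w)) :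
    ∃ ell : ℂ → ℂ, (∀ w : ℂ, -c₀ < w.re → DifferentiableAt ℂ ell w) ∧
      (∀ w : ℂ, -c₀ < w.re → cexp (ell w) = G w) ∧ ∀ w : ℂ, 0 < w.re → ell w = F w := by
  have hUo : IsOpen {z : ℂ | -c₀ < z.re} := isOpen_lt continuous_const continuous_re
  have hUc : Convex ℝ {z : ℂ | -c₀ < z.re} := convex_halfSpace_re_gt (-c₀)
  have hRo : IsOpen {z : ℂ | 0 < z.re} := isOpen_lt continuous_const continuous_re
  have hRc : Convex ℝ {z : ℂ | 0 < z.re} := convex_halfSpace_re_gt 0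
  have hGan : ∀ z ∈ {z : ℂ | -c₀ < z.re}, AnalyticAt ℂ G z := fun z hz => by
    have h1 : DifferentiableOn ℂ G {z : ℂ | -c₀ < z.re} := fun y hy => (hG y hy).differentiableWithinAt
    exact h1.analyticAt (hUo.mem_nhds hz)
  have hqd : DifferentiableOn ℂ (fun z => deriv G z / G z) {z : ℂ | -c₀ < z.re} := fun z hz =>
    ((hGan z hz).deriv.differentiableAt.div (hG z hz) (hG0 z hz)).differentiableWithinAt
  obtain ⟨Q, hQ⟩ := convex_primitive hUo hUc hqd
  have hRU : ∀ z : ℂ, 0 < z.re → -c₀ < z.re := fun z hz => by linarith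
  have hcon : ∀ z ∈ {z : ℂ | 0 < z.re}, HasDerivAt (fun z => Q z - F z) 0 z := by
    intro z hz
    have hz' : 0 < z.re := hz
    have hd := (hF z (by linarith)).hasDerivAt
    refine ((hQ z (hRU z hz')).sub hd).congr_deriv ?_
    have e5 : G =ᶠ[𝓝 z] fun z => cexp (F z) := by
      filter_upwards [hRo.mem_nhds hz] with y hy
      exact h y hy
    rw [e5.deriv_eq, e5.eq_of_nhds, hd.cexp.deriv]
    have := Complex.exp_ne_zero (F z)
    field_simp
    ring
  have h1R : (1 : ℂ) ∈ {z : ℂ | 0 < z.re} := by simp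
  have h1U : (1 : ℂ) ∈ {z : ℂ | -c₀ < z.re} := hRU 1 (by simp)
  have hconst : ∀ z : ℂ, 0 < z.re → Q z - F z = Q 1 - F 1 := fun z hz =>
    hRc.is_const_of_fderivWithin_eq_zero (𝕜 := ℂ) (f := fun z => Q z - F z)
      (fun y hy => (hcon y hy).differentiableAt.differentiableWithinAt) (fun y hy => by
        rw [fderivWithin_of_isOpen hRo hy]
        ext
        simp [(hcon y hy).deriv]) hz h1R
  refine ⟨fun z => Q z - (Q 1 - F 1), fun w hw => (hQ w hw).differentiableAt.sub_const _, ?_, fun w hw => ?_⟩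
  · have hcon2 : ∀ z ∈ {z : ℂ | -c₀ < z.re},
        HasDerivAt (fun z => cexp (-(Q z - (Q 1 - F 1))) * G z) 0 z := by
      intro z hz
      have h1 : HasDerivAt (fun z => -(Q z - (Q 1 - F 1))) (-(deriv G z / G z)) z :=
        ((hQ z hz).sub_const _).neg
      refine (h1.cexp.mul (hG z hz).hasDerivAt).congr_deriv ?_
      have := hG0 z hz
      field_simp
      ring
    have hconst2 : ∀ z : ℂ, -c₀ < z.re →
        cexp (-(Q z - (Q 1 - F 1))) * G z = cexp (-(Q 1 - (Q 1 - F 1))) * G 1 := fun z hz =>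
      hUc.is_const_of_fderivWithin_eq_zero (𝕜 := ℂ) (f := fun z => cexp (-(Q z - (Q 1 - F 1))) * G z)
        (fun y hy => (hcon2 y hy).differentiableAt.differentiableWithinAt) (fun y hy => by
          rw [fderivWithin_of_isOpen hUo hy, (hcon2 y hy).hasFDerivAt.fderiv]
          ext
          simp) hz h1U
    intro w hw
    have h3 := hconst2 w hw
    rw [h 1 (by simp), ← Complex.exp_add] at h3
    have e1 : -(Q 1 - (Q 1 - F 1)) + F 1 = 0 := by ring
    rw [e1, Complex.exp_zero, Complex.exp_neg, inv_mul_eq_one₀ (Complex.exp_ne_zero _)] at h3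
    exact h3
  · have := hconst w hw
    change Q w - (Q 1 - F 1) = F w
    rw [← this]
    ring

/-- growth of the logarithm from a bound of the real part -/
theorem log_growth {ell : ℂ → ℂ} {c₀ a a' B S : ℝ} {κ : ℕ} (ha : 0 < a) (haa : a < a') (hac : a' < c₀)
    (hd : ∀ w : ℂ, -c₀ < w.re → DifferentiableAt ℂ ell w)
    (hre : ∀ w : ℂ, -a' ≤ w.re → (ell w).re ≤ B * (1 + ‖w‖) ^ κ)
    (hS : ∀ w : ℂ, 0 ≤ w.re → ‖ell w‖ ≤ S) :
    ∃ B' : ℝ, ∀ w : ℂ, -a ≤ w.re → ‖ell w‖ ≤ B' * (1 + ‖w‖) ^ κ := by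
  have hS0 : 0 ≤ S := (norm_nonneg _).trans (hS 0 (by simp))
  have hb : 0 < a' - a := by linarith
  have ha' : 0 < a' := by linarith
  refine ⟨2 * (|B| * (1 + a') ^ κ + 1) * a / (a' - a) + S * (2 * a') / (a' - a) + S, fun w hw => ?_⟩
  have hw1 : (1 : ℝ) ≤ (1 + ‖w‖) ^ κ := one_le_pow₀ (by linarith [norm_nonneg w])
  have hK1 : 0 ≤ 2 * (|B| * (1 + a') ^ κ + 1) * a / (a' - a) := by positivity
  have hK2 : 0 ≤ S * (2 * a') / (a' - a) := by positivity
  rcases le_or_gt 0 w.re with h0 | h0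
  · calc ‖ell w‖ ≤ S := hS w h0
      _ ≤ S * (1 + ‖w‖) ^ κ := le_mul_of_one_le_right hS0 hw1
      _ ≤ _ := mul_le_mul_of_nonneg_right (by linarith) (by positivity)
  · obtain ⟨M, hM⟩ : ∃ M, M = (|B| * (1 + a') ^ κ + 1) * (1 + ‖w‖) ^ κ := ⟨_, rfl⟩
    have hM0 : 0 < M := by rw [hM]; positivity
    have hp : ∀ z : ℂ, ‖z‖ < a' → -a' ≤ (w.im * I + z).re := by
      intro z hz
      have h1 : (w.im * I + z).re = z.re := by simp
      rw [h1]
      have := Complex.abs_re_le_norm z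
      have := neg_abs_le z.re
      linarith
    have h1 := Complex.borelCaratheodory (f := fun z => ell (w.im * I + z)) (M := M) (R := a')
      (z := (w.re : ℂ)) hM0 (fun z hz => by
        have hz' := mem_ball_zero_iff.1 hz
        have h2 : DifferentiableAt ℂ ell (w.im * I + z) := hd _ (by linarith [hp z hz'])
        exact (DifferentiableAt.comp (f := fun z : ℂ => w.im * I + z) z h2
          (by fun_prop)).differentiableWithinAt) (fun z hz => by
        have hz' := mem_ball_zero_iff.1 hz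
        refine (hre _ (hp z hz')).trans ?_
        have h3 : ‖(w.im : ℂ) * I + z‖ ≤ ‖w‖ + a' := by
          refine (norm_add_le _ _).trans (add_le_add ?_ hz'.le)
          rw [norm_mul, Complex.norm_I, mul_one, Complex.norm_real]
          exact Complex.abs_im_le_norm w
        have h4 : 1 + ‖(w.im : ℂ) * I + z‖ ≤ (1 + a') * (1 + ‖w‖) := by
          nlinarith [mul_nonneg ha'.le (norm_nonneg w)]
        rw [hM]
        calc B * (1 + ‖(w.im : ℂ) * I + z‖) ^ κ ≤ |B| * ((1 + a') * (1 + ‖w‖)) ^ κ :=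
              mul_le_mul (le_abs_self B) (pow_le_pow_left₀ (by positivity) h4 _) (by positivity)
                (abs_nonneg _)
          _ = (|B| * (1 + a') ^ κ) * (1 + ‖w‖) ^ κ := by rw [mul_pow]; ring
          _ ≤ _ := mul_le_mul_of_nonneg_right (by linarith) (by positivity))
      ha' (by
        rw [mem_ball_zero_iff, Complex.norm_real, Real.norm_eq_abs, abs_of_neg h0]
        linarith)
    have e1 : (w.im : ℂ) * I + (w.re : ℂ) = w := by
      rw [add_comm]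
      exact Complex.re_add_im w
    have e2 : ‖(w.re : ℂ)‖ = -w.re := by
      rw [Complex.norm_real, Real.norm_eq_abs, abs_of_neg h0]
    simp only [e1, e2] at h1
    have h5 : ‖ell (w.im * I + 0)‖ ≤ S := hS _ (by simp)
    have h6 : 0 < a' - -w.re := by linarith
    have h7 : 2 * M * -w.re / (a' - -w.re) ≤ 2 * M * a / (a' - a) := by
      rw [div_le_div_iff₀ h6 hb]
      have : -w.re * (a' - a) ≤ a * (a' - -w.re) := by nlinarith
      nlinarith
    have h8 : ‖ell (w.im * I + 0)‖ * (a' + -w.re) / (a' - -w.re) ≤ S * (2 * a') / (a' - a) := by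
      rw [div_le_div_iff₀ h6 hb]
      have h9 : (a' + -w.re) * (a' - a) ≤ 2 * a' * (a' - -w.re) := by nlinarith
      have h10 : 0 ≤ (a' + -w.re) * (a' - a) := mul_nonneg (by linarith) hb.le
      nlinarith [mul_le_mul h5 h9 h10 hS0]
    calc ‖ell w‖ ≤ 2 * M * a / (a' - a) + S * (2 * a') / (a' - a) := h1.trans (add_le_add h7 h8)
      _ ≤ (2 * (|B| * (1 + a') ^ κ + 1) * a / (a' - a)) * (1 + ‖w‖) ^ κ +
          (S * (2 * a') / (a' - a)) * (1 + ‖w‖) ^ κ := by
          refine add_le_add (le_of_eq ?_) (le_mul_of_one_le_right hK2 hw1)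
          rw [hM]
          ring
      _ ≤ _ := by
        rw [← add_mul]
        exact mul_le_mul_of_nonneg_right (by linarith) (by positivity)

/-- a zero-free continuation of finite order -/
def FreeContinuation (F : ℂ → ℂ) (c₀ : ℝ) (G : ℂ → ℂ) : Prop :=
  (∀ w : ℂ, -c₀ < w.re → DifferentiableAt ℂ G w) ∧ (∀ w : ℂ, -c₀ < w.re → G w ≠ 0) ∧
    (∀ w : ℂ, 0 < w.re → G w = cexp (F w)) ∧
    ∀ a : ℝ, a < c₀ → ∃ (B : ℝ) (κ : ℕ), ∀ w : ℂ, -a ≤ w.re → ‖G w‖ ≤ Real.exp (B * (1 + ‖w‖) ^ κ)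

/-- **The criterion for zero-free continuations.** -/
theorem free_criterion {ι : Type} [Countable ι] {F : ℂ → ℂ} {c : ι → ℂ} {l : ι → ℝ} {ε : ℝ}
    (R : Rep ε F c l) (hε : 0 < ε) {ε₁ : ℝ} (hε₁ : ε < ε₁)
    (hF : ∀ w : ℂ, -ε₁ < w.re → DifferentiableAt ℂ F w) {c₀ : ℝ} (hc₀ : 0 < c₀) :
    (∃ G : ℂ → ℂ, FreeContinuation F c₀ G) ↔
      ∀ a : ℝ, 0 < a → a < c₀ → ∃ (C : ℝ) (κ : ℕ), DB F a C κ := by
  rw [← criterion R hε hε₁ hF hc₀]
  constructor
  · rintro ⟨G, h1, h2, h3, h4⟩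
    obtain ⟨ell, g1, g2, g3⟩ := holo_log hc₀ (hε.trans hε₁) h1 h2 hF h3
    have hS : ∀ w : ℂ, 0 < w.re → ‖ell w‖ ≤ ∑' i, ‖c i‖ := by
      intro w hw
      rw [g3 w hw, R.eq w (by linarith)]
      refine tsum_of_norm_bounded (R.summ_c hε.le).hasSum fun i => ?_
      rw [Rep.norm_term]
      refine mul_le_of_le_one_right (norm_nonneg _) (Real.exp_le_one_iff.2 ?_)
      have := mul_nonneg hw.le (R.nonneg i)
      linarith
    have hS' : ∀ w : ℂ, 0 ≤ w.re → ‖ell w‖ ≤ ∑' i, ‖c i‖ := by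
      intro w hw
      have hcont : ContinuousAt ell w := (g1 w (by linarith)).continuousAt
      have hcl : w ∈ closure {z : ℂ | 0 < z.re} := by
        rw [Complex.closure_setOf_lt_re]
        exact hw
      have hne : (𝓝[{z : ℂ | 0 < z.re}] w).NeBot := mem_closure_iff_nhdsWithin_neBot.1 hcl
      exact le_of_tendsto (x := 𝓝[{z : ℂ | 0 < z.re}] w) ((hcont.norm.tendsto).mono_left nhdsWithin_le_nhds)
        (eventually_nhdsWithin_of_forall fun z hz => hS z hz)
    refine ⟨ell, g1, g3, fun a ha => ?_⟩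
    obtain ⟨b, hb1, hb2⟩ := exists_between (max_lt hc₀ ha)
    obtain ⟨b', hb3, hb4⟩ := exists_between hb2
    have hb0 : 0 < b := (le_max_left _ _).trans_lt hb1
    obtain ⟨B, κ, h5⟩ := h4 b' hb4
    obtain ⟨B', h6⟩ := log_growth (B := B) (κ := κ) hb0 hb3 hb4 g1 (fun w hw => by
      have h7 := h5 w hw
      rw [← g2 w (by linarith), Complex.norm_exp, Real.exp_le_exp] at h7
      exact h7) hS'
    exact ⟨B', κ, fun w hw => h6 w (by linarith [(le_max_right 0 a).trans_lt hb1])⟩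
  · rintro ⟨ell, g1, g2, g3⟩
    refine ⟨fun w => cexp (ell w), fun w hw => (g1 w hw).cexp, fun w _ => Complex.exp_ne_zero _,
      fun w hw => by
        beta_reduce
        rw [g2 w hw], fun a ha => ?_⟩
    obtain ⟨B, κ, h⟩ := g3 a ha
    refine ⟨B, κ, fun w hw => ?_⟩
    rw [Complex.norm_exp, Real.exp_le_exp]
    exact (Complex.re_le_norm _).trans (h w hw)

/-- one step suffices -/
theorem one_step_free {ι : Type} {F : ℂ → ℂ} {c : ι → ℂ} {l : ι → ℝ} {ε : ℝ} (R : Rep ε F c l)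
    (hε : 0 ≤ ε) {c₀ : ℝ} (hc₀ : 0 < c₀)
    (H : ∀ α : ℝ, 0 < α → α < c₀ → ∃ C : ℝ, ∀ n : ℕ, 1 ≤ n → ‖D F 1 n‖ ≤ C * (n : ℝ) ^ (-α)) :
    (∀ w : ℂ, -c₀ < w.re → DifferentiableAt ℂ (G F 1) w) ∧ ∀ w : ℂ, 0 < w.re → G F 1 w = F w := by
  refine ⟨fun w hw => ?_, fun w hw => (R.newton hε le_rfl hw).tsum_eq⟩
  obtain ⟨a, h1, h2⟩ := exists_between (max_lt hc₀ (by linarith : -w.re < c₀))
  obtain ⟨C, hC⟩ := H a ((le_max_left _ _).trans_lt h1) h2
  refine G_diff (a := a) (C := |C|) (κ := 0) (fun n hn => ?_) (abs_nonneg _) le_rfl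
    (by linarith [(le_max_right 0 (-w.re)).trans_lt h1])
  rw [Nat.cast_one, div_one, one_pow, mul_one]
  exact (hC n hn).trans (mul_le_mul_of_nonneg_right (le_abs_self C)
    (Real.rpow_nonneg (Nat.cast_nonneg _) _))

end Pool.Agent.V11217.NW
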