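import Pool.Agent.V11217.NWJ

/-! Products and differentiability of general Dirichlet series; the logarithm of an Euler product. -/

set_option autoImplicit false

open Complex Filter Topology Finset NumberField IsDedekindDomain

namespace Pool.Agent.V11217.NW

open Pool.Agent.TH942.ES Pool.Agent.TH942.SL
open Pool.Agent.H921R2.TatePole (nm two_le_nm)

section gen

variable {ι : Type} {F : ℂ → ℂ} {c : ι → ℂ} {l : ι → ℝ} {ε : ℝ}

theorem Rep.mono (R : Rep ε F c l) {ε' : ℝ} (h : ε' ≤ ε) : Rep ε' F c l where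
  nonneg := R.nonneg
  sum := by
    refine Summable.of_nonneg_of_le (fun i => by positivity) (fun i => ?_) R.sum
    refine mul_le_mul_of_nonneg_left (Real.exp_le_exp.2 ?_) (norm_nonneg _)
    exact mul_le_mul_of_nonneg_right h (R.nonneg i)
  eq w hw := R.eq w (by linarith)

theorem Rep.diff (R : Rep ε F c l) {w : ℂ} (hw : -ε < w.re) : DifferentiableAt ℂ F w := by
  have hopen : IsOpen {z : ℂ | -ε < z.re} := isOpen_lt continuous_const continuous_re
  have key := differentiableOn_tsum_of_summable_norm (F := fun i (z : ℂ) => c i * cexp (-(z * l i)))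
    (U := {z : ℂ | -ε < z.re}) R.sum (fun i => by fun_prop) hopen (fun i z hz => by
      have hz' : -ε < z.re := hz
      rw [Rep.norm_term]
      refine mul_le_mul_of_nonneg_left (Real.exp_le_exp.2 ?_) (norm_nonneg _)
      have := mul_le_mul_of_nonneg_right hz'.le (R.nonneg i)
      linarith)
  refine ((key w hw).differentiableAt (hopen.mem_nhds hw)).congr_of_eventuallyEq ?_
  filter_upwards [hopen.mem_nhds hw] with z hz
  have hz' : -ε < z.re := hz
  exact R.eq z hz'.le

theorem Rep.mul {ι₁ ι₂ : Type} {F₁ F₂ : ℂ → ℂ} {c₁ : ι₁ → ℂ} {l₁ : ι₁ → ℝ} {c₂ : ι₂ → ℂ}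
    {l₂ : ι₂ → ℝ} (R₁ : Rep ε F₁ c₁ l₁) (R₂ : Rep ε F₂ c₂ l₂) :
    Rep ε (fun w => F₁ w * F₂ w) (fun p : ι₁ × ι₂ => c₁ p.1 * c₂ p.2)
      (fun p : ι₁ × ι₂ => l₁ p.1 + l₂ p.2) where
  nonneg p := add_nonneg (R₁.nonneg _) (R₂.nonneg _)
  sum := by
    refine (R₁.sum.mul_of_nonneg R₂.sum (fun i => by positivity) (fun i => by positivity)).congr
      fun p => ?_
    rw [norm_mul, mul_add, Real.exp_add]
    ring
  eq w hw := by
    rw [R₁.eq w hw, R₂.eq w hw,
      tsum_mul_tsum_of_summable_norm (R₁.summ_norm hw) (R₂.summ_norm hw)]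
    refine tsum_congr fun p => ?_
    have : -(w * ((l₁ p.1 + l₂ p.2 : ℝ) : ℂ)) = -(w * l₁ p.1) + -(w * l₂ p.2) := by
      push_cast
      ring
    rw [this, Complex.exp_add]
    ring

end gen

section sys

variable {X : Type} {d : ℕ} {N : X → ℕ} {α : X → Fin d → ℂ}

theorem Fg_real (m : ℕ) : ∃ x : ℝ, Fg N α (m : ℂ) = x := by
  refine ⟨∑' p, cP N α p * Real.exp (-lamP N p) * Real.exp (-(m * lamP N p)), ?_⟩
  rw [Complex.ofReal_tsum]
  unfold Fg cg
  refine tsum_congr fun p => ?_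
  push_cast
  rfl

end sys

variable {K : Type} [Field K] [NumberField K]

/-- the logarithm for a curve -/
theorem curve_log (a b : 𝓞 K) (m : ℕ) :
    0 < (LE (fun v : {v // GoodV a b v} => nm v.1) (alV a b) (1 + m)).re ∧
    (LE (fun v : {v // GoodV a b v} => nm v.1) (alV a b) (1 + m)).im = 0 ∧
    Fg (fun v : {v // GoodV a b v} => nm v.1) (alV a b) (m : ℂ) =
      ((Real.log (LE (fun v : {v // GoodV a b v} => nm v.1) (alV a b) (1 + m)).re : ℝ) : ℂ) := by
  obtain ⟨x, hx⟩ := Fg_real (N := fun v : {v // GoodV a b v} => nm v.1) (α := alV a b) m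
  have h := exp_Fg (curve_sys a b) (real_pow a b) (w := (m : ℂ)) (by
    rw [natCast_re]
    have : (0 : ℝ) ≤ m := Nat.cast_nonneg _
    linarith)
  rw [← h, hx, ← Complex.ofReal_exp, Complex.ofReal_re, Complex.ofReal_im, Real.log_exp]
  exact ⟨Real.exp_pos _, rfl, rfl⟩

end Pool.Agent.V11217.NW
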