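import Pool.Agent.V11217.NWK

/-! Ordinary Dirichlet series as multipliers. -/

set_option autoImplicit false

open Complex Filter Topology Finset

namespace Pool.Agent.V11217.NW

/-- the Dirichlet series `∑ q_m (m + 1)^{-s}` -/
noncomputable def dser (q : ℕ → ℂ) (s : ℂ) : ℂ := ∑' m : ℕ, q m * ((m : ℂ) + 1) ^ (-s)

theorem dser_rep {q : ℕ → ℂ} (hq : Summable fun m : ℕ => ‖q m‖ * ((m : ℝ) + 1) ^ (-(7 / 4) : ℝ)) :
    Rep (1 / 4) (fun w => dser q (2 + w)) (fun m : ℕ => q m * ((((m : ℝ) + 1) ^ (-(2 : ℝ)) : ℝ) : ℂ))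
      (fun m : ℕ => Real.log ((m : ℝ) + 1)) where
  nonneg m := Real.log_nonneg (by
    have : (0 : ℝ) ≤ m := Nat.cast_nonneg _
    linarith)
  sum := by
    refine hq.congr fun m => ?_
    have hm : (0 : ℝ) < (m : ℝ) + 1 := by positivity
    rw [norm_mul, Complex.norm_real, Real.norm_of_nonneg (Real.rpow_nonneg hm.le _), mul_assoc]
    congr 1
    have e1 : Real.exp (1 / 4 * Real.log ((m : ℝ) + 1)) = ((m : ℝ) + 1) ^ (1 / 4 : ℝ) := by
      rw [Real.rpow_def_of_pos hm, mul_comm]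
    rw [e1, ← Real.rpow_add hm]
    norm_num
  eq w _ := by
    unfold dser
    refine tsum_congr fun m => ?_
    have hm : (0 : ℝ) < (m : ℝ) + 1 := by positivity
    have e0 : ((m : ℂ) + 1) = (((m : ℝ) + 1 : ℝ) : ℂ) := by push_cast; rfl
    have hmc : (((m : ℝ) + 1 : ℝ) : ℂ) ≠ 0 := by exact_mod_cast hm.ne'
    rw [mul_assoc, e0]
    congr 1
    rw [neg_add, Complex.cpow_add _ _ hmc]
    congr 1
    · rw [Complex.ofReal_cpow hm.le]
      congr 1
      push_cast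
      rfl
    · rw [Complex.cpow_def_of_ne_zero hmc, ← Complex.ofReal_log hm.le]
      congr 1
      ring

/-- differentiability for `Re s > 7/4` -/
theorem dser_diff {q : ℕ → ℂ} (hq : Summable fun m : ℕ => ‖q m‖ * ((m : ℝ) + 1) ^ (-(7 / 4) : ℝ))
    {s : ℂ} (hs : 7 / 4 < s.re) : DifferentiableAt ℂ (dser q) s := by
  have h := (dser_rep hq).diff (w := s + -2) (by
    simp only [add_re, neg_re, Complex.re_ofNat]
    linarith)
  have h2 : DifferentiableAt ℂ (fun s : ℂ => dser q (2 + (s + -2))) s :=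
    DifferentiableAt.comp (f := fun s : ℂ => s + -2) s h (by fun_prop)
  have e : (fun s : ℂ => dser q (2 + (s + -2))) = dser q := by
    funext s
    congr 1
    ring
  rw [e] at h2
  exact h2

/-- the criterion with a slightly smaller half plane of absolute convergence -/
theorem criterion' {ι : Type} [Countable ι] {F : ℂ → ℂ} {c : ι → ℂ} {l : ι → ℝ}
    (R : Rep (1 / 4) F c l) {c₀ : ℝ} (hc₀ : 0 < c₀) :
    (∃ Gf : ℂ → ℂ, Continuation F c₀ Gf) ↔
      ∀ a : ℝ, 0 < a → a < c₀ → ∃ (C : ℝ) (κ : ℕ), DB F a C κ :=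
  criterion (R.mono (by norm_num : (1 / 8 : ℝ) ≤ 1 / 4)) (by norm_num) (ε₁ := 1 / 4)
    (by norm_num) (fun _ hw => R.diff hw) hc₀

/-- the continuation to the whole plane -/
theorem continues_everywhere {ι : Type} {F : ℂ → ℂ} {c : ι → ℂ} {l : ι → ℝ} {ε : ℝ}
    (R : Rep ε F c l) (hε : 0 ≤ ε) (H : ∀ a : ℝ, 0 < a → ∃ (C : ℝ) (κ : ℕ), DB F a C κ) :
    Differentiable ℂ (G F 1) ∧ (∀ w : ℂ, 0 < w.re → G F 1 w = F w) ∧
      ∀ σ : ℝ, ∃ (B : ℝ) (κ : ℕ), ∀ w : ℂ, σ ≤ w.re → ‖G F 1 w‖ ≤ B * (1 + ‖w‖) ^ κ := by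
  refine ⟨fun w => ?_, (continues R hε one_pos (fun a ha _ => H a ha)).2.1, fun σ => ?_⟩
  · exact (continues R hε (c₀ := |w.re| + 1) (by positivity) (fun a ha _ => H a ha)).1 w (by
      have := neg_abs_le w.re
      linarith)
  · obtain ⟨B, κ, h⟩ := (continues R hε (c₀ := |σ| + 1) (by positivity) (fun a ha _ => H a ha)).2.2
      (-σ) (by
        have := neg_abs_le σ
        linarith)
    exact ⟨B, κ, fun w hw => h w (by linarith)⟩

end Pool.Agent.V11217.NW
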