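import Pool.Agent.V11217.NWM

/-! Quotients of the Euler products of two elliptic curves. -/

set_option autoImplicit false

open Complex Filter Topology Finset NumberField IsDedekindDomain

namespace Pool.Agent.V11217.NW

open Pool.Agent.TH942.ES Pool.Agent.TH942.SL
open Pool.Agent.H921R2.TatePole (nm two_le_nm)

theorem Rep.neg {ι : Type} {F : ℂ → ℂ} {c : ι → ℂ} {l : ι → ℝ} {ε : ℝ} (R : Rep ε F c l) :
    Rep ε (fun w => -F w) (fun i => -c i) l where
  nonneg := R.nonneg
  sum := R.sum.congr fun i => by rw [norm_neg]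
  eq w hw := by
    rw [R.eq w hw, ← tsum_neg]
    refine tsum_congr fun i => ?_
    ring

/-- the Euler product at `s` over the good primes -/
noncomputable def Lg (K : Type) [Field K] [NumberField K] (a b : 𝓞 K) (s : ℂ) : ℂ :=
  LE (fun v : {v // GoodV a b v} => nm v.1) (alV a b) (s - 1)

variable (K K' : Type) [Field K] [NumberField K] [Field K'] [NumberField K']

theorem Lg_exp (a b : 𝓞 K) {w : ℂ} (hw : -(1 / 2) < w.re) :
    Lg K a b (2 + w) = cexp (Fg (fun v : {v // GoodV a b v} => nm v.1) (alV a b) w) := by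
  rw [exp_Fg (curve_sys a b) (real_pow a b) hw]
  unfold Lg
  congr 1
  ring

theorem Lg_ne (a b : 𝓞 K) {s : ℂ} (hs : 3 / 2 < s.re) : Lg K a b s ≠ 0 := by
  have e : s = 2 + (s - 2) := by ring
  rw [e, Lg_exp K a b (by rw [sub_re, Complex.re_ofNat]; linarith)]
  exact Complex.exp_ne_zero _

theorem Lg_diff (a b : 𝓞 K) {s : ℂ} (hs : 3 / 2 < s.re) : DifferentiableAt ℂ (Lg K a b) s := by
  have h := Lw_diff a b ∅ (β := fun _ _ => 0) (by simp) hs
  have e : Lg K a b = Lw a b ∅ (fun _ _ => 0) := by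
    funext s
    unfold Lg Lw
    simp
  rw [e]
  exact h

theorem quot_rep (a b : 𝓞 K) (a' b' : 𝓞 K') :
    ∃ (ι : Type) (_ : Countable ι) (c : ι → ℂ) (l : ι → ℝ),
      Rep (1 / 4) (fun w => Lg K' a' b' (2 + w) / Lg K a b (2 + w)) c l := by
  have E := curve_sys a b
  have E' := curve_sys a' b'
  have := E.cnt
  have := E'.cnt
  have R := ((Fg_rep E').add (Fg_rep E).neg).exp
  exact ⟨_, inferInstance, _, _, R.congr fun w hw => by
    rw [Lg_exp K a b (by linarith), Lg_exp K' a' b' (by linarith), ← Complex.exp_sub, sub_eq_add_neg]⟩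

end Pool.Agent.V11217.NW
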