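import Mathlib

/-!
The finest group topology making a set of sequences converge, and a nonsequential such topology
on the integers.
-/

namespace Pool.Agent.V11217

open Set Filter Topology

theorem exists_char (J : Set ℕ) : ∃ χ : ℤ →+ AddCircle (1:ℝ),
    Tendsto (fun i : ℕ => χ (2^(i*i)) -
      (haveI := Classical.dec (i ∈ J); if i ∈ J then ((1/2 : ℝ) : AddCircle (1:ℝ)) else 0))
      atTop (𝓝 0) := by
  classical
  let f : ℕ → ℝ := fun j => (if j ∈ J then 1 else 0) / (2 * 2^(j*j))
  have hf0 : ∀ j, 0 ≤ f j := by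
    intro j
    simp only [f]
    split_ifs <;> positivity
  have hfle : ∀ j, f j ≤ 1 / (2 * 2^(j*j)) := by
    intro j
    simp only [f]
    gcongr
    split_ifs <;> norm_num
  -- key estimate
  have key : ∀ i j : ℕ, 2^(i*i) * f (j + (i+1)) ≤ (1/2:ℝ)^i * (1/2:ℝ)^j := by
    intro i j
    have h1 : (2:ℝ)^(i*i) * f (j+(i+1)) ≤ 2^(i*i) * (1 / (2 * 2^((j+(i+1))*(j+(i+1))))) := by
      gcongr
      exact hfle _
    refine h1.trans ?_
    have h2 : (2:ℝ)^(i*i) * 2^i * 2^j ≤ 2 * 2^((j+(i+1))*(j+(i+1))) := by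
      rw [← pow_add, ← pow_add, ← pow_succ']
      apply pow_le_pow_right₀ (by norm_num)
      nlinarith [Nat.zero_le i, Nat.zero_le j, Nat.zero_le (i*j), Nat.zero_le (j*j)]
    rw [one_div_pow, one_div_pow]
    rw [mul_one_div, div_le_iff₀ (by positivity)]
    have h3 : (0:ℝ) < 2^i * 2^j := by positivity
    calc (2:ℝ)^(i*i) = ((2:ℝ)^(i*i) * 2^i * 2^j) * (1/2^i * (1/2^j)) := by
          field_simp
      _ ≤ (2 * 2^((j+(i+1))*(j+(i+1)))) * (1/2^i * (1/2^j)) := by gcongr
      _ = _ := by ring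
  have hgs : Summable (fun n : ℕ => (1/2:ℝ)^n) := summable_geometric_two
  have hsum : Summable f := by
    rw [← summable_nat_add_iff 1]
    refine Summable.of_nonneg_of_le (fun j => hf0 _) (fun j => ?_) hgs
    have := key 0 j
    simpa using this
  let x : ℝ := ∑' j, f j
  let δ : ℕ → ℝ := fun i => ∑' j, 2^(i*i) * f (j + (i+1))
  have hδ0 : ∀ i, 0 ≤ δ i := fun i => tsum_nonneg (fun j => mul_nonneg (by positivity) (hf0 _))
  have hδ1 : ∀ i, δ i ≤ (1/2:ℝ)^i * 2 := by
    intro i
    have h1 : δ i ≤ ∑' j : ℕ, (1/2:ℝ)^i * (1/2:ℝ)^j := by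
      refine Summable.tsum_le_tsum (key i) ?_ (hgs.mul_left _)
      exact ((summable_nat_add_iff (i+1)).2 hsum).mul_left _
    rw [tsum_mul_left, tsum_geometric_two] at h1
    exact h1
  have hδ : Tendsto δ atTop (𝓝 0) := by
    refine squeeze_zero hδ0 hδ1 ?_
    have := (tendsto_pow_atTop_nhds_zero_of_lt_one (r := (1/2:ℝ)) (by norm_num) (by norm_num))
    simpa using this.mul_const 2
  have hint : ∀ i, ∃ k : ℤ, ∑ j ∈ Finset.range i, (2:ℝ)^(i*i) * f j = k := by
    intro i
    refine ⟨∑ j ∈ Finset.range i, (if j ∈ J then (2:ℤ)^(i*i - j*j - 1) else 0), ?_⟩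
    push_cast
    refine Finset.sum_congr rfl (fun j hj => ?_)
    rw [Finset.mem_range] at hj
    simp only [f]
    split_ifs with h
    · have h1 : j*j + 1 ≤ i*i := by nlinarith
      rw [mul_one_div, div_eq_iff (by positivity)]
      rw [← pow_succ', ← pow_add]
      congr 1
      omega
    · simp
  have hx : ∀ i, ∃ k : ℤ, (2:ℝ)^(i*i) * x = k + (if i ∈ J then 1/2 else 0) + δ i := by
    intro i
    obtain ⟨k, hk⟩ := hint i
    refine ⟨k, ?_⟩
    have h1 := hsum.sum_add_tsum_nat_add (i+1)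
    rw [← hk]
    show (2:ℝ)^(i*i) * (∑' j, f j) = _
    rw [← h1, Finset.sum_range_succ, mul_add, mul_add, Finset.mul_sum]
    congr 1
    · congr 1
      simp only [f]
      split_ifs
      · field_simp
      · simp
    · simp only [δ]
      rw [tsum_mul_left]
  refine ⟨(QuotientAddGroup.mk' (AddSubgroup.zmultiples (1:ℝ))).comp
    ((AddMonoidHom.mulRight x).comp (Int.castAddHom ℝ)), ?_⟩
  have hval : ∀ n : ℤ, ((QuotientAddGroup.mk' (AddSubgroup.zmultiples (1:ℝ))).comp
    ((AddMonoidHom.mulRight x).comp (Int.castAddHom ℝ))) n = (((n:ℝ) * x : ℝ) : AddCircle (1:ℝ)) :=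
    fun n => rfl
  have hcoe : Tendsto (fun i => ((δ i : ℝ) : AddCircle (1:ℝ))) atTop (𝓝 0) := by
    have h1 : Continuous (fun r : ℝ => (r : AddCircle (1:ℝ))) := AddCircle.continuous_mk' 1
    have h2 := (h1.tendsto 0).comp hδ
    rw [AddCircle.coe_zero] at h2
    exact h2
  refine hcoe.congr (fun i => ?_)
  rw [hval]
  obtain ⟨k, hk⟩ := hx i
  have h3 : (((2:ℤ)^(i*i) : ℤ) : ℝ) * x = k + (if i ∈ J then 1/2 else 0) + δ i := by
    rw [← hk]; push_cast; ring
  rw [h3]
  have h4 : (((k:ℝ) : ℝ) : AddCircle (1:ℝ)) = 0 := by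
    rw [AddCircle.coe_eq_zero_iff]
    exact ⟨k, by simp⟩
  rw [AddCircle.coe_add, AddCircle.coe_add, h4]
  split_ifs <;> simp

/-- The finest group topology in which all sequences of `S` converge to `1`. -/
noncomputable def sTop {G : Type} [Group G] (S : Set (ℕ → G)) : GroupTopology G :=
  sInf {t : GroupTopology G | ∀ u ∈ S, Tendsto u atTop (@nhds _ t.toTopologicalSpace 1)}

theorem sTop_tendsto {G : Type} [Group G] (S : Set (ℕ → G)) (u : ℕ → G) (hu : u ∈ S) :
    Tendsto u atTop (@nhds _ (sTop S).toTopologicalSpace 1) := by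
  unfold sTop
  rw [GroupTopology.toTopologicalSpace_sInf, nhds_sInf]
  rw [tendsto_iInf]
  intro t
  rw [tendsto_iInf]
  rintro ⟨t', ht', rfl⟩
  exact ht' u hu

theorem sTop_le {G : Type} [Group G] (S : Set (ℕ → G)) (t : GroupTopology G)
    (ht : ∀ u ∈ S, Tendsto u atTop (@nhds _ t.toTopologicalSpace 1)) :
    (sTop S).toTopologicalSpace ≤ t.toTopologicalSpace := by
  have : sTop S ≤ t := sInf_le ht
  exact this

theorem sTop_continuous {G : Type} [Group G] (S : Set (ℕ → G)) {H : Type*} [Group H]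
    [tH : TopologicalSpace H] [IsTopologicalGroup H] (f : G →* H)
    (hf : ∀ u ∈ S, Tendsto (fun k => f (u k)) atTop (𝓝 1)) :
    Continuous[(sTop S).toTopologicalSpace, tH] f := by
  rw [continuous_iff_le_induced]
  let t : GroupTopology G := ⟨TopologicalSpace.induced f tH, topologicalGroup_induced f⟩
  refine sTop_le S t ?_
  intro u hu
  show Tendsto u atTop (@nhds _ (TopologicalSpace.induced f tH) 1)
  rw [nhds_induced, tendsto_comap_iff, map_one]
  exact hf u hu


/-- In a commutative group, the restriction to an open subgroup of an s-topology is an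
s-topology. -/
theorem sTop_open_subgroup {G : Type} [CommGroup G] (S : Set (ℕ → G)) (K : Subgroup G)
    (hK : IsOpen[(sTop S).toTopologicalSpace] (K : Set G)) {H : Type*} [Group H]
    [TopologicalSpace H] [IsTopologicalGroup H] (f : K →* H)
    (hf : ∀ (u : ℕ → K), Tendsto (fun k => (u k : G)) atTop
      (@nhds _ (sTop S).toTopologicalSpace 1) → Tendsto (fun k => f (u k)) atTop (𝓝 1))
    (W : Set H) (hW : W ∈ 𝓝 (1:H)) :
    ∃ U ∈ @nhds _ (sTop S).toTopologicalSpace 1, ∀ k : K, (k:G) ∈ U → f k ∈ W := by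
  classical
  let B : GroupFilterBasis G := groupFilterBasisOfComm
    {V | ∃ W ∈ 𝓝 (1:H), V = Subtype.val '' (f ⁻¹' W)}
    ⟨_, W, hW, rfl⟩
    (by
      rintro _ _ ⟨W1, hW1, rfl⟩ ⟨W2, hW2, rfl⟩
      refine ⟨_, ⟨W1 ∩ W2, inter_mem hW1 hW2, rfl⟩, ?_⟩
      rw [preimage_inter]
      exact image_inter_subset _ _ _)
    (by
      rintro _ ⟨W1, hW1, rfl⟩
      exact ⟨1, by simpa using mem_of_mem_nhds hW1, rfl⟩)
    (by
      rintro _ ⟨W1, hW1, rfl⟩
      obtain ⟨V, hV, hVV⟩ := exists_nhds_one_split hW1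
      refine ⟨_, ⟨V, hV, rfl⟩, ?_⟩
      rintro _ ⟨_, ⟨x, hx, rfl⟩, _, ⟨y, hy, rfl⟩, rfl⟩
      refine ⟨x * y, ?_, rfl⟩
      simp only [mem_preimage, map_mul]
      exact hVV _ hx _ hy)
    (by
      rintro _ ⟨W1, hW1, rfl⟩
      refine ⟨_, ⟨W1⁻¹, inv_mem_nhds_one H hW1, rfl⟩, ?_⟩
      rintro _ ⟨x, hx, rfl⟩
      refine ⟨x⁻¹, ?_, rfl⟩
      simpa using hx)
  let t : GroupTopology G := ⟨B.topology, B.isTopologicalGroup⟩
  have hle : (sTop S).toTopologicalSpace ≤ t.toTopologicalSpace := by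
    refine sTop_le S t ?_
    intro u hu
    have hu1 := sTop_tendsto S u hu
    have hKn : (K : Set G) ∈ @nhds _ (sTop S).toTopologicalSpace 1 := by
      let _ : TopologicalSpace G := (sTop S).toTopologicalSpace
      exact hK.mem_nhds K.one_mem
    have hev : ∀ᶠ n in atTop, u n ∈ (K : Set G) := hu1 hKn
    let u' : ℕ → K := fun n => if h : u n ∈ K then ⟨u n, h⟩ else 1
    have hu' : ∀ᶠ n in atTop, (u' n : G) = u n := by
      filter_upwards [hev] with n hn
      have hn' : u n ∈ K := hn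
      simp only [u', hn', dite_true]
    have hfu := hf u' (hu1.congr' (hu'.mono fun n hn => hn.symm))
    have hb := B.nhds_one_hasBasis
    show Tendsto u atTop (@nhds _ B.topology 1)
    rw [@HasBasis.tendsto_right_iff _ _ _ _ _ _ _ _ hb]
    rintro _ ⟨W1, hW1, rfl⟩
    filter_upwards [hfu.eventually hW1, hu'] with n h1 h2
    exact ⟨u' n, h1, h2⟩
  refine ⟨Subtype.val '' (f ⁻¹' W), ?_, ?_⟩
  · refine nhds_mono hle ?_
    exact B.mem_nhds_one ⟨W, hW, rfl⟩
  · rintro k ⟨k', hk', hkk⟩
    have : k' = k := Subtype.ext hkk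
    rw [← this]
    exact hk'

/-! ### The nonsequential s-topology on the integers -/

/-- The metric fan part. -/
def zA (n m : ℕ) : Multiplicative ℤ := Multiplicative.ofAdd
  ((2:ℤ)^((2 * Nat.pair n m) * (2 * Nat.pair n m)))

/-- The sequential fan part. -/
def zB (n m : ℕ) : Multiplicative ℤ := Multiplicative.ofAdd
  ((2:ℤ)^((2 * Nat.pair n m + 1) * (2 * Nat.pair n m + 1)))

/-- The defining null sequences. -/
def zS : Set (ℕ → Multiplicative ℤ) :=
  {u | ∃ n m : ℕ → ℕ, Tendsto n atTop atTop ∧ u = fun k => zA (n k) (m k)} ∪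
  {u | ∃ n, u = fun m => zB n m}

theorem zS_continuous {H : Type*} [Group H] [tH : TopologicalSpace H] [IsTopologicalGroup H]
    (f : Multiplicative ℤ →* H)
    (h1 : ∀ n m : ℕ → ℕ, Tendsto n atTop atTop → Tendsto (fun k => f (zA (n k) (m k))) atTop (𝓝 1))
    (h2 : ∀ n, Tendsto (fun m => f (zB n m)) atTop (𝓝 1)) :
    Continuous[(sTop zS).toTopologicalSpace, tH] f := by
  refine sTop_continuous zS f ?_
  rintro u (⟨n, m, hn, rfl⟩ | ⟨n, rfl⟩)
  · exact h1 n m hn
  · exact h2 n

theorem pair_tendsto_left {n m : ℕ → ℕ} (hn : Tendsto n atTop atTop) :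
    Tendsto (fun k => Nat.pair (n k) (m k)) atTop atTop :=
  tendsto_atTop_mono (fun k => Nat.left_le_pair _ _) hn

theorem pair_tendsto_right (n : ℕ) :
    Tendsto (fun k => Nat.pair n k) atTop atTop :=
  tendsto_atTop_mono (fun k => Nat.right_le_pair _ _) tendsto_id

/-- Characters. -/
theorem exists_zchar (J : Set ℕ)
    (h1 : ∀ n m : ℕ → ℕ, Tendsto n atTop atTop → ∀ᶠ k in atTop, 2 * Nat.pair (n k) (m k) ∉ J)
    (h2 : ∀ n, ∀ᶠ m in atTop, 2 * Nat.pair n m + 1 ∉ J) :
    ∃ χ : Multiplicative ℤ →* Multiplicative (AddCircle (1:ℝ)),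
      Continuous[(sTop zS).toTopologicalSpace, _] χ ∧
      ∀ p : ℕ → ℕ, Tendsto p atTop atTop →
        Tendsto (fun k => (χ (Multiplicative.ofAdd ((2:ℤ)^(p k * p k)))).toAdd -
          (haveI := Classical.dec (p k ∈ J);
            if p k ∈ J then ((1/2 : ℝ) : AddCircle (1:ℝ)) else 0)) atTop (𝓝 0) := by
  classical
  obtain ⟨χ, hχ⟩ := exists_char J
  refine ⟨AddMonoidHom.toMultiplicative χ, ?_, ?_⟩
  swap
  · intro p hp
    exact hχ.comp hp
  have hto : ∀ p : ℕ → ℕ, Tendsto p atTop atTop → (∀ᶠ k in atTop, p k ∉ J) →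
      Tendsto (fun k => (AddMonoidHom.toMultiplicative χ)
        (Multiplicative.ofAdd ((2:ℤ)^(p k * p k)))) atTop (𝓝 1) := by
    intro p hp hpJ
    have h3 := hχ.comp hp
    have h4 : Tendsto (fun k => χ ((2:ℤ)^(p k * p k))) atTop (𝓝 0) := by
      refine h3.congr' ?_
      filter_upwards [hpJ] with k hk
      simp [hk]
    exact h4
  refine zS_continuous _ ?_ ?_
  · intro n m hn
    have h5 : Tendsto (fun k => 2 * Nat.pair (n k) (m k)) atTop atTop :=
      tendsto_atTop_mono (fun k => by omega) (pair_tendsto_left (m := m) hn)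
    exact hto _ h5 (h1 n m hn)
  · intro n
    have h5 : Tendsto (fun k => 2 * Nat.pair n k + 1) atTop atTop :=
      tendsto_atTop_mono (fun k => by omega) (pair_tendsto_right n)
    exact hto _ h5 (h2 n)


theorem tendsto_atTop_of_ne (p : ℕ → ℕ) (h : ∀ c, ∀ᶠ k in atTop, p k ≠ c) :
    Tendsto p atTop atTop := by
  rw [tendsto_atTop]
  intro b
  have h1 : ∀ᶠ k in atTop, ∀ c ∈ Finset.range b, p k ≠ c := by
    rw [Filter.eventually_all_finset]
    exact fun c _ => h c
  filter_upwards [h1] with k hk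
  by_contra hlt
  push Not at hlt
  exact hk (p k) (Finset.mem_range.2 hlt) rfl

theorem alt_not_tendsto (L : AddCircle (1:ℝ))
    (h : Tendsto (fun k : ℕ => if Even k then ((1/2 : ℝ) : AddCircle (1:ℝ)) else 0)
      atTop (𝓝 L)) : False := by
  have h1 : Tendsto (fun k : ℕ => 2 * k) atTop atTop :=
    tendsto_atTop_mono (fun k => by simp only [id]; omega) tendsto_id
  have h2 : Tendsto (fun k : ℕ => 2 * k + 1) atTop atTop :=
    tendsto_atTop_mono (fun k => by simp only [id]; omega) tendsto_id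
  have h3 := h.comp h1
  have h4 := h.comp h2
  have h5 : L = ((1/2 : ℝ) : AddCircle (1:ℝ)) := by
    refine tendsto_nhds_unique h3 ?_
    refine tendsto_const_nhds.congr (fun k => ?_)
    simp
  have h6 : L = 0 := by
    refine tendsto_nhds_unique h4 ?_
    refine tendsto_const_nhds.congr (fun k => ?_)
    simp
  rw [h6] at h5
  have h7 := h5.symm
  rw [AddCircle.coe_eq_zero_iff] at h7
  obtain ⟨n, hn⟩ := h7
  have h8 : (n:ℝ) = 1/2 := by simpa using hn
  have h9 : (2 * n : ℝ) = 1 := by rw [h8]; norm_num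
  have h10 : (2 * n : ℤ) = 1 := by exact_mod_cast h9
  omega

theorem zseq_core (n m : ℕ → ℕ) (hp : StrictMono (fun k => Nat.pair (n k) (m k)))
    (hcase : (∃ c, ∀ k, n k = c) ∨ Tendsto n atTop atTop)
    (x : Multiplicative ℤ)
    (h : Tendsto (fun k => zA (n k) (m k) * zB (n k) (m k)) atTop
      (@nhds _ (sTop zS).toTopologicalSpace x)) : False := by
  classical
  have hinj := hp.injective
  have hta : Tendsto (fun k => 2 * Nat.pair (n k) (m k)) atTop atTop :=
    tendsto_atTop_mono (fun k => by omega) hp.tendsto_atTop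
  have htb : Tendsto (fun k => 2 * Nat.pair (n k) (m k) + 1) atTop atTop :=
    tendsto_atTop_mono (fun k => by omega) hp.tendsto_atTop
  rcases hcase with ⟨c, hc⟩ | hn
  · let J : Set ℕ := {j | ∃ k, Even k ∧ j = 2 * Nat.pair (n k) (m k)}
    obtain ⟨χ, hχc, hχ⟩ := exists_zchar J (by
      intro n' m' hn'
      filter_upwards [hn'.eventually_gt_atTop c] with k hk
      rintro ⟨k', -, hk'⟩
      have h1 : Nat.pair (n' k) (m' k) = Nat.pair (n k') (m k') := by omega
      have h2 := (Nat.pair_eq_pair.1 h1).1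
      rw [hc k'] at h2
      omega) (by
      intro n'
      refine Eventually.of_forall (fun m' => ?_)
      rintro ⟨k', -, hk'⟩
      omega)
    have h1 := hχ _ hta
    have h2 := hχ _ htb
    have h3 : Tendsto (fun k => χ (zA (n k) (m k) * zB (n k) (m k))) atTop (𝓝 (χ x)) := by
      let _ : TopologicalSpace (Multiplicative ℤ) := (sTop zS).toTopologicalSpace
      exact (hχc.tendsto x).comp h
    have h4 : Tendsto (fun k => (χ (zA (n k) (m k) * zB (n k) (m k))).toAdd) atTop
      (𝓝 (χ x).toAdd) := h3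
    have h5 := (h4.sub h1).sub h2
    refine alt_not_tendsto ((χ x).toAdd - 0 - 0) (h5.congr (fun k => ?_))
    have hJ1 : (2 * Nat.pair (n k) (m k) ∈ J) ↔ Even k := by
      constructor
      · rintro ⟨k', hk', he⟩
        have : k = k' := hinj (by simp only; omega)
        rwa [this]
      · intro hk
        exact ⟨k, hk, rfl⟩
    have hJ2 : ¬ (2 * Nat.pair (n k) (m k) + 1 ∈ J) := by
      rintro ⟨k', -, hk'⟩
      omega
    simp only [hJ1, hJ2, map_mul, toAdd_mul, zA, zB, if_false]
    abel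
  · let J : Set ℕ := {j | ∃ k, Even k ∧ j = 2 * Nat.pair (n k) (m k) + 1}
    obtain ⟨χ, hχc, hχ⟩ := exists_zchar J (by
      intro n' m' _
      refine Eventually.of_forall (fun k => ?_)
      rintro ⟨k', -, hk'⟩
      omega) (by
      intro n'
      have hfin : {k | n k = n'}.Finite := by
        have := hn.eventually_gt_atTop n'
        rw [eventually_atTop] at this
        obtain ⟨K, hK⟩ := this
        refine (Set.finite_lt_nat K).subset ?_
        intro k hk
        simp only [mem_setOf_eq] at hk ⊢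
        by_contra hcon
        push Not at hcon
        have := hK k hcon
        omega
      have hfin2 := hfin.image m
      have hev := hfin2.compl_mem_cofinite
      rw [Nat.cofinite_eq_atTop] at hev
      filter_upwards [hev] with m' hm'
      rintro ⟨k', -, hk'⟩
      have h1 : Nat.pair n' m' = Nat.pair (n k') (m k') := by omega
      obtain ⟨h2, h3⟩ := Nat.pair_eq_pair.1 h1
      exact hm' ⟨k', h2.symm, h3.symm⟩)
    have h1 := hχ _ hta
    have h2 := hχ _ htb
    have h3 : Tendsto (fun k => χ (zA (n k) (m k) * zB (n k) (m k))) atTop (𝓝 (χ x)) := by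
      let _ : TopologicalSpace (Multiplicative ℤ) := (sTop zS).toTopologicalSpace
      exact (hχc.tendsto x).comp h
    have h4 : Tendsto (fun k => (χ (zA (n k) (m k) * zB (n k) (m k))).toAdd) atTop
      (𝓝 (χ x).toAdd) := h3
    have h5 := (h4.sub h1).sub h2
    refine alt_not_tendsto ((χ x).toAdd - 0 - 0) (h5.congr (fun k => ?_))
    have hJ1 : (2 * Nat.pair (n k) (m k) + 1 ∈ J) ↔ Even k := by
      constructor
      · rintro ⟨k', hk', he⟩
        have : k = k' := hinj (by simp only; omega)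
        rwa [this]
      · intro hk
        exact ⟨k, hk, rfl⟩
    have hJ2 : ¬ (2 * Nat.pair (n k) (m k) ∈ J) := by
      rintro ⟨k', -, hk'⟩
      omega
    simp only [hJ1, hJ2, map_mul, toAdd_mul, zA, zB, if_false]
    abel

theorem zseq_not_tendsto (n m : ℕ → ℕ)
    (hp : Tendsto (fun k => Nat.pair (n k) (m k)) atTop atTop)
    (x : Multiplicative ℤ)
    (h : Tendsto (fun k => zA (n k) (m k) * zB (n k) (m k)) atTop
      (@nhds _ (sTop zS).toTopologicalSpace x)) : False := by
  obtain ⟨φ, hφ, hφ2⟩ := strictMono_subseq_of_tendsto_atTop hp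
  by_cases hb : ∃ c, ∃ᶠ k in atTop, n (φ k) = c
  · obtain ⟨c, hc⟩ := hb
    obtain ⟨ψ, hψ, hψ2⟩ := extraction_of_frequently_atTop hc
    refine zseq_core (fun k => n (φ (ψ k))) (fun k => m (φ (ψ k))) ?_ (Or.inl ⟨c, hψ2⟩) x ?_
    · exact hφ2.comp hψ
    · exact h.comp (hφ.tendsto_atTop.comp hψ.tendsto_atTop)
  · push Not at hb
    refine zseq_core (fun k => n (φ k)) (fun k => m (φ k)) hφ2 (Or.inr ?_) x
      (h.comp hφ.tendsto_atTop)
    exact tendsto_atTop_of_ne _ hb

theorem zS_t2 : @T2Space (Multiplicative ℤ) (sTop zS).toTopologicalSpace := by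
  let _ : TopologicalSpace (Multiplicative ℤ) := (sTop zS).toTopologicalSpace
  refine ⟨fun x y hxy => ?_⟩
  let j : ℕ := (x.toAdd - y.toAdd).natAbs
  let N : ℕ := 2^(j*j)
  let _ : TopologicalSpace (Multiplicative (ZMod N)) := ⊥
  have hd : DiscreteTopology (Multiplicative (ZMod N)) := ⟨rfl⟩
  let φ : Multiplicative ℤ →* Multiplicative (ZMod N) :=
    AddMonoidHom.toMultiplicative (Int.castAddHom (ZMod N))
  have hval : ∀ p : ℕ, j ≤ p → φ (Multiplicative.ofAdd ((2:ℤ)^(p*p))) = 1 := by
    intro p hjp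
    show Multiplicative.ofAdd ((((2:ℤ)^(p*p) : ℤ) : ZMod N)) = 1
    rw [ofAdd_eq_one]
    rw [ZMod.intCast_zmod_eq_zero_iff_dvd]
    simp only [N]
    push_cast
    exact pow_dvd_pow 2 (Nat.mul_le_mul hjp hjp)
  have hev : ∀ p : ℕ → ℕ, Tendsto p atTop atTop →
      Tendsto (fun k => φ (Multiplicative.ofAdd ((2:ℤ)^(p k * p k)))) atTop (𝓝 1) := by
    intro p hp
    refine tendsto_nhds_of_eventually_eq ?_
    filter_upwards [hp.eventually_ge_atTop j] with k hk
    exact hval _ hk
  have hcont : Continuous φ := by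
    refine zS_continuous φ ?_ ?_
    · intro n m hn
      exact hev _ (tendsto_atTop_mono (fun k => by omega) (pair_tendsto_left (m := m) hn))
    · intro n
      exact hev _ (tendsto_atTop_mono (fun k => by omega) (pair_tendsto_right n))
  refine separated_by_continuous hcont ?_
  intro heq
  apply hxy
  have h1 : ((x.toAdd : ℤ) : ZMod N) = ((y.toAdd : ℤ) : ZMod N) := heq
  have h2 : (((x.toAdd - y.toAdd : ℤ)) : ZMod N) = 0 := by
    rw [Int.cast_sub, h1, sub_self]
  rw [ZMod.intCast_zmod_eq_zero_iff_dvd] at h2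
  have h3 : (x.toAdd - y.toAdd) = 0 := by
    refine Int.eq_zero_of_abs_lt_dvd h2 ?_
    simp only [N]
    have h4 : j < 2^(j*j) := by
      rcases Nat.eq_zero_or_pos j with h0 | h0
      · rw [h0]; norm_num
      · calc j < 2^j := Nat.lt_two_pow_self
          _ ≤ 2^(j*j) := Nat.pow_le_pow_right (by norm_num) (Nat.le_mul_of_pos_left _ h0)
    rw [Int.abs_eq_natAbs]
    exact_mod_cast h4
  exact Multiplicative.toAdd.injective (sub_eq_zero.1 h3)

/-- The topology is not sequential. -/
theorem zS_not_sequential :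
    ¬ @SequentialSpace (Multiplicative ℤ) (sTop zS).toTopologicalSpace := by
  classical
  let _ : TopologicalSpace (Multiplicative ℤ) := (sTop zS).toTopologicalSpace
  have _ : IsTopologicalGroup (Multiplicative ℤ) := (sTop zS).toIsTopologicalGroup
  have _ : T2Space (Multiplicative ℤ) := zS_t2
  intro hs
  let A : Set (Multiplicative ℤ) := {z | ∃ n m, z = zA n m * zB n m}
  have hA : IsSeqClosed A := by
    intro u x hu hx
    by_contra hxA
    choose n m hnm using hu
    have hp : Tendsto (fun k => Nat.pair (n k) (m k)) atTop atTop := by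
      refine tendsto_atTop_of_ne _ (fun c => ?_)
      let w := zA c.unpair.1 c.unpair.2 * zB c.unpair.1 c.unpair.2
      have hw : w ∈ A := ⟨_, _, rfl⟩
      have hxw : x ≠ w := fun h => hxA (h ▸ hw)
      filter_upwards [hx.eventually (isOpen_ne.mem_nhds hxw)] with k hk hkc
      apply hk
      rw [hnm k]
      simp only [w, ← hkc, Nat.unpair_pair]
    refine zseq_not_tendsto n m hp x ?_
    exact hx.congr hnm
  have hAc : IsClosed A := hA.isClosed
  have h1A : (1 : Multiplicative ℤ) ∉ A := by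
    rintro ⟨n, m, h⟩
    have h2 : (0:ℤ) = (2:ℤ)^((2 * Nat.pair n m) * (2 * Nat.pair n m)) +
      (2:ℤ)^((2 * Nat.pair n m + 1) * (2 * Nat.pair n m + 1)) := congrArg Multiplicative.toAdd h
    have h3 : (0:ℤ) < (2:ℤ)^((2 * Nat.pair n m) * (2 * Nat.pair n m)) := by positivity
    have h4 : (0:ℤ) < (2:ℤ)^((2 * Nat.pair n m + 1) * (2 * Nat.pair n m + 1)) := by positivity
    omega
  apply h1A
  rw [← hAc.closure_eq, mem_closure_iff_nhds]
  intro U hU
  obtain ⟨V, hV, hVV⟩ := exists_nhds_one_split hU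
  -- the fan part
  have hfan : ∃ N, ∀ n ≥ N, ∀ m, zA n m ∈ V := by
    by_contra hcon
    push Not at hcon
    choose n hn m hm using hcon
    have h1 : Tendsto n atTop atTop := tendsto_atTop_mono hn tendsto_id
    have h2 := sTop_tendsto zS (fun k => zA (n k) (m k)) (Or.inl ⟨n, m, h1, rfl⟩)
    obtain ⟨k, hk⟩ := (h2.eventually hV).exists
    exact hm k hk
  obtain ⟨N, hN⟩ := hfan
  have h3 := sTop_tendsto zS (fun m => zB N m) (Or.inr ⟨N, rfl⟩)
  obtain ⟨m, hm⟩ := (h3.eventually hV).exists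
  exact ⟨zA N m * zB N m, hVV _ (hN N le_rfl m) _ hm, N, m, rfl⟩


/-- A nontrivial subgroup of the integers has finite index. -/
theorem finiteIndex_of_mem (K : Subgroup (Multiplicative ℤ)) (k : ℤ) (hk : k ≠ 0)
    (hkK : Multiplicative.ofAdd k ∈ K) : K.FiniteIndex := by
  have hfin : Finite (Multiplicative ℤ ⧸ K) := by
    let g : Fin k.natAbs → Multiplicative ℤ ⧸ K := fun i =>
      QuotientGroup.mk (Multiplicative.ofAdd (i.1 : ℤ))
    refine Finite.of_surjective g ?_
    intro q
    obtain ⟨z, rfl⟩ := QuotientGroup.mk_surjective q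
    have h0 : 0 ≤ z.toAdd % k := Int.emod_nonneg _ hk
    have h1 : z.toAdd % k < k.natAbs := by
      rw [← Int.abs_eq_natAbs]
      exact Int.emod_lt_abs _ hk
    refine ⟨⟨(z.toAdd % k).toNat, by omega⟩, ?_⟩
    simp only [g]
    rw [QuotientGroup.eq]
    have h2 : (Multiplicative.ofAdd (((z.toAdd % k).toNat : ℕ) : ℤ))⁻¹ * z =
        (Multiplicative.ofAdd k) ^ (z.toAdd / k) := by
      rw [← ofAdd_zsmul]
      apply Multiplicative.toAdd.injective
      rw [toAdd_mul, toAdd_inv, toAdd_ofAdd, toAdd_ofAdd, Int.toNat_of_nonneg h0, smul_eq_mul]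
      have := Int.emod_add_mul_ediv z.toAdd k
      linarith
    rw [h2]
    exact K.zpow_mem hkK _
  exact Subgroup.finiteIndex_of_finite_quotient

theorem zS_closed_subgroup (K : Subgroup (Multiplicative ℤ))
    (hK : IsClosed[(sTop zS).toTopologicalSpace] (K : Set (Multiplicative ℤ)))
    {H : Type*} [Group H] [tH : TopologicalSpace H] [IsTopologicalGroup H] (f : K →* H)
    (hf : @SeqContinuous K H (@instTopologicalSpaceSubtype _ _ (sTop zS).toTopologicalSpace) tH f) :
    Continuous[@instTopologicalSpaceSubtype _ _ (sTop zS).toTopologicalSpace, tH] f := by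
  let _ : TopologicalSpace (Multiplicative ℤ) := (sTop zS).toTopologicalSpace
  have _ : IsTopologicalGroup (Multiplicative ℤ) := (sTop zS).toIsTopologicalGroup
  by_cases hbot : ∃ k : ℤ, k ≠ 0 ∧ Multiplicative.ofAdd k ∈ K
  · obtain ⟨k, hk0, hkK⟩ := hbot
    have _ : K.FiniteIndex := finiteIndex_of_mem K k hk0 hkK
    have hKo : IsOpen (K : Set (Multiplicative ℤ)) := Subgroup.isOpen_of_isClosed_of_finiteIndex K hK
    refine continuous_of_continuousAt_one f ?_
    unfold ContinuousAt
    rw [map_one]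
    intro W hW
    obtain ⟨U, hU, hUW⟩ := sTop_open_subgroup zS K hKo f (by
      intro u hu
      have h1 : Tendsto u atTop (𝓝 (1 : K)) := by
        rw [tendsto_subtype_rng]
        exact hu
      have h2 := hf h1
      rw [map_one] at h2
      exact h2) W hW
    rw [mem_map]
    have h3 : (Subtype.val : K → Multiplicative ℤ) ⁻¹' U ∈ 𝓝 (1 : K) :=
      (continuous_subtype_val.tendsto (1 : K)) hU
    filter_upwards [h3] with k hk
    exact hUW k hk
  · push Not at hbot
    have hsub : Subsingleton K := by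
      refine ⟨fun a b => ?_⟩
      have h1 : ∀ c : K, (c : Multiplicative ℤ) = 1 := by
        intro c
        by_contra hne
        exact hbot (c : Multiplicative ℤ).toAdd (fun h => hne h) c.2
      exact Subtype.ext ((h1 a).trans (h1 b).symm)
    exact continuous_of_const (fun x y => by rw [Subsingleton.elim x y])

end Pool.Agent.V11217
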