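import Pool.Agent.TH774.TD.Slow

set_option autoImplicit false

namespace Pool.Agent.V11217.TDB

open Pool.Agent.Helper227 Pool.Agent.H685R3 Pool.Agent.TH774.TD
open Filter Topology

/-- The sequence `v` is bounded. -/
def Bdd (v : ℕ → ℝ) : Prop := ∃ C : ℝ, ∀ n, |v n| ≤ C

theorem bdd_of_eventually {v : ℕ → ℝ} {C : ℝ} (h : ∀ᶠ n in atTop, |v n| ≤ C) : Bdd v := by
  obtain ⟨M, hM⟩ := eventually_atTop.1 h
  refine ⟨|C| + ∑ i ∈ Finset.range M, |v i|, fun n => ?_⟩
  have h0 : 0 ≤ ∑ i ∈ Finset.range M, |v i| := Finset.sum_nonneg fun i _ => abs_nonneg _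
  rcases lt_or_ge n M with h1 | h1
  · have h2 : |v n| ≤ ∑ i ∈ Finset.range M, |v i| :=
      Finset.single_le_sum (f := fun i => |v i|) (fun i _ => abs_nonneg _) (Finset.mem_range.2 h1)
    have := abs_nonneg C
    linarith
  · have h2 := hM n h1
    have := le_abs_self C
    linarith

theorem lc_self {J : ℕ → ℕ} (hJ : StrictMono J) (k : ℕ) : lc J (J k) = k := by
  apply le_antisymm
  · by_contra hc
    push Not at hc
    exact lt_irrefl _ ((lt_lc hJ).1 hc)
  · by_contra hc
    push Not at hc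
    exact lt_irrefl _ ((lt_lc hJ).2 (hJ hc))

/-- The walk lemma, with a surjective slow function. -/
theorem walk' (z : ℕ → Bool) : ∃ N : ℕ → ℕ, Tendsto N atTop atTop ∧ Function.Surjective N ∧
    ∀ a : ℕ → ℕ, Lazy a →
      ∃ y, TLe z y ∧ ∀ᶠ m in atTop, al y m ≤ a (N m) + 1 ∧ a (N m) ≤ al y m + 1 := by
  obtain ⟨h, hh⟩ := control_g z
  refine ⟨lc (fast h), tendsto_lc (strictMono_fast h),
    fun k => ⟨fast h k, lc_self (strictMono_fast h) k⟩, fun a ha => ?_⟩
  obtain ⟨J, hJ, hJa⟩ := ha.exists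
  obtain ⟨y, hy, hy'⟩ := hh (fast h ∘ J) ((strictMono_fast h).comp hJ) fun k => by
    have h1 := fast_spec h (J k) (fast h (J k)) le_rfl
    have h2 : J k + 1 ≤ J (k + 1) := hJ (Nat.lt_succ_self k)
    exact h1.trans_le ((strictMono_fast h).monotone h2)
  refine ⟨y, hy, ?_⟩
  filter_upwards [hy'] with m hm
  rw [lc_comp (strictMono_fast h) hJ, hJa] at hm
  exact hm

/-- The two functions differ by at most one almost everywhere. -/
def Near (a b : ℕ → ℕ) : Prop := ∀ᶠ m in atTop, a m ≤ b m + 1 ∧ b m ≤ a m + 1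

/-- Invariants of the slow functions are constant on all lazy walks along one slow function. -/
theorem master (Φ : (ℕ → ℕ) → ℕ → Bool) (hΦ : ∀ a b, Near a b → Φ a = Φ b) :
    (∀ i, TuringInvariant {x | Φ (al x) i = true}) ∧
    ((∀ i, Determined {x | Φ (al x) i = true}) → ∃ (c : ℕ → Bool) (N : ℕ → ℕ),
      Tendsto N atTop atTop ∧ Function.Surjective N ∧
        ∀ a, Lazy a → Φ (fun m => a (N m)) = c) := by
  have hinv : ∀ i, TuringInvariant {x | Φ (al x) i = true} := by
    intro i x y h1 h2 hx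
    change Φ (al x) i = true at hx
    change Φ (al y) i = true
    rw [← hΦ (al x) (al y) ((al_le_al h2).and (al_le_al h1))]
    exact hx
  refine ⟨hinv, fun hD => ?_⟩
  obtain ⟨z, hz⟩ := const_on_cone hinv hD
  have hconst : ∀ y, TLe z y → Φ (al y) = Φ (al z) := by
    intro y hy
    funext i
    rcases hz i with h | h
    · have h1 : Φ (al y) i = true := h y hy
      have h2 : Φ (al z) i = true := h z (TLe.refl z)
      rw [h1, h2]
    · have h1 : ¬ Φ (al y) i = true := h y hy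
      have h2 : ¬ Φ (al z) i = true := h z (TLe.refl z)
      rw [Bool.not_eq_true] at h1 h2
      rw [h1, h2]
  obtain ⟨N, hN, hN', hw⟩ := walk' z
  refine ⟨Φ (al z), N, hN, hN', fun a ha => ?_⟩
  obtain ⟨y, hy, hy'⟩ := hw a ha
  rw [← hconst y hy]
  exact hΦ _ _ (hy'.mono fun m hm => ⟨hm.2, hm.1⟩)

theorem near_real {a b : ℕ → ℕ} (h : Near a b) (K : ℝ) :
    Bdd fun n => K * (a n : ℝ) - K * (b n : ℝ) := by
  refine bdd_of_eventually (C := |K|) (h.mono fun m hm => ?_)
  have h1 : (a m : ℝ) ≤ b m + 1 := by exact_mod_cast hm.1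
  have h2 : (b m : ℝ) ≤ a m + 1 := by exact_mod_cast hm.2
  have h3 : |(a m : ℝ) - b m| ≤ 1 := abs_le.2 ⟨by linarith, by linarith⟩
  rw [← mul_sub, abs_mul]
  have := abs_nonneg K
  nlinarith

/-! ### Real walks -/

/-- Nondecreasing unbounded functions with steps at most `K`. -/
structure RWalk (K : ℝ) (u : ℕ → ℝ) : Prop where
  mono : Monotone u
  step : ∀ n, u (n + 1) ≤ u n + K
  top : Tendsto u atTop atTop

/-- A real walk is a multiple of a lazy walk, up to a bounded error. -/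
theorem RWalk.lazy {K : ℝ} {u : ℕ → ℝ} (h : RWalk K u) {k : ℕ} (hk : 0 < k) (hK : K ≤ k) :
    ∃ a, Lazy a ∧ ∀ n, |u n - k * (a n : ℝ)| ≤ |u 0| + k := by
  have hk' : (0 : ℝ) < k := by exact_mod_cast hk
  have h0 : ∀ n, 0 ≤ (u n - u 0) / k := fun n =>
    div_nonneg (sub_nonneg.2 (h.mono (Nat.zero_le n))) hk'.le
  refine ⟨fun n => ⌊(u n - u 0) / k⌋₊, ⟨by simp, ?_, ?_, ?_⟩, ?_⟩
  · intro m n hmn
    refine Nat.floor_mono ?_
    have := h.mono hmn
    gcongr
  · intro n
    have h1 : (u (n + 1) - u 0) / k ≤ (u n - u 0) / k + 1 := by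
      rw [div_add_one hk'.ne', div_le_div_iff_of_pos_right hk']
      have := h.step n
      linarith
    calc ⌊(u (n + 1) - u 0) / k⌋₊ ≤ ⌊(u n - u 0) / k + 1⌋₊ := Nat.floor_mono h1
      _ = _ := Nat.floor_add_one (h0 n)
  · refine tendsto_nat_floor_atTop.comp ?_
    exact (tendsto_atTop_add_const_right _ (-u 0) h.top).atTop_div_const hk'
  · intro n
    have h1 := Nat.floor_le (h0 n)
    have h2 := Nat.lt_floor_add_one ((u n - u 0) / k)
    set F : ℝ := (⌊(u n - u 0) / k⌋₊ : ℝ) with hF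
    have h3 : k * F ≤ u n - u 0 := by
      rw [le_div_iff₀ hk'] at h1
      linarith
    have h4 : u n - u 0 < k * F + k := by
      rw [div_lt_iff₀ hk'] at h2
      linarith
    have h5 := abs_nonneg (u 0)
    have h6 := le_abs_self (u 0)
    have h7 := neg_abs_le (u 0)
    show |u n - k * F| ≤ |u 0| + k
    rw [abs_le]
    constructor <;> linarith

theorem lazy_id : Lazy fun n => n :=
  ⟨rfl, fun _ _ h => h, fun _ => le_rfl, tendsto_id⟩

theorem lazy_half : Lazy fun n => n / 2 :=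
  ⟨rfl, fun _ _ h => Nat.div_le_div_right h, fun n => by omega,
    Nat.tendsto_div_const_atTop (by norm_num)⟩

end Pool.Agent.V11217.TDB
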