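import Pool.Agent.V11217.TDB

set_option autoImplicit false

namespace Pool.Agent.V11217.TDB

open Pool.Agent.Helper227 Pool.Agent.H685R3 Pool.Agent.TH774.TD
open Filter Topology

/-! ### Arbitrary invariants -/

theorem partA {X : Type*} (κ : X → ℕ → Bool) (hκ : Function.Injective κ) (F : (ℕ → ℝ) → X)
    (hF : ∀ v w : ℕ → ℝ, Bdd (fun n => v n - w n) → F v = F w) :
    (∀ (k : ℕ) (i : ℕ), TuringInvariant
      {x | κ (F fun n => (k : ℝ) * (al x n : ℝ)) i = true}) ∧
    ((∀ (k : ℕ) (i : ℕ), Determined {x | κ (F fun n => (k : ℝ) * (al x n : ℝ)) i = true}) →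
      ∃ N : ℕ → ℕ, Tendsto N atTop atTop ∧ Function.Surjective N ∧
        ∀ (K : ℝ) (u : ℕ → ℝ), RWalk K u →
          F (fun n => u (N n)) = F fun n => (N n : ℝ)) := by
  have hk : ∀ (k : ℕ) (a b : ℕ → ℕ), Near a b →
      F (fun n => (k : ℝ) * (a n : ℝ)) = F (fun n => (k : ℝ) * (b n : ℝ)) :=
    fun k a b h => hF _ _ (near_real h k)
  let Φ : (ℕ → ℕ) → ℕ → Bool := fun a i =>
    κ (F fun n => (i.unpair.1 : ℝ) * (a n : ℝ)) i.unpair.2
  have hΦ : ∀ a b, Near a b → Φ a = Φ b := by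
    intro a b h
    funext i
    show κ _ _ = κ _ _
    rw [hk _ a b h]
  have hset : ∀ i, {x | Φ (al x) i = true} =
      {x | κ (F fun n => (i.unpair.1 : ℝ) * (al x n : ℝ)) i.unpair.2 = true} := fun i => rfl
  have hset' : ∀ k i : ℕ, {x | κ (F fun n => (k : ℝ) * (al x n : ℝ)) i = true} =
      {x | Φ (al x) (Nat.pair k i) = true} := by
    intro k i
    rw [hset, Nat.unpair_pair]
  obtain ⟨h1, h2⟩ := master Φ hΦ
  refine ⟨fun k i => by rw [hset']; exact h1 _, fun hD => ?_⟩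
  obtain ⟨c, N, hN, hN', hc⟩ := h2 fun i => by rw [hset]; exact hD _ _
  refine ⟨N, hN, hN', ?_⟩
  -- the constant value of each scale
  have hval : ∀ (k : ℕ) (a : ℕ → ℕ), Lazy a →
      F (fun n => (k : ℝ) * (a (N n) : ℝ)) = F (fun n => (k : ℝ) * (N n : ℝ)) := by
    intro k a ha
    refine hκ (funext fun i => ?_)
    have e1 := congrFun (hc a ha) (Nat.pair k i)
    have e2 := congrFun (hc _ lazy_id) (Nat.pair k i)
    simp only [Φ, Nat.unpair_pair] at e1 e2
    rw [e1, e2]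
  intro K u hu
  obtain ⟨k, hk1⟩ := exists_nat_ge (max K 1)
  have hk0 : 0 < k := by
    have : (1 : ℝ) ≤ k := (le_max_right _ _).trans hk1
    exact_mod_cast (zero_lt_one.trans_le this)
  obtain ⟨a, ha, ha'⟩ := hu.lazy hk0 ((le_max_left _ _).trans hk1)
  have e1 : F (fun n => u (N n)) = F (fun n => (k : ℝ) * (a (N n) : ℝ)) :=
    hF _ _ ⟨_, fun n => ha' (N n)⟩
  -- the identity is a walk too
  have hid : RWalk 1 fun n : ℕ => (n : ℝ) :=
    ⟨fun m n h => by exact_mod_cast h, fun n => by push_cast; exact le_rfl,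
      tendsto_natCast_atTop_atTop⟩
  obtain ⟨b, hb, hb'⟩ := hid.lazy hk0 ((le_max_right _ _).trans hk1)
  have e2 : F (fun n => (N n : ℝ)) = F (fun n => (k : ℝ) * (b (N n) : ℝ)) :=
    hF _ _ ⟨_, fun n => hb' (N n)⟩
  rw [e1, e2, hval k a ha, hval k b hb]

/-! ### Homogeneous functions -/

theorem partD (S : (ℕ → ℝ) → ℝ)
    (hS : ∀ v w : ℕ → ℝ, Bdd (fun n => v n - w n) → S v = S w)
    (h2 : ∀ v : ℕ → ℝ, S (fun n => 2 * v n) = 2 * S v) :
    (∀ q : ℚ, TuringInvariant {x | (q : ℝ) < S fun n => (al x n : ℝ)}) ∧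
    ((∀ q : ℚ, Determined {x | (q : ℝ) < S fun n => (al x n : ℝ)}) →
      ∃ v : ℕ → ℝ, Tendsto v atTop atTop ∧ S v = 0) := by
  classical
  obtain ⟨e⟩ : Nonempty (ℕ ≃ ℚ) := ⟨(Denumerable.eqv ℚ).symm⟩
  let Φ : (ℕ → ℕ) → ℕ → Bool := fun a i => decide (((e i : ℚ) : ℝ) < S fun n => (a n : ℝ))
  have hΦ : ∀ a b, Near a b → Φ a = Φ b := by
    intro a b h
    funext i
    have h1 : S (fun n => (a n : ℝ)) = S (fun n => (b n : ℝ)) := by
      refine hS _ _ ?_
      have := near_real h 1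
      simpa using this
    show decide _ = decide _
    rw [h1]
  have hset : ∀ i, {x | Φ (al x) i = true} = {x | ((e i : ℚ) : ℝ) < S fun n => (al x n : ℝ)} := by
    intro i
    ext x
    exact decide_eq_true_iff
  obtain ⟨h3, h4⟩ := master Φ hΦ
  refine ⟨fun q => ?_, fun hD => ?_⟩
  · have := h3 (e.symm q)
    rw [hset, Equiv.apply_symm_apply] at this
    exact this
  · obtain ⟨c, N, hN, hN', hc⟩ := h4 fun i => by rw [hset]; exact hD _
    refine ⟨fun n => (N n : ℝ), tendsto_natCast_atTop_atTop.comp hN, ?_⟩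
    have key : ∀ a b, Lazy a → Lazy b → S (fun n => (a (N n) : ℝ)) = S (fun n => (b (N n) : ℝ)) := by
      intro a b ha hb
      have h5 : ∀ q : ℚ, (q : ℝ) < S (fun n => (a (N n) : ℝ)) ↔ (q : ℝ) < S (fun n => (b (N n) : ℝ)) := by
        intro q
        have e1 := congrFun (hc a ha) (e.symm q)
        have e2 := congrFun (hc b hb) (e.symm q)
        have e3 := e1.trans e2.symm
        simp only [Φ, Equiv.apply_symm_apply] at e3
        exact decide_eq_decide.1 e3
      apply le_antisymm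
      · by_contra hlt
        push Not at hlt
        obtain ⟨q, hq1, hq2⟩ := exists_rat_btwn hlt
        exact absurd ((h5 q).1 hq2) (not_lt.2 hq1.le)
      · by_contra hlt
        push Not at hlt
        obtain ⟨q, hq1, hq2⟩ := exists_rat_btwn hlt
        exact absurd ((h5 q).2 hq2) (not_lt.2 hq1.le)
    have e1 : S (fun n => (N n : ℝ)) = S (fun n => 2 * (((N n) / 2 : ℕ) : ℝ)) := by
      refine hS _ _ ⟨1, fun n => ?_⟩
      have h6 : ((N n) / 2 : ℕ) * 2 ≤ N n := Nat.div_mul_le_self _ _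
      have h7 : N n ≤ ((N n) / 2 : ℕ) * 2 + 1 := by omega
      have h8 : (((N n) / 2 : ℕ) : ℝ) * 2 ≤ N n := by exact_mod_cast h6
      have h9 : (N n : ℝ) ≤ (((N n) / 2 : ℕ) : ℝ) * 2 + 1 := by exact_mod_cast h7
      rw [abs_le]
      constructor <;> linarith
    have e2 := h2 fun n => (((N n) / 2 : ℕ) : ℝ)
    have e3 := key _ _ lazy_id lazy_half
    rw [e2] at e1
    linarith

/-! ### Additive maps -/

theorem partC {H : Type*} [AddGroup H] (κ : H → ℕ → Bool) (hκ : Function.Injective κ)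
    (φ : (ℕ → ℝ) → H) (hadd : ∀ u v : ℕ → ℝ, φ (u + v) = φ u + φ v)
    (hb : ∀ u, Bdd u → φ u = 0) :
    (∀ i, TuringInvariant {x | κ (φ fun n => (al x n : ℝ)) i = true}) ∧
    ((∀ i, Determined {x | κ (φ fun n => (al x n : ℝ)) i = true}) →
      ∃ N : ℕ → ℕ, Tendsto N atTop atTop ∧ Function.Surjective N ∧
        ∀ f : ℕ → ℝ, (∃ C, ∀ n, |f (n + 1) - f n| ≤ C) → φ (fun n => f (N n)) = 0) := by
  have hinv : ∀ v w : ℕ → ℝ, Bdd (fun n => v n - w n) → φ v = φ w := by
    intro v w h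
    have h1 : v = (fun n => v n - w n) + w := by
      funext n
      simp
    rw [h1, hadd, hb _ h, zero_add]
  let ψ : (ℕ → ℝ) →+ H := AddMonoidHom.mk' φ hadd
  let Φ : (ℕ → ℕ) → ℕ → Bool := fun a => κ (φ fun n => (a n : ℝ))
  have hΦ : ∀ a b, Near a b → Φ a = Φ b := by
    intro a b h
    show κ _ = κ _
    congr 1
    refine hinv _ _ ?_
    have := near_real h 1
    simpa using this
  obtain ⟨h1, h2⟩ := master Φ hΦ
  refine ⟨h1, fun hD => ?_⟩
  obtain ⟨c, N, hN, hN', hc⟩ := h2 hD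
  refine ⟨N, hN, hN', ?_⟩
  have key : ∀ a b, Lazy a → Lazy b → φ (fun n => (a (N n) : ℝ)) = φ (fun n => (b (N n) : ℝ)) :=
    fun a b ha hb => hκ ((hc a ha).trans (hc b hb).symm)
  -- small steps
  have small : ∀ f : ℕ → ℝ, (∀ n, |f (n + 1) - f n| ≤ 1 / 4) → φ (fun n => f (N n)) = 0 := by
    intro f hf
    have hu : RWalk 1 fun n : ℕ => (n : ℝ) / 2 + f n := by
      refine ⟨monotone_nat_of_le_succ fun n => ?_, fun n => ?_, ?_⟩
      · have := (abs_le.1 (hf n)).1
        push_cast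
        linarith
      · have := (abs_le.1 (hf n)).2
        push_cast
        linarith
      · have h3 : ∀ n : ℕ, f 0 + (n : ℝ) / 4 ≤ (n : ℝ) / 2 + f n := by
          intro n
          induction n with
          | zero => simp
          | succ n ih =>
            have := (abs_le.1 (hf n)).1
            push_cast
            linarith
        refine tendsto_atTop_mono h3 ?_
        exact tendsto_atTop_add_const_left _ _
          (tendsto_natCast_atTop_atTop.atTop_div_const (by norm_num))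
    obtain ⟨a, ha, ha'⟩ := hu.lazy (k := 1) one_pos (by norm_num)
    have e1 : φ (fun n => (N n : ℝ) / 2 + f (N n)) = φ (fun n => (a (N n) : ℝ)) := by
      refine hinv _ _ ⟨|((0 : ℕ) : ℝ) / 2 + f 0| + ((1 : ℕ) : ℝ), fun n => ?_⟩
      have := ha' (N n)
      rw [Nat.cast_one, one_mul] at this
      rw [Nat.cast_one]
      exact this
    have e2 : φ (fun n => (N n : ℝ) / 2) = φ (fun n => (((N n) / 2 : ℕ) : ℝ)) := by
      refine hinv _ _ ⟨1, fun n => ?_⟩
      have h6 : ((N n) / 2 : ℕ) * 2 ≤ N n := Nat.div_mul_le_self _ _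
      have h7 : N n ≤ ((N n) / 2 : ℕ) * 2 + 1 := by omega
      have h8 : (((N n) / 2 : ℕ) : ℝ) * 2 ≤ N n := by exact_mod_cast h6
      have h9 : (N n : ℝ) ≤ (((N n) / 2 : ℕ) : ℝ) * 2 + 1 := by exact_mod_cast h7
      rw [abs_le]
      constructor <;> linarith
    have e3 := hadd (fun n => (N n : ℝ) / 2) (fun n => f (N n))
    have e4 : ((fun n => (N n : ℝ) / 2) + fun n => f (N n)) =
        fun n => (N n : ℝ) / 2 + f (N n) := rfl
    rw [e4, e1, e2, key a _ ha lazy_half] at e3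
    exact (left_eq_add.1 e3)
  intro f ⟨C, hf⟩
  obtain ⟨k, hk⟩ := exists_nat_ge (max (4 * C) 1)
  have hk0 : (0 : ℝ) < k := zero_lt_one.trans_le ((le_max_right _ _).trans hk)
  have h3 : φ (fun n => f (N n) / k) = 0 := by
    refine small (fun n => f n / k) fun n => ?_
    rw [← sub_div, abs_div, abs_of_pos hk0, div_le_iff₀ hk0]
    have := hf n
    have := (le_max_left (4 * C) 1).trans hk
    linarith
  have h4 : (fun n => f (N n)) = k • fun n => f (N n) / k := by
    funext n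
    simp only [Pi.smul_apply, nsmul_eq_mul]
    field_simp
  have h5 : ψ (k • fun n => f (N n) / k) = k • ψ (fun n => f (N n) / k) := map_nsmul ψ k _
  have h6 : φ (k • fun n => f (N n) / k) = k • φ (fun n => f (N n) / k) := h5
  rw [h4, h6, h3, smul_zero]

end Pool.Agent.V11217.TDB
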