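import Pool.Agent.V11217.TDC
import Pool.Agent.TH774.TD.Add

set_option autoImplicit false

namespace Pool.Agent.V11217.TDB

open Pool.Agent.Helper227 Pool.Agent.H685R3 Pool.Agent.TH774.TD
open Filter Topology

/-- The spiral. -/
noncomputable def sp (k : ℕ) : ℝ := √(k : ℝ) * Real.cos (√(k : ℝ))

theorem cos_close {u v : ℝ} (hu : 0 ≤ u) (huv : u ≤ v) (h : v ^ 2 ≤ u ^ 2 + 1) :
    |v * Real.cos v - u * Real.cos u| ≤ 2 := by
  have h1 : (v - u) * (v + u) ≤ 1 := by nlinarith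
  have h2 : v - u ≤ 1 := by nlinarith
  have h3 : u * (v - u) ≤ 1 := by nlinarith
  have h4 : |Real.cos v - Real.cos u| ≤ v - u := by
    have := Real.abs_cos_sub_cos_le v u
    rwa [abs_of_nonneg (by linarith : (0 : ℝ) ≤ v - u)] at this
  have h5 : v * Real.cos v - u * Real.cos u =
      (v - u) * Real.cos v + u * (Real.cos v - Real.cos u) := by ring
  rw [h5]
  calc |(v - u) * Real.cos v + u * (Real.cos v - Real.cos u)|
      ≤ |(v - u) * Real.cos v| + |u * (Real.cos v - Real.cos u)| := abs_add_le _ _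
    _ ≤ (v - u) * 1 + u * (v - u) := by
        rw [abs_mul, abs_mul, abs_of_nonneg (by linarith : (0 : ℝ) ≤ v - u), abs_of_nonneg hu]
        have := Real.abs_cos_le_one v
        gcongr
    _ ≤ 2 := by linarith

theorem sp_step (k : ℕ) : |sp (k + 1) - sp k| ≤ 2 := by
  unfold sp
  refine cos_close (Real.sqrt_nonneg _) (Real.sqrt_le_sqrt (by push_cast; linarith)) ?_
  rw [Real.sq_sqrt (Nat.cast_nonneg _), Real.sq_sqrt (Nat.cast_nonneg _)]
  push_cast
  exact le_rfl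

theorem sp_near {a b : ℕ → ℕ} (h : Near a b) : Bdd fun n => sp (a n) - sp (b n) := by
  refine bdd_of_eventually (C := 2) (h.mono fun m hm => ?_)
  obtain h1 | h1 | h1 : a m = b m ∨ a m = b m + 1 ∨ b m = a m + 1 := by omega
  · rw [h1, sub_self, abs_zero]
    norm_num
  · rw [h1]
    exact sp_step _
  · rw [h1, abs_sub_comm]
    exact sp_step _

theorem sp_disc {θ : ℝ → ℝ} {n : ℕ} (h : 0 ≤ θ √(n : ℝ)) :
    |θ √(n : ℝ) * Real.cos (θ √(n : ℝ)) - sp (disc θ n)| ≤ 2 := by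
  unfold sp
  have h3 : (disc θ n : ℝ) ≤ θ (√(n : ℝ)) ^ 2 := Nat.floor_le (by positivity)
  have h4 : θ (√(n : ℝ)) ^ 2 < disc θ n + 1 := Nat.lt_floor_add_one _
  refine cos_close (Real.sqrt_nonneg _) ?_ ?_
  · rw [← Real.sqrt_sq h]
    exact Real.sqrt_le_sqrt h3
  · rw [Real.sq_sqrt (Nat.cast_nonneg _)]
    exact h4.le

/-- The two sequences spanning the circle. -/
noncomputable def cq (N : ℕ → ℕ) (n : ℕ) : ℝ := √(N n : ℝ) * Real.cos (√(N n : ℝ))
noncomputable def sq' (N : ℕ → ℕ) (n : ℕ) : ℝ := √(N n : ℝ) * Real.sin (√(N n : ℝ))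

theorem indep {N : ℕ → ℕ} (hN : Function.Surjective N) {a b : ℝ}
    (h : Bdd fun n => a * cq N n + b * sq' N n) : a = 0 ∧ b = 0 := by
  by_contra hab
  have hz : (⟨a, b⟩ : ℂ) ≠ 0 := by
    intro h0
    apply hab
    have h1 := congrArg Complex.re h0
    have h2 := congrArg Complex.im h0
    simpa using ⟨h1, h2⟩
  set z : ℂ := ⟨a, b⟩ with hzdef
  have hpos : 0 < ‖z‖ := norm_pos_iff.2 hz
  have ha : ‖z‖ * Real.cos (Complex.arg z) = a := Complex.norm_mul_cos_arg z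
  have hb : ‖z‖ * Real.sin (Complex.arg z) = b := Complex.norm_mul_sin_arg z
  obtain ⟨M, hM⟩ := h
  set φ : ℝ := Complex.arg z with hφ
  obtain ⟨j, hj⟩ := exists_nat_ge (max 2 (2 * (M + 1) / ‖z‖ + 2) - φ)
  -- the large argument
  set x : ℝ := φ + j * (2 * Real.pi) with hx
  have hxj : φ + j ≤ x := by
    have h1 : (1 : ℝ) ≤ 2 * Real.pi := by linarith [Real.pi_gt_three]
    have h2 : (0 : ℝ) ≤ j := Nat.cast_nonneg _
    have h3 : (j : ℝ) * 1 ≤ j * (2 * Real.pi) := mul_le_mul_of_nonneg_left h1 h2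
    rw [hx]
    linarith
  have hx2 : 2 ≤ x := by
    have := le_max_left 2 (2 * (M + 1) / ‖z‖ + 2)
    linarith
  have hxM : 2 * (M + 1) / ‖z‖ + 2 ≤ x := by
    have := le_max_right 2 (2 * (M + 1) / ‖z‖ + 2)
    linarith
  obtain ⟨m, hm⟩ := hN ⌊x ^ 2⌋₊
  have h3 : ((⌊x ^ 2⌋₊ : ℕ) : ℝ) ≤ x ^ 2 := Nat.floor_le (by positivity)
  have h4 : x ^ 2 < (⌊x ^ 2⌋₊ : ℕ) + 1 := Nat.lt_floor_add_one _
  set s : ℝ := √(N m : ℝ) with hs
  have hs2 : s ^ 2 = (⌊x ^ 2⌋₊ : ℕ) := by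
    rw [hs, Real.sq_sqrt (Nat.cast_nonneg _), hm]
  have hs0 : 0 ≤ s := Real.sqrt_nonneg _
  have hsx : s ≤ x := by nlinarith
  have hsx' : x - s ≤ 1 := by nlinarith
  have hcos : 1 / 2 ≤ Real.cos (s - x) := by
    have := Real.one_sub_sq_div_two_le_cos (x := s - x)
    nlinarith
  have hval : a * cq N m + b * sq' N m = ‖z‖ * s * Real.cos (s - x) := by
    have h5 : Real.cos (s - x) = Real.cos (s - φ) := by
      rw [hx, ← sub_sub, Real.cos_sub_nat_mul_two_pi]
    rw [h5, Real.cos_sub, ← ha, ← hb]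
    unfold cq sq'
    rw [← hs]
    ring
  have h6 : |a * cq N m + b * sq' N m| ≤ M := hM m
  rw [hval] at h6
  have h7 : ‖z‖ * s * Real.cos (s - x) ≤ M := (le_abs_self _).trans h6
  have h8 : 2 * (M + 1) / ‖z‖ + 1 ≤ s := by linarith
  have h9 : 2 * (M + 1) + ‖z‖ ≤ ‖z‖ * s := by
    have := mul_le_mul_of_nonneg_left h8 hpos.le
    rw [mul_add, mul_div_cancel₀ _ hpos.ne', mul_one] at this
    exact this
  have h10 : ‖z‖ * s * (1 / 2) ≤ ‖z‖ * s * Real.cos (s - x) :=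
    mul_le_mul_of_nonneg_left hcos (by positivity)
  linarith

theorem partB {X : Type*} (κ : X → ℕ → Bool) (hκ : Function.Injective κ) (F : (ℕ → ℝ) → X)
    (hF : ∀ v w : ℕ → ℝ, Bdd (fun n => v n - w n) → F v = F w) :
    (∀ i : ℕ, TuringInvariant {x | κ (F fun n => sp (al x n)) i = true}) ∧
    ((∀ i : ℕ, Determined {x | κ (F fun n => sp (al x n)) i = true}) →
      ∃ C S : ℕ → ℝ, (∀ a b : ℝ, Bdd (fun n => a * C n + b * S n) → a = 0 ∧ b = 0) ∧
        ∀ t : ℝ, F (fun n => Real.cos t * C n + Real.sin t * S n) = F C) := by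
  let Φ : (ℕ → ℕ) → ℕ → Bool := fun a => κ (F fun n => sp (a n))
  have hΦ : ∀ a b, Near a b → Φ a = Φ b := by
    intro a b h
    show κ _ = κ _
    rw [hF _ _ (sp_near h)]
  obtain ⟨h1, h2⟩ := master Φ hΦ
  refine ⟨h1, fun hD => ?_⟩
  obtain ⟨c, N, hN, hN', hc⟩ := h2 hD
  refine ⟨cq N, sq' N, fun a b h => indep hN' h, ?_⟩
  have key : ∀ t : ℝ, 0 ≤ t →
      F (fun n => Real.cos t * cq N n + Real.sin t * sq' N n) = F (fun n => sp (N n)) := by
    intro t ht
    have h3 := (hc _ (lazy_disc (nice_shift ht))).trans (hc _ lazy_id).symm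
    have h4 : F (fun n => sp (disc (fun x => max (x - t) 0) (N n))) = F (fun n => sp (N n)) := hκ h3
    rw [← h4]
    refine hF _ _ (bdd_of_eventually (C := t + 2) ?_)
    have h5 : Tendsto (fun n => √(N n : ℝ)) atTop atTop :=
      tendsto_sqrt_nat.comp hN
    filter_upwards [h5.eventually_ge_atTop t] with n hn
    have h6 : max (√(N n : ℝ) - t) 0 = √(N n : ℝ) - t := max_eq_left (by linarith)
    have h7 := sp_disc (θ := fun x => max (x - t) 0) (n := N n) (le_max_right _ _)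
    simp only [h6] at h7
    have h8 : Real.cos t * cq N n + Real.sin t * sq' N n =
        √(N n : ℝ) * Real.cos (√(N n : ℝ) - t) := by
      rw [Real.cos_sub]
      unfold cq sq'
      ring
    have h9 : |t * Real.cos (√(N n : ℝ) - t)| ≤ t := by
      rw [abs_mul, abs_of_nonneg ht]
      have := Real.abs_cos_le_one (√(N n : ℝ) - t)
      nlinarith
    have h10 : Real.cos t * cq N n + Real.sin t * sq' N n -
        sp (disc (fun x => max (x - t) 0) (N n)) =
        t * Real.cos (√(N n : ℝ) - t) + ((√(N n : ℝ) - t) * Real.cos (√(N n : ℝ) - t) -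
          sp (disc (fun x => max (x - t) 0) (N n))) := by
      rw [h8]
      ring
    rw [h10]
    exact (abs_add_le _ _).trans (add_le_add h9 h7)
  intro t
  have hC : F (cq N) = F (fun n => sp (N n)) := rfl
  obtain ⟨j, hj⟩ := exists_nat_ge (-t)
  have h3 : 0 ≤ t + j * (2 * Real.pi) := by
    have h1 : (1 : ℝ) ≤ 2 * Real.pi := by linarith [Real.pi_gt_three]
    have h2 : (0 : ℝ) ≤ j := Nat.cast_nonneg _
    have h3 : (j : ℝ) * 1 ≤ j * (2 * Real.pi) := mul_le_mul_of_nonneg_left h1 h2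
    linarith
  have h4 := key _ h3
  rw [Real.cos_add_nat_mul_two_pi, Real.sin_add_nat_mul_two_pi] at h4
  rw [h4, hC]

end Pool.Agent.V11217.TDB
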