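import Pool.Agent.TH774.TD.Add

/-! Turing determinacy and modules over bounded sequences modulo null sequences. -/

set_option autoImplicit false

namespace Pool.Agent.V11217.TDK

open Pool.Agent.H685R3 Pool.Agent.TH774.TD Filter Topology

/-- bounded real sequences -/
def Bd (c : ℕ → ℝ) : Prop := ∃ C : ℝ, ∀ n, |c n| ≤ C

theorem rho_abs (x : ℕ → Bool) (n : ℕ) : |rho x n| ≤ 1 := by
  have h1 := wv_mem (sq x n)
  rw [abs_le]
  exact ⟨by have := h1.1; unfold rho; linarith, h1.2⟩

theorem rho_bd (x : ℕ → Bool) : Bd (rho x) := ⟨1, rho_abs x⟩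

/-- the principle -/
theorem principle {H : Type*} [AddGroup H] (κ : H → ℕ → Bool) (hκ : Function.Injective κ)
    (ψ : (ℕ → ℝ) → H) (hadd : ∀ u v, Bd u → Bd v → ψ (u + v) = ψ u + ψ v)
    (hnull : ∀ u, Tendsto u atTop (𝓝 0) → ψ u = 0) :
    (∀ i, TuringInvariant {x | κ (ψ (rho x)) i = true}) ∧
      ((∀ i, Determined {x | κ (ψ (rho x)) i = true}) → ψ (fun _ => 1) = 0) := by
  have hnb : ∀ u : ℕ → ℝ, Tendsto u atTop (𝓝 0) → Bd u := by
    intro u hu
    obtain ⟨C, hC⟩ := (Metric.isBounded_range_of_tendsto u hu).exists_norm_le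
    exact ⟨C, fun n => hC _ ⟨n, rfl⟩⟩
  have key : ∀ a b : ℕ → ℝ, Bd b → Tendsto (fun n => a n - b n) atTop (𝓝 0) → ψ a = ψ b := by
    intro a b hb' h
    have h1 : a = (fun n => a n - b n) + b := by
      funext n
      simp
    rw [h1, hadd _ _ (hnb _ h) hb', hnull _ h, zero_add]
  have hinv : ∀ x y, TuringReducible (charFn x) (charFn y) →
      TuringReducible (charFn y) (charFn x) → ψ (rho x) = ψ (rho y) := fun x y h1 h2 =>
    key _ _ (rho_bd y) (rho_close h1 h2)
  refine ⟨fun i x y h1 h2 hx => ?_, fun hD => ?_⟩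
  · change κ _ i = true at hx
    change κ _ i = true
    rw [← hinv x y h1 h2]
    exact hx
  · obtain ⟨z, hz⟩ := const_on_cone (S := fun i => {x | κ (ψ (rho x)) i = true})
      (fun i x y h1 h2 hx => by
        change κ _ i = true at hx
        change κ _ i = true
        rw [← hinv x y h1 h2]
        exact hx) hD
    have hconst : ∀ y, Pool.Agent.Helper227.TLe z y → ψ (rho y) = ψ (rho z) := by
      intro y hy
      refine hκ (funext fun i => ?_)
      rcases hz i with h | h
      · have h1 : κ (ψ (rho y)) i = true := h y hy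
        have h2 : κ (ψ (rho z)) i = true := h z (Pool.Agent.Helper227.TLe.refl z)
        rw [h1, h2]
      · have h1 : ¬ κ (ψ (rho y)) i = true := h y hy
        have h2 : ¬ κ (ψ (rho z)) i = true := h z (Pool.Agent.Helper227.TLe.refl z)
        rw [Bool.not_eq_true] at h1 h2
        rw [h1, h2]
    obtain ⟨y₁, y₂, y₃, y₄, h1, h2, h3, h4, h5, h6⟩ := partitions z
    have hsum : ∀ x y : ℕ → Bool, Bd (rho x + rho y) := fun x y =>
      ⟨2, fun n => by
        have e1 := rho_abs x n
        have e2 := rho_abs y n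
        have e3 := abs_add_le (rho x n) (rho y n)
        simp only [Pi.add_apply]
        linarith⟩
    have e1 : ψ (rho z) = ψ (rho z) + ψ (rho z) := by
      have h7 : ψ (rho y₁) = ψ (rho y₂ + rho y₃) := by
        refine key _ _ (hsum _ _) (h5.congr fun n => ?_)
        simp only [Pi.add_apply]
      rw [hadd _ _ (rho_bd y₂) (rho_bd y₃), hconst _ h1, hconst _ h2, hconst _ h3] at h7
      exact h7
    have e2 : ψ (fun _ => 1) = ψ (rho z) + ψ (rho z) := by
      have h7 : ψ (fun _ => 1) = ψ (rho y₁ + rho y₄) := by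
        refine key _ _ (hsum _ _) (h6.congr fun n => ?_)
        simp only [Pi.add_apply]
      rw [hadd _ _ (rho_bd y₁) (rho_bd y₄), hconst _ h1, hconst _ h4] at h7
      exact h7
    have e3 : ψ (rho z) = 0 := by
      have h7 : ψ (rho z) + 0 = ψ (rho z) + ψ (rho z) := by rw [add_zero]; exact e1
      exact (add_left_cancel h7).symm
    rw [e2, e3, add_zero]

end Pool.Agent.V11217.TDK
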