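import Pool.Agent.V11217.TDK

/-! Operators into sequence spaces, modulo compact operators. -/

set_option autoImplicit false

namespace Pool.Agent.V11217.TDK

open Pool.Agent.H685R3 Pool.Agent.TH774.TD Filter Topology ENNReal

section op

variable {𝕜 : Type*} [RCLike 𝕜] {p : ℝ≥0∞}

theorem toReal_pos (h1 : 1 ≤ p) (hp : p ≠ ∞) : 0 < p.toReal :=
  ENNReal.toReal_pos (by
    intro h
    rw [h] at h1
    exact absurd h1 (by simp)) hp

theorem sum_le (hp : 0 < p.toReal) {c : ℕ → ℝ} {C : ℝ} (hC : 0 ≤ C) (h : ∀ n, |c n| ≤ C)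
    (x : lp (fun _ : ℕ => 𝕜) p) (s : Finset ℕ) :
    ∑ i ∈ s, ‖(c i : 𝕜) * x i‖ ^ p.toReal ≤ (C * ‖x‖) ^ p.toReal := by
  calc ∑ i ∈ s, ‖(c i : 𝕜) * x i‖ ^ p.toReal ≤ ∑ i ∈ s, C ^ p.toReal * ‖x i‖ ^ p.toReal := by
        refine Finset.sum_le_sum fun i _ => ?_
        rw [← Real.mul_rpow hC (norm_nonneg _)]
        refine Real.rpow_le_rpow (norm_nonneg _) ?_ hp.le
        rw [norm_mul, RCLike.norm_ofReal]
        exact mul_le_mul_of_nonneg_right (h i) (norm_nonneg _)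
    _ = C ^ p.toReal * ∑ i ∈ s, ‖x i‖ ^ p.toReal := by rw [Finset.mul_sum]
    _ ≤ C ^ p.toReal * ‖x‖ ^ p.toReal :=
        mul_le_mul_of_nonneg_left (lp.sum_rpow_le_norm_rpow hp x s) (by positivity)
    _ = (C * ‖x‖) ^ p.toReal := (Real.mul_rpow hC (lp.norm_nonneg' x)).symm

/-- the multiplication operator exists, with its norm bound -/
theorem exists_mul [Fact (1 ≤ p)] (hp : 0 < p.toReal) {c : ℕ → ℝ} {C : ℝ} (hC : 0 ≤ C)
    (h : ∀ n, |c n| ≤ C) :
    ∃ M : lp (fun _ : ℕ => 𝕜) p →L[𝕜] lp (fun _ : ℕ => 𝕜) p,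
      (∀ x n, (M x) n = (c n : 𝕜) * x n) ∧ ‖M‖ ≤ C := by
  let L : lp (fun _ : ℕ => 𝕜) p →ₗ[𝕜] lp (fun _ : ℕ => 𝕜) p :=
    { toFun := fun x => ⟨fun n => (c n : 𝕜) * x n, memℓp_gen' fun s => sum_le hp hC h x s⟩
      map_add' := fun x y => by
        ext n
        simp [mul_add]
      map_smul' := fun a x => by
        ext n
        simp
        ring }
  have hb : ∀ x, ‖L x‖ ≤ C * ‖x‖ := fun x =>
    lp.norm_le_of_forall_sum_le hp (by positivity) fun s => sum_le hp hC h x s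
  exact ⟨L.mkContinuous C hb, fun x n => rfl, L.mkContinuous_norm_le hC hb⟩

/-- multiplication by a bounded sequence -/
noncomputable def mulOp (𝕜 : Type*) [RCLike 𝕜] (p : ℝ≥0∞) [Fact (1 ≤ p)] (c : ℕ → ℝ) :
    lp (fun _ : ℕ => 𝕜) p →L[𝕜] lp (fun _ : ℕ => 𝕜) p := by
  classical
  exact if h : ∃ M : lp (fun _ : ℕ => 𝕜) p →L[𝕜] lp (fun _ : ℕ => 𝕜) p,
    ∀ x n, (M x) n = (c n : 𝕜) * x n then h.choose else 0

variable [Fact (1 ≤ p)]

theorem mulOp_apply (hp : 0 < p.toReal) {c : ℕ → ℝ} (hc : Bd c) (x : lp (fun _ : ℕ => 𝕜) p) (n : ℕ) :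
    (mulOp 𝕜 p c x) n = (c n : 𝕜) * x n := by
  obtain ⟨C, hC⟩ := hc
  obtain ⟨M, hM, _⟩ := exists_mul (𝕜 := 𝕜) hp ((abs_nonneg _).trans (hC 0)) hC
  have h : ∃ M : lp (fun _ : ℕ => 𝕜) p →L[𝕜] lp (fun _ : ℕ => 𝕜) p,
    ∀ x n, (M x) n = (c n : 𝕜) * x n := ⟨M, hM⟩
  unfold mulOp
  rw [dif_pos h]
  exact h.choose_spec x n

theorem mulOp_norm (hp : 0 < p.toReal) {c : ℕ → ℝ} {C : ℝ} (hC : 0 ≤ C) (h : ∀ n, |c n| ≤ C) :
    ‖mulOp 𝕜 p c‖ ≤ C := by
  obtain ⟨M, hM, hM2⟩ := exists_mul (𝕜 := 𝕜) hp hC h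
  have : mulOp 𝕜 p c = M := by
    ext x n
    rw [mulOp_apply hp ⟨C, h⟩, hM]
  rw [this]
  exact hM2

theorem mulOp_add (hp : 0 < p.toReal) {c d : ℕ → ℝ} (hc : Bd c) (hd : Bd d) :
    mulOp 𝕜 p (c + d) = mulOp 𝕜 p c + mulOp 𝕜 p d := by
  have hcd : Bd (c + d) := by
    obtain ⟨C, hC⟩ := hc
    obtain ⟨D, hD⟩ := hd
    exact ⟨C + D, fun n => (abs_add_le _ _).trans (add_le_add (hC n) (hD n))⟩
  ext x n
  rw [mulOp_apply hp hcd]
  change ((c n + d n : ℝ) : 𝕜) * x n = (mulOp 𝕜 p c x) n + (mulOp 𝕜 p d x) n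
  rw [mulOp_apply hp hc, mulOp_apply hp hd, RCLike.ofReal_add, add_mul]

theorem mulOp_one (hp : 0 < p.toReal) :
    mulOp 𝕜 p (fun _ => 1) = ContinuousLinearMap.id 𝕜 (lp (fun _ : ℕ => 𝕜) p) := by
  ext x n
  rw [mulOp_apply hp ⟨1, fun n => by simp⟩]
  simp

/-- evaluation -/
noncomputable def ev (𝕜 : Type*) [RCLike 𝕜] (p : ℝ≥0∞) [Fact (1 ≤ p)] (n : ℕ) :
    lp (fun _ : ℕ => 𝕜) p →L[𝕜] 𝕜 :=
  LinearMap.mkContinuous
    { toFun := fun x => x n
      map_add' := fun x y => rfl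
      map_smul' := fun a x => rfl } 1 (fun x => by
        rw [one_mul]
        exact lp.norm_apply_le_norm (by
          have : (1 : ℝ≥0∞) ≤ p := Fact.out
          intro h
          rw [h] at this
          exact absurd this (by simp)) x n)

theorem mulOp_finite (hp : 0 < p.toReal) (c : ℕ → ℝ) (N : ℕ) :
    IsCompactOperator (mulOp 𝕜 p fun n => if n < N then c n else 0) := by
  have hb : Bd (fun n => if n < N then c n else 0) := by
    refine ⟨∑ i ∈ Finset.range N, |c i|, fun n => ?_⟩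
    beta_reduce
    split_ifs with h
    · exact Finset.single_le_sum (f := fun i => |c i|) (fun i _ => abs_nonneg _)
        (Finset.mem_range.2 h)
    · rw [abs_zero]
      exact Finset.sum_nonneg fun i _ => abs_nonneg _
  have e : mulOp 𝕜 p (fun n => if n < N then c n else 0) =
      ∑ i ∈ Finset.range N, (c i : 𝕜) •
        ((lp.singleContinuousLinearMap 𝕜 (fun _ : ℕ => 𝕜) p i).comp (ev 𝕜 p i)) := by
    ext x n
    rw [mulOp_apply hp hb]
    rw [ContinuousLinearMap.sum_apply]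
    change _ = ev 𝕜 p n _
    rw [map_sum]
    have h1 : ∀ i ∈ Finset.range N, ev 𝕜 p n (((c i : 𝕜) •
        ((lp.singleContinuousLinearMap 𝕜 (fun _ : ℕ => 𝕜) p i).comp (ev 𝕜 p i))) x) =
        if i = n then (c i : 𝕜) * x i else 0 := by
      intro i _
      change (c i : 𝕜) • (lp.single p i (x i) : lp (fun _ : ℕ => 𝕜) p) n = _
      split_ifs with h
      · subst h
        rw [lp.single_apply_self, smul_eq_mul]
      · rw [lp.single_apply_ne _ _ _ (Ne.symm h), smul_zero]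
    rw [Finset.sum_congr rfl h1, Finset.sum_ite_eq' (Finset.range N) n]
    by_cases h : n < N
    · rw [if_pos h, if_pos (Finset.mem_range.2 h)]
    · rw [if_neg h, if_neg (fun h' => h (Finset.mem_range.1 h')), RCLike.ofReal_zero, zero_mul]
  rw [e]
  have hsum : ∀ s : Finset ℕ, (∑ i ∈ s, (c i : 𝕜) •
        ((lp.singleContinuousLinearMap 𝕜 (fun _ : ℕ => 𝕜) p i).comp (ev 𝕜 p i))) ∈
        compactOperator (RingHom.id 𝕜) (lp (fun _ : ℕ => 𝕜) p) (lp (fun _ : ℕ => 𝕜) p) := by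
    intro s
    refine Submodule.sum_mem _ fun a _ => Submodule.smul_mem _ _ ?_
    have h1 : IsCompactOperator (ev 𝕜 p a) := isCompactOperator_of_locallyCompactSpace_dom (ev 𝕜 p a)
    exact h1.clm_comp (lp.singleContinuousLinearMap 𝕜 (fun _ : ℕ => 𝕜) p a)
  exact hsum _

theorem mulOp_compact (hp : 0 < p.toReal) {c : ℕ → ℝ} (hc : Tendsto c atTop (𝓝 0)) :
    IsCompactOperator (mulOp 𝕜 p c) := by
  have hcb : Bd c := by
    obtain ⟨C, hC⟩ := (Metric.isBounded_range_of_tendsto c hc).exists_norm_le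
    exact ⟨C, fun n => hC _ ⟨n, rfl⟩⟩
  have hcl : IsClosed {f : lp (fun _ : ℕ => 𝕜) p →L[𝕜] lp (fun _ : ℕ => 𝕜) p | IsCompactOperator f} :=
    isClosed_setOf_isCompactOperator
  have hmem : mulOp 𝕜 p c ∈
      closure {f : lp (fun _ : ℕ => 𝕜) p →L[𝕜] lp (fun _ : ℕ => 𝕜) p | IsCompactOperator f} := by
    rw [Metric.mem_closure_iff]
    intro ε hε
    obtain ⟨N, hN⟩ := Metric.tendsto_atTop.1 hc (ε / 2) (by positivity)
    refine ⟨mulOp 𝕜 p (fun n => if n < N then c n else 0), mulOp_finite hp c N, ?_⟩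
    have h1 : Bd (fun n => if n < N then c n else 0) := by
      obtain ⟨C, hC⟩ := hcb
      refine ⟨C, fun n => ?_⟩
      beta_reduce
      split_ifs with h
      · exact hC n
      · rw [abs_zero]
        exact (abs_nonneg _).trans (hC 0)
    have h2 : ∀ n, |if n < N then 0 else c n| ≤ ε / 2 := by
      intro n
      split_ifs with h
      · rw [abs_zero]
        positivity
      · have := hN n (not_lt.1 h)
        rw [Real.dist_eq, sub_zero] at this
        exact this.le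
    have h3 : mulOp 𝕜 p c = mulOp 𝕜 p (fun n => if n < N then c n else 0) +
        mulOp 𝕜 p (fun n => if n < N then 0 else c n) := by
      rw [← mulOp_add hp h1 ⟨_, h2⟩]
      congr 1
      funext n
      simp only [Pi.add_apply]
      split_ifs <;> simp
    rw [dist_eq_norm, h3, add_sub_cancel_left]
    exact (mulOp_norm hp (by positivity) h2).trans_lt (by linarith)
  rw [hcl.closure_eq] at hmem
  exact hmem

end op

end Pool.Agent.V11217.TDK
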