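import Pool.Agent.V11217.TDL

/-! Turing determinacy and invariants of bounded sequences modulo null sequences. -/

set_option autoImplicit false

namespace Pool.Agent.V11217.TDK

open Pool.Agent.H685R3 Pool.Agent.TH774.TD Filter Topology

/-- the principle for arbitrary invariants -/
theorem colours {C : Type*} (κ : C → ℕ → Bool) (hκ : Function.Injective κ)
    (ψ : (ℕ → ℝ) → C)
    (hnull : ∀ u v, Bd u → Bd v → Tendsto (fun n => u n - v n) atTop (𝓝 0) → ψ u = ψ v) :
    (∀ i, TuringInvariant {x | κ (ψ (rho x)) i = true}) ∧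
      ((∀ i, Determined {x | κ (ψ (rho x)) i = true}) →
        ∃ x₁ x₂ x₃ x₄ : ℕ → Bool, ψ (rho x₂) = ψ (rho x₁) ∧ ψ (rho x₃) = ψ (rho x₁) ∧
          ψ (rho x₄) = ψ (rho x₁) ∧
          Tendsto (fun n => rho x₁ n - (rho x₂ n + rho x₃ n)) atTop (𝓝 0) ∧
          Tendsto (fun n => 1 - (rho x₁ n + rho x₄ n)) atTop (𝓝 0)) := by
  have hinv : ∀ x y, TuringReducible (charFn x) (charFn y) →
      TuringReducible (charFn y) (charFn x) → ψ (rho x) = ψ (rho y) := fun x y h1 h2 =>
    hnull _ _ (rho_bd x) (rho_bd y) (rho_close h1 h2)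
  refine ⟨fun i x y h1 h2 hx => ?_, fun hD => ?_⟩
  · change κ _ i = true at hx
    change κ _ i = true
    rw [← hinv x y h1 h2]
    exact hx
  · obtain ⟨z, hz⟩ := const_on_cone (S := fun i => {x | κ (ψ (rho x)) i = true})
      (fun i x y h1 h2 hx => by
        change κ _ i = true at hx
        change κ _ i = true
        rw [← hinv x y h1 h2]
        exact hx) hD
    have hconst : ∀ y, Pool.Agent.Helper227.TLe z y → ψ (rho y) = ψ (rho z) := by
      intro y hy
      refine hκ (funext fun i => ?_)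
      rcases hz i with h | h
      · have h1 : κ (ψ (rho y)) i = true := h y hy
        have h2 : κ (ψ (rho z)) i = true := h z (Pool.Agent.Helper227.TLe.refl z)
        rw [h1, h2]
      · have h1 : ¬ κ (ψ (rho y)) i = true := h y hy
        have h2 : ¬ κ (ψ (rho z)) i = true := h z (Pool.Agent.Helper227.TLe.refl z)
        rw [Bool.not_eq_true] at h1 h2
        rw [h1, h2]
    obtain ⟨y₁, y₂, y₃, y₄, h1, h2, h3, h4, h5, h6⟩ := partitions z
    exact ⟨y₁, y₂, y₃, y₄, by rw [hconst _ h1, hconst _ h2], by rw [hconst _ h1, hconst _ h3],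
      by rw [hconst _ h1, hconst _ h4], h5, h6⟩

end Pool.Agent.V11217.TDK
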